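import Pool.Agent.helper37.NP.Defs

/-!
NP-04 (Alg).  Linear identities between lengths, angles and `sg, Q, ev, R, gg, ss`.

PROOFS.  All are linear or bilinear: `fin_cases` and `simp [sg, Q, ...]; ring` (for `bilin` clear
the denominator `π` first).
-/

namespace Pool.Agent.helper37.NP

open Real

private theorem R0 (t : V6) :
    R t 0 = 2 * π - (t 0 + t 1 + t 2 + t 3 + t 4 + t 5) + (t 0 + t 5) := rfl
private theorem R1 (t : V6) :
    R t 1 = 2 * π - (t 0 + t 1 + t 2 + t 3 + t 4 + t 5) + (t 1 + t 4) := rfl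
private theorem R2 (t : V6) :
    R t 2 = 2 * π - (t 0 + t 1 + t 2 + t 3 + t 4 + t 5) + (t 2 + t 3) := rfl
private theorem E0 (t : V6) : ev t 0 = t 0 + t 1 + t 2 - π := rfl
private theorem E1 (t : V6) : ev t 1 = t 0 + t 3 + t 4 - π := rfl
private theorem E2 (t : V6) : ev t 2 = t 1 + t 3 + t 5 - π := rfl
private theorem E3 (t : V6) : ev t 3 = t 2 + t 4 + t 5 - π := rfl
private theorem G0 (l : V6) : sg l 0 = l 0 + l 1 + l 2 := rfl
private theorem G1 (l : V6) : sg l 1 = l 0 + l 3 + l 4 := rfl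
private theorem G2 (l : V6) : sg l 2 = l 1 + l 3 + l 5 := rfl
private theorem G3 (l : V6) : sg l 3 = l 2 + l 4 + l 5 := rfl
private theorem Q0 (l : V6) : Q l 0 = l 0 + l 5 := rfl
private theorem Q1 (l : V6) : Q l 1 = l 1 + l 4 := rfl
private theorem Q2 (l : V6) : Q l 2 = l 2 + l 3 := rfl

theorem sum_R_ev (t : V6) : R t 0 + R t 1 + R t 2 + (ev t 0 + ev t 1 + ev t 2 + ev t 3) = 2 * π := by
  rw [R0, R1, R2, E0, E1, E2, E3]
  ring

/-- more generally with an independent value `r` in place of `dotp l t / π` -/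
theorem bilin' (l t : V6) (r : ℝ) (h : dotp l t = π * r) :
    R t 0 * (r - Q l 0) + R t 1 * (r - Q l 1) + R t 2 * (r - Q l 2)
      = ev t 0 * (sg l 0 - r) + ev t 1 * (sg l 1 - r) + ev t 2 * (sg l 2 - r)
        + ev t 3 * (sg l 3 - r) := by
  rw [R0, R1, R2, E0, E1, E2, E3, G0, G1, G2, G3, Q0, Q1, Q2]
  unfold dotp at h
  linear_combination (-2) * h

/-- the bilinear identity `∑ R_j g_j = ∑ e_v s_v` -/
theorem bilin (l t : V6) :
    R t 0 * gg l t 0 + R t 1 * gg l t 1 + R t 2 * gg l t 2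
      = ev t 0 * ss l t 0 + ev t 1 * ss l t 1 + ev t 2 * ss l t 2 + ev t 3 * ss l t 3 :=
  bilin' l t (dotp l t / π) (by
    have := Real.pi_ne_zero
    field_simp)

theorem two_dotp (l t : V6) :
    2 * dotp l t = R t 0 * Q l 0 + R t 1 * Q l 1 + R t 2 * Q l 2
      + (ev t 0 * sg l 0 + ev t 1 * sg l 1 + ev t 2 * sg l 2 + ev t 3 * sg l 3) := by
  rw [R0, R1, R2, E0, E1, E2, E3, G0, G1, G2, G3, Q0, Q1, Q2]
  unfold dotp
  ring

theorem sum_sg (l : V6) : sg l 0 + sg l 1 + sg l 2 + sg l 3 = 2 * (Q l 0 + Q l 1 + Q l 2) := by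
  rw [G0, G1, G2, G3, Q0, Q1, Q2]
  ring

theorem sg_sub_Q (l t : V6) (v : Fin 4) (j : Fin 3) : sg l v - Q l j = ss l t v + gg l t j := by
  unfold ss gg
  ring

/-- angles from `R` and `ev` -/
theorem t_eq (t : V6) :
    t 0 = (R t 0 + ev t 0 + ev t 1) / 2 ∧ t 1 = (R t 1 + ev t 0 + ev t 2) / 2 ∧
    t 2 = (R t 2 + ev t 0 + ev t 3) / 2 ∧ t 3 = (R t 2 + ev t 1 + ev t 2) / 2 ∧
    t 4 = (R t 1 + ev t 1 + ev t 3) / 2 ∧ t 5 = (R t 0 + ev t 2 + ev t 3) / 2 := by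
  rw [R0, R1, R2, E0, E1, E2, E3]
  refine ⟨?_, ?_, ?_, ?_, ?_, ?_⟩ <;> ring

/-- lengths from `sg` and `Q` -/
theorem l_eq (l : V6) :
    l 0 = (sg l 0 + sg l 1 - Q l 1 - Q l 2) / 2 ∧ l 1 = (sg l 0 + sg l 2 - Q l 0 - Q l 2) / 2 ∧
    l 2 = (sg l 0 + sg l 3 - Q l 0 - Q l 1) / 2 ∧ l 3 = (sg l 1 + sg l 2 - Q l 0 - Q l 1) / 2 ∧
    l 4 = (sg l 1 + sg l 3 - Q l 0 - Q l 2) / 2 ∧ l 5 = (sg l 2 + sg l 3 - Q l 1 - Q l 2) / 2 := by
  rw [G0, G1, G2, G3, Q0, Q1, Q2]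
  refine ⟨?_, ?_, ?_, ?_, ?_, ?_⟩ <;> ring

end Pool.Agent.helper37.NP
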