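import Pool.Agent.helper37.NP.Sla

/-!
NP-18 (ARe).  Case A, the region.

`S` is a subspace, `c` a linear form, `U ⊆ T ∩ S` is a nonempty relatively open subset of `S` on which
`dotp s (ang l) = c s` for all `s ∈ S`.  Then the same holds on all of
`O = {l ∈ S | ∀ j, Q l j < c l / π}` (in particular `O ⊆ T`).

PROOF.  Let `G` be the set of `l ∈ O` such that `l ∈ T` and, for all `y ∈ S` near `l`,
`∀ s ∈ S, dotp s (ang y) = c s`.
* `U ⊆ G`: for `l ∈ U`: `c l = dotp l (ang l)`, so `Q l j < c l / π` is `gg_pos`.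
* `G` is open in `S`.
* `G` is closed in `O`: let `l ∈ O` be in the closure of `G`.  There are `x_n ∈ G`, `x_n → l`;
  `ang (x_n) ∈ [0, π]^6`, pass to a subsequence (or an ultrafilter) with `ang x_n → t`; then
  `dotp s t = c s` for `s ∈ S`.  If `l ∉ T`: `slack` applies with `p = l`.
  `gg l t j = dotp l t / π - Q l j = c l / π - Q l j > 0` for all `j`, so `R t j = 0` for all `j`
  and some `v` has `ev t v ≠ 0` (the sum is `2π`), so `ss l t v = 0`: `sg l v = c l / π`.
  [Now use `W l = 0`, `l ∈ CT`.]  If some `Q l j = sg l v'` then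
  `ss l t v' + gg l t j = 0` contradicts `gg l t j > 0`.  So all triangle inequalities at `l` are
  strict, all `ha l e, hb l e > 0`, and `cos t e = lim cs (x_n) e`, `sin t e = lim sin = 0` by
  `sin_ang` and `W l = 0`.  So every `t e ∈ {0, π}`.  Since `R t j = 0` for all `j` and
  `∑ ev = 2π` with `ev t w ≥ 0`, each `ev t w = sg t w - π` is a nonnegative multiple of `π`, and
  `t_eq` gives `t (vw) = (ev t v + ev t w)/2 ∈ {0, π}`: so exactly one `v` has `ev t v = 2π` and
  the others vanish (two vertices with `ev = π` would give `t = π` at the joining edge and `π/2` at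
  others).  Hence for every `s ∈ S`: `c s = dotp s t = π sg s v` (`two_dotp`).  Take `s = u ∈ U`:
  `dotp u (ang u) = c u = π sg u v` contradicts `ss_pos`.  So `l ∈ T`.
  As `l ∈ T`, `T` open: take a ball `B` around `l` in `V6` inside `T`; `B ∩ S` is convex, the
  functions `y ↦ dotp s (ang y) - c s` are analytic on it (`ang_analytic`) and vanish on a nonempty
  relatively open subset of `B ∩ S` (near some `x_n ∈ G`), so they vanish on `B ∩ S`
  (`AnalyticOnNhd.eqOn_zero_of_preconnected_of_eventuallyEq_zero` applied on the space `S`).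
  So `l ∈ G`.
* `O` is convex, so preconnected; `G` is nonempty and clopen in `O`, so `G = O`.
-/

namespace Pool.Agent.helper37.NP

open Real Filter Topology

private theorem dotp_cont (s : V6) : Continuous (fun t : V6 => dotp s t) := by
  unfold dotp
  fun_prop

private theorem W_cont : Continuous (fun l : V6 => W l) := by
  unfold W Wsq
  fun_prop

private theorem ha_cont (e : Fin 6) : Continuous (fun l : V6 => ha l e) := by
  fin_cases e <;> simp [ha, He] <;> fun_prop

private theorem hb_cont (e : Fin 6) : Continuous (fun l : V6 => hb l e) := by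
  fin_cases e <;> simp [hb, He] <;> fun_prop

private theorem strict_pos {l : V6} (h : ∀ v j, Q l j < sg l v) (e : Fin 6) :
    0 < ha l e ∧ 0 < hb l e := by
  have h00 := h 0 0; have h01 := h 0 1; have h02 := h 0 2
  have h10 := h 1 0; have h11 := h 1 1; have h12 := h 1 2
  have h20 := h 2 0; have h21 := h 2 1; have h22 := h 2 2
  have h30 := h 3 0; have h31 := h 3 1; have h32 := h 3 2
  simp only [Q, sg, Matrix.cons_val_zero, Matrix.cons_val_one, Matrix.cons_val] at h00 h01 h02 h10 h11 h12 h20 h21 h22 h30 h31 h32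
  have key : ∀ p q r : ℝ, 0 < p + q - r → 0 < p - q + r → 0 < -p + q + r → 0 < He p q r := by
    intro p q r h1 h2 h3
    have h4 : 0 < p + q + r := by linarith
    unfold He
    positivity
  fin_cases e <;> simp [ha, hb] <;> refine ⟨key _ _ _ ?_ ?_ ?_, key _ _ _ ?_ ?_ ?_⟩ <;> linarith

private theorem zero_or_pi {x : ℝ} (h0 : 0 ≤ x) (h1 : x ≤ π) (hs : Real.sin x = 0) :
    x = 0 ∨ x = π := by
  rcases h0.eq_or_lt with h | h
  · exact Or.inl h.symm
  · rcases h1.eq_or_lt with h' | h'
    · exact Or.inr h'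
    · exact absurd hs (Real.sin_pos_of_pos_of_lt_pi h h').ne'

/-- the case `l ∉ T` is impossible -/
private theorem no_deg {ι : Type*} {F : Filter ι} [F.NeBot] {x : ι → V6} {l t : V6}
    (hx : ∀ᶠ i in F, x i ∈ T) (hp : Tendsto x F (𝓝 l))
    (ht : Tendsto (fun i => ang (x i)) F (𝓝 t)) (hgg : ∀ j, 0 < gg l t j)
    {u : V6} (hu : u ∈ T) (hut : dotp u (ang u) = dotp u t) (ht01 : ∀ e, 0 ≤ t e ∧ t e ≤ π) :
    l ∈ T := by
  by_contra hlT
  obtain ⟨hev, hR, hss, _, hevss, hRgg⟩ := slack hx hp ht hlT
  have hR0 : ∀ j, R t j = 0 := fun j => by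
    rcases mul_eq_zero.mp (hRgg j) with h | h
    · exact h
    · exact absurd h (hgg j).ne'
  have hCT : l ∈ CT := closure_T (mem_closure_of_tendsto hp hx)
  have hW : W l = 0 := W_zero hCT hlT
  have hstr : ∀ v j, Q l j < sg l v := by
    intro v j
    rcases (hCT.1 v j).eq_or_lt with h | h
    · exfalso
      have h1 := sg_sub_Q l t v j
      have h2 := hss v
      have h3 := hgg j
      linarith
    · exact h
  have hsin : ∀ e, Real.sin (t e) = 0 := by
    intro e
    have hte : Tendsto (fun i => ang (x i) e) F (𝓝 (t e)) :=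
      ((continuous_apply e).tendsto t).comp ht
    have h1 : Tendsto (fun i => Real.sin (ang (x i) e)) F (𝓝 (Real.sin (t e))) :=
      (Real.continuous_sin.tendsto _).comp hte
    obtain ⟨hae, hbe⟩ := strict_pos hstr e
    have hne : Real.sqrt (ha l e) * Real.sqrt (hb l e) ≠ 0 :=
      (mul_pos (Real.sqrt_pos.mpr hae) (Real.sqrt_pos.mpr hbe)).ne'
    have h2 : Tendsto (fun i => 2 * (x i) e * Real.sqrt (W (x i)) /
        (Real.sqrt (ha (x i) e) * Real.sqrt (hb (x i) e))) F
        (𝓝 (2 * l e * Real.sqrt (W l) / (Real.sqrt (ha l e) * Real.sqrt (hb l e)))) := by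
      have hc1 : Tendsto (fun i => (x i) e) F (𝓝 (l e)) := ((continuous_apply e).tendsto l).comp hp
      have hc2 : Tendsto (fun i => Real.sqrt (W (x i))) F (𝓝 (Real.sqrt (W l))) :=
        ((Real.continuous_sqrt.comp W_cont).tendsto l).comp hp
      have hc3 : Tendsto (fun i => Real.sqrt (ha (x i) e)) F (𝓝 (Real.sqrt (ha l e))) :=
        ((Real.continuous_sqrt.comp (ha_cont e)).tendsto l).comp hp
      have hc4 : Tendsto (fun i => Real.sqrt (hb (x i) e)) F (𝓝 (Real.sqrt (hb l e))) :=
        ((Real.continuous_sqrt.comp (hb_cont e)).tendsto l).comp hp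
      exact (((tendsto_const_nhds.mul hc1).mul hc2).div (hc3.mul hc4) hne)
    have h3 : (fun i => Real.sin (ang (x i) e)) =ᶠ[F] (fun i => 2 * (x i) e * Real.sqrt (W (x i)) /
        (Real.sqrt (ha (x i) e) * Real.sqrt (hb (x i) e))) := by
      filter_upwards [hx] with i hi
      exact sin_ang hi e
    have h4 := tendsto_nhds_unique (h1.congr' h3) h2
    rw [h4, hW, Real.sqrt_zero]
    simp
  have hcase : ∀ e, t e = 0 ∨ t e = π := fun e => zero_or_pi (ht01 e).1 (ht01 e).2 (hsin e)
  obtain ⟨q0, q1, q2, q3, q4, q5⟩ := t_eq t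
  have hsum := sum_R_ev t
  simp only [hR0] at q0 q1 q2 q3 q4 q5 hsum
  have hpi := Real.pi_pos
  have e0 := hev 0; have e1 := hev 1; have e2 := hev 2; have e3 := hev 3
  have h2d := two_dotp u t
  simp only [hR0] at h2d
  have hss' : ∀ v, dotp u t < π * sg u v := by
    intro v
    have h := ss_pos hu v
    unfold ss at h
    rw [hut] at h
    have h' : dotp u t / π < sg u v := by linarith
    rw [div_lt_iff₀ hpi] at h'
    linarith
  have s0 := hss' 0; have s1 := hss' 1; have s2 := hss' 2; have s3 := hss' 3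
  have fin : ∀ v, (ev t v = 2 * π) → (∀ w, w ≠ v → ev t w = 0) → False := by
    intro v hv hw
    have h1 : ev t 0 * sg u 0 + ev t 1 * sg u 1 + ev t 2 * sg u 2 + ev t 3 * sg u 3
        = 2 * π * sg u v := by
      fin_cases v
      · rw [hw 1 (by decide), hw 2 (by decide), hw 3 (by decide)]
        simp only [Fin.zero_eta] at hv ⊢
        rw [hv]; ring
      · rw [hw 0 (by decide), hw 2 (by decide), hw 3 (by decide)]
        simp only [Fin.mk_one] at hv ⊢
        rw [hv]; ring
      · rw [hw 0 (by decide), hw 1 (by decide), hw 3 (by decide)]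
        simp only [Fin.reduceFinMk] at hv ⊢
        rw [hv]; ring
      · rw [hw 0 (by decide), hw 1 (by decide), hw 2 (by decide)]
        simp only [Fin.reduceFinMk] at hv ⊢
        rw [hv]; ring
    have h2 := hss' v
    rw [h1] at h2d
    linarith
  have allw : ∀ v : Fin 4, (v = 0 ∨ v = 1 ∨ v = 2 ∨ v = 3) := by decide
  rcases hcase 0 with c0 | c0 <;> rcases hcase 1 with c1 | c1 <;> rcases hcase 2 with c2 | c2 <;>
    rcases hcase 3 with c3 | c3 <;> rcases hcase 4 with c4 | c4 <;> rcases hcase 5 with c5 | c5 <;>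
    rw [c0] at q0 <;> rw [c1] at q1 <;> rw [c2] at q2 <;> rw [c3] at q3 <;> rw [c4] at q4 <;>
    rw [c5] at q5 <;>
    first
    | (exfalso; linarith)
    | (refine fin 0 (by linarith) (fun w hw => ?_)
       rcases allw w with rfl | rfl | rfl | rfl <;> first | (exact absurd rfl hw) | linarith)
    | (refine fin 1 (by linarith) (fun w hw => ?_)
       rcases allw w with rfl | rfl | rfl | rfl <;> first | (exact absurd rfl hw) | linarith)
    | (refine fin 2 (by linarith) (fun w hw => ?_)
       rcases allw w with rfl | rfl | rfl | rfl <;> first | (exact absurd rfl hw) | linarith)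
    | (refine fin 3 (by linarith) (fun w hw => ?_)
       rcases allw w with rfl | rfl | rfl | rfl <;> first | (exact absurd rfl hw) | linarith)

theorem region (S : Submodule ℝ V6) (c : V6 →ₗ[ℝ] ℝ) (U : Set V6) (hUT : U ⊆ T)
    (hUS : U ⊆ (S : Set V6)) (hne : U.Nonempty)
    (hop : ∀ l ∈ U, ∃ ε > 0, ∀ y ∈ S, dist y l < ε → y ∈ U)
    (hc : ∀ l ∈ U, ∀ s ∈ S, dotp s (ang l) = c s) :
    ∀ l ∈ S, (∀ j, Q l j < c l / π) → l ∈ T ∧ ∀ s ∈ S, dotp s (ang l) = c s := by
  classical
  let O' : Set S := {l : S | ∀ j, Q (l : V6) j < c (l : V6) / π}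
  let G' : Set S := {l : S | (l : V6) ∈ T ∧ ∀ᶠ y : S in 𝓝 l, ∀ s ∈ S, dotp s (ang (y : V6)) = c s}
  -- O' is convex
  have hOc : Convex ℝ O' := by
    intro a ha b hb p q hp hq hpq
    intro j
    have h1 := ha j
    have h2 := hb j
    have hQ : Q ((p • a + q • b : S) : V6) j = p * Q (a : V6) j + q * Q (b : V6) j := by
      fin_cases j <;> simp [Q] <;> ring
    have hcc : c ((p • a + q • b : S) : V6) / π = p * (c (a : V6) / π) + q * (c (b : V6) / π) := by
      simp only [Submodule.coe_add, Submodule.coe_smul, map_add, map_smul, smul_eq_mul]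
      ring
    rw [hQ, hcc]
    rcases hp.eq_or_lt with hp0 | hp0
    · have hq1 : q = 1 := by linarith
      rw [← hp0, hq1]; linarith
    · have h3 : p * Q (a : V6) j < p * (c (a : V6) / π) := mul_lt_mul_of_pos_left h1 hp0
      have h4 : q * Q (b : V6) j ≤ q * (c (b : V6) / π) := mul_le_mul_of_nonneg_left h2.le hq
      linarith
  -- G' is open
  have hGo : IsOpen G' := by
    have h1 : IsOpen {l : S | (l : V6) ∈ T} := isOpen_T.preimage continuous_subtype_val
    exact h1.inter isOpen_setOfPred_eventually_nhds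
  -- nonempty
  have hOG : (O' ∩ G').Nonempty := by
    obtain ⟨l, hl⟩ := hne
    have hlS : l ∈ S := hUS hl
    refine ⟨⟨l, hlS⟩, ?_, hUT hl, ?_⟩
    · intro j
      have h1 := gg_pos (hUT hl) j
      unfold gg at h1
      rw [hc l hl l hlS] at h1
      show Q l j < c l / π
      linarith
    · obtain ⟨ε, hε, hball⟩ := hop l hl
      filter_upwards [Metric.ball_mem_nhds (⟨l, hlS⟩ : S) hε] with y hy s hs
      refine hc _ (hball _ y.2 ?_) s hs
      exact hy
  have hcl : closure G' ∩ O' ⊆ G' := by
    rintro l ⟨hlc, hlO⟩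
    have : (𝓝[G'] l).NeBot := mem_closure_iff_nhdsWithin_neBot.mp hlc
    let F : Ultrafilter S := Ultrafilter.of (𝓝[G'] l)
    have hF : (F : Filter S) ≤ 𝓝[G'] l := Ultrafilter.of_le _
    have hFG : ∀ᶠ i in (F : Filter S), i ∈ G' := hF self_mem_nhdsWithin
    have hFT : ∀ᶠ i : S in (F : Filter S), (i : V6) ∈ T := hFG.mono fun i hi => hi.1
    have hFl : Tendsto (fun i : S => (i : V6)) F (𝓝 (l : V6)) :=
      (continuous_subtype_val.tendsto l).mono_left (hF.trans nhdsWithin_le_nhds)
    -- limit of the angles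
    obtain ⟨t, htI, htl⟩ := (isCompact_Icc (a := (0 : V6)) (b := fun _ => π)).ultrafilter_le_nhds
      (F.map (fun i : S => ang (i : V6))) (by
        rw [Filter.le_principal_iff]
        show (fun i : S => ang (i : V6)) ⁻¹' (Set.Icc (0 : V6) (fun _ => π)) ∈ (F : Filter S)
        refine Filter.mem_of_superset Filter.univ_mem ?_
        intro i _
        exact ⟨fun e => Real.arccos_nonneg _, fun e => Real.arccos_le_pi _⟩)
    have ht : Tendsto (fun i : S => ang (i : V6)) F (𝓝 t) := htl
    have hct : ∀ s ∈ S, dotp s t = c s := by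
      intro s hs
      have h1 : Tendsto (fun i : S => dotp s (ang (i : V6))) F (𝓝 (dotp s t)) :=
        ((dotp_cont s).tendsto t).comp ht
      have h2 : (fun i : S => dotp s (ang (i : V6))) =ᶠ[(F : Filter S)] fun _ => c s := by
        filter_upwards [hFG] with i hi
        exact hi.2.self_of_nhds s hs
      exact tendsto_nhds_unique (h1.congr' h2) tendsto_const_nhds
    have hlT : (l : V6) ∈ T := by
      obtain ⟨u, hu⟩ := hne
      have huS : u ∈ S := hUS hu
      refine no_deg hFT hFl ht ?_ (hUT hu) ?_ (fun e => ⟨htI.1 e, htI.2 e⟩)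
      · intro j
        unfold gg
        rw [hct _ l.2]
        have := hlO j
        linarith
      · rw [hct u huS, hc u hu u huS]
    -- analytic continuation
    obtain ⟨r, hr, hball⟩ := Metric.isOpen_iff.mp isOpen_T (l : V6) hlT
    have hBT : ∀ y ∈ Metric.ball l r, (y : V6) ∈ T := by
      intro y hy
      exact hball hy
    obtain ⟨z, hzB, hzG⟩ := mem_closure_iff_nhds.mp hlc _ (Metric.ball_mem_nhds l hr)
    refine ⟨hlT, ?_⟩
    filter_upwards [Metric.ball_mem_nhds l hr] with y hy s hs
    have han : AnalyticOnNhd ℝ (fun y : S => dotp s (ang (y : V6)) - c s) (Metric.ball l r) := by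
      have h1 : ∀ e, AnalyticOnNhd ℝ (fun y : S => ang (y : V6) e) (Metric.ball l r) := by
        intro e w hw
        have h2 := ang_analytic e (w : V6) (hBT w hw)
        have h3 : AnalyticAt ℝ (fun y : S => (y : V6)) w := (S.subtypeL.analyticAt w)
        exact h2.comp_of_eq h3 rfl
      intro w hw
      have g0 := h1 0 w hw; have g1 := h1 1 w hw; have g2 := h1 2 w hw
      have g3 := h1 3 w hw; have g4 := h1 4 w hw; have g5 := h1 5 w hw
      unfold dotp
      exact ((((((analyticAt_const.mul g0).add (analyticAt_const.mul g1)).add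
        (analyticAt_const.mul g2)).add (analyticAt_const.mul g3)).add
        (analyticAt_const.mul g4)).add (analyticAt_const.mul g5)).sub analyticAt_const
    have hpre : IsPreconnected (Metric.ball l r) := (convex_ball l r).isPreconnected
    have hz0 : (fun y : S => dotp s (ang (y : V6)) - c s) =ᶠ[𝓝 z] 0 := by
      filter_upwards [hzG.2] with w hw
      simp [hw s hs]
    have := han.eqOn_zero_of_preconnected_of_eventuallyEq_zero hpre hzB hz0 hy
    simpa [sub_eq_zero] using this
  intro l hl hlQ
  have hmem : (⟨l, hl⟩ : S) ∈ G' :=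
    (hOc.isPreconnected).subset_of_closure_inter_subset hGo hOG hcl hlQ
  exact ⟨hmem.1, fun s hs => hmem.2.self_of_nhds s hs⟩

end Pool.Agent.helper37.NP
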