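import Pool.Agent.helper37.NP.Defs

/-!
NP (ZFd).  Derivatives of a map with values in a subspace; the annihilator of independent vectors.
-/

namespace Pool.Agent.helper37.NP

open Real Filter Topology

/-- the derivative of a map with values in a subspace has values in the subspace -/
theorem fderiv_mem {X Y : Type*} [NormedAddCommGroup X] [NormedSpace ℝ X]
    [NormedAddCommGroup Y] [NormedSpace ℝ Y] [FiniteDimensional ℝ Y] (S : Submodule ℝ Y)
    {f : X → Y} {u : X} {f' : X →L[ℝ] Y} (hf : HasFDerivAt f f' u)
    (h : ∀ᶠ y in 𝓝 u, f y ∈ S) (x : X) : f' x ∈ S := by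
  by_contra hx
  obtain ⟨g, hg, hgS⟩ := Submodule.exists_le_ker_of_notMem hx
  let G : Y →L[ℝ] ℝ := LinearMap.toContinuousLinearMap g
  have h1 : HasFDerivAt (fun y => G (f y)) (G.comp f') u := G.hasFDerivAt.comp u hf
  have h2 : HasFDerivAt (fun _ : X => (0 : ℝ)) (G.comp f') u := by
    refine h1.congr_of_eventuallyEq ?_
    filter_upwards [h] with y hy
    exact (hgS hy).symm
  have h3 : G.comp f' = 0 := h2.unique (hasFDerivAt_const _ _)
  have h4 : G (f' x) = 0 := by
    have := congrArg (fun L : X →L[ℝ] ℝ => L x) h3
    simpa using this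
  exact hg h4

/-- bilinearity of `dotp` in the first argument -/
theorem dotp_add_left (x y t : V6) : dotp (x + y) t = dotp x t + dotp y t := by
  simp [dotp]
  ring

theorem dotp_smul_left (k : ℝ) (x t : V6) : dotp (k • x) t = k * dotp x t := by
  simp [dotp]
  ring

theorem dotp_zero_left (t : V6) : dotp 0 t = 0 := by
  simp [dotp]

theorem dotp_sub_right (x t t' : V6) : dotp x (t - t') = dotp x t - dotp x t' := by
  simp [dotp]
  ring

/-- the annihilator of a family of vectors -/
def ann {k : ℕ} (s : Fin k → V6) : Submodule ℝ V6 where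
  carrier := {t | ∀ i, dotp (s i) t = 0}
  add_mem' := by
    intro x y hx hy i
    have h1 := hx i
    have h2 := hy i
    simp only [dotp, Pi.add_apply] at *
    linarith
  zero_mem' := by
    intro i
    simp [dotp]
  smul_mem' := by
    intro k x hx i
    have h1 := hx i
    simp only [dotp, Pi.smul_apply, smul_eq_mul] at *
    linear_combination k * h1

theorem finrank_ann {k : ℕ} (s : Fin k → V6) (hs : LinearIndependent ℝ s) :
    Module.finrank ℝ (ann s) + k = 6 := by
  let A : Matrix (Fin k) (Fin 6) ℝ := fun i e => s i e
  have hA : A.rank = k := by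
    have : LinearIndependent ℝ A.row := hs
    rw [this.rank_matrix, Fintype.card_fin]
  have hker : LinearMap.ker A.mulVecLin = ann s := by
    ext t
    rw [LinearMap.mem_ker, Matrix.mulVecLin_apply]
    constructor
    · intro h i
      have := congrFun h i
      simp only [Matrix.mulVec, dotProduct, Fin.sum_univ_six, Pi.zero_apply] at this
      exact this
    · intro h
      ext i
      have := h i
      simp only [Matrix.mulVec, dotProduct, Fin.sum_univ_six, Pi.zero_apply]
      exact this
  have h1 := LinearMap.finrank_range_add_finrank_ker A.mulVecLin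
  rw [hker] at h1
  have h2 : Module.finrank ℝ (LinearMap.range A.mulVecLin) = A.rank := rfl
  rw [h2, hA, Module.finrank_fin_fun] at h1
  rw [add_comm]
  exact h1

end Pool.Agent.helper37.NP
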