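import Pool.Agent.helper37.NP.Defs

/-!
NP-29 (ZLe).  The edge vector of a nondegenerate tetrahedron lies in `T`, and `ang` computes the
dihedral angles.

PROOF.  `lenv_mem`: put `x = b - a, y = c - a, z = d - a`, linearly independent (from
`affineIndependent_iff_linearIndependent_vsub` or directly).  Inner products by
`Helper93.Tet.inner_dist`, `inner_self_dist`.  `W (lenv a b c d) = 4 * det Gram(x, y, z)` (`ring`
after inserting the inner products) and the Gram determinant of linearly independent vectors is
positive (`Matrix.PosDef` of the Gram matrix, or Cauchy–Schwarz twice: with `y' = perp x y`,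
`z' = perp x z`, `det Gram = |x|² (|y'|² |z'|² - ⟪y', z'⟫²)`).  The twelve strict triangle inequalities
`Q < sg` are `dist p q + dist q r > dist p r` for three affinely independent points (strict
convexity: `dist_add_dist_eq_iff` : equality iff `q ∈ segment`), and for every `(v, j)`:
`sg l v - Q l j` = sum of two edges at `v` minus the edge joining their ends.
`ang_lenv`: `Helper93.Tet.cos_dihedral` and `4 AB² fP = Nu`, `4 AB² fQ = He`, then
`InnerProductGeometry.angle = arccos ..`, i.e. `dihedral = arccos (cos dihedral)` on `[0, π]`.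
-/

namespace Pool.Agent.helper37.NP

open Real Pool.Agent.Helper93.Tet

/-- strict triangle inequality for affinely independent points -/
private lemma tri {p : Fin 4 → E} (h : AffineIndependent ℝ p) (i j k : Fin 4) (hij : i ≠ j)
    (hjk : j ≠ k) (hik : i ≠ k) : dist (p i) (p k) < dist (p i) (p j) + dist (p j) (p k) := by
  refine lt_of_le_of_ne (dist_triangle _ _ _) fun h0 => ?_
  have h1 : Wbtw ℝ (p i) (p j) (p k) := dist_add_dist_eq_iff.1 h0.symm
  have h2 := h1.collinear
  have hinj : Function.Injective ![i, j, k] := by
    intro x y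
    fin_cases x <;> fin_cases y <;> simp [hij, hjk, hik, hij.symm, hjk.symm, hik.symm]
  have h3 := h.comp_embedding ⟨![i, j, k], hinj⟩
  have h4 : p ∘ (⟨![i, j, k], hinj⟩ : Fin 3 ↪ Fin 4) = ![p i, p j, p k] := by
    ext1 x
    fin_cases x <;> rfl
  rw [h4] at h3
  exact affineIndependent_iff_not_collinear_set.1 h3 h2

private lemma W_pos {a b c d : E} (h : AffineIndependent ℝ ![a, b, c, d]) :
    0 < W (lenv a b c d) := by
  have hl : LinearIndependent ℝ ![b - a, c - a, d - a] := by
    have h1 := (affineIndependent_iff_linearIndependent_vsub ℝ _ (0 : Fin 4)).1 h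
    have h2 := h1.comp (fun i : Fin 3 => (⟨i.succ, Fin.succ_ne_zero i⟩ : {x : Fin 4 // x ≠ 0}))
      (fun i j hij => by simpa using hij)
    have h3 : ((fun i : {x : Fin 4 // x ≠ 0} => ![a, b, c, d] i -ᵥ ![a, b, c, d] 0) ∘
        fun i : Fin 3 => (⟨i.succ, Fin.succ_ne_zero i⟩ : {x : Fin 4 // x ≠ 0})) =
        ![b - a, c - a, d - a] := by
      ext1 i
      fin_cases i <;> rfl
    rw [← h3]
    exact h2
  have hp := (Matrix.posDef_gram_iff_linearIndependent (𝕜 := ℝ)).2 hl
  have hd := hp.det_pos
  rw [Matrix.det_fin_three] at hd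
  simp only [Matrix.gram_apply] at hd
  have e1 : ∀ x y : E, (inner ℝ (x - a) (y - a) : ℝ) =
    (dist a x ^ 2 + dist a y ^ 2 - dist x y ^ 2) / 2 := fun x y => inner_dist a x y
  simp only [Matrix.cons_val_zero, Matrix.cons_val_one, Matrix.cons_val, e1, dist_self,
    dist_comm c b, dist_comm d b, dist_comm d c] at hd
  simp only [W, lenv, Wsq, Matrix.cons_val_zero, Matrix.cons_val_one, Matrix.cons_val]
  linarith

private lemma co_dihedral {a b c d : E} (hab : dist a b ≠ 0) :
    Real.arccos (co (dist a b) (dist a c) (dist a d) (dist b c) (dist b d) (dist c d)) =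
      dihedral a b c d := by
  have h0 : 0 < dist a b := lt_of_le_of_ne dist_nonneg hab.symm
  have h1 : ∀ q s : ℝ, Real.sqrt (He (dist a b) q s) =
      2 * dist a b * Real.sqrt (fQ (dist a b) q s) := by
    intro q s
    have h2 : He (dist a b) q s = (2 * dist a b) ^ 2 * fQ (dist a b) q s := by
      unfold He fQ
      field_simp
      ring
    rw [h2, Real.sqrt_mul (by positivity), Real.sqrt_sq (by positivity)]
  have h3 : co (dist a b) (dist a c) (dist a d) (dist b c) (dist b d) (dist c d) =
      Real.cos (dihedral a b c d) := by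
    rw [cos_dihedral a b c d hab, co, h1, h1]
    have h4 : Nu (dist a b) (dist a c) (dist a d) (dist b c) (dist b d) (dist c d) =
        4 * dist a b ^ 2 *
          fP (dist a b) (dist a c) (dist a d) (dist b c) (dist b d) (dist c d) := by
      unfold Nu fP
      field_simp
      ring
    rw [h4]
    rw [show 2 * dist a b * √(fQ (dist a b) (dist a c) (dist b c)) *
      (2 * dist a b * √(fQ (dist a b) (dist a d) (dist b d))) = 4 * dist a b ^ 2 *
      (√(fQ (dist a b) (dist a c) (dist b c)) * √(fQ (dist a b) (dist a d) (dist b d))) by ring]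
    exact mul_div_mul_left _ _ (by positivity)
  rw [h3]
  exact Real.arccos_cos (InnerProductGeometry.angle_nonneg _ _)
    (InnerProductGeometry.angle_le_pi _ _)

theorem lenv_mem {a b c d : E} (h : AffineIndependent ℝ ![a, b, c, d]) : lenv a b c d ∈ T := by
  refine ⟨?_, W_pos h⟩
  have t := fun i j k => tri h i j k
  have ab := dist_comm b a
  have ac := dist_comm c a
  have ad := dist_comm d a
  have bc := dist_comm c b
  have bd := dist_comm d b
  have cd := dist_comm d c
  have t1 := t 1 0 2 (by decide) (by decide) (by decide)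
  have t2 := t 1 0 3 (by decide) (by decide) (by decide)
  have t3 := t 2 0 3 (by decide) (by decide) (by decide)
  have t4 := t 0 1 2 (by decide) (by decide) (by decide)
  have t5 := t 0 1 3 (by decide) (by decide) (by decide)
  have t6 := t 2 1 3 (by decide) (by decide) (by decide)
  have t7 := t 0 2 1 (by decide) (by decide) (by decide)
  have t8 := t 0 2 3 (by decide) (by decide) (by decide)
  have t9 := t 1 2 3 (by decide) (by decide) (by decide)
  have t10 := t 0 3 1 (by decide) (by decide) (by decide)
  have t11 := t 0 3 2 (by decide) (by decide) (by decide)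
  have t12 := t 1 3 2 (by decide) (by decide) (by decide)
  simp only [Matrix.cons_val_zero, Matrix.cons_val_one, Matrix.cons_val, ab, ac, ad, bc, bd, cd]
    at t1 t2 t3 t4 t5 t6 t7 t8 t9 t10 t11 t12
  intro v j
  fin_cases v <;> fin_cases j <;>
    simp only [Q, sg, lenv, Matrix.cons_val_zero, Matrix.cons_val_one, Matrix.cons_val,
      Fin.zero_eta, Fin.mk_one, Fin.reduceFinMk] <;> linarith

theorem ang_lenv {a b c d : E} (h : AffineIndependent ℝ ![a, b, c, d]) :
    ang (lenv a b c d) = angv a b c d := by
  have hi := h.injective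
  have n : ∀ i j : Fin 4, i ≠ j → dist (![a, b, c, d] i) (![a, b, c, d] j) ≠ 0 := by
    intro i j hij h0
    exact hij (hi (dist_eq_zero.1 h0))
  have n01 : dist a b ≠ 0 := n 0 1 (by decide)
  have n02 : dist a c ≠ 0 := n 0 2 (by decide)
  have n03 : dist a d ≠ 0 := n 0 3 (by decide)
  have n12 : dist b c ≠ 0 := n 1 2 (by decide)
  have n13 : dist b d ≠ 0 := n 1 3 (by decide)
  have n23 : dist c d ≠ 0 := n 2 3 (by decide)
  have e0 := co_dihedral (a := a) (b := b) (c := c) (d := d) n01
  have e1 := co_dihedral (a := a) (b := c) (c := b) (d := d) n02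
  have e2 := co_dihedral (a := a) (b := d) (c := b) (d := c) n03
  have e3 := co_dihedral (a := b) (b := c) (c := a) (d := d) n12
  have e4 := co_dihedral (a := b) (b := d) (c := a) (d := c) n13
  have e5 := co_dihedral (a := c) (b := d) (c := a) (d := b) n23
  have ab := dist_comm b a
  have ac := dist_comm c a
  have ad := dist_comm d a
  have bc := dist_comm c b
  have bd := dist_comm d b
  have cd := dist_comm d c
  simp only [ab, ac, ad, bc, bd, cd] at e0 e1 e2 e3 e4 e5
  ext e
  fin_cases e
  · exact e0
  · exact e1
  · exact e2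
  · exact e3
  · exact e4
  · exact e5

end Pool.Agent.helper37.NP
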