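import Pool.Agent.helper37.NP.Bas

/-!
NP-02 (Ana).  `T` is open and the angle functions are analytic on `T`; homogeneity.

PROOFS.  `T` is a finite intersection of sets given by strict inequalities between continuous
functions.  On `T`, `ang l e = π/2 - arctan (nu l e / (2 l e √(W l)))` (`ang_arctan`), where `nu`,
`W` are polynomials, `W > 0`, `l e > 0`; arctan is analytic on `ℝ`, `√` is analytic on the
positive reals, and `T` is open, so that the equality holds near every point.
(`Real.analyticAt_arctan` may be missing: use `contDiff`/`ContDiffAt ... ω` lemmas such as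
`Real.contDiff_arctan` with exponent `ω`, `ContDiffAt.analyticAt`, or
`arctan x = Im log (1 + i x)`.)  Homogeneity: `cs (k • l) = cs l` for `0 < k`.
-/

namespace Pool.Agent.helper37.NP

open Real

private theorem cd_sg (v : Fin 4) : ContDiff ℝ ⊤ (fun l : V6 => sg l v) := by
  fin_cases v <;> simp only [sg] <;> simp <;> fun_prop

private theorem cd_Q (j : Fin 3) : ContDiff ℝ ⊤ (fun l : V6 => Q l j) := by
  fin_cases j <;> simp only [Q] <;> simp <;> fun_prop

private theorem cd_W : ContDiff ℝ ⊤ (fun l : V6 => W l) := by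
  unfold W Wsq
  fun_prop

private theorem cd_nu (e : Fin 6) : ContDiff ℝ ⊤ (fun l : V6 => nu l e) := by
  fin_cases e <;> simp only [nu, Nu] <;> simp <;> fun_prop

theorem isOpen_T : IsOpen T := by
  have h1 : T = (⋂ v : Fin 4, ⋂ j : Fin 3, {l : V6 | Q l j < sg l v}) ∩ {l : V6 | 0 < W l} := by
    ext l
    simp [T]
  rw [h1]
  refine IsOpen.inter ?_ (isOpen_lt continuous_const cd_W.continuous)
  refine isOpen_iInter_of_finite fun v => isOpen_iInter_of_finite fun j => ?_
  exact isOpen_lt (cd_Q j).continuous (cd_sg v).continuous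

theorem ang_analytic (e : Fin 6) : AnalyticOnNhd ℝ (fun l : V6 => ang l e) T := by
  intro l hl
  have hW : 0 < W l := hl.2
  have he : 0 < l e := T_pos hl e
  have hs : 0 < Real.sqrt (W l) := Real.sqrt_pos.2 hW
  have key0 : ContDiffAt ℝ ⊤ (fun l : V6 => nu l e / (2 * l e * Real.sqrt (W l))) l := by
    refine ContDiffAt.div ?_ ?_ ?_
    · exact (cd_nu e).contDiffAt
    · refine ContDiffAt.mul ?_ ?_
      · fun_prop
      · exact ContDiffAt.sqrt cd_W.contDiffAt hW.ne'
    · positivity
  have key : ContDiffAt ℝ ⊤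
      (fun l : V6 => π / 2 - Real.arctan (nu l e / (2 * l e * Real.sqrt (W l)))) l :=
    contDiffAt_const.sub (ContDiffAt.comp (g := Real.arctan) l
      (Real.contDiff_arctan (n := ⊤)).contDiffAt key0)
  have h2 : AnalyticAt ℝ
      (fun l : V6 => π / 2 - Real.arctan (nu l e / (2 * l e * Real.sqrt (W l)))) l :=
    key.analyticAt
  refine h2.congr ?_
  filter_upwards [isOpen_T.mem_nhds hl] with m hm
  exact (ang_arctan hm e).symm

theorem ang_continuousOn (e : Fin 6) : ContinuousOn (fun l : V6 => ang l e) T :=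
  (ang_analytic e).continuousOn

theorem smul_mem_T {l : V6} (hl : l ∈ T) {k : ℝ} (hk : 0 < k) : k • l ∈ T := by
  obtain ⟨h1, h2⟩ := hl
  have hsg : ∀ v, sg (k • l) v = k * sg l v := by
    intro v
    fin_cases v <;> simp [sg] <;> ring
  have hQ : ∀ j, Q (k • l) j = k * Q l j := by
    intro j
    fin_cases j <;> simp [Q] <;> ring
  refine ⟨fun v j => ?_, ?_⟩
  · rw [hsg, hQ]
    exact mul_lt_mul_of_pos_left (h1 v j) hk
  · have hW : W (k • l) = k ^ 6 * W l := by
      simp only [W, Wsq, Pi.smul_apply, smul_eq_mul]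
      ring
    rw [hW]
    positivity

private theorem He_smul (k p q r : ℝ) : He (k * p) (k * q) (k * r) = (k ^ 2) ^ 2 * He p q r := by
  unfold He
  ring

private theorem co_smul {k : ℝ} (hk : 0 < k) (p q r s t u : ℝ) :
    co (k * p) (k * q) (k * r) (k * s) (k * t) (k * u) = co p q r s t u := by
  unfold co
  rw [He_smul, He_smul]
  have hN : Nu (k * p) (k * q) (k * r) (k * s) (k * t) (k * u) = k ^ 4 * Nu p q r s t u := by
    unfold Nu
    ring
  have hs : ∀ x : ℝ, Real.sqrt ((k ^ 2) ^ 2 * x) = k ^ 2 * Real.sqrt x := by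
    intro x
    rw [Real.sqrt_mul (by positivity), Real.sqrt_sq (by positivity)]
  rw [hN, hs, hs]
  have h4 : k ^ 2 * Real.sqrt (He p q s) * (k ^ 2 * Real.sqrt (He p r t)) =
      k ^ 4 * (Real.sqrt (He p q s) * Real.sqrt (He p r t)) := by ring
  rw [h4, mul_div_mul_left _ _ (by positivity)]

theorem ang_smul {l : V6} {k : ℝ} (hk : 0 < k) : ang (k • l) = ang l := by
  have h : cs (k • l) = cs l := by
    simp only [cs, Pi.smul_apply, smul_eq_mul, co_smul hk]
  funext e
  simp only [ang, h]

end Pool.Agent.helper37.NP
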