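import Mathlib

/-!
NP-H3 (HTb).  A finite transcendence basis containing two given coordinates; a rational right
inverse.

PROOFS.
* `exists_basis`: among the finite sets `B ⊆ Fin 6` containing `e, f` with
  `AlgebraicIndependent ℚ (fun b : B => l b)` (the set `{e, f}` is one, by `h`) take one of maximal
  cardinality.  For `h ∈ B`, `l h` is in the algebra.  For `h ∉ B`, `insert h B` is not independent, so
  `l h` is algebraic over `adjoin ℚ (range ..)` (`AlgebraicIndependent.option_iff_transcendental`, or
  `AlgebraicIndepOn` versions such as `AlgebraicIndepOn.insert_iff`).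
* `right_inverse`: the rows `s i` are independent over `ℚ` (a rational relation is a real relation),
  so the matrix `A : ℚ^6 → ℚ^k`, `(A x) i = ∑ e, s i e * x e` has rank `k`
  (`LinearIndependent.rank_matrix`), it is surjective; take `M · j` a preimage of the `j`-th unit
  vector.
-/

namespace Pool.Agent.helper37.NP

private theorem htb_pair (l : Fin 6 → ℝ) {e f : Fin 6} (hef : e ≠ f)
    (h : AlgebraicIndependent ℚ ![l e, l f]) :
    AlgebraicIndepOn ℚ l (({e, f} : Finset (Fin 6)) : Set (Fin 6)) := by
  classical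
  let g : (({e, f} : Finset (Fin 6)) : Set (Fin 6)) → Fin 2 := fun b => if (b : Fin 6) = e then 0 else 1
  have hmem : ∀ b : (({e, f} : Finset (Fin 6)) : Set (Fin 6)), (b : Fin 6) = e ∨ (b : Fin 6) = f := by
    intro b
    have := b.2
    simpa using this
  have hg : Function.Injective g := by
    intro b c hbc
    apply Subtype.ext
    rcases hmem b with hb | hb <;> rcases hmem c with hc | hc
    · rw [hb, hc]
    · exfalso
      simp [g, hb, hc, hef.symm] at hbc
    · exfalso
      simp [g, hb, hc, hef.symm] at hbc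
    · rw [hb, hc]
  have h1 := h.comp g hg
  have h2 : (![l e, l f] ∘ g) = fun b : (({e, f} : Finset (Fin 6)) : Set (Fin 6)) => l b := by
    funext b
    rcases hmem b with hb | hb
    · simp [g, hb]
    · simp [g, hb, hef.symm]
  rw [h2] at h1
  exact h1

theorem exists_basis (l : Fin 6 → ℝ) {e f : Fin 6} (hef : e ≠ f)
    (h : AlgebraicIndependent ℚ ![l e, l f]) :
    ∃ B : Finset (Fin 6), e ∈ B ∧ f ∈ B ∧ AlgebraicIndependent ℚ (fun b : B => l b) ∧
      ∀ i, IsAlgebraic (Algebra.adjoin ℚ (Set.range fun b : B => l b)) (l i) := by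
  classical
  have hne : (Finset.univ.filter fun B : Finset (Fin 6) =>
      e ∈ B ∧ f ∈ B ∧ AlgebraicIndepOn ℚ l (B : Set (Fin 6))).Nonempty := by
    refine ⟨{e, f}, ?_⟩
    rw [Finset.mem_filter]
    exact ⟨Finset.mem_univ _, by simp, by simp, htb_pair l hef h⟩
  obtain ⟨B, hB, hmax⟩ := Finset.exists_max_image _ Finset.card hne
  rw [Finset.mem_filter] at hB
  obtain ⟨-, he, hf, hind⟩ := hB
  refine ⟨B, he, hf, hind, fun i => ?_⟩
  have hrange : (Set.range fun b : B => l b) = l '' (B : Set (Fin 6)) := by
    ext y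
    simp
  rw [hrange]
  by_cases hi : i ∈ B
  · exact isAlgebraic_algebraMap
      (⟨l i, Algebra.subset_adjoin ⟨i, hi, rfl⟩⟩ : Algebra.adjoin ℚ (l '' (B : Set (Fin 6))))
  · by_contra hcon
    have h1 := AlgebraicIndepOn.insert hind hcon
    have h2 : insert i B ∈ (Finset.univ.filter fun B : Finset (Fin 6) =>
        e ∈ B ∧ f ∈ B ∧ AlgebraicIndepOn ℚ l (B : Set (Fin 6))) := by
      rw [Finset.mem_filter]
      refine ⟨Finset.mem_univ _, Finset.mem_insert_of_mem he, Finset.mem_insert_of_mem hf, ?_⟩
      rw [Finset.coe_insert]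
      exact h1
    have h3 := hmax _ h2
    rw [Finset.card_insert_of_notMem hi] at h3
    omega

theorem right_inverse {k : ℕ} (s : Fin k → Fin 6 → ℤ)
    (hs : LinearIndependent ℝ (fun i => fun e => (s i e : ℝ))) :
    ∃ M : Fin 6 → Fin k → ℚ, ∀ i j, ∑ e, (s i e : ℚ) * M e j = if i = j then 1 else 0 := by
  classical
  let A : Matrix (Fin k) (Fin 6) ℚ := fun i e => (s i e : ℚ)
  have hA : LinearIndependent ℚ A.row := by
    rw [Fintype.linearIndependent_iff]
    intro g hg i
    rw [Fintype.linearIndependent_iff] at hs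
    have h1 : ∑ i, ((g i : ℝ)) • (fun e => (s i e : ℝ)) = 0 := by
      funext e
      have h2 := congrFun hg e
      simp only [Finset.sum_apply, Pi.smul_apply, smul_eq_mul, Pi.zero_apply] at h2 ⊢
      have h3 : ((∑ i, g i * (s i e : ℚ) : ℚ) : ℝ) = 0 := by
        have : (∑ i, g i * (s i e : ℚ) : ℚ) = 0 := h2
        rw [this]
        simp
      push_cast at h3
      exact h3
    have h4 := hs (fun i => (g i : ℝ)) h1 i
    exact_mod_cast h4
  have hr : A.rank = Fintype.card (Fin k) := hA.rank_matrix
  have hsurj : Function.Surjective A.mulVec := by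
    have h1 : LinearMap.range A.mulVecLin = ⊤ := by
      apply Submodule.eq_top_of_finrank_eq
      have h2 : Module.finrank ℚ (LinearMap.range A.mulVecLin) = A.rank := rfl
      rw [h2, hr, Module.finrank_fintype_fun_eq_card]
    intro y
    have h3 : y ∈ LinearMap.range A.mulVecLin := by rw [h1]; trivial
    obtain ⟨x, hx⟩ := h3
    exact ⟨x, hx⟩
  obtain ⟨B, hB⟩ := Matrix.mulVec_surjective_iff_exists_right_inverse.mp hsurj
  refine ⟨fun e j => B e j, fun i j => ?_⟩
  have h5 := congrFun (congrFun hB i) j
  rw [Matrix.mul_apply, Matrix.one_apply] at h5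
  exact h5

end Pool.Agent.helper37.NP
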