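import Pool.Agent.helper37.NP.Defs

/-!
NP-30 (ZDa).  Rational data from a vanishing Dehn invariant.

PROOF.  Let `K` be the `ℚ`-span of the six lengths in `ℝ`, `k` its dimension, `y : Fin k → ℝ` a
`ℚ`-basis, `l e = ∑ i, q i e * y i` with rational `q i e`.  Let `N > 0` be a common denominator,
`s i e = N * q i e ∈ ℤ`.  Then `lenv = ∑ i, (y i / N) • s i` lies in the real span.
Linear independence: the six vectors `(q i e)_i ∈ ℚ^k` span `ℚ^k` (because the `l e` span `K`), so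
the `k` rows `q i` are linearly independent over `ℚ`, hence over `ℝ` (a `k × 6` rational matrix of
rank `k` has a nonzero `k × k` minor; or `LinearIndependent` and field extension).
Relations: choose a `ℚ`-linear `f i : ℝ → ℚ` with `f i (y j) = δ_ij` (`Basis`/`exists_extend`).  Let
`M = ℝ ⧸ span ℚ {π}` (a `ℚ`-module).  The map `ℝ ⊗[ℤ] AngleModPi → M`,
`x ⊗ θ ↦ f i x • [θ]` is well defined (`TensorProduct.lift`; `AngleModPi → M` is induced by the
identity, `QuotientAddGroup.lift`).  It maps `dehn a b c d = 0` to `[∑ e, q i e * θ e]`, so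
`∑ e, q i e * θ e ∈ ℚ π`; multiply by `N`.
-/

namespace Pool.Agent.helper37.NP

open Real Pool.Agent.Helper93.Tet
open scoped TensorProduct

/-- an integer vector as a real vector -/
def iv (s : Fin 6 → ℤ) : V6 := fun e => (s e : ℝ)

/-- The `ℤ`-bilinear pairing `x ⊗ θ ↦ f x • [θ]` kills the tensor, hence the sum. -/
private theorem tensor_rel (f : ℝ →ₗ[ℚ] ℚ) (L θ : Fin 6 → ℝ)
    (h : (L 0) ⊗ₜ[ℤ] ((θ 0 : ℝ) : AngleModPi) + (L 1) ⊗ₜ[ℤ] ((θ 1 : ℝ) : AngleModPi)
      + (L 2) ⊗ₜ[ℤ] ((θ 2 : ℝ) : AngleModPi) + (L 3) ⊗ₜ[ℤ] ((θ 3 : ℝ) : AngleModPi)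
      + (L 4) ⊗ₜ[ℤ] ((θ 4 : ℝ) : AngleModPi) + (L 5) ⊗ₜ[ℤ] ((θ 5 : ℝ) : AngleModPi) = 0) :
    ∃ r : ℚ, (f (L 0) : ℝ) * θ 0 + (f (L 1) : ℝ) * θ 1 + (f (L 2) : ℝ) * θ 2
      + (f (L 3) : ℝ) * θ 3 + (f (L 4) : ℝ) * θ 4 + (f (L 5) : ℝ) * θ 5 = π * (r : ℝ) := by
  let P : Submodule ℚ ℝ := Submodule.span ℚ {π}
  let φ : AngleModPi →+ (ℝ ⧸ P) :=
    QuotientAddGroup.lift _ (P.mkQ.toAddMonoidHom) (by
      intro x hx
      rw [AddSubgroup.mem_zmultiples_iff] at hx
      obtain ⟨n, rfl⟩ := hx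
      rw [AddMonoidHom.mem_ker]
      show P.mkQ (n • π) = 0
      rw [Submodule.mkQ_apply, Submodule.Quotient.mk_eq_zero]
      have : (n • π : ℝ) = ((n : ℚ) : ℚ) • π := by
        rw [Rat.smul_def, zsmul_eq_mul]; push_cast; rfl
      rw [this]
      exact P.smul_mem _ (Submodule.mem_span_singleton_self _))
  have hφ : ∀ t : ℝ, φ ((t : ℝ) : AngleModPi) = P.mkQ t := fun t => rfl
  let B : ℝ →ₗ[ℤ] AngleModPi →ₗ[ℤ] (ℝ ⧸ P) :=
    LinearMap.mk₂ ℤ (fun x t => f x • φ t)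
      (by intro a b c; simp only [map_add, add_smul])
      (by
        intro n a b
        simp only [map_zsmul]
        rw [smul_assoc])
      (by intro a b c; simp only [map_add, smul_add])
      (by
        intro n a b
        simp only [map_zsmul]
        rw [smul_comm])
  have h1 := congrArg (TensorProduct.lift B) h
  simp only [map_add, TensorProduct.lift.tmul, map_zero] at h1
  have hB : ∀ x t : ℝ, B x ((t : ℝ) : AngleModPi) = P.mkQ (f x • t) := by
    intro x t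
    show f x • φ ((t : ℝ) : AngleModPi) = _
    rw [hφ, map_smul]
  simp only [hB, ← map_add] at h1
  rw [Submodule.mkQ_apply, Submodule.Quotient.mk_eq_zero, Submodule.mem_span_singleton] at h1
  obtain ⟨r, hr⟩ := h1
  refine ⟨r, ?_⟩
  simp only [Rat.smul_def] at hr
  rw [mul_comm π, hr]

theorem dehn_data {a b c d : E} (h : dehn a b c d = 0) :
    ∃ (k : ℕ) (s : Fin k → Fin 6 → ℤ) (r : Fin k → ℚ),
      LinearIndependent ℝ (fun i => iv (s i)) ∧
      lenv a b c d ∈ Submodule.span ℝ (Set.range fun i => iv (s i)) ∧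
      ∀ i, dotp (iv (s i)) (angv a b c d) = π * (r i : ℝ) := by
  classical
  set L : Fin 6 → ℝ := lenv a b c d with hL
  set θ : Fin 6 → ℝ := angv a b c d with hθ
  have hT : (L 0) ⊗ₜ[ℤ] ((θ 0 : ℝ) : AngleModPi) + (L 1) ⊗ₜ[ℤ] ((θ 1 : ℝ) : AngleModPi)
      + (L 2) ⊗ₜ[ℤ] ((θ 2 : ℝ) : AngleModPi) + (L 3) ⊗ₜ[ℤ] ((θ 3 : ℝ) : AngleModPi)
      + (L 4) ⊗ₜ[ℤ] ((θ 4 : ℝ) : AngleModPi) + (L 5) ⊗ₜ[ℤ] ((θ 5 : ℝ) : AngleModPi) = 0 := h
  let K : Submodule ℚ ℝ := Submodule.span ℚ (Set.range L)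
  have : FiniteDimensional ℚ K := FiniteDimensional.span_of_finite ℚ (Set.finite_range L)
  let k := Module.finrank ℚ K
  let β : Module.Basis (Fin k) ℚ K := Module.finBasis ℚ K
  have hLK : ∀ e, L e ∈ K := fun e => Submodule.subset_span ⟨e, rfl⟩
  choose f hf using fun i => LinearMap.exists_extend (p := K) (β.coord i)
  have hf' : ∀ i (x : K), f i (x : ℝ) = β.coord i x := fun i x => by
    rw [← hf i]; rfl
  let q : Fin k → Fin 6 → ℚ := fun i e => f i (L e)
  have hLq : ∀ e, L e = ∑ i, (q i e : ℝ) * (β i : ℝ) := by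
    intro e
    have h1 := β.sum_repr ⟨L e, hLK e⟩
    have h2 := congrArg (fun z : K => (z : ℝ)) h1
    simp only [Submodule.coe_sum, Submodule.coe_smul] at h2
    rw [← h2]
    refine Finset.sum_congr rfl fun i _ => ?_
    rw [Rat.smul_def]
    congr 2
    show _ = f i (L e)
    rw [hf' i ⟨L e, hLK e⟩]
    rfl
  -- dual coefficients
  have hm : ∀ j : Fin k, ∃ m : Fin 6 → ℚ, ∀ i, ∑ e, m e * q i e = if i = j then 1 else 0 := by
    intro j
    have hj : (β j : ℝ) ∈ Submodule.span ℚ (Set.range L) := (β j).2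
    rw [Submodule.mem_span_range_iff_exists_fun] at hj
    obtain ⟨m, hm⟩ := hj
    refine ⟨m, fun i => ?_⟩
    have h1 := congrArg (f i) hm
    rw [map_sum, hf' i (β j)] at h1
    simp only [map_smul, smul_eq_mul, Module.Basis.coord_apply, Module.Basis.repr_self] at h1
    rw [show (∑ e, m e * q i e) = ∑ e, m e * f i (L e) from rfl, h1, Finsupp.single_apply]
    simp only [eq_comm]
  -- common denominator
  obtain ⟨N, hN⟩ := IsLocalization.exist_integer_multiples_of_finite (nonZeroDivisors ℤ)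
    (fun p : Fin k × Fin 6 => q p.1 p.2)
  have hN0 : ((N : ℤ) : ℝ) ≠ 0 := by
    have := nonZeroDivisors.ne_zero N.2
    exact_mod_cast this
  choose s' hs' using fun p : Fin k × Fin 6 => hN p
  have hs : ∀ i e, ((s' (i, e) : ℤ) : ℝ) = ((N : ℤ) : ℝ) * (q i e : ℝ) := by
    intro i e
    have h1 := hs' (i, e)
    have h2 : ((s' (i, e) : ℤ) : ℚ) = ((N : ℤ) : ℚ) * q i e := by
      have h3 : (algebraMap ℤ ℚ) (s' (i, e)) = (N : ℤ) • q i e := h1
      rw [zsmul_eq_mul] at h3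
      exact h3
    exact_mod_cast congrArg (fun z : ℚ => (z : ℝ)) h2
  choose r0 hr0 using fun i => tensor_rel (f i) L θ hT
  refine ⟨k, fun i e => s' (i, e), fun i => ((N : ℤ) : ℚ) * r0 i, ?_, ?_, ?_⟩
  · rw [Fintype.linearIndependent_iff]
    intro c hc j
    obtain ⟨m, hm⟩ := hm j
    have h1 : ∀ e, ∑ i, c i * ((s' (i, e) : ℤ) : ℝ) = 0 := by
      intro e
      have := congrFun hc e
      simpa [iv, Finset.sum_apply] using this
    have h2 : ∑ e, (m e : ℝ) * ∑ i, c i * ((s' (i, e) : ℤ) : ℝ) = 0 := by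
      simp [h1]
    have h3 : ∑ e, (m e : ℝ) * ∑ i, c i * ((s' (i, e) : ℤ) : ℝ)
        = ∑ i, c i * ((N : ℤ) : ℝ) * ((∑ e, m e * q i e : ℚ) : ℝ) := by
      simp only [hs, Finset.mul_sum, Rat.cast_sum, Rat.cast_mul]
      rw [Finset.sum_comm]
      refine Finset.sum_congr rfl fun i _ => Finset.sum_congr rfl fun e _ => ?_
      ring
    rw [h3] at h2
    simp only [hm] at h2
    have h4 : ∑ i, c i * ((N : ℤ) : ℝ) * (((if i = j then 1 else 0 : ℚ)) : ℝ)
        = c j * ((N : ℤ) : ℝ) := by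
      rw [Finset.sum_eq_single j]
      · simp
      · intro i _ hij
        simp [hij]
      · intro hj
        exact absurd (Finset.mem_univ j) hj
    rw [h4] at h2
    rcases mul_eq_zero.mp h2 with h5 | h5
    · exact h5
    · exact absurd h5 hN0
  · have h1 : L = ∑ i, ((β i : ℝ) / ((N : ℤ) : ℝ)) • iv (fun e => s' (i, e)) := by
      funext e
      rw [hLq e, Finset.sum_apply]
      refine Finset.sum_congr rfl fun i _ => ?_
      simp only [iv, Pi.smul_apply, smul_eq_mul, hs]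
      field_simp
    rw [h1]
    exact Submodule.sum_mem _ fun i _ =>
      Submodule.smul_mem _ _ (Submodule.subset_span ⟨i, rfl⟩)
  · intro i
    have h1 := hr0 i
    simp only [dotp, iv, hs]
    have h2 : π * (((((N : ℤ) : ℚ) * r0 i : ℚ)) : ℝ) = ((N : ℤ) : ℝ) * (π * (r0 i : ℝ)) := by
      push_cast
      ring
    rw [h2, ← h1]
    ring

end Pool.Agent.helper37.NP
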