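import Pool.Agent.helper37.NP.Bas

/-!
NP-22 (BGr).  The Gram matrix of the face normals for `l ∈ T`.

PROOF.  `cosv (ang l) = cs l` (`Real.cos_arccos`, or `cos_ang` with `cs_eq`).  Write
`Hd = He(abc)`, `Hc = He(abd)`, `Hb = He(acd)`, `Ha = He(bcd)`, all `> 0`; `cs l e` is
`nu l e / √(product of the two faces at e)`.
* `mi (cs l) 0 * (Hd Hc Hb) = Hd Hc Hb - nu0² Hb - nu1² Hc - nu2² Hd - 2 nu0 nu1 nu2 = 4 W²` (`ring`,
  checked), so `mi (cs l) 0 = 4 W² / (Hd Hc Hb) > 0`, similarly at the other vertices (the three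
  faces at the vertex).
* `cf (cs l) 0 * (Hd Hc √(Ha Hb)) = nu5 (Hd Hc - nu0²) + nu4 nu2 Hd + nu3 nu1 Hc
  + nu0 (nu4 nu1 + nu3 nu2) = 4 W²` (`ring`, checked); so `cf (cs l) 0 = 4 W²/(Hd Hc √(Ha Hb)) > 0`,
  where `Hd, Hc` are the faces containing the edge `0`; similarly for the other edges.
* `gd (cs l) = 0`: polynomial identity `mi x 1 * mi x 2 - cf x 3 ^ 2 = (1 - x 3 ^ 2) * gd x` (`ring`);
  the left side is `16 W⁴/(...) - 16 W⁴/(...) = 0` and `x 3 ^ 2 < 1`.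
* `lam (ang l) 0 = √(mi 2 mi 3) sin = (4 W²/(√(Hc Hd) Ha Hb)) (2 l0 √W/√(Hc Hd))`, so
  `lam (ang l) = k • l` with `k = 8 W² √W / (Ha Hb Hc Hd)`.
-/

namespace Pool.Agent.helper37.NP

open Real

/-- the factor between `lam (ang l)` and `l` -/
noncomputable def kfac (l : V6) : ℝ :=
  8 * W l ^ 2 * Real.sqrt (W l) / (He (l 0) (l 1) (l 3) * He (l 0) (l 2) (l 4)
    * He (l 1) (l 2) (l 5) * He (l 3) (l 4) (l 5))

private def hq (a b c : ℝ) : ℝ := 2 * (a * b + b * c + c * a) - (a ^ 2 + b ^ 2 + c ^ 2)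
private def nq (a b c d e f : ℝ) : ℝ := 2 * a * (b + c - f) - (a + b - d) * (a + c - e)

private theorem He_eq (p q r : ℝ) : He p q r = hq (p ^ 2) (q ^ 2) (r ^ 2) := by
  unfold He hq; ring

private theorem Nu_eq (p q r s t u : ℝ) :
    Nu p q r s t u = nq (p ^ 2) (q ^ 2) (r ^ 2) (s ^ 2) (t ^ 2) (u ^ 2) := by
  unfold Nu nq; ring

private theorem mi_id0 (a b c d e f : ℝ) :
    hq a b d * hq a c e * hq b c f - nq a b c d e f ^ 2 * hq b c f
      - nq b a c d f e ^ 2 * hq a c e - nq c a b e f d ^ 2 * hq a b d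
      - 2 * nq a b c d e f * nq b a c d f e * nq c a b e f d = 4 * Wsq a b c d e f ^ 2 := by
  unfold hq nq Wsq; ring

private theorem mi_id1 (a b c d e f : ℝ) :
    hq a b d * hq a c e * hq d e f - nq a b c d e f ^ 2 * hq d e f
      - nq d a e b f c ^ 2 * hq a c e - nq e a d c f b ^ 2 * hq a b d
      - 2 * nq a b c d e f * nq d a e b f c * nq e a d c f b = 4 * Wsq a b c d e f ^ 2 := by
  unfold hq nq Wsq; ring

private theorem mi_id2 (a b c d e f : ℝ) :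
    hq a b d * hq b c f * hq d e f - nq b a c d f e ^ 2 * hq d e f
      - nq d a e b f c ^ 2 * hq b c f - nq f b d c e a ^ 2 * hq a b d
      - 2 * nq b a c d f e * nq d a e b f c * nq f b d c e a = 4 * Wsq a b c d e f ^ 2 := by
  unfold hq nq Wsq; ring

private theorem mi_id3 (a b c d e f : ℝ) :
    hq a c e * hq b c f * hq d e f - nq c a b e f d ^ 2 * hq d e f
      - nq e a d c f b ^ 2 * hq b c f - nq f b d c e a ^ 2 * hq a c e
      - 2 * nq c a b e f d * nq e a d c f b * nq f b d c e a = 4 * Wsq a b c d e f ^ 2 := by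
  unfold hq nq Wsq; ring

private theorem cf_id0 (a b c d e f : ℝ) :
    nq f b d c e a * (hq a b d * hq a c e - nq a b c d e f ^ 2)
      + nq e a d c f b * nq c a b e f d * hq a b d + nq d a e b f c * nq b a c d f e * hq a c e
      + nq a b c d e f * (nq e a d c f b * nq b a c d f e + nq d a e b f c * nq c a b e f d)
      = 4 * Wsq a b c d e f ^ 2 := by
  unfold hq nq Wsq; ring

private theorem cf_id1 (a b c d e f : ℝ) :
    nq e a d c f b * (hq a b d * hq b c f - nq b a c d f e ^ 2)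
      + nq f b d c e a * nq c a b e f d * hq a b d + nq d a e b f c * nq a b c d e f * hq b c f
      + nq b a c d f e * (nq f b d c e a * nq a b c d e f + nq d a e b f c * nq c a b e f d)
      = 4 * Wsq a b c d e f ^ 2 := by
  unfold hq nq Wsq; ring

private theorem cf_id2 (a b c d e f : ℝ) :
    nq d a e b f c * (hq a c e * hq b c f - nq c a b e f d ^ 2)
      + nq f b d c e a * nq b a c d f e * hq a c e + nq e a d c f b * nq a b c d e f * hq b c f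
      + nq c a b e f d * (nq f b d c e a * nq a b c d e f + nq e a d c f b * nq b a c d f e)
      = 4 * Wsq a b c d e f ^ 2 := by
  unfold hq nq Wsq; ring

private theorem cf_id3 (a b c d e f : ℝ) :
    nq c a b e f d * (hq a b d * hq d e f - nq d a e b f c ^ 2)
      + nq f b d c e a * nq e a d c f b * hq a b d + nq b a c d f e * nq a b c d e f * hq d e f
      + nq d a e b f c * (nq f b d c e a * nq a b c d e f + nq e a d c f b * nq b a c d f e)
      = 4 * Wsq a b c d e f ^ 2 := by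
  unfold hq nq Wsq; ring

private theorem cf_id4 (a b c d e f : ℝ) :
    nq b a c d f e * (hq a c e * hq d e f - nq e a d c f b ^ 2)
      + nq f b d c e a * nq d a e b f c * hq a c e + nq c a b e f d * nq a b c d e f * hq d e f
      + nq e a d c f b * (nq f b d c e a * nq a b c d e f + nq d a e b f c * nq c a b e f d)
      = 4 * Wsq a b c d e f ^ 2 := by
  unfold hq nq Wsq; ring

private theorem cf_id5 (a b c d e f : ℝ) :
    nq a b c d e f * (hq b c f * hq d e f - nq f b d c e a ^ 2)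
      + nq e a d c f b * nq d a e b f c * hq b c f + nq c a b e f d * nq b a c d f e * hq d e f
      + nq f b d c e a * (nq e a d c f b * nq b a c d f e + nq d a e b f c * nq c a b e f d)
      = 4 * Wsq a b c d e f ^ 2 := by
  unfold hq nq Wsq; ring

private theorem gd_id (x : V6) :
    mi x 1 * mi x 2 - cf x 3 ^ 2 = (1 - x 3 ^ 2) * gd x := by
  simp only [mi, cf, gd, Matrix.cons_val]
  ring

/-- the four square roots and all ten identities -/
private theorem key {l : V6} (hl : l ∈ T) : ∃ A B C D : ℝ, 0 < A ∧ 0 < B ∧ 0 < C ∧ 0 < D ∧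
    A ^ 2 = He (l 3) (l 4) (l 5) ∧ B ^ 2 = He (l 1) (l 2) (l 5) ∧ C ^ 2 = He (l 0) (l 2) (l 4) ∧
    D ^ 2 = He (l 0) (l 1) (l 3) ∧
    (Real.sin (ang l 0) * (D * C) = 2 * l 0 * Real.sqrt (W l) ∧
      Real.sin (ang l 1) * (D * B) = 2 * l 1 * Real.sqrt (W l) ∧
      Real.sin (ang l 2) * (C * B) = 2 * l 2 * Real.sqrt (W l) ∧
      Real.sin (ang l 3) * (D * A) = 2 * l 3 * Real.sqrt (W l) ∧
      Real.sin (ang l 4) * (C * A) = 2 * l 4 * Real.sqrt (W l) ∧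
      Real.sin (ang l 5) * (B * A) = 2 * l 5 * Real.sqrt (W l)) ∧
    (mi (cosv (ang l)) 0 * (D * C * B) ^ 2 = 4 * W l ^ 2 ∧
      mi (cosv (ang l)) 1 * (D * C * A) ^ 2 = 4 * W l ^ 2 ∧
      mi (cosv (ang l)) 2 * (D * B * A) ^ 2 = 4 * W l ^ 2 ∧
      mi (cosv (ang l)) 3 * (C * B * A) ^ 2 = 4 * W l ^ 2) ∧
    cf (cosv (ang l)) 0 * (A * B * C ^ 2 * D ^ 2) = 4 * W l ^ 2 ∧
    cf (cosv (ang l)) 1 * (A * C * D ^ 2 * B ^ 2) = 4 * W l ^ 2 ∧
    cf (cosv (ang l)) 2 * (A * D * C ^ 2 * B ^ 2) = 4 * W l ^ 2 ∧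
    cf (cosv (ang l)) 3 * (B * C * D ^ 2 * A ^ 2) = 4 * W l ^ 2 ∧
    cf (cosv (ang l)) 4 * (B * D * C ^ 2 * A ^ 2) = 4 * W l ^ 2 ∧
    cf (cosv (ang l)) 5 * (C * D * B ^ 2 * A ^ 2) = 4 * W l ^ 2 := by
  have hD0 : 0 < He (l 0) (l 1) (l 3) := ha_pos hl 0
  have hC0 : 0 < He (l 0) (l 2) (l 4) := hb_pos hl 0
  have hB0 : 0 < He (l 1) (l 2) (l 5) := hb_pos hl 1
  have hA0 : 0 < He (l 3) (l 4) (l 5) := hb_pos hl 3
  set A := Real.sqrt (He (l 3) (l 4) (l 5)) with hA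
  set B := Real.sqrt (He (l 1) (l 2) (l 5)) with hB
  set C := Real.sqrt (He (l 0) (l 2) (l 4)) with hC
  set D := Real.sqrt (He (l 0) (l 1) (l 3)) with hD
  have hAp : 0 < A := Real.sqrt_pos.2 hA0
  have hBp : 0 < B := Real.sqrt_pos.2 hB0
  have hCp : 0 < C := Real.sqrt_pos.2 hC0
  have hDp : 0 < D := Real.sqrt_pos.2 hD0
  have hA2 : A ^ 2 = He (l 3) (l 4) (l 5) := Real.sq_sqrt hA0.le
  have hB2 : B ^ 2 = He (l 1) (l 2) (l 5) := Real.sq_sqrt hB0.le
  have hC2 : C ^ 2 = He (l 0) (l 2) (l 4) := Real.sq_sqrt hC0.le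
  have hD2 : D ^ 2 = He (l 0) (l 1) (l 3) := Real.sq_sqrt hD0.le
  have ea0 : Real.sqrt (ha l 0) = D := rfl
  have eb0 : Real.sqrt (hb l 0) = C := rfl
  have ea1 : Real.sqrt (ha l 1) = D := by
    rw [hD]; congr 1; simp only [ha, He, Matrix.cons_val]; ring
  have eb1 : Real.sqrt (hb l 1) = B := rfl
  have ea2 : Real.sqrt (ha l 2) = C := by
    rw [hC]; congr 1; simp only [ha, He, Matrix.cons_val]; ring
  have eb2 : Real.sqrt (hb l 2) = B := by
    rw [hB]; congr 1; simp only [hb, He, Matrix.cons_val]; ring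
  have ea3 : Real.sqrt (ha l 3) = D := by
    rw [hD]; congr 1; simp only [ha, He, Matrix.cons_val]; ring
  have eb3 : Real.sqrt (hb l 3) = A := rfl
  have ea4 : Real.sqrt (ha l 4) = C := by
    rw [hC]; congr 1; simp only [ha, He, Matrix.cons_val]; ring
  have eb4 : Real.sqrt (hb l 4) = A := by
    rw [hA]; congr 1; simp only [hb, He, Matrix.cons_val]; ring
  have ea5 : Real.sqrt (ha l 5) = B := by
    rw [hB]; congr 1; simp only [ha, He, Matrix.cons_val]; ring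
  have eb5 : Real.sqrt (hb l 5) = A := by
    rw [hA]; congr 1; simp only [hb, He, Matrix.cons_val]; ring
  have hx : ∀ e, cosv (ang l) e * (Real.sqrt (ha l e) * Real.sqrt (hb l e)) = nu l e := by
    intro e
    have h1 : 0 < Real.sqrt (ha l e) * Real.sqrt (hb l e) :=
      mul_pos (Real.sqrt_pos.2 (ha_pos hl e)) (Real.sqrt_pos.2 (hb_pos hl e))
    have h2 : cosv (ang l) e = nu l e / (Real.sqrt (ha l e) * Real.sqrt (hb l e)) := cos_ang hl e
    rw [h2, div_mul_cancel₀ _ h1.ne']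
  have hs : ∀ e, Real.sin (ang l e) * (Real.sqrt (ha l e) * Real.sqrt (hb l e))
      = 2 * l e * Real.sqrt (W l) := by
    intro e
    have h1 : 0 < Real.sqrt (ha l e) * Real.sqrt (hb l e) :=
      mul_pos (Real.sqrt_pos.2 (ha_pos hl e)) (Real.sqrt_pos.2 (hb_pos hl e))
    rw [sin_ang hl e, div_mul_cancel₀ _ h1.ne']
  have hx0 := hx 0
  have hx1 := hx 1
  have hx2 := hx 2
  have hx3 := hx 3
  have hx4 := hx 4
  have hx5 := hx 5
  have hs0 := hs 0
  have hs1 := hs 1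
  have hs2 := hs 2
  have hs3 := hs 3
  have hs4 := hs 4
  have hs5 := hs 5
  rw [ea0, eb0] at hx0 hs0
  rw [ea1, eb1] at hx1 hs1
  rw [ea2, eb2] at hx2 hs2
  rw [ea3, eb3] at hx3 hs3
  rw [ea4, eb4] at hx4 hs4
  rw [ea5, eb5] at hx5 hs5
  simp only [nu, Matrix.cons_val, Nu_eq] at hx0 hx1 hx2 hx3 hx4 hx5
  have hA3 := hA2
  have hB3 := hB2
  have hC3 := hC2
  have hD3 := hD2
  rw [He_eq] at hA3 hB3 hC3 hD3
  have hW : W l = Wsq (l 0 ^ 2) (l 1 ^ 2) (l 2 ^ 2) (l 3 ^ 2) (l 4 ^ 2) (l 5 ^ 2) := rfl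
  set x := cosv (ang l) with hxdef
  refine ⟨A, B, C, D, hAp, hBp, hCp, hDp, hA2, hB2, hC2, hD2, ⟨hs0, hs1, hs2, hs3, hs4, hs5⟩,
    ⟨?_, ?_, ?_, ?_⟩, ?_, ?_, ?_, ?_, ?_, ?_⟩
  · have h := mi_id0 (l 0 ^ 2) (l 1 ^ 2) (l 2 ^ 2) (l 3 ^ 2) (l 4 ^ 2) (l 5 ^ 2)
    rw [← hD3, ← hC3, ← hB3, ← hx0, ← hx1, ← hx2, ← hW] at h
    simp only [mi, Matrix.cons_val]
    linear_combination h
  · have h := mi_id1 (l 0 ^ 2) (l 1 ^ 2) (l 2 ^ 2) (l 3 ^ 2) (l 4 ^ 2) (l 5 ^ 2)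
    rw [← hD3, ← hC3, ← hA3, ← hx0, ← hx3, ← hx4, ← hW] at h
    simp only [mi, Matrix.cons_val]
    linear_combination h
  · have h := mi_id2 (l 0 ^ 2) (l 1 ^ 2) (l 2 ^ 2) (l 3 ^ 2) (l 4 ^ 2) (l 5 ^ 2)
    rw [← hD3, ← hB3, ← hA3, ← hx1, ← hx3, ← hx5, ← hW] at h
    simp only [mi, Matrix.cons_val]
    linear_combination h
  · have h := mi_id3 (l 0 ^ 2) (l 1 ^ 2) (l 2 ^ 2) (l 3 ^ 2) (l 4 ^ 2) (l 5 ^ 2)
    rw [← hC3, ← hB3, ← hA3, ← hx2, ← hx4, ← hx5, ← hW] at h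
    simp only [mi, Matrix.cons_val]
    linear_combination h
  · have h := cf_id0 (l 0 ^ 2) (l 1 ^ 2) (l 2 ^ 2) (l 3 ^ 2) (l 4 ^ 2) (l 5 ^ 2)
    rw [← hD3, ← hC3, ← hx0, ← hx1, ← hx2, ← hx3, ← hx4, ← hx5, ← hW] at h
    simp only [cf, Matrix.cons_val]
    linear_combination h
  · have h := cf_id1 (l 0 ^ 2) (l 1 ^ 2) (l 2 ^ 2) (l 3 ^ 2) (l 4 ^ 2) (l 5 ^ 2)
    rw [← hD3, ← hB3, ← hx0, ← hx1, ← hx2, ← hx3, ← hx4, ← hx5, ← hW] at h
    simp only [cf, Matrix.cons_val]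
    linear_combination h
  · have h := cf_id2 (l 0 ^ 2) (l 1 ^ 2) (l 2 ^ 2) (l 3 ^ 2) (l 4 ^ 2) (l 5 ^ 2)
    rw [← hC3, ← hB3, ← hx0, ← hx1, ← hx2, ← hx3, ← hx4, ← hx5, ← hW] at h
    simp only [cf, Matrix.cons_val]
    linear_combination h
  · have h := cf_id3 (l 0 ^ 2) (l 1 ^ 2) (l 2 ^ 2) (l 3 ^ 2) (l 4 ^ 2) (l 5 ^ 2)
    rw [← hD3, ← hA3, ← hx0, ← hx1, ← hx2, ← hx3, ← hx4, ← hx5, ← hW] at h
    simp only [cf, Matrix.cons_val]
    linear_combination h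
  · have h := cf_id4 (l 0 ^ 2) (l 1 ^ 2) (l 2 ^ 2) (l 3 ^ 2) (l 4 ^ 2) (l 5 ^ 2)
    rw [← hC3, ← hA3, ← hx0, ← hx1, ← hx2, ← hx3, ← hx4, ← hx5, ← hW] at h
    simp only [cf, Matrix.cons_val]
    linear_combination h
  · have h := cf_id5 (l 0 ^ 2) (l 1 ^ 2) (l 2 ^ 2) (l 3 ^ 2) (l 4 ^ 2) (l 5 ^ 2)
    rw [← hB3, ← hA3, ← hx0, ← hx1, ← hx2, ← hx3, ← hx4, ← hx5, ← hW] at h
    simp only [cf, Matrix.cons_val]
    linear_combination h

private theorem pos_of_mul_eq {a b c : ℝ} (hb : 0 < b) (hc : 0 < c) (h : a * b = c) : 0 < a := by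
  rw [← h] at hc
  exact (mul_pos_iff_of_pos_right hb).1 hc

theorem ang_mem_PP {l : V6} (hl : l ∈ T) : ang l ∈ PP := by
  have hW : 0 < W l := hl.2
  have hW4 : 0 < 4 * W l ^ 2 := by positivity
  obtain ⟨A, B, C, D, hA, hB, hC, hD, -, -, -, -, -, ⟨m0, m1, m2, m3⟩, c0, c1, c2, c3, c4, c5⟩ :=
    key hl
  refine ⟨fun e => ⟨ang_pos hl e, ang_lt hl e⟩, fun v => ?_, fun e => ?_⟩
  · fin_cases v
    · exact pos_of_mul_eq (by positivity) hW4 m0
    · exact pos_of_mul_eq (by positivity) hW4 m1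
    · exact pos_of_mul_eq (by positivity) hW4 m2
    · exact pos_of_mul_eq (by positivity) hW4 m3
  · fin_cases e
    · exact pos_of_mul_eq (by positivity) hW4 c0
    · exact pos_of_mul_eq (by positivity) hW4 c1
    · exact pos_of_mul_eq (by positivity) hW4 c2
    · exact pos_of_mul_eq (by positivity) hW4 c3
    · exact pos_of_mul_eq (by positivity) hW4 c4
    · exact pos_of_mul_eq (by positivity) hW4 c5

theorem gd_ang {l : V6} (hl : l ∈ T) : gd (cosv (ang l)) = 0 := by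
  obtain ⟨A, B, C, D, hA, hB, hC, hD, -, -, -, -, -, ⟨m0, m1, m2, m3⟩, c0, c1, c2, c3, c4, c5⟩ :=
    key hl
  have h := gd_id (cosv (ang l))
  have hsin : 0 < 1 - cosv (ang l) 3 ^ 2 := by
    have h1 := Real.sin_pos_of_pos_of_lt_pi (ang_pos hl 3) (ang_lt hl 3)
    have h2 := Real.sin_sq_add_cos_sq (ang l 3)
    have h3 : cosv (ang l) 3 = Real.cos (ang l 3) := rfl
    rw [h3]
    nlinarith
  have h1 : (mi (cosv (ang l)) 1 * mi (cosv (ang l)) 2 - cf (cosv (ang l)) 3 ^ 2)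
      * (D * C * A * (D * B * A)) ^ 2 = 0 := by
    linear_combination (mi (cosv (ang l)) 2 * (D * B * A) ^ 2) * m1 + 4 * W l ^ 2 * m2
      - (cf (cosv (ang l)) 3 * (B * C * D ^ 2 * A ^ 2) + 4 * W l ^ 2) * c3
  have h2 : (D * C * A * (D * B * A)) ^ 2 ≠ 0 := by positivity
  rw [h] at h1
  rcases mul_eq_zero.1 h1 with h3 | h3
  · rcases mul_eq_zero.1 h3 with h4 | h4
    · exact absurd h4 hsin.ne'
    · exact h4
  · exact absurd h3 h2

theorem kfac_pos {l : V6} (hl : l ∈ T) : 0 < kfac l := by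
  have hW : 0 < W l := hl.2
  obtain ⟨A, B, C, D, hA, hB, hC, hD, hA2, hB2, hC2, hD2, -⟩ := key hl
  unfold kfac
  rw [← hA2, ← hB2, ← hC2, ← hD2]
  have := Real.sqrt_pos.2 hW
  positivity

private theorem sqrt_mul_eq {m n a b w : ℝ} (ha : 0 < a) (hb : 0 < b) (hw : 0 < w)
    (hm : m * a ^ 2 = 4 * w ^ 2) (hn : n * b ^ 2 = 4 * w ^ 2) :
    Real.sqrt (m * n) = 4 * w ^ 2 / (a * b) := by
  have h1 : m = 4 * w ^ 2 / a ^ 2 := by
    rw [eq_div_iff (by positivity)]; exact hm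
  have h2 : n = 4 * w ^ 2 / b ^ 2 := by
    rw [eq_div_iff (by positivity)]; exact hn
  have h3 : m * n = (4 * w ^ 2 / (a * b)) ^ 2 := by
    rw [h1, h2]
    field_simp
  rw [h3, Real.sqrt_sq (by positivity)]

theorem lam_ang {l : V6} (hl : l ∈ T) : lam (ang l) = kfac l • l := by
  have hW : 0 < W l := hl.2
  obtain ⟨A, B, C, D, hA, hB, hC, hD, hA2, hB2, hC2, hD2, ⟨s0, s1, s2, s3, s4, s5⟩,
    ⟨m0, m1, m2, m3⟩, -⟩ := key hl
  have hk : kfac l = 8 * W l ^ 2 * Real.sqrt (W l) / (D ^ 2 * C ^ 2 * B ^ 2 * A ^ 2) := by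
    unfold kfac
    rw [← hA2, ← hB2, ← hC2, ← hD2]
  have e0 : Real.sin (ang l 0) = 2 * l 0 * Real.sqrt (W l) / (D * C) := by
    rw [eq_div_iff (by positivity)]; exact s0
  have e1 : Real.sin (ang l 1) = 2 * l 1 * Real.sqrt (W l) / (D * B) := by
    rw [eq_div_iff (by positivity)]; exact s1
  have e2 : Real.sin (ang l 2) = 2 * l 2 * Real.sqrt (W l) / (C * B) := by
    rw [eq_div_iff (by positivity)]; exact s2
  have e3 : Real.sin (ang l 3) = 2 * l 3 * Real.sqrt (W l) / (D * A) := by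
    rw [eq_div_iff (by positivity)]; exact s3
  have e4 : Real.sin (ang l 4) = 2 * l 4 * Real.sqrt (W l) / (C * A) := by
    rw [eq_div_iff (by positivity)]; exact s4
  have e5 : Real.sin (ang l 5) = 2 * l 5 * Real.sqrt (W l) / (B * A) := by
    rw [eq_div_iff (by positivity)]; exact s5
  funext e
  rw [Pi.smul_apply, smul_eq_mul, hk]
  fin_cases e
  · simp only [lam, Matrix.cons_val, Fin.mk_zero]
    rw [sqrt_mul_eq (by positivity) (by positivity) hW m2 m3, e0]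
    field_simp
    ring
  · simp only [lam, Matrix.cons_val, Fin.mk_one]
    rw [sqrt_mul_eq (by positivity) (by positivity) hW m1 m3, e1]
    field_simp
    ring
  · simp only [lam, Matrix.cons_val, Fin.reduceFinMk]
    rw [sqrt_mul_eq (by positivity) (by positivity) hW m1 m2, e2]
    field_simp
    ring
  · simp only [lam, Matrix.cons_val, Fin.reduceFinMk]
    rw [sqrt_mul_eq (by positivity) (by positivity) hW m0 m3, e3]
    field_simp
    ring
  · simp only [lam, Matrix.cons_val, Fin.reduceFinMk]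
    rw [sqrt_mul_eq (by positivity) (by positivity) hW m0 m2, e4]
    field_simp
    ring
  · simp only [lam, Matrix.cons_val, Fin.reduceFinMk]
    rw [sqrt_mul_eq (by positivity) (by positivity) hW m0 m1, e5]
    field_simp
    ring

end Pool.Agent.helper37.NP
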