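import Pool.Agent.helper37.NP.Ana
import Pool.Agent.helper37.NP.BGr

/-!
NP-32 (ZRi).  Infinitesimal rigidity: the dihedral angles determine the shape to first order.

PROOF.  `ang` is differentiable at `l ∈ T` (`ang_analytic` in every coordinate).  Near `l` (`T` open)
`lam (ang y) = kfac y • y` (`lam_ang`).  `kfac` is differentiable at `l` (`W > 0`, `He > 0` on `T`),
and `lam` is differentiable at `ang l ∈ PP` (products `mi * mi > 0` under the roots).
Differentiating in the direction `y`: `Dlam (Dang y) = (Dkfac y) • l + kfac l • y`.  If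
`Dang y = 0`, then `y = - (Dkfac y / kfac l) • l`.

author of the proofs: helper92
-/

namespace Pool.Agent.helper37.NP

open Real

theorem ang_hasStrictFDerivAt {l : V6} (hl : l ∈ T) :
    HasStrictFDerivAt ang (fderiv ℝ ang l) l := by
  have h : AnalyticAt ℝ (fun l : V6 => fun e => ang l e) l :=
    AnalyticAt.pi (fun e => ang_analytic e l hl)
  exact h.hasStrictFDerivAt

private theorem diff_W : Differentiable ℝ W := by
  have h : W = fun l : V6 =>
      Wsq (l 0 ^ 2) (l 1 ^ 2) (l 2 ^ 2) (l 3 ^ 2) (l 4 ^ 2) (l 5 ^ 2) := rfl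
  rw [h]
  unfold Wsq
  fun_prop

private theorem diff_He (i j k : Fin 6) : Differentiable ℝ (fun l : V6 => He (l i) (l j) (l k)) := by
  unfold He
  fun_prop

private theorem diff_kfac {l : V6} (hl : l ∈ T) : DifferentiableAt ℝ kfac l := by
  have hW : 0 < W l := hl.2
  have h0 : 0 < He (l 0) (l 1) (l 3) := ha_pos hl 0
  have h1 : 0 < He (l 0) (l 2) (l 4) := hb_pos hl 0
  have h2 : 0 < He (l 1) (l 2) (l 5) := hb_pos hl 1
  have h3 : 0 < He (l 3) (l 4) (l 5) := hb_pos hl 3
  have hk : kfac = fun l : V6 => 8 * W l ^ 2 * Real.sqrt (W l) /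
      (He (l 0) (l 1) (l 3) * He (l 0) (l 2) (l 4) * He (l 1) (l 2) (l 5)
        * He (l 3) (l 4) (l 5)) := rfl
  rw [hk]
  have hd : He (l 0) (l 1) (l 3) * He (l 0) (l 2) (l 4) * He (l 1) (l 2) (l 5)
      * He (l 3) (l 4) (l 5) ≠ 0 := (mul_pos (mul_pos (mul_pos h0 h1) h2) h3).ne'
  have hn1 : DifferentiableAt ℝ (fun l : V6 => 8 * W l ^ 2 * Real.sqrt (W l)) l :=
    (((diff_W l).pow 2).const_mul 8).mul ((diff_W l).sqrt hW.ne')
  have hn2 : DifferentiableAt ℝ (fun l : V6 => He (l 0) (l 1) (l 3) * He (l 0) (l 2) (l 4)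
      * He (l 1) (l 2) (l 5) * He (l 3) (l 4) (l 5)) l :=
    (((diff_He 0 1 3 l).mul (diff_He 0 2 4 l)).mul (diff_He 1 2 5 l)).mul (diff_He 3 4 5 l)
  have hn3 : DifferentiableAt ℝ (fun l : V6 => (He (l 0) (l 1) (l 3) * He (l 0) (l 2) (l 4)
      * He (l 1) (l 2) (l 5) * He (l 3) (l 4) (l 5))⁻¹) l := hn2.inv hd
  simp only [div_eq_mul_inv]
  exact hn1.mul hn3

private theorem diff_mi (v : Fin 4) : Differentiable ℝ (fun t : V6 => mi (cosv t) v) := by
  fin_cases v <;> simp only [mi, cosv, Matrix.cons_val, Fin.mk_zero, Fin.reduceFinMk] <;> fun_prop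

private theorem diff_lam {t : V6} (ht : t ∈ PP) : DifferentiableAt ℝ lam t := by
  have hs : ∀ e : Fin 6, DifferentiableAt ℝ (fun t : V6 => Real.sin (t e)) t := by
    intro e
    fun_prop
  have hm : ∀ (v w : Fin 4) (e : Fin 6), DifferentiableAt ℝ
      (fun t : V6 => Real.sqrt (mi (cosv t) v * mi (cosv t) w) * Real.sin (t e)) t := by
    intro v w e
    exact (((diff_mi v t).mul (diff_mi w t)).sqrt
      (mul_pos (ht.2.1 v) (ht.2.1 w)).ne').mul (hs e)
  rw [differentiableAt_pi]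
  intro e
  fin_cases e
  · exact hm 2 3 0
  · exact hm 1 3 1
  · exact hm 1 2 2
  · exact hm 0 3 3
  · exact hm 0 2 4
  · exact hm 0 1 5

theorem ang_rigid {l : V6} (hl : l ∈ T) {y : V6} (hy : fderiv ℝ ang l y = 0) :
    ∃ k : ℝ, y = k • l := by
  have hγ : HasDerivAt (fun s : ℝ => l + s • y) y 0 := by
    have h := ((hasDerivAt_id (0 : ℝ)).smul_const y).const_add l
    simpa using h
  have h0 : l + (0 : ℝ) • y = l := by rw [zero_smul, add_zero]
  have h1 : HasDerivAt (fun s : ℝ => ang (l + s • y)) (fderiv ℝ ang l y) 0 := by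
    have h : HasFDerivAt ang (fderiv ℝ ang l) (l + (0 : ℝ) • y) := by
      rw [h0]
      exact (ang_hasStrictFDerivAt hl).hasFDerivAt
    exact h.comp_hasDerivAt (0 : ℝ) hγ
  have h2 : HasDerivAt (fun s : ℝ => lam (ang (l + s • y)))
      (fderiv ℝ lam (ang l) (fderiv ℝ ang l y)) 0 := by
    have h : HasFDerivAt lam (fderiv ℝ lam (ang l)) (ang (l + (0 : ℝ) • y)) := by
      rw [h0]
      exact (diff_lam (ang_mem_PP hl)).hasFDerivAt
    exact h.comp_hasDerivAt (0 : ℝ) h1
  have h3 : HasDerivAt (fun s : ℝ => kfac (l + s • y)) (fderiv ℝ kfac l y) 0 := by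
    have h : HasFDerivAt kfac (fderiv ℝ kfac l) (l + (0 : ℝ) • y) := by
      rw [h0]
      exact (diff_kfac hl).hasFDerivAt
    exact h.comp_hasDerivAt (0 : ℝ) hγ
  have h4 : HasDerivAt (fun s : ℝ => kfac (l + s • y) • (l + s • y))
      (kfac (l + (0 : ℝ) • y) • y + fderiv ℝ kfac l y • (l + (0 : ℝ) • y)) 0 := h3.smul hγ
  have h5 : (fun s : ℝ => lam (ang (l + s • y))) =ᶠ[nhds 0]
      (fun s : ℝ => kfac (l + s • y) • (l + s • y)) := by
    have hT : ∀ᶠ s in nhds (0 : ℝ), l + s • y ∈ T := by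
      have hc : ContinuousAt (fun s : ℝ => l + s • y) 0 := hγ.continuousAt
      refine hc.eventually_mem ?_
      rw [h0]
      exact isOpen_T.mem_nhds hl
    filter_upwards [hT] with s hs
    exact lam_ang hs
  have h6 := h2.unique (h4.congr_of_eventuallyEq h5)
  rw [hy, map_zero, h0] at h6
  have hk := kfac_pos hl
  refine ⟨-(fderiv ℝ kfac l y / kfac l), ?_⟩
  have h7 : kfac l • y = -(fderiv ℝ kfac l y • l) := by
    rw [eq_neg_iff_add_eq_zero]
    exact h6.symm
  have h8 : y = (kfac l)⁻¹ • (kfac l • y) := by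
    rw [smul_smul, inv_mul_cancel₀ hk.ne', one_smul]
  calc y = (kfac l)⁻¹ • (kfac l • y) := h8
    _ = -(fderiv ℝ kfac l y / kfac l) • l := by
      rw [h7, smul_neg, smul_smul, neg_smul, div_eq_inv_mul]

end Pool.Agent.helper37.NP
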