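import Pool.Agent.helper37.NP.CaseB
import Pool.Agent.helper37.NP.ZRi

/-!
NP-34 (Z4).  A two-parameter family whose angles lie in an affine space of dimension at most 2.

`N` is a subspace of `V6` (directions), `H0` a point, all `ang (l u) - H0 ∈ N`, `finrank N ≤ 2`.

PROOF.  Fix `u0 ∈ U`.  `A = ang ∘ l` has at every `u ∈ U` the strict derivative
`A' = (fderiv ℝ ang (l u)).comp (fderiv ℝ l u)` with values in `N` (closed subspace), and `A'` is
injective: `A' x = 0` gives by `ang_rigid` `fderiv ℝ l u x = k • l u`, so `x = 0` by `himm`.  So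
`2 ≤ finrank N`, hence `finrank N = 2`; let `b1, b2` be a basis of `N`.  In these coordinates
`A u - H0 = ψ1 u • b1 + ψ2 u • b2`, `ψ : ℝ × ℝ → ℝ × ℝ` with strict derivative at `u0` bijective, so by
`HasStrictFDerivAt.map_nhds_eq_of_surj` (or `_of_equiv`) `ψ '' U` contains an open neighbourhood `V` of
`ψ u0`.  Every `x ∈ V` is `ψ u`, so `H0 + x.1 • b1 + x.2 • b2 = ang (l u)` with `l u ∈ T`.  Apply
`caseB`.
-/

namespace Pool.Agent.helper37.NP

open Real

theorem no_family4 (N : Submodule ℝ V6) (hN : Module.finrank ℝ N ≤ 2) (H0 : V6)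
    (U : Set (ℝ × ℝ)) (hU : IsOpen U) (hne : U.Nonempty) (l : ℝ × ℝ → V6) (hl : ContDiffOn ℝ 1 l U)
    (hT : ∀ u ∈ U, l u ∈ T) (hN' : ∀ u ∈ U, ang (l u) - H0 ∈ N)
    (himm : ∀ u ∈ U, ∀ (x : ℝ × ℝ) (k : ℝ), fderiv ℝ l u x = k • l u → x = 0) : False := by
  obtain ⟨u0, hu0⟩ := hne
  have hUn : U ∈ nhds u0 := hU.mem_nhds hu0
  have hlc : ContDiffAt ℝ 1 l u0 := hl.contDiffAt hUn
  have hls : HasStrictFDerivAt l (fderiv ℝ l u0) u0 := hlc.hasStrictFDerivAt one_ne_zero
  have hangs := ang_hasStrictFDerivAt (hT u0 hu0)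
  obtain ⟨A', hA'⟩ : ∃ A' : ℝ × ℝ →L[ℝ] V6,
      A' = (fderiv ℝ ang (l u0)).comp (fderiv ℝ l u0) := ⟨_, rfl⟩
  have hA : HasStrictFDerivAt (fun u => ang (l u)) A' u0 := by
    rw [hA']
    exact hangs.comp u0 hls
  have hker : ∀ x, A' x = 0 → x = 0 := by
    intro x hx
    rw [hA'] at hx
    obtain ⟨k, hk⟩ := ang_rigid (hT u0 hu0) (y := fderiv ℝ l u0 x) hx
    exact himm u0 hu0 x k hk
  have hinj : Function.Injective A' := by
    intro x y hxy
    have := hker (x - y) (by rw [map_sub, hxy, sub_self])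
    exact sub_eq_zero.mp this
  have hAN : ∀ x, A' x ∈ N := by
    intro x
    by_contra hx
    obtain ⟨f, hf, hfN⟩ := Submodule.exists_le_ker_of_notMem hx
    have hfN' : ∀ v ∈ N, f v = 0 := fun v hv => LinearMap.mem_ker.mp (hfN hv)
    obtain ⟨fc, hfc⟩ : ∃ fc : V6 →L[ℝ] ℝ, ∀ v, fc v = f v :=
      ⟨LinearMap.toContinuousLinearMap f, fun v => rfl⟩
    have h1 : HasFDerivAt (fun u => fc (ang (l u))) (fc.comp A') u0 :=
      fc.hasFDerivAt.comp u0 hA.hasFDerivAt
    have h2 : HasFDerivAt (fun u => fc (ang (l u))) (0 : ℝ × ℝ →L[ℝ] ℝ) u0 := by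
      have h3 : HasFDerivAt (fun _ : ℝ × ℝ => fc H0) (0 : ℝ × ℝ →L[ℝ] ℝ) u0 :=
        hasFDerivAt_const _ _
      refine h3.congr_of_eventuallyEq ?_
      filter_upwards [hUn] with u hu
      have h4 := hfN' _ (hN' u hu)
      rw [← hfc, map_sub] at h4
      linarith
    have h5 := h1.unique h2
    have h6 : (fc.comp A') x = 0 := by rw [h5]; rfl
    apply hf
    rw [← hfc]
    exact h6
  obtain ⟨L, hL⟩ : ∃ L : V6 →L[ℝ] ℝ × ℝ, ∀ x, L (A' x) = x := by
    obtain ⟨g, hg⟩ := LinearMap.exists_leftInverse_of_injective (A' : ℝ × ℝ →ₗ[ℝ] V6)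
      (LinearMap.ker_eq_bot.mpr hinj)
    refine ⟨LinearMap.toContinuousLinearMap g, fun x => ?_⟩
    have := LinearMap.congr_fun hg x
    exact this
  have hrange : LinearMap.range (A' : ℝ × ℝ →ₗ[ℝ] V6) = N := by
    apply Submodule.eq_of_le_of_finrank_le
    · rintro _ ⟨x, rfl⟩
      exact hAN x
    · rw [LinearMap.finrank_range_of_inj (f := (A' : ℝ × ℝ →ₗ[ℝ] V6)) hinj]
      simpa using hN
  have hexp : ∀ x : ℝ × ℝ, A' x = x.1 • A' (1, 0) + x.2 • A' (0, 1) := by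
    intro x
    rw [← map_smul, ← map_smul, ← map_add]
    congr 1
    ext <;> simp
  have hback : ∀ v ∈ N, A' (L v) = v := by
    intro v hv
    rw [← hrange] at hv
    obtain ⟨x, rfl⟩ := hv
    exact congrArg A' (hL x)
  have hψ : HasStrictFDerivAt (fun u => L (ang (l u) - H0)) (ContinuousLinearMap.id ℝ (ℝ × ℝ)) u0 := by
    have h1 : HasStrictFDerivAt (fun u => L (ang (l u) - H0)) (L.comp A') u0 :=
      L.hasStrictFDerivAt.comp u0 (hA.sub_const H0)
    have h2 : L.comp A' = ContinuousLinearMap.id ℝ (ℝ × ℝ) := by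
      ext <;> simp [hL]
    rwa [h2] at h1
  have hmap := hψ.map_nhds_eq_of_surj (by
    rw [LinearMap.range_eq_top]
    exact fun x => ⟨x, rfl⟩)
  have himg : (fun u => L (ang (l u) - H0)) '' U ∈ nhds (L (ang (l u0) - H0)) := by
    rw [← hmap]
    exact Filter.image_mem_map hUn
  have hli : LinearIndependent ℝ ![A' (1, 0), A' (0, 1)] := by
    rw [LinearIndependent.pair_iff]
    intro s t hst
    have h1 := hexp (s, t)
    simp only at h1
    rw [hst] at h1
    have h2 := hker _ h1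
    simpa [Prod.ext_iff] using h2
  refine caseB H0 (A' (1, 0)) (A' (0, 1)) hli
    (interior ((fun u => L (ang (l u) - H0)) '' U)) isOpen_interior
    ⟨_, mem_interior_iff_mem_nhds.mpr himg⟩ ?_
  intro x hx
  obtain ⟨u, hu, rfl⟩ := interior_subset hx
  refine ⟨l u, hT u hu, ?_⟩
  have h1 := hback _ (hN' u hu)
  rw [hexp] at h1
  rw [add_assoc, h1]
  abel

end Pool.Agent.helper37.NP
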