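import Pool.Agent.helper37.NP.Z3
import Pool.Agent.helper37.NP.Z4
import Pool.Agent.helper37.NP.ZFd

/-!
NP (ZNs).  No two-parameter family of edge vectors has constant data.

PROOF.  Let `S = span (range s)`, `finrank S = k`.
* `k ≥ 3`: at `u ∈ U` the vectors `l u` and the values of `fderiv ℝ l u` lie in `S` and span a
  3-dimensional space by `himm` (the map `(τ, x) ↦ τ • l u + l' x` is injective).
* `k = 3`: there is a linear form `c'` with `c' (s i) = c i`, and `dotp x (ang (l u)) = c' x` for
  `x ∈ S` (both sides linear in `x`): `no_family3`.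
* `k ≥ 4`: fix `u0 ∈ U`, `H0 = ang (l u0)`; `ang (l u) - H0` is orthogonal to all `s i`, so it lies in
  `ann s`, `finrank (ann s) = 6 - k ≤ 2`: `no_family4`.
-/

namespace Pool.Agent.helper37.NP

open Real

theorem no_data {k : ℕ} (s : Fin k → V6) (hs : LinearIndependent ℝ s) (c : Fin k → ℝ)
    (U : Set (ℝ × ℝ)) (hU : IsOpen U) (hne : U.Nonempty) (l : ℝ × ℝ → V6)
    (hl : ContDiffOn ℝ 1 l U) (hT : ∀ u ∈ U, l u ∈ T)
    (hdat : ∀ u ∈ U, l u ∈ Submodule.span ℝ (Set.range s) ∧ ∀ i, dotp (s i) (ang (l u)) = c i)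
    (himm : ∀ u ∈ U, ∀ (x : ℝ × ℝ) (k : ℝ), fderiv ℝ l u x = k • l u → x = 0) : False := by
  have hfr : Module.finrank ℝ (Submodule.span ℝ (Set.range s)) = k := by
    rw [finrank_span_eq_card hs, Fintype.card_fin]
  have hk3 : 3 ≤ k := by
    obtain ⟨u, hu⟩ := hne
    have hD : HasFDerivAt l (fderiv ℝ l u) u :=
      ((hl.contDiffAt (hU.mem_nhds hu)).differentiableAt (by norm_num)).hasFDerivAt
    have hmem : ∀ x, fderiv ℝ l u x ∈ Submodule.span ℝ (Set.range s) :=
      fderiv_mem _ hD (by
        filter_upwards [hU.mem_nhds hu] with y hy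
        exact (hdat y hy).1)
    let Φ : (ℝ × (ℝ × ℝ)) →ₗ[ℝ] V6 :=
      (LinearMap.toSpanSingleton ℝ V6 (l u)).coprod (fderiv ℝ l u).toLinearMap
    have hΦ : ∀ x, Φ x ∈ Submodule.span ℝ (Set.range s) := by
      intro x
      have : Φ x = x.1 • l u + fderiv ℝ l u x.2 := rfl
      rw [this]
      exact Submodule.add_mem _ (Submodule.smul_mem _ _ (hdat u hu).1) (hmem _)
    have hinj : Function.Injective (Φ.codRestrict _ hΦ) := by
      rw [← LinearMap.ker_eq_bot, LinearMap.ker_eq_bot']
      intro x hx
      have h1 : x.1 • l u + fderiv ℝ l u x.2 = 0 := by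
        have := congrArg Subtype.val hx
        exact this
      have h2 : x.2 = 0 := himm u hu x.2 (-x.1) (by
        rw [neg_smul]
        exact eq_neg_of_add_eq_zero_right h1)
      rw [h2, map_zero, add_zero] at h1
      have h3 : x.1 = 0 := by
        have h4 := congrFun h1 0
        have h5 := T_pos (hT u hu) 0
        simp only [Pi.smul_apply, smul_eq_mul, Pi.zero_apply] at h4
        exact (mul_eq_zero.mp h4).resolve_right h5.ne'
      exact Prod.ext h3 h2
    have h6 := LinearMap.finrank_le_finrank_of_injective hinj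
    rw [hfr] at h6
    simpa using h6
  rcases Nat.lt_or_ge k 4 with hk | hk
  · -- case `k = 3`
    have hk' : k = 3 := by omega
    let B := Module.Basis.span hs
    obtain ⟨c', hc'⟩ := LinearMap.exists_extend (B.constr ℝ c)
    have hcs : ∀ i, c' (s i) = c i := by
      intro i
      have h1 : c' (B i : V6) = B.constr ℝ c (B i) := by
        rw [← hc']
        rfl
      rw [Module.Basis.constr_basis] at h1
      rw [← h1]
      congr 1
      exact (congrArg Subtype.val (Module.Basis.span_apply hs i)).symm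
    refine no_family3 (Submodule.span ℝ (Set.range s)) (by rw [hfr, hk']) c' U hU hne l hl hT
      (fun u hu => (hdat u hu).1) (fun u hu x hx => ?_) himm
    induction hx using Submodule.span_induction with
    | mem x hx =>
      obtain ⟨i, rfl⟩ := hx
      rw [hcs i]
      exact (hdat u hu).2 i
    | zero => rw [dotp_zero_left, map_zero]
    | add x y _ _ h1 h2 => rw [dotp_add_left, map_add, h1, h2]
    | smul k x _ h1 => rw [dotp_smul_left, map_smul, h1, smul_eq_mul]
  · obtain ⟨u0, hu0⟩ := hne
    refine no_family4 (ann s) (by have := finrank_ann s hs; omega) (ang (l u0)) U hU ⟨u0, hu0⟩ l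
      hl hT (fun u hu i => ?_) himm
    rw [dotp_sub_right, (hdat u hu).2 i, (hdat u0 hu0).2 i, sub_self]

end Pool.Agent.helper37.NP
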