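import Pool.Agent.helper37.NP.HFa
import Pool.Agent.helper37.NP.HDa
import Pool.Agent.helper37.NP.ZNs

/-!
NP-H7 (HTr).  Two quotients of edge lengths are algebraically dependent.

PROOF.  Suppose `![l e / l g, l f / l g]` is algebraically independent over `ℚ`.  Then `e ≠ f` (an
independent family is injective).  Put `l' = (1 / l g) • l ∈ T` (`smul_mem_T`, `T_pos`), `ang l' = ang l`
(`ang_smul`), `l' g = 1`, `l' ∈ span`; so `g ≠ e, f` (`1` is not transcendental; not needed).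
`exists_family` gives `B, ε, F`; `data_const` on the ball.  Put
`U = {x : ℝ × ℝ | u x ∈ ball u0 ε}`, `u x = u0 + x.1 • Pi.single e 1 + x.2 • Pi.single f 1` and
`L x = F (u x)`.  `U` is open and contains `(0, 0)`, `L` is `C¹` (analytic) on `U`, `L x ∈ T`, with
constant data.  `himm`: let `fderiv ℝ L x v = k • L x`.  On `U`: `L · g = 1`, so the `g`-component gives
`0 = k * 1`; `L x e = u0 e + x.1`, `L x f = u0 f + x.2`, so the `e`- and `f`-components give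
`v.1 = 0`, `v.2 = 0`.  So `no_data` gives `False`.
-/

namespace Pool.Agent.helper37.NP

open Real

/-- components of the derivative of a map into `V6` -/
private theorem htr_comp {L : ℝ × ℝ → V6} {x0 : ℝ × ℝ} {L' : ℝ × ℝ →L[ℝ] V6}
    (hL : HasFDerivAt L L' x0) {i : Fin 6} {G : ℝ × ℝ → ℝ} {G' : ℝ × ℝ →L[ℝ] ℝ}
    (hG : HasFDerivAt G G' x0) (h : (fun x => L x i) =ᶠ[nhds x0] G) (v : ℝ × ℝ) :
    L' v i = G' v := by
  have h1 := (hasFDerivAt_pi'.1 hL i).congr_of_eventuallyEq h.symm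
  have h2 := congrArg (fun A : ℝ × ℝ →L[ℝ] ℝ => A v) (h1.unique hG)
  exact h2

theorem not_algInd {l : V6} (hl : l ∈ T) {k : ℕ} (s : Fin k → Fin 6 → ℤ) (r : Fin k → ℚ)
    (hs : LinearIndependent ℝ (fun i => iv (s i)))
    (hsp : l ∈ Submodule.span ℝ (Set.range fun i => iv (s i)))
    (hr : ∀ i, dotp (iv (s i)) (ang l) = π * (r i : ℝ)) (e f g : Fin 6) :
    ¬ AlgebraicIndependent ℚ ![l e / l g, l f / l g] := by
  intro h
  have hef : e ≠ f := by
    rintro rfl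
    have h1 := h.injective (a₁ := 0) (a₂ := 1) rfl
    exact absurd h1 (by decide)
  have hg0 : 0 < l g := T_pos hl g
  have hg1 : 0 < (l g)⁻¹ := inv_pos.2 hg0
  have hl' : (l g)⁻¹ • l ∈ T := smul_mem_T hl hg1
  have hgg : ((l g)⁻¹ • l) g = 1 := inv_mul_cancel₀ hg0.ne'
  have h' : AlgebraicIndependent ℚ ![((l g)⁻¹ • l) e, ((l g)⁻¹ • l) f] := by
    have h2 : ![((l g)⁻¹ • l) e, ((l g)⁻¹ • l) f] = ![l e / l g, l f / l g] := by
      simp only [Pi.smul_apply, smul_eq_mul, div_eq_inv_mul]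
    rw [h2]
    exact h
  obtain ⟨B, ε, F, heB, hfB, hε, hGen, hF0, hAn, hAF, hdat⟩ := exists_family hl' hgg hef h'
  have hsp' : F (fun b : B => ((l g)⁻¹ • l) b) ∈
      Submodule.span ℝ (Set.range fun i => iv (s i)) := by
    rw [hF0]
    exact Submodule.smul_mem _ _ hsp
  have hr' : ∀ i, dotp (iv (s i)) (ang (F (fun b : B => ((l g)⁻¹ • l) b))) = π * (r i : ℝ) := by
    intro i
    rw [hF0, ang_smul hg1]
    exact hr i
  have hcon := data_const hGen (fun u hu => (hdat u hu).1) hAn hAF s r hs hsp' hr'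
  set u0 : B → ℝ := fun b : B => ((l g)⁻¹ • l) b with hu0
  have hfe : (⟨f, hfB⟩ : B) ≠ ⟨e, heB⟩ := fun h6 => hef (congrArg Subtype.val h6).symm
  obtain ⟨se, hse, hse'⟩ : ∃ se : B → ℝ, se ⟨e, heB⟩ = 1 ∧ se ⟨f, hfB⟩ = 0 :=
    ⟨Pi.single ⟨e, heB⟩ 1, Pi.single_eq_same _ _, Pi.single_eq_of_ne hfe _⟩
  obtain ⟨sf, hsf, hsf'⟩ : ∃ sf : B → ℝ, sf ⟨f, hfB⟩ = 1 ∧ sf ⟨e, heB⟩ = 0 :=
    ⟨Pi.single ⟨f, hfB⟩ 1, Pi.single_eq_same _ _, Pi.single_eq_of_ne hfe.symm _⟩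
  let u : ℝ × ℝ → (B → ℝ) := fun x => u0 + x.1 • se + x.2 • sf
  have hu : ContDiff ℝ 1 u := by
    refine (contDiff_const.add ?_).add ?_
    · exact contDiff_fst.smul contDiff_const
    · exact contDiff_snd.smul contDiff_const
  have hU : IsOpen (u ⁻¹' Metric.ball u0 ε) := Metric.isOpen_ball.preimage hu.continuous
  have hne : (u ⁻¹' Metric.ball u0 ε).Nonempty := by
    refine ⟨(0, 0), ?_⟩
    have h3 : u (0, 0) = u0 := by
      change u0 + (0 : ℝ) • _ + (0 : ℝ) • _ = u0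
      rw [zero_smul, zero_smul, add_zero, add_zero]
    change u (0, 0) ∈ Metric.ball u0 ε
    rw [h3]
    exact Metric.mem_ball_self hε
  have hL : ContDiffOn ℝ 1 (fun x => F (u x)) (u ⁻¹' Metric.ball u0 ε) := by
    have h4 : ContDiffOn ℝ 1 F (Metric.ball u0 ε) :=
      contDiffOn_pi.2 fun i => (hAn i).contDiffOn Metric.isOpen_ball.uniqueDiffOn
    exact h4.comp hu.contDiffOn (fun x hx => hx)
  refine no_data (fun i => iv (s i)) hs (fun i => π * (r i : ℝ)) _ hU hne (fun x => F (u x)) hL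
    (fun x hx => (hdat _ hx).1) (fun x hx => hcon _ hx) ?_
  intro x0 hx0 v k hv
  have hD : HasFDerivAt (fun x => F (u x)) (fderiv ℝ (fun x => F (u x)) x0) x0 :=
    ((hL.contDiffAt (hU.mem_nhds hx0)).differentiableAt (by norm_num)).hasFDerivAt
  have hnh : ∀ᶠ x in nhds x0, u x ∈ Metric.ball u0 ε := hU.mem_nhds hx0
  have c1 := htr_comp hD (i := g) (hasFDerivAt_const (1 : ℝ) x0)
    (hnh.mono fun x hx => (hdat _ hx).2.1) v
  have hk : k = 0 := by
    rw [hv] at c1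
    have h5 : (k • F (u x0)) g = k * F (u x0) g := rfl
    rw [h5, (hdat _ hx0).2.1, mul_one] at c1
    exact c1
  have ce := htr_comp hD (i := e) ((hasFDerivAt_const (u0 ⟨e, heB⟩) x0).add
    (hasFDerivAt_fst (𝕜 := ℝ) (p := x0))) (hnh.mono fun x hx => by
      refine ((hdat _ hx).2.2 ⟨e, heB⟩).trans ?_
      change u0 ⟨e, heB⟩ + x.1 * se ⟨e, heB⟩ + x.2 * sf ⟨e, heB⟩ = u0 ⟨e, heB⟩ + x.1
      rw [hse, hsf']
      ring) v
  have cf := htr_comp hD (i := f) ((hasFDerivAt_const (u0 ⟨f, hfB⟩) x0).add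
    (hasFDerivAt_snd (𝕜 := ℝ) (p := x0))) (hnh.mono fun x hx => by
      refine ((hdat _ hx).2.2 ⟨f, hfB⟩).trans ?_
      change u0 ⟨f, hfB⟩ + x.1 * se ⟨f, hfB⟩ + x.2 * sf ⟨f, hfB⟩ = u0 ⟨f, hfB⟩ + x.2
      rw [hse', hsf]
      ring) v
  rw [hv, hk, zero_smul] at ce cf
  have h7 : v.1 = 0 := by
    have h8 : (0 : ℝ) = 0 + v.1 := ce
    linarith
  have h9 : v.2 = 0 := by
    have h8 : (0 : ℝ) = 0 + v.2 := cf
    linarith
  exact Prod.ext h7 h9

end Pool.Agent.helper37.NP
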