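import Pool.Agent.helper37.NP.Defs

/-!
NP-03 (Perm).  Action of the transpositions `(a b)`, `(b c)`, `(c d)` of the vertices.

PROOFS.  Pure computation: `sg` and `Q` are permuted, `W` is invariant (`ring`), `Nu` and `He` are
symmetric in the way needed:
`Nu p q r s t u = Nu p r q t s u`, `Nu p q r s t u = Nu p s t q r u`
(the last is the symmetry of the edge `xy`), `He` is symmetric.
-/

namespace Pool.Agent.helper37.NP

open Real

/-- transposition `(a b)` -/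
def sab (l : V6) : V6 := ![l 0, l 3, l 4, l 1, l 2, l 5]
/-- transposition `(b c)` -/
def sbc (l : V6) : V6 := ![l 1, l 0, l 2, l 3, l 5, l 4]
/-- transposition `(c d)` -/
def scd (l : V6) : V6 := ![l 0, l 2, l 1, l 4, l 3, l 5]


private theorem vec4 {x y : Fin 4 → ℝ} (h0 : x 0 = y 0) (h1 : x 1 = y 1) (h2 : x 2 = y 2)
    (h3 : x 3 = y 3) : x = y := by
  funext v
  fin_cases v
  · exact h0
  · exact h1
  · exact h2
  · exact h3

private theorem vec3 {x y : Fin 3 → ℝ} (h0 : x 0 = y 0) (h1 : x 1 = y 1) (h2 : x 2 = y 2) :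
    x = y := by
  funext v
  fin_cases v
  · exact h0
  · exact h1
  · exact h2

private theorem vec6 {x y : Fin 6 → ℝ} (h0 : x 0 = y 0) (h1 : x 1 = y 1) (h2 : x 2 = y 2)
    (h3 : x 3 = y 3) (h4 : x 4 = y 4) (h5 : x 5 = y 5) : x = y := by
  funext v
  fin_cases v
  · exact h0
  · exact h1
  · exact h2
  · exact h3
  · exact h4
  · exact h5


theorem sg_sab (l : V6) : sg (sab l) = ![sg l 1, sg l 0, sg l 2, sg l 3] := by
  apply vec4
  · change l 0 + l 3 + l 4 = l 0 + l 3 + l 4; ring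
  · change l 0 + l 1 + l 2 = l 0 + l 1 + l 2; ring
  · change l 3 + l 1 + l 5 = l 1 + l 3 + l 5; ring
  · change l 4 + l 2 + l 5 = l 2 + l 4 + l 5; ring
theorem sg_sbc (l : V6) : sg (sbc l) = ![sg l 0, sg l 2, sg l 1, sg l 3] := by
  apply vec4
  · change l 1 + l 0 + l 2 = l 0 + l 1 + l 2; ring
  · change l 1 + l 3 + l 5 = l 1 + l 3 + l 5; ring
  · change l 0 + l 3 + l 4 = l 0 + l 3 + l 4; ring
  · change l 2 + l 5 + l 4 = l 2 + l 4 + l 5; ring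
theorem sg_scd (l : V6) : sg (scd l) = ![sg l 0, sg l 1, sg l 3, sg l 2] := by
  apply vec4
  · change l 0 + l 2 + l 1 = l 0 + l 1 + l 2; ring
  · change l 0 + l 4 + l 3 = l 0 + l 3 + l 4; ring
  · change l 2 + l 4 + l 5 = l 2 + l 4 + l 5; ring
  · change l 1 + l 3 + l 5 = l 1 + l 3 + l 5; ring
theorem Q_sab (l : V6) : Q (sab l) = ![Q l 0, Q l 2, Q l 1] := by
  apply vec3
  · change l 0 + l 5 = l 0 + l 5; ring
  · change l 3 + l 2 = l 2 + l 3; ring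
  · change l 4 + l 1 = l 1 + l 4; ring
theorem Q_sbc (l : V6) : Q (sbc l) = ![Q l 1, Q l 0, Q l 2] := by
  apply vec3
  · change l 1 + l 4 = l 1 + l 4; ring
  · change l 0 + l 5 = l 0 + l 5; ring
  · change l 2 + l 3 = l 2 + l 3; ring
theorem Q_scd (l : V6) : Q (scd l) = ![Q l 0, Q l 2, Q l 1] := by
  apply vec3
  · change l 0 + l 5 = l 0 + l 5; ring
  · change l 2 + l 3 = l 2 + l 3; ring
  · change l 1 + l 4 = l 1 + l 4; ring
theorem W_sab (l : V6) : W (sab l) = W l := by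
  change Wsq (l 0 ^ 2) (l 3 ^ 2) (l 4 ^ 2) (l 1 ^ 2) (l 2 ^ 2) (l 5 ^ 2) =
    Wsq (l 0 ^ 2) (l 1 ^ 2) (l 2 ^ 2) (l 3 ^ 2) (l 4 ^ 2) (l 5 ^ 2)
  unfold Wsq
  ring
theorem W_sbc (l : V6) : W (sbc l) = W l := by
  change Wsq (l 1 ^ 2) (l 0 ^ 2) (l 2 ^ 2) (l 3 ^ 2) (l 5 ^ 2) (l 4 ^ 2) =
    Wsq (l 0 ^ 2) (l 1 ^ 2) (l 2 ^ 2) (l 3 ^ 2) (l 4 ^ 2) (l 5 ^ 2)
  unfold Wsq
  ring
theorem W_scd (l : V6) : W (scd l) = W l := by
  change Wsq (l 0 ^ 2) (l 2 ^ 2) (l 1 ^ 2) (l 4 ^ 2) (l 3 ^ 2) (l 5 ^ 2) =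
    Wsq (l 0 ^ 2) (l 1 ^ 2) (l 2 ^ 2) (l 3 ^ 2) (l 4 ^ 2) (l 5 ^ 2)
  unfold Wsq
  ring
theorem T_sab {l : V6} (hl : l ∈ T) : sab l ∈ T := by
  refine ⟨fun v j => ?_, by rw [W_sab]; exact hl.2⟩
  have e1 : Q (sab l) = fun j => Q l ((![0, 2, 1] : Fin 3 → Fin 3) j) := by
    rw [Q_sab]
    exact vec3 rfl rfl rfl
  have e2 : sg (sab l) = fun v => sg l ((![1, 0, 2, 3] : Fin 4 → Fin 4) v) := by
    rw [sg_sab]
    exact vec4 rfl rfl rfl rfl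
  rw [e1, e2]
  exact hl.1 _ _
theorem T_sbc {l : V6} (hl : l ∈ T) : sbc l ∈ T := by
  refine ⟨fun v j => ?_, by rw [W_sbc]; exact hl.2⟩
  have e1 : Q (sbc l) = fun j => Q l ((![1, 0, 2] : Fin 3 → Fin 3) j) := by
    rw [Q_sbc]
    exact vec3 rfl rfl rfl
  have e2 : sg (sbc l) = fun v => sg l ((![0, 2, 1, 3] : Fin 4 → Fin 4) v) := by
    rw [sg_sbc]
    exact vec4 rfl rfl rfl rfl
  rw [e1, e2]
  exact hl.1 _ _
theorem T_scd {l : V6} (hl : l ∈ T) : scd l ∈ T := by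
  refine ⟨fun v j => ?_, by rw [W_scd]; exact hl.2⟩
  have e1 : Q (scd l) = fun j => Q l ((![0, 2, 1] : Fin 3 → Fin 3) j) := by
    rw [Q_scd]
    exact vec3 rfl rfl rfl
  have e2 : sg (scd l) = fun v => sg l ((![0, 1, 3, 2] : Fin 4 → Fin 4) v) := by
    rw [sg_scd]
    exact vec4 rfl rfl rfl rfl
  rw [e1, e2]
  exact hl.1 _ _

private theorem co_eq {p q r s t u p' q' r' s' t' u' : ℝ}
    (h : Nu p q r s t u = Nu p' q' r' s' t' u')
    (h1 : (He p q s = He p' q' s' ∧ He p r t = He p' r' t') ∨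
      (He p q s = He p' r' t' ∧ He p r t = He p' q' s')) :
    co p q r s t u = co p' q' r' s' t' u' := by
  unfold co
  rw [h]
  rcases h1 with ⟨h1, h2⟩ | ⟨h1, h2⟩
  · rw [h1, h2]
  · rw [h1, h2, mul_comm (Real.sqrt (He p' r' t'))]


/-- symmetries of `co` -/
private theorem co_swap (p q r s t u : ℝ) : co p q r s t u = co p r q t s u :=
  co_eq (by unfold Nu; ring) (Or.inr ⟨rfl, rfl⟩)

private theorem co_rev (p q r s t u : ℝ) : co p q r s t u = co p s t q r u :=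
  co_eq (by unfold Nu; ring) (Or.inl ⟨by unfold He; ring, by unfold He; ring⟩)

theorem ang_sab (l : V6) : ang (sab l) = sab (ang l) := by
  apply vec6
  · change Real.arccos (co (l 0) (l 3) (l 4) (l 1) (l 2) (l 5)) =
      Real.arccos (co (l 0) (l 1) (l 2) (l 3) (l 4) (l 5))
    rw [co_rev]
  · change Real.arccos (co (l 3) (l 0) (l 4) (l 1) (l 5) (l 2)) =
      Real.arccos (co (l 3) (l 0) (l 4) (l 1) (l 5) (l 2))
    rfl
  · change Real.arccos (co (l 4) (l 0) (l 3) (l 2) (l 5) (l 1)) =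
      Real.arccos (co (l 4) (l 0) (l 3) (l 2) (l 5) (l 1))
    rfl
  · change Real.arccos (co (l 1) (l 0) (l 2) (l 3) (l 5) (l 4)) =
      Real.arccos (co (l 1) (l 0) (l 2) (l 3) (l 5) (l 4))
    rfl
  · change Real.arccos (co (l 2) (l 0) (l 1) (l 4) (l 5) (l 3)) =
      Real.arccos (co (l 2) (l 0) (l 1) (l 4) (l 5) (l 3))
    rfl
  · change Real.arccos (co (l 5) (l 3) (l 1) (l 4) (l 2) (l 0)) =
      Real.arccos (co (l 5) (l 1) (l 3) (l 2) (l 4) (l 0))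
    rw [co_swap]
theorem ang_sbc (l : V6) : ang (sbc l) = sbc (ang l) := by
  apply vec6
  · change Real.arccos (co (l 1) (l 0) (l 2) (l 3) (l 5) (l 4)) =
      Real.arccos (co (l 1) (l 0) (l 2) (l 3) (l 5) (l 4))
    rfl
  · change Real.arccos (co (l 0) (l 1) (l 2) (l 3) (l 4) (l 5)) =
      Real.arccos (co (l 0) (l 1) (l 2) (l 3) (l 4) (l 5))
    rfl
  · change Real.arccos (co (l 2) (l 1) (l 0) (l 5) (l 4) (l 3)) =
      Real.arccos (co (l 2) (l 0) (l 1) (l 4) (l 5) (l 3))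
    rw [co_swap]
  · change Real.arccos (co (l 3) (l 1) (l 5) (l 0) (l 4) (l 2)) =
      Real.arccos (co (l 3) (l 0) (l 4) (l 1) (l 5) (l 2))
    rw [co_rev]
  · change Real.arccos (co (l 5) (l 1) (l 3) (l 2) (l 4) (l 0)) =
      Real.arccos (co (l 5) (l 1) (l 3) (l 2) (l 4) (l 0))
    rfl
  · change Real.arccos (co (l 4) (l 0) (l 3) (l 2) (l 5) (l 1)) =
      Real.arccos (co (l 4) (l 0) (l 3) (l 2) (l 5) (l 1))
    rfl
theorem ang_scd (l : V6) : ang (scd l) = scd (ang l) := by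
  apply vec6
  · change Real.arccos (co (l 0) (l 2) (l 1) (l 4) (l 3) (l 5)) =
      Real.arccos (co (l 0) (l 1) (l 2) (l 3) (l 4) (l 5))
    rw [co_swap]
  · change Real.arccos (co (l 2) (l 0) (l 1) (l 4) (l 5) (l 3)) =
      Real.arccos (co (l 2) (l 0) (l 1) (l 4) (l 5) (l 3))
    rfl
  · change Real.arccos (co (l 1) (l 0) (l 2) (l 3) (l 5) (l 4)) =
      Real.arccos (co (l 1) (l 0) (l 2) (l 3) (l 5) (l 4))
    rfl
  · change Real.arccos (co (l 4) (l 0) (l 3) (l 2) (l 5) (l 1)) =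
      Real.arccos (co (l 4) (l 0) (l 3) (l 2) (l 5) (l 1))
    rfl
  · change Real.arccos (co (l 3) (l 0) (l 4) (l 1) (l 5) (l 2)) =
      Real.arccos (co (l 3) (l 0) (l 4) (l 1) (l 5) (l 2))
    rfl
  · change Real.arccos (co (l 5) (l 2) (l 4) (l 1) (l 3) (l 0)) =
      Real.arccos (co (l 5) (l 1) (l 3) (l 2) (l 4) (l 0))
    rw [co_rev]
theorem dotp_sab (l t : V6) : dotp (sab l) (sab t) = dotp l t := by
  change l 0 * t 0 + l 3 * t 3 + l 4 * t 4 + l 1 * t 1 + l 2 * t 2 + l 5 * t 5 =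
    l 0 * t 0 + l 1 * t 1 + l 2 * t 2 + l 3 * t 3 + l 4 * t 4 + l 5 * t 5
  ring
theorem dotp_sbc (l t : V6) : dotp (sbc l) (sbc t) = dotp l t := by
  change l 1 * t 1 + l 0 * t 0 + l 2 * t 2 + l 3 * t 3 + l 5 * t 5 + l 4 * t 4 =
    l 0 * t 0 + l 1 * t 1 + l 2 * t 2 + l 3 * t 3 + l 4 * t 4 + l 5 * t 5
  ring
theorem dotp_scd (l t : V6) : dotp (scd l) (scd t) = dotp l t := by
  change l 0 * t 0 + l 2 * t 2 + l 1 * t 1 + l 4 * t 4 + l 3 * t 3 + l 5 * t 5 =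
    l 0 * t 0 + l 1 * t 1 + l 2 * t 2 + l 3 * t 3 + l 4 * t 4 + l 5 * t 5
  ring
theorem Dv_sab (l : V6) : Dv (sab l) = ![Dv l 1, Dv l 0, Dv l 2, Dv l 3] := by
  apply vec4
  · change Dd (l 0) (l 3) (l 4) (l 5) (l 2) (l 1) = Dd (l 0) (l 3) (l 4) (l 5) (l 2) (l 1)
    rfl
  · change Dd (l 0) (l 1) (l 2) (l 5) (l 4) (l 3) = Dd (l 0) (l 1) (l 2) (l 5) (l 4) (l 3)
    rfl
  · change Dd (l 3) (l 1) (l 5) (l 2) (l 4) (l 0) = Dd (l 1) (l 3) (l 5) (l 4) (l 2) (l 0)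
    unfold Dd; ring
  · change Dd (l 4) (l 2) (l 5) (l 1) (l 3) (l 0) = Dd (l 2) (l 4) (l 5) (l 3) (l 1) (l 0)
    unfold Dd; ring
theorem Dv_sbc (l : V6) : Dv (sbc l) = ![Dv l 0, Dv l 2, Dv l 1, Dv l 3] := by
  apply vec4
  · change Dd (l 1) (l 0) (l 2) (l 4) (l 5) (l 3) = Dd (l 0) (l 1) (l 2) (l 5) (l 4) (l 3)
    unfold Dd; ring
  · change Dd (l 1) (l 3) (l 5) (l 4) (l 2) (l 0) = Dd (l 1) (l 3) (l 5) (l 4) (l 2) (l 0)
    rfl
  · change Dd (l 0) (l 3) (l 4) (l 5) (l 2) (l 1) = Dd (l 0) (l 3) (l 4) (l 5) (l 2) (l 1)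
    rfl
  · change Dd (l 2) (l 5) (l 4) (l 3) (l 0) (l 1) = Dd (l 2) (l 4) (l 5) (l 3) (l 1) (l 0)
    unfold Dd; ring
theorem Dv_scd (l : V6) : Dv (scd l) = ![Dv l 0, Dv l 1, Dv l 3, Dv l 2] := by
  apply vec4
  · change Dd (l 0) (l 2) (l 1) (l 5) (l 3) (l 4) = Dd (l 0) (l 1) (l 2) (l 5) (l 4) (l 3)
    unfold Dd; ring
  · change Dd (l 0) (l 4) (l 3) (l 5) (l 1) (l 2) = Dd (l 0) (l 3) (l 4) (l 5) (l 2) (l 1)
    unfold Dd; ring
  · change Dd (l 2) (l 4) (l 5) (l 3) (l 1) (l 0) = Dd (l 2) (l 4) (l 5) (l 3) (l 1) (l 0)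
    rfl
  · change Dd (l 1) (l 3) (l 5) (l 4) (l 2) (l 0) = Dd (l 1) (l 3) (l 5) (l 4) (l 2) (l 0)
    rfl

end Pool.Agent.helper37.NP
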