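import Pool.Agent.helper37.NP.GZe
import Pool.Agent.helper37.NP.ZLe
import Pool.Agent.helper37.NP.ZDa
import Pool.Agent.Helper93.Tet.Rank

/-!
NP-G6 (GSh).  The set of shapes of tetrahedra with Dehn invariant zero.

PROOFS.
* `arcs_shapes`: for `k : ℕ`, `s : Fin k → Fin 6 → ℤ`, `r : Fin k → ℚ` let `Z k s r` be the set of
  `arcs_data` for `iv ∘ s` and `c i = π * r i` if the `iv (s i)` are linearly independent, and `∅`
  otherwise.  The index type `Σ k, (Fin k → Fin 6 → ℤ) × (Fin k → ℚ)` is countable, so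
  `Arcs.iUnion` applies.  `shapes ⊆ ⋃ Z`: let `l = k' • lenv a b c d ∈ shapes`; `lenv_mem`,
  `smul_mem_T` give `l ∈ T`, `ang_smul`, `ang_lenv` give `ang l = angv a b c d`, and `dehn_data`
  provides `k, s, r` (`l ∈ span` as the span is closed under scaling).
* `one_le_dimH`: by `F1_exists`, `F1_dehn` of `Pool.Agent.Helper93.Tet` for every `m > 4` the vector
  `(m+1, m+1, m, 6, m-1, m-1)/(5m+6)` is in `shapes` (`HasEdges` says that the six distances have the
  given values).  The map `x ↦ x 3` is 1-Lipschitz on `V6` and the image of `shapes` contains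
  `{6/(5m+6) | m > 4} = (0, 3/13)`, an open interval, so
  `1 = dimH (Ioo 0 (3/13)) ≤ dimH (image) ≤ dimH shapes`
  (`Real.dimH_of_nonempty_interior`, `LipschitzWith.dimH_image_le`).
-/

namespace Pool.Agent.helper37.NP

open Real Pool.Agent.Helper93.Tet

/-- edge vectors, normalised to sum one, of the nondegenerate tetrahedra with Dehn invariant zero -/
def shapes : Set V6 :=
  {l | ∃ a b c d : E, AffineIndependent ℝ ![a, b, c, d] ∧ dehn a b c d = 0 ∧
    ∃ k : ℝ, 0 < k ∧ l = k • lenv a b c d ∧ ∑ e, l e = 1}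

theorem arcs_shapes : Arcs shapes := by
  classical
  let J : Type := Σ k : ℕ, (Fin k → Fin 6 → ℤ) × (Fin k → ℚ)
  let Z : J → Set V6 := fun j =>
    if LinearIndependent ℝ (fun i => iv (j.2.1 i)) then
      {x : V6 | x ∈ T ∧ ∑ e, x e = 1 ∧
        x ∈ Submodule.span ℝ (Set.range fun i => iv (j.2.1 i)) ∧
        ∀ i, dotp (iv (j.2.1 i)) (ang x) = π * (j.2.2 i : ℝ)}
    else ∅
  have hZ : ∀ j, Arcs (Z j) := by
    intro j
    by_cases h : LinearIndependent ℝ (fun i => iv (j.2.1 i))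
    · have e : Z j = {x : V6 | x ∈ T ∧ ∑ e, x e = 1 ∧
        x ∈ Submodule.span ℝ (Set.range fun i => iv (j.2.1 i)) ∧
        ∀ i, dotp (iv (j.2.1 i)) (ang x) = π * (j.2.2 i : ℝ)} := if_pos h
      rw [e]
      exact arcs_data _ h _
    · have e : Z j = ∅ := if_neg h
      rw [e]
      exact Arcs.empty
  refine (Arcs.iUnion hZ).mono ?_
  rintro l ⟨a, b, c, d, hind, hd, k', hk', hl, hsum⟩
  obtain ⟨k, s, r, hs, hsp, hr⟩ := dehn_data hd
  refine Set.mem_iUnion.2 ⟨⟨k, s, r⟩, ?_⟩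
  have e : Z ⟨k, s, r⟩ = {x : V6 | x ∈ T ∧ ∑ e, x e = 1 ∧
        x ∈ Submodule.span ℝ (Set.range fun i => iv (s i)) ∧
        ∀ i, dotp (iv (s i)) (ang x) = π * (r i : ℝ)} := if_pos hs
  rw [e]
  refine ⟨?_, hsum, ?_, ?_⟩
  · rw [hl]
    exact smul_mem_T (lenv_mem hind) hk'
  · rw [hl]
    exact Submodule.smul_mem _ _ hsp
  · rw [hl, ang_smul hk', ang_lenv hind]
    exact hr

theorem one_le_dimH : 1 ≤ dimH shapes := by
  have h1 : Set.Ioo (0 : ℝ) (3 / 13) ⊆ (fun x : V6 => x 3) '' shapes := by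
    rintro t ⟨ht0, ht1⟩
    obtain ⟨m, hm, hmt⟩ : ∃ m : ℝ, 4 < m ∧ 6 / (5 * m + 6) = t := by
      refine ⟨(6 / t - 6) / 5, ?_, ?_⟩
      · have h : 26 < 6 / t := by
          rw [lt_div_iff₀ ht0]
          linarith
        linarith
      · have h : 5 * ((6 / t - 6) / 5) + 6 = 6 / t := by ring
        rw [h]
        field_simp
    obtain ⟨a, b, c, d, hind, hE⟩ := F1_exists hm
    have hd := F1_dehn hm hE
    obtain ⟨e0, e1, e2, e3, e4, e5⟩ := hE
    have hp : 0 < 5 * m + 6 := by linarith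
    refine ⟨(1 / (5 * m + 6)) • lenv a b c d, ⟨a, b, c, d, hind, hd, 1 / (5 * m + 6),
      one_div_pos.2 hp, rfl, ?_⟩, ?_⟩
    · simp only [lenv, e0, e1, e2, e3, e4, e5, Fin.sum_univ_six, Pi.smul_apply, smul_eq_mul,
        Matrix.cons_val_zero, Matrix.cons_val_one, Matrix.cons_val]
      field_simp
      ring
    · rw [← hmt]
      simp only [lenv, e0, e1, e2, e3, e4, e5, Pi.smul_apply, smul_eq_mul, Matrix.cons_val]
      ring
  have h2 : LipschitzWith 1 (fun x : V6 => x 3) := LipschitzWith.eval 3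
  have h3 : dimH (Set.Ioo (0 : ℝ) (3 / 13)) = 1 := by
    have h := Real.dimH_of_nonempty_interior (s := Set.Ioo (0 : ℝ) (3 / 13))
      (by rw [interior_Ioo]; exact ⟨1 / 13, by norm_num, by norm_num⟩)
    rw [h, Module.finrank_self, Nat.cast_one]
  calc (1 : ENNReal) = dimH (Set.Ioo (0 : ℝ) (3 / 13)) := h3.symm
    _ ≤ dimH ((fun x : V6 => x 3) '' shapes) := dimH_mono h1
    _ ≤ dimH shapes := h2.dimH_image_le _

end Pool.Agent.helper37.NP
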