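import Pool.Agent.helper37.NP.HAf

/-!
NP-H2 (HBr).  A number algebraic over a generic point extends to an analytic algebraic function.

PROOF.  Let `R = MvPolynomial B ℚ`.  By hypothesis there is `P ∈ R[T]`, `P ≠ 0`, with
`P (u0, z) = 0` (transport through `aeval u0 : R → adjoin ℚ (range u0)`, which is surjective; it is
injective by `hgen`).  Choose such a `P` of minimal degree in `T`.  `P` has positive degree (a nonzero
constant `p ∈ R` has `aeval u0 p ≠ 0`).  The derivative `P'` (with respect to `T`) is nonzero (char 0) of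
smaller degree, so `P' (u0, z) ≠ 0` by minimality.  The function
`f (u, t) = P (u, t)`, `(B → ℝ) × ℝ → ℝ`, is a polynomial, so `C^ω`; its derivative in `t` at `(u0, z)`
is `P' (u0, z) ≠ 0`.  `ContDiffAt.implicitFunction` (Mathlib, `ImplicitContDiff`, with `n = ω`) gives
`ζ` with `ζ u0 = z`, `f (u, ζ u) = f (u0, z) = 0` near `u0`, `ζ` is `C^ω` at `u0`, so analytic near
`u0`.  Finally `(ζ u : ℂ)` satisfies the same equation (cast of the real identity to `ℂ`).
-/

namespace Pool.Agent.helper37.NP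

open scoped ContDiff Topology

/-- real evaluation of a polynomial over `ℚ[u_b]` -/
private noncomputable def re {B : Type} (P : Polynomial (MvPolynomial B ℚ)) (u : B → ℝ) (t : ℝ) : ℝ :=
  Polynomial.eval₂ (MvPolynomial.aeval u : MvPolynomial B ℚ →ₐ[ℚ] ℝ).toRingHom t P

private theorem pe_re {B : Type} (P : Polynomial (MvPolynomial B ℚ)) (u : B → ℝ) (t : ℝ) :
    pe P u (t : ℂ) = ((re P u t : ℝ) : ℂ) := by
  unfold pe re
  have h := Polynomial.hom_eval₂ P (MvPolynomial.aeval u : MvPolynomial B ℚ →ₐ[ℚ] ℝ).toRingHom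
    Complex.ofRealHom t
  have h2 : Complex.ofRealHom.comp (MvPolynomial.aeval u : MvPolynomial B ℚ →ₐ[ℚ] ℝ).toRingHom =
      (MvPolynomial.aeval (fun b => (u b : ℂ)) : MvPolynomial B ℚ →ₐ[ℚ] ℂ).toRingHom := by
    apply MvPolynomial.ringHom_ext
    · intro r
      simp
    · intro i
      simp
  rw [h2] at h
  exact h.symm

private theorem re_eq_sum {B : Type} (P : Polynomial (MvPolynomial B ℚ)) (u : B → ℝ) (t : ℝ) :
    re P u t = ∑ i ∈ Finset.range (P.natDegree + 1), MvPolynomial.aeval u (P.coeff i) * t ^ i := by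
  unfold re
  rw [Polynomial.eval₂_eq_sum_range]
  rfl

private theorem re_contDiff {B : Type} [Fintype B] (P : Polynomial (MvPolynomial B ℚ)) :
    ContDiff ℝ ω (fun x : (B → ℝ) × ℝ => re P x.1 x.2) := by
  have h : (fun x : (B → ℝ) × ℝ => re P x.1 x.2) = fun x : (B → ℝ) × ℝ =>
      ∑ i ∈ Finset.range (P.natDegree + 1), MvPolynomial.aeval x.1 (P.coeff i) * x.2 ^ i := by
    funext x
    exact re_eq_sum P x.1 x.2
  rw [h]
  refine ContDiff.sum fun i _ => ContDiff.mul ?_ ?_
  · have ha : AnalyticOnNhd ℝ (fun x : (B → ℝ) × ℝ => MvPolynomial.aeval x.1 (P.coeff i))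
        Set.univ := by
      intro x _
      have := AnalyticAt.aeval_mvPolynomial (𝕜 := ℝ) (A := ℚ) (f := fun x : (B → ℝ) × ℝ => x.1)
        (z := x) (fun b => by
          have : AnalyticAt ℝ (fun y : (B → ℝ) × ℝ => y.1 b) x := by
            have h1 : ContDiffAt ℝ ω (fun y : (B → ℝ) × ℝ => y.1 b) x := by fun_prop
            exact h1.analyticAt
          exact this) (P.coeff i)
      exact this
    exact contDiffOn_univ.1 (ha.contDiffOn uniqueDiffOn_univ)
  · fun_prop

private theorem re_deriv {B : Type} (P : Polynomial (MvPolynomial B ℚ)) (u : B → ℝ) (t : ℝ) :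
    HasDerivAt (fun t => re P u t) (re (Polynomial.derivative P) u t) t := by
  have h : ∀ (Q : Polynomial (MvPolynomial B ℚ)) (s : ℝ), re Q u s =
      (Q.map (MvPolynomial.aeval u : MvPolynomial B ℚ →ₐ[ℚ] ℝ).toRingHom).eval s := by
    intro Q s
    unfold re
    rw [Polynomial.eval₂_eq_eval_map]
  have h1 : (fun t => re P u t) = fun t =>
      (P.map (MvPolynomial.aeval u : MvPolynomial B ℚ →ₐ[ℚ] ℝ).toRingHom).eval t := by
    funext s
    exact h P s
  rw [h1, h, ← Polynomial.derivative_map]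
  exact Polynomial.hasDerivAt _ _

private theorem exists_rel {B : Type} {u0 : B → ℝ} (hgen : AlgebraicIndependent ℚ u0)
    {z : ℝ} (hz : IsAlgebraic (Algebra.adjoin ℚ (Set.range u0)) z) :
    ∃ P : Polynomial (MvPolynomial B ℚ), P ≠ 0 ∧ re P u0 z = 0 := by
  obtain ⟨p, hp, hpz⟩ := hz
  set e := hgen.aevalEquiv with he
  refine ⟨p.map (e.symm : Algebra.adjoin ℚ (Set.range u0) ≃ₐ[ℚ] MvPolynomial B ℚ).toRingEquiv.toRingHom,
    ?_, ?_⟩
  · intro h
    apply hp
    have hi : Function.Injective (e.symm : Algebra.adjoin ℚ (Set.range u0) ≃ₐ[ℚ]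
        MvPolynomial B ℚ).toRingEquiv.toRingHom := fun a b hab => e.symm.injective hab
    apply Polynomial.map_injective _ hi
    rw [Polynomial.map_zero]
    exact h
  · unfold re
    rw [Polynomial.eval₂_map]
    rw [Polynomial.aeval_def] at hpz
    rw [← hpz]
    congr 1
    ext x
    have h1 := hgen.algebraMap_aevalEquiv (e.symm x)
    rw [← he, AlgEquiv.apply_symm_apply] at h1
    exact h1.symm

private theorem exists_min {B : Type} {u0 : B → ℝ} {z : ℝ}
    (h : ∃ P : Polynomial (MvPolynomial B ℚ), P ≠ 0 ∧ re P u0 z = 0) :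
    ∃ P : Polynomial (MvPolynomial B ℚ), P ≠ 0 ∧ re P u0 z = 0 ∧
      ∀ P' : Polynomial (MvPolynomial B ℚ), P' ≠ 0 → re P' u0 z = 0 →
        P.natDegree ≤ P'.natDegree := by
  classical
  have hn : ∃ n : ℕ, ∃ P : Polynomial (MvPolynomial B ℚ), P ≠ 0 ∧ re P u0 z = 0 ∧
      P.natDegree = n := by
    obtain ⟨P, h1, h2⟩ := h
    exact ⟨_, P, h1, h2, rfl⟩
  obtain ⟨P, h1, h2, h3⟩ := Nat.find_spec hn
  refine ⟨P, h1, h2, fun P' h1' h2' => ?_⟩
  rw [h3]
  exact Nat.find_min' hn ⟨P', h1', h2', rfl⟩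

theorem exists_branch {B : Type} [Fintype B] {u0 : B → ℝ} (hgen : AlgebraicIndependent ℚ u0)
    {z : ℝ} (hz : IsAlgebraic (Algebra.adjoin ℚ (Set.range u0)) z) :
    ∃ (ε : ℝ) (ζ : (B → ℝ) → ℝ), 0 < ε ∧ ζ u0 = z ∧ AnalyticOnNhd ℝ ζ (Metric.ball u0 ε) ∧
      AF (Metric.ball u0 ε) (fun u => (ζ u : ℂ)) := by
  obtain ⟨P, hP, hPz, hmin⟩ := exists_min (exists_rel hgen hz)
  have hdeg : P.natDegree ≠ 0 := by
    intro h0
    rw [Polynomial.eq_C_of_natDegree_eq_zero h0] at hPz hP
    unfold re at hPz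
    rw [Polynomial.eval₂_C] at hPz
    have h1 : P.coeff 0 = 0 := by
      have h2 : MvPolynomial.aeval u0 (P.coeff 0) = MvPolynomial.aeval u0 (0 : MvPolynomial B ℚ) := by
        rw [map_zero]
        exact hPz
      exact hgen h2
    rw [h1, Polynomial.C_0] at hP
    exact hP rfl
  have hder : re (Polynomial.derivative P) u0 z ≠ 0 := by
    intro h0
    have h1 : Polynomial.derivative P ≠ 0 := by
      intro h2
      exact hdeg (Polynomial.derivative_eq_zero.1 h2)
    exact absurd (hmin _ h1 h0) (not_le.2 (Polynomial.natDegree_derivative_lt hdeg))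
  have hcd : ContDiffAt ℝ ω (fun x : (B → ℝ) × ℝ => re P x.1 x.2) (u0, z) :=
    (re_contDiff P).contDiffAt
  have hω : (ω : WithTop ℕ∞) ≠ 0 := by simp
  have hinv : (fderiv ℝ (fun x : (B → ℝ) × ℝ => re P x.1 x.2) (u0, z) ∘L
      ContinuousLinearMap.inr ℝ (B → ℝ) ℝ).IsInvertible := by
    have hf : HasFDerivAt (fun x : (B → ℝ) × ℝ => re P x.1 x.2)
        (fderiv ℝ (fun x : (B → ℝ) × ℝ => re P x.1 x.2) (u0, z)) (u0, z) :=
      (hcd.differentiableAt hω).hasFDerivAt
    have hg : HasFDerivAt (fun t : ℝ => ((u0, t) : (B → ℝ) × ℝ))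
        (ContinuousLinearMap.inr ℝ (B → ℝ) ℝ) z := hasFDerivAt_prodMk_right u0 z
    have hc := hf.comp z hg
    have hd : HasFDerivAt (fun t : ℝ => re P u0 t) _ z := (re_deriv P u0 z).hasFDerivAt
    have heq := hc.unique hd
    refine ⟨ContinuousLinearEquiv.unitsEquivAut ℝ (Units.mk0 _ hder), ?_⟩
    rw [heq]
    ext
    simp
  set ζ := hcd.implicitFunction hω hinv with hζ
  have h0 : ζ u0 = z := hcd.implicitFunction_apply_self hω hinv
  have h1 : ∀ᶠ x in 𝓝 u0, re P x (ζ x) = re P u0 z :=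
    hcd.eventually_apply_implicitFunction hω hinv
  have h2 : ContDiffAt ℝ ω ζ u0 := hcd.contDiffAt_implicitFunction hω hinv
  have h3 : ∀ᶠ x in 𝓝 u0, AnalyticAt ℝ ζ x := h2.analyticAt.eventually_analyticAt
  obtain ⟨ε, hε, hball⟩ := Metric.eventually_nhds_iff_ball.1 (h1.and h3)
  refine ⟨ε, ζ, hε, h0, fun x hx => (hball x hx).2, ?_, P, hP, fun u hu => ?_⟩
  · intro x hx
    exact (Complex.ofRealCLM.analyticAt _).comp (hball x hx).2
  · rw [pe_re, (hball u hu).1, hPz]
    simp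

end Pool.Agent.helper37.NP
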