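import Pool.Agent.helper37.NP.HBr
import Pool.Agent.helper37.NP.HTb
import Pool.Agent.helper37.NP.Ana

/-!
NP-H4 (HFa).  An analytic algebraic family of edge vectors through a point of `T` with two
algebraically independent coordinates.

PROOF.  `exists_basis` gives `B`.  Put `u0 b = l b`.  For every `i : Fin 6`, `exists_branch` gives
`ε i, ζ i` with `ζ i u0 = l i`.  Put `F u i = ζ i u`; `F` is continuous at `u0`, `F u0 = l ∈ T` and `T` is
open (`isOpen_T`), so there is `ε > 0`, `ε ≤ ε i` for all `i`, with `F u ∈ T` for `u ∈ ball u0 ε`.  `Gen`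
holds: a ball is open and convex.  `AF.mono` restricts to the smaller ball.  `F u g = 1`: the function
`u ↦ F u g - 1` is `AF` (`AF.sub`, `AF.const`) and vanishes at `u0`, so it is zero by `AF.eq_zero`;
similarly `F u b - u b` (`AF.coord`).
-/

namespace Pool.Agent.helper37.NP

theorem exists_family {l : V6} (hl : l ∈ T) {g : Fin 6} (hg : l g = 1) {e f : Fin 6} (hef : e ≠ f)
    (h : AlgebraicIndependent ℚ ![l e, l f]) :
    ∃ (B : Finset (Fin 6)) (ε : ℝ) (F : (B → ℝ) → V6), e ∈ B ∧ f ∈ B ∧ 0 < ε ∧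
      Gen (Metric.ball (fun b : B => l b) ε) (fun b : B => l b) ∧
      F (fun b : B => l b) = l ∧
      (∀ i, AnalyticOnNhd ℝ (fun u => F u i) (Metric.ball (fun b : B => l b) ε)) ∧
      (∀ i, AF (Metric.ball (fun b : B => l b) ε) (fun u => (F u i : ℂ))) ∧
      (∀ u ∈ Metric.ball (fun b : B => l b) ε, F u ∈ T ∧ F u g = 1 ∧ ∀ b : B, F u b = u b) := by
  classical
  obtain ⟨B, he, hf, hgen, halg⟩ := exists_basis l hef h
  choose ε ζ hε hζ0 hζa hζF using fun i => exists_branch hgen (halg i)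
  set u0 : B → ℝ := fun b : B => l b with hu0
  let F : (B → ℝ) → V6 := fun u i => ζ i u
  have hF0 : F u0 = l := by
    funext i
    exact hζ0 i
  have hcont : ContinuousAt F u0 := by
    refine continuousAt_pi.2 fun i => ?_
    exact (hζa i u0 (Metric.mem_ball_self (hε i))).continuousAt
  have hT : F ⁻¹' T ∈ nhds u0 := by
    apply hcont.preimage_mem_nhds
    rw [hF0]
    exact isOpen_T.mem_nhds hl
  obtain ⟨δ, hδ, hball⟩ := Metric.mem_nhds_iff.1 hT
  obtain ⟨η, hη, hηi⟩ : ∃ η : ℝ, 0 < η ∧ ∀ i, η ≤ ε i := by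
    refine ⟨Finset.univ.inf' Finset.univ_nonempty ε, ?_, fun i => ?_⟩
    · rw [Finset.lt_inf'_iff]
      exact fun i _ => hε i
    · exact Finset.inf'_le _ (Finset.mem_univ i)
  set r : ℝ := min δ η with hr
  have hr0 : 0 < r := lt_min hδ hη
  have hri : ∀ i, Metric.ball u0 r ⊆ Metric.ball u0 (ε i) := fun i =>
    Metric.ball_subset_ball ((min_le_right _ _).trans (hηi i))
  have hrT : ∀ u ∈ Metric.ball u0 r, F u ∈ T := fun u hu =>
    hball (Metric.ball_subset_ball (min_le_left _ _) hu)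
  have hG : Gen (Metric.ball u0 r) u0 :=
    ⟨Metric.isOpen_ball, convex_ball _ _, Metric.mem_ball_self hr0, hgen⟩
  have hAF : ∀ i, AF (Metric.ball u0 r) (fun u => (F u i : ℂ)) := fun i => (hζF i).mono (hri i)
  refine ⟨B, r, F, he, hf, hr0, hG, hF0, fun i => (hζa i).mono (hri i), hAF,
    fun u hu => ⟨hrT u hu, ?_, fun b => ?_⟩⟩
  · have h1 := (AF.sub hG (hAF g) (AF.const hG (z := 1) isAlgebraic_one)).eq_zero hG
      (by rw [hF0, hg]; simp) u hu
    have h2 : ((F u g : ℝ) : ℂ) = 1 := sub_eq_zero.1 h1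
    exact_mod_cast h2
  · have h1 := (AF.sub hG (hAF b) (AF.coord hG b)).eq_zero hG
      (by rw [hF0]; simp [hu0]) u hu
    have h2 : ((F u b : ℝ) : ℂ) = (u b : ℂ) := sub_eq_zero.1 h1
    exact_mod_cast h2

end Pool.Agent.helper37.NP
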