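import Mathlib

/-!
NP-H8 (HTd).  Transcendence degree of the field generated by quotients.

PROOF.  Let `S = {l i / l 0 | i}` and `K = adjoin ℚ {l i / l j | i, j}` (an intermediate field of `ℝ`); as
`l i / l j = (l i / l 0) / (l j / l 0)` (for `l j = 0` the quotient is `0`; we assume all
`l i ≠ 0`), `K = adjoin ℚ S`.  So `K` is algebraic over the subalgebra generated by (the lifts to `K`
of) `S` and there is a transcendence basis `t ⊆ S` (`exists_isTranscendenceBasis_subset`, see the uses
in `Mathlib/FieldTheory/SeparableClosure.lean`, `SeparablyGenerated.lean`), `trdeg ℚ K = #t`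
(`IsTranscendenceBasis.cardinalMk_eq_trdeg`).  If `#t` were at least `2`, two different elements
`l e / l 0`, `l f / l 0` of `t` would be algebraically independent over `ℚ` (in `K`, hence in `ℝ`),
contradicting the hypothesis.
-/

namespace Pool.Agent.helper37.NP

private theorem htd_gen {F E : Type} [Field F] [Field E] [Algebra F E] {l : Fin 6 → E}
    (h0 : ∀ i, l i ≠ 0)
    (h : ∀ e f : Fin 6, ¬ AlgebraicIndependent F ![l e / l 0, l f / l 0]) :
    Algebra.trdeg F (IntermediateField.adjoin F
      (Set.range fun p : Fin 6 × Fin 6 => l p.1 / l p.2)) ≤ 1 := by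
  set K := IntermediateField.adjoin F (Set.range fun p : Fin 6 × Fin 6 => l p.1 / l p.2) with hK
  have hmem : ∀ i, l i / l 0 ∈ K := fun i =>
    IntermediateField.subset_adjoin _ _ ⟨(i, 0), rfl⟩
  let g : Fin 6 → K := fun i => ⟨l i / l 0, hmem i⟩
  have himg : (Subtype.val '' Set.range g : Set E) = Set.range fun i => l i / l 0 := by
    rw [← Set.range_comp]
    rfl
  have htop : IntermediateField.adjoin F (Set.range g) = ⊤ := by
    apply IntermediateField.lift_injective K
    rw [IntermediateField.lift_adjoin, IntermediateField.lift_top, himg]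
    apply le_antisymm
    · rw [IntermediateField.adjoin_le_iff]
      rintro _ ⟨i, rfl⟩
      exact hmem i
    · rw [hK, IntermediateField.adjoin_le_iff]
      rintro _ ⟨p, rfl⟩
      have h1 : l p.1 / l p.2 = (l p.1 / l 0) / (l p.2 / l 0) := by
        have := h0 p.2
        have := h0 0
        field_simp
      change l p.1 / l p.2 ∈ IntermediateField.adjoin F (Set.range fun i => l i / l 0)
      rw [h1]
      exact div_mem (IntermediateField.subset_adjoin _ _ ⟨p.1, rfl⟩)
        (IntermediateField.subset_adjoin _ _ ⟨p.2, rfl⟩)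
  have halg : Algebra.IsAlgebraic (Algebra.adjoin F (Set.range g)) K := by
    rw [← IntermediateField.isAlgebraic_adjoin_iff_top, htop, Algebra.isAlgebraic_iff_isIntegral]
    exact Algebra.isIntegral_of_surjective IntermediateField.topEquiv.surjective
  obtain ⟨t, hts, ht⟩ := exists_isTranscendenceBasis_subset (R := F) (Set.range g)
  rw [← ht.cardinalMk_eq_trdeg, Cardinal.mk_le_one_iff_set_subsingleton]
  intro a ha b hb
  by_contra hab
  obtain ⟨e, he⟩ := hts ha
  obtain ⟨f, hf⟩ := hts hb
  apply h e f
  have h2 : Function.Injective (![⟨a, ha⟩, ⟨b, hb⟩] : Fin 2 → t) := by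
    intro i j hij
    fin_cases i <;> fin_cases j
    · rfl
    · exact absurd (congrArg Subtype.val hij) hab
    · exact absurd (congrArg Subtype.val hij).symm hab
    · rfl
  have h3 := (ht.1.comp _ h2).map' (f := K.val) K.val.toRingHom.injective
  convert h3 using 1
  funext i
  fin_cases i
  · change l e / l 0 = (a : E)
    rw [← he]
  · change l f / l 0 = (b : E)
    rw [← hf]

theorem trdeg_quot_le {l : Fin 6 → ℝ} (h0 : ∀ i, l i ≠ 0)
    (h : ∀ e f : Fin 6, ¬ AlgebraicIndependent ℚ ![l e / l 0, l f / l 0]) :
    Algebra.trdeg ℚ (IntermediateField.adjoin ℚ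
      (Set.range fun p : Fin 6 × Fin 6 => l p.1 / l p.2)) ≤ 1 := by
  have h1 := htd_gen h0 h
  have e : (DivisionRing.toRatAlgebra : Algebra ℚ (IntermediateField.adjoin ℚ
      (Set.range fun p : Fin 6 × Fin 6 => l p.1 / l p.2))) =
      (IntermediateField.adjoin ℚ
        (Set.range fun p : Fin 6 × Fin 6 => l p.1 / l p.2)).algebra' := Subsingleton.elim _ _
  rw [← e] at h1
  exact h1

end Pool.Agent.helper37.NP
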