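import Pool.Agent.helper37.NP.Bas

/-!
NP-23 (BRe).  Angle vectors in `PP` with singular Gram matrix are realised by the lengths `lam t`.

PROOF.  Put `x = cosv t`, `m v = mi x v > 0`, `l = lam t`, `s e = sin (t e) > 0`.
Polynomial identities (`ring`, checked): `mi x v * mi x w - cf x (vw) ^ 2 = (1 - x_e ^ 2) * gd x`,
`e` = the edge `vw` itself (e.g. `mi x 1 * mi x 2 - cf x 3 ^ 2 = (1 - x 3 ^ 2) * gd x`), so with
`gd x = 0` and `cf > 0`: `√(m v m w) = cf x (vw)`.  Hence `l 0 = cf x 5 * s 0`, `l 1 = cf x 4 * s 1`,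
`l 2 = cf x 3 * s 2`, `l 3 = cf x 2 * s 3`, `l 4 = cf x 1 * s 4`, `l 5 = cf x 0 * s 5`, all `> 0`, and
`l 0 ^ 2 = m 2 * m 3 * (1 - x 0 ^ 2)` etc.
Law of cosines: `mi x 2 (1 - x0²) + mi x 1 (1 - x1²) - mi x 0 (1 - x3²) - 2 cf x 3 (x2 + x0 x1) = gd x`
(`ring`, checked), so `l0² + l1² - l3² = 2 (m 3) (cf x 3) (x2 + x0 x1)`, and similarly in all
faces at all vertices.  With `(1 - x0²)(1 - x1²) - (x2 + x0 x1)² = mi x 0` and `He p q r =
4 p² q² - (p² + q² - r²)²`: `He (l 0) (l 1) (l 3) = 4 M (m 3)`, `M = m 0 * m 1 * m 2 * m 3`; in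
general `He` of the face opposite to the vertex `v` is `4 M (m v) > 0`.  Positive sides and `He > 0`
give the strict triangle inequalities.
`nu l 0 = 2 l0² (l1² + l2² - l5²) - (l0² + l1² - l3²)(l0² + l2² - l4²)
 = 4 m1 m2 m3 cf5 [(1 - x0²)(x0 + x1 x2) - (x2 + x0 x1)(x1 + x0 x2)] = 4 M cf5 x0`
(using `cf3 cf4 = m1 cf5`), and `√(He(abc) He(abd)) = 4 M √(m3 m2) = 4 M cf5`: so `cs l 0 = x 0`,
similarly for the other edges, and `ang l e = arccos (cos (t e)) = t e`.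
`W l > 0`: `nu_sq`: `4 l0² W = ha hb - nu² = 16 M² cf5² (1 - x0²) > 0`.
-/

namespace Pool.Agent.helper37.NP

open Real

/-- `16 F²` of a face -/
theorem BRe_He {p q s S0 S1 Y mx my mz mw c : ℝ} (hp : p ^ 2 = mz * mw * S0)
    (hq : q ^ 2 = my * mw * S1) (h : p ^ 2 + q ^ 2 - s ^ 2 = 2 * mw * c * Y) (hc : c ^ 2 = my * mz)
    (hm : mx = S0 * S1 - Y ^ 2) : He p q s = 4 * (mx * my * mz * mw) * mw := by
  have e : He p q s = 4 * p ^ 2 * q ^ 2 - (p ^ 2 + q ^ 2 - s ^ 2) ^ 2 := by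
    unfold He
    ring
  rw [e, h, hp, hq, hm]
  linear_combination (-(4 * mw ^ 2 * Y ^ 2)) * hc

/-- the numerator of the cosine -/
theorem BRe_Nu {p q r s t u x0 x1 x2 mx my mz mw cyz cyw czw : ℝ}
    (hp : p ^ 2 = mz * mw * (1 - x0 ^ 2)) (hA : q ^ 2 + r ^ 2 - u ^ 2 = 2 * my * czw * (x0 + x1 * x2))
    (hB : p ^ 2 + q ^ 2 - s ^ 2 = 2 * mw * cyz * (x2 + x0 * x1))
    (hC : p ^ 2 + r ^ 2 - t ^ 2 = 2 * mz * cyw * (x1 + x0 * x2)) (hcc : cyz * cyw = my * czw)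
    (hm : mx = 1 - x0 ^ 2 - x1 ^ 2 - x2 ^ 2 - 2 * x0 * x1 * x2) :
    Nu p q r s t u = 4 * (mx * my * mz * mw) * czw * x0 := by
  unfold Nu
  rw [hA, hB, hC, hp, hm]
  linear_combination (-(4 * mw * mz * (x2 + x0 * x1) * (x1 + x0 * x2))) * hcc

/-- the cosine -/
theorem BRe_co {p q r s t u x0 x1 x2 mx my mz mw cyz cyw czw : ℝ}
    (hp : p ^ 2 = mz * mw * (1 - x0 ^ 2)) (hA : q ^ 2 + r ^ 2 - u ^ 2 = 2 * my * czw * (x0 + x1 * x2))
    (hB : p ^ 2 + q ^ 2 - s ^ 2 = 2 * mw * cyz * (x2 + x0 * x1))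
    (hC : p ^ 2 + r ^ 2 - t ^ 2 = 2 * mz * cyw * (x1 + x0 * x2)) (hcc : cyz * cyw = my * czw)
    (hm : mx = 1 - x0 ^ 2 - x1 ^ 2 - x2 ^ 2 - 2 * x0 * x1 * x2) {M : ℝ} (hM : M = mx * my * mz * mw)
    (hM0 : 0 < M) (hz : 0 < czw) (hzw : czw ^ 2 = mz * mw) (hw : 0 < mw) (hmz : 0 < mz)
    (h1 : He p q s = 4 * M * mw) (h2 : He p r t = 4 * M * mz) : co p q r s t u = x0 := by
  unfold co
  rw [BRe_Nu hp hA hB hC hcc hm, ← hM, h1, h2, ← Real.sqrt_mul (by positivity)]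
  have e : 4 * M * mw * (4 * M * mz) = (4 * M * czw) ^ 2 := by
    linear_combination (-(16 * M ^ 2)) * hzw
  rw [e, Real.sqrt_sq (by positivity)]
  field_simp

theorem BRe_tri {p q r : ℝ} (hp : 0 < p) (hq : 0 < q) (hr : 0 < r) (h : 0 < He p q r) :
    r < p + q ∧ q < p + r ∧ p < q + r := by
  unfold He at h
  have h0 : 0 < p + q + r := by positivity
  have h1 : 0 < (p + q - r) * (p - q + r) * (-p + q + r) := by
    have e : (p + q + r) * (p + q - r) * (p - q + r) * (-p + q + r) =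
        (p + q + r) * ((p + q - r) * (p - q + r) * (-p + q + r)) := by ring
    rw [e] at h
    exact (pos_iff_pos_of_mul_pos h).1 h0
  refine ⟨?_, ?_, ?_⟩
  · by_contra hc
    have a1 : 0 ≤ p - q + r := by linarith
    have a2 : 0 ≤ -p + q + r := by linarith
    have a3 : p + q - r ≤ 0 := by linarith
    have := mul_nonpos_of_nonpos_of_nonneg (mul_nonpos_of_nonpos_of_nonneg a3 a1) a2
    linarith
  · by_contra hc
    have a1 : 0 ≤ p + q - r := by linarith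
    have a2 : 0 ≤ -p + q + r := by linarith
    have a3 : p - q + r ≤ 0 := by linarith
    have := mul_nonpos_of_nonpos_of_nonneg (mul_nonpos_of_nonneg_of_nonpos a1 a3) a2
    linarith
  · by_contra hc
    have a1 : 0 ≤ p + q - r := by linarith
    have a2 : 0 ≤ p - q + r := by linarith
    have a3 : -p + q + r ≤ 0 := by linarith
    have := mul_nonpos_of_nonneg_of_nonpos (mul_nonneg a1 a2) a3
    linarith

theorem BRe_prod {a b m c u v w : ℝ} (ha : 0 < a) (hb : 0 < b) (hm : 0 < m) (hc : 0 < c)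
    (h1 : a ^ 2 = m * u) (h2 : b ^ 2 = m * v) (h3 : c ^ 2 = u * v) (hw : w = m * c) :
    a * b = w := by
  rw [hw]
  have h : (a * b) ^ 2 = (m * c) ^ 2 := by
    rw [mul_pow, mul_pow, h1, h2, h3]
    ring
  exact (pow_left_inj₀ (by positivity) (by positivity) two_ne_zero).1 h

section BRe_id

variable (x : V6)

theorem BRe_c5 : mi x 2 * mi x 3 - cf x 5 ^ 2 = (1 - x 5 ^ 2) * gd x := by
  simp only [mi, cf, gd, Matrix.cons_val]
  ring

theorem BRe_c4 : mi x 1 * mi x 3 - cf x 4 ^ 2 = (1 - x 4 ^ 2) * gd x := by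
  simp only [mi, cf, gd, Matrix.cons_val]
  ring

theorem BRe_c3 : mi x 1 * mi x 2 - cf x 3 ^ 2 = (1 - x 3 ^ 2) * gd x := by
  simp only [mi, cf, gd, Matrix.cons_val]
  ring

theorem BRe_c2 : mi x 0 * mi x 3 - cf x 2 ^ 2 = (1 - x 2 ^ 2) * gd x := by
  simp only [mi, cf, gd, Matrix.cons_val]
  ring

theorem BRe_c1 : mi x 0 * mi x 2 - cf x 1 ^ 2 = (1 - x 1 ^ 2) * gd x := by
  simp only [mi, cf, gd, Matrix.cons_val]
  ring

theorem BRe_c0 : mi x 0 * mi x 1 - cf x 0 ^ 2 = (1 - x 0 ^ 2) * gd x := by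
  simp only [mi, cf, gd, Matrix.cons_val]
  ring

theorem BRe_a1 : mi x 2 * (1 - x 0 ^ 2) + mi x 1 * (1 - x 1 ^ 2) - mi x 0 * (1 - x 3 ^ 2)
    - 2 * cf x 3 * (x 2 + x 0 * x 1) = gd x := by
  simp only [mi, cf, gd, Matrix.cons_val]
  ring

theorem BRe_a2 : mi x 3 * (1 - x 0 ^ 2) + mi x 1 * (1 - x 2 ^ 2) - mi x 0 * (1 - x 4 ^ 2)
    - 2 * cf x 4 * (x 1 + x 0 * x 2) = gd x := by
  simp only [mi, cf, gd, Matrix.cons_val]
  ring

theorem BRe_a3 : mi x 3 * (1 - x 1 ^ 2) + mi x 2 * (1 - x 2 ^ 2) - mi x 0 * (1 - x 5 ^ 2)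
    - 2 * cf x 5 * (x 0 + x 1 * x 2) = gd x := by
  simp only [mi, cf, gd, Matrix.cons_val]
  ring

theorem BRe_b1 : mi x 0 * (1 - x 3 ^ 2) + mi x 2 * (1 - x 0 ^ 2) - mi x 1 * (1 - x 1 ^ 2)
    - 2 * cf x 1 * (x 4 + x 3 * x 0) = gd x := by
  simp only [mi, cf, gd, Matrix.cons_val]
  ring

theorem BRe_b2 : mi x 3 * (1 - x 3 ^ 2) + mi x 2 * (1 - x 4 ^ 2) - mi x 1 * (1 - x 5 ^ 2)
    - 2 * cf x 5 * (x 0 + x 3 * x 4) = gd x := by
  simp only [mi, cf, gd, Matrix.cons_val]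
  ring

theorem BRe_b3 : mi x 3 * (1 - x 0 ^ 2) + mi x 0 * (1 - x 4 ^ 2) - mi x 1 * (1 - x 2 ^ 2)
    - 2 * cf x 2 * (x 3 + x 0 * x 4) = gd x := by
  simp only [mi, cf, gd, Matrix.cons_val]
  ring

theorem BRe_d1 : mi x 1 * (1 - x 1 ^ 2) + mi x 0 * (1 - x 3 ^ 2) - mi x 2 * (1 - x 0 ^ 2)
    - 2 * cf x 0 * (x 5 + x 1 * x 3) = gd x := by
  simp only [mi, cf, gd, Matrix.cons_val]
  ring

theorem BRe_d2 : mi x 0 * (1 - x 5 ^ 2) + mi x 3 * (1 - x 1 ^ 2) - mi x 2 * (1 - x 2 ^ 2)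
    - 2 * cf x 2 * (x 3 + x 5 * x 1) = gd x := by
  simp only [mi, cf, gd, Matrix.cons_val]
  ring

theorem BRe_d3 : mi x 1 * (1 - x 5 ^ 2) + mi x 3 * (1 - x 3 ^ 2) - mi x 2 * (1 - x 4 ^ 2)
    - 2 * cf x 4 * (x 1 + x 5 * x 3) = gd x := by
  simp only [mi, cf, gd, Matrix.cons_val]
  ring

theorem BRe_m0 : mi x 0 = 1 - x 0 ^ 2 - x 1 ^ 2 - x 2 ^ 2 - 2 * x 0 * x 1 * x 2 := rfl
theorem BRe_m1 : mi x 1 = 1 - x 0 ^ 2 - x 3 ^ 2 - x 4 ^ 2 - 2 * x 0 * x 3 * x 4 := rfl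
theorem BRe_m2 : mi x 2 = 1 - x 1 ^ 2 - x 3 ^ 2 - x 5 ^ 2 - 2 * x 1 * x 3 * x 5 := rfl
theorem BRe_m3 : mi x 3 = 1 - x 2 ^ 2 - x 4 ^ 2 - x 5 ^ 2 - 2 * x 2 * x 4 * x 5 := rfl

end BRe_id

/-- the algebraic part -/
theorem BRe_alg {x s l : V6} (hs : ∀ e, 0 < s e) (hs2 : ∀ e, s e ^ 2 = 1 - x e ^ 2)
    (hm : ∀ v, 0 < mi x v) (hc : ∀ e, 0 < cf x e) (hg : gd x = 0)
    (e0 : l 0 = cf x 5 * s 0) (e1 : l 1 = cf x 4 * s 1) (e2 : l 2 = cf x 3 * s 2)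
    (e3 : l 3 = cf x 2 * s 3) (e4 : l 4 = cf x 1 * s 4) (e5 : l 5 = cf x 0 * s 5) :
    l ∈ T ∧ ∀ e, cs l e = x e := by
  have k5 : cf x 5 ^ 2 = mi x 2 * mi x 3 := by linear_combination (-(1 - x 5 ^ 2)) * hg - BRe_c5 x
  have k4 : cf x 4 ^ 2 = mi x 1 * mi x 3 := by linear_combination (-(1 - x 4 ^ 2)) * hg - BRe_c4 x
  have k3 : cf x 3 ^ 2 = mi x 1 * mi x 2 := by linear_combination (-(1 - x 3 ^ 2)) * hg - BRe_c3 x
  have k2 : cf x 2 ^ 2 = mi x 0 * mi x 3 := by linear_combination (-(1 - x 2 ^ 2)) * hg - BRe_c2 x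
  have k1 : cf x 1 ^ 2 = mi x 0 * mi x 2 := by linear_combination (-(1 - x 1 ^ 2)) * hg - BRe_c1 x
  have k0 : cf x 0 ^ 2 = mi x 0 * mi x 1 := by linear_combination (-(1 - x 0 ^ 2)) * hg - BRe_c0 x
  have a1 := BRe_a1 x
  have a2 := BRe_a2 x
  have a3 := BRe_a3 x
  have b1 := BRe_b1 x
  have b2 := BRe_b2 x
  have b3 := BRe_b3 x
  have d1 := BRe_d1 x
  have d2 := BRe_d2 x
  have d3 := BRe_d3 x
  have n0 := BRe_m0 x
  have n1 := BRe_m1 x
  have n2 := BRe_m2 x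
  rw [hg] at a1 a2 a3 b1 b2 b3 d1 d2 d3
  have m0 := hm 0
  have m1 := hm 1
  have m2 := hm 2
  have m3 := hm 3
  have c0 := hc 0
  have c1 := hc 1
  have c2 := hc 2
  have c3 := hc 3
  have c4 := hc 4
  have c5 := hc 5
  have s0 := hs 0
  have s1 := hs 1
  have s2 := hs 2
  have s3 := hs 3
  have s4 := hs 4
  have s5 := hs 5
  have t0 := hs2 0
  have t1 := hs2 1
  have t2 := hs2 2
  have t3 := hs2 3
  have t4 := hs2 4
  have t5 := hs2 5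
  have l0 : 0 < l 0 := by rw [e0]; positivity
  have l1 : 0 < l 1 := by rw [e1]; positivity
  have l2 : 0 < l 2 := by rw [e2]; positivity
  have l3 : 0 < l 3 := by rw [e3]; positivity
  have l4 : 0 < l 4 := by rw [e4]; positivity
  have l5 : 0 < l 5 := by rw [e5]; positivity
  -- squares of the lengths
  have q0 : l 0 ^ 2 = mi x 2 * mi x 3 * (1 - x 0 ^ 2) := by rw [e0, mul_pow, k5, t0]
  have q1 : l 1 ^ 2 = mi x 1 * mi x 3 * (1 - x 1 ^ 2) := by rw [e1, mul_pow, k4, t1]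
  have q2 : l 2 ^ 2 = mi x 1 * mi x 2 * (1 - x 2 ^ 2) := by rw [e2, mul_pow, k3, t2]
  have q3 : l 3 ^ 2 = mi x 0 * mi x 3 * (1 - x 3 ^ 2) := by rw [e3, mul_pow, k2, t3]
  have q4 : l 4 ^ 2 = mi x 0 * mi x 2 * (1 - x 4 ^ 2) := by rw [e4, mul_pow, k1, t4]
  have q5 : l 5 ^ 2 = mi x 0 * mi x 1 * (1 - x 5 ^ 2) := by rw [e5, mul_pow, k0, t5]
  generalize mi x 0 = M0 at *
  generalize mi x 1 = M1 at *
  generalize mi x 2 = M2 at *
  generalize mi x 3 = M3 at *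
  generalize cf x 0 = C0 at *
  generalize cf x 1 = C1 at *
  generalize cf x 2 = C2 at *
  generalize cf x 3 = C3 at *
  generalize cf x 4 = C4 at *
  generalize cf x 5 = C5 at *
  -- laws of cosines
  have A1 : l 0 ^ 2 + l 1 ^ 2 - l 3 ^ 2 = 2 * M3 * C3 * (x 2 + x 0 * x 1) := by
    rw [q0, q1, q3]; linear_combination M3 * a1
  have A2 : l 0 ^ 2 + l 2 ^ 2 - l 4 ^ 2 = 2 * M2 * C4 * (x 1 + x 0 * x 2) := by
    rw [q0, q2, q4]; linear_combination M2 * a2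
  have A3 : l 1 ^ 2 + l 2 ^ 2 - l 5 ^ 2 = 2 * M1 * C5 * (x 0 + x 1 * x 2) := by
    rw [q1, q2, q5]; linear_combination M1 * a3
  have B1 : l 3 ^ 2 + l 0 ^ 2 - l 1 ^ 2 = 2 * M3 * C1 * (x 4 + x 3 * x 0) := by
    rw [q0, q1, q3]; linear_combination M3 * b1
  have B2 : l 3 ^ 2 + l 4 ^ 2 - l 5 ^ 2 = 2 * M0 * C5 * (x 0 + x 3 * x 4) := by
    rw [q3, q4, q5]; linear_combination M0 * b2
  have B3 : l 0 ^ 2 + l 4 ^ 2 - l 2 ^ 2 = 2 * M2 * C2 * (x 3 + x 0 * x 4) := by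
    rw [q0, q4, q2]; linear_combination M2 * b3
  have D1 : l 1 ^ 2 + l 3 ^ 2 - l 0 ^ 2 = 2 * M3 * C0 * (x 5 + x 1 * x 3) := by
    rw [q0, q1, q3]; linear_combination M3 * d1
  have D2 : l 5 ^ 2 + l 1 ^ 2 - l 2 ^ 2 = 2 * M1 * C2 * (x 3 + x 5 * x 1) := by
    rw [q1, q2, q5]; linear_combination M1 * d2
  have D3 : l 5 ^ 2 + l 3 ^ 2 - l 4 ^ 2 = 2 * M0 * C4 * (x 1 + x 5 * x 3) := by
    rw [q3, q4, q5]; linear_combination M0 * d3
  obtain ⟨M, hM⟩ : ∃ M, M = M0 * M1 * M2 * M3 := ⟨_, rfl⟩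
  have hM0 : 0 < M := by rw [hM]; positivity
  -- faces
  have F3 : He (l 0) (l 1) (l 3) = 4 * M * M3 := by
    rw [hM]
    exact BRe_He q0 q1 A1 k3 (by rw [n0]; ring)
  have F2 : He (l 0) (l 2) (l 4) = 4 * M * M2 := by
    rw [hM, BRe_He (q0.trans (by ring : _ = M3 * M2 * (1 - x 0 ^ 2))) q2 A2 k4 (mx := M0)
      (by rw [n0]; ring)]
    ring
  have F1 : He (l 1) (l 2) (l 5) = 4 * M * M1 := by
    rw [hM, BRe_He (q1.trans (by ring : _ = M3 * M1 * (1 - x 1 ^ 2)))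
      (q2.trans (by ring : _ = M2 * M1 * (1 - x 2 ^ 2))) A3 k5 (mx := M0) (by rw [n0]; ring)]
    ring
  have F0 : He (l 3) (l 4) (l 5) = 4 * M * M0 := by
    rw [hM, BRe_He (q3.trans (by ring : _ = M3 * M0 * (1 - x 3 ^ 2)))
      (q4.trans (by ring : _ = M2 * M0 * (1 - x 4 ^ 2))) B2 k5 (mx := M1) (by rw [n1]; ring)]
    ring
  have g3 : 0 < He (l 0) (l 1) (l 3) := by rw [F3]; positivity
  have g2 : 0 < He (l 0) (l 2) (l 4) := by rw [F2]; positivity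
  have g1 : 0 < He (l 1) (l 2) (l 5) := by rw [F1]; positivity
  have g0 : 0 < He (l 3) (l 4) (l 5) := by rw [F0]; positivity
  -- products of cofactors
  have r0 : C3 * C4 = M1 * C5 := BRe_prod c3 c4 m1 c5 k3 k4 k5 rfl
  have r1 : C3 * C5 = M2 * C4 :=
    BRe_prod c3 c5 m2 c4 (k3.trans (mul_comm _ _)) k5 k4 rfl
  have r2 : C4 * C5 = M3 * C3 :=
    BRe_prod c4 c5 m3 c3 (k4.trans (mul_comm _ _)) (k5.trans (mul_comm _ _)) k3 rfl
  have r3 : C1 * C5 = M2 * C2 :=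
    BRe_prod c1 c5 m2 c2 (k1.trans (mul_comm _ _)) k5 k2 rfl
  have r4 : C2 * C5 = M3 * C1 :=
    BRe_prod c2 c5 m3 c1 (k2.trans (mul_comm _ _)) (k5.trans (mul_comm _ _)) k1 rfl
  have r5 : C2 * C4 = M3 * C0 :=
    BRe_prod c2 c4 m3 c0 (k2.trans (mul_comm _ _)) (k4.trans (mul_comm _ _)) k0 rfl
  have N0 : Nu (l 0) (l 1) (l 2) (l 3) (l 4) (l 5) = 4 * M * C5 * x 0 := by
    rw [hM]
    exact BRe_Nu q0 A3 A1 A2 r0 n0
  have hcs : ∀ e, cs l e = x e := by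
    intro e
    fin_cases e
    · exact BRe_co q0 A3 A1 A2 r0 n0 hM hM0 c5 k5 m3 m2 F3 F2
    · exact BRe_co (p := l 1) (q := l 0) (r := l 2) (s := l 3) (t := l 5) (u := l 4) (x0 := x 1)
        (x1 := x 0) (x2 := x 2) (mx := M0) (my := M2) (mz := M1) (mw := M3) (cyz := C3) (cyw := C5)
        (czw := C4) q1 (by rw [A2]) (by linear_combination A1) (by rw [A3]) r1
        (by rw [n0]; ring) (hM.trans (by ring)) hM0 c4 k4 m3 m1
        (by rw [← F3]; unfold He; ring) F1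
    · exact BRe_co (p := l 2) (q := l 0) (r := l 1) (s := l 4) (t := l 5) (u := l 3) (x0 := x 2)
        (x1 := x 0) (x2 := x 1) (mx := M0) (my := M3) (mz := M1) (mw := M2) (cyz := C4) (cyw := C5)
        (czw := C3) q2 (by rw [A1]) (by linear_combination A2) (by linear_combination A3) r2
        (by rw [n0]; ring) (hM.trans (by ring)) hM0 c3 k3 m2 m1
        (by rw [← F2]; unfold He; ring) (by rw [← F1]; unfold He; ring)
    · exact BRe_co (p := l 3) (q := l 0) (r := l 4) (s := l 1) (t := l 5) (u := l 2) (x0 := x 3)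
        (x1 := x 0) (x2 := x 4) (mx := M1) (my := M2) (mz := M0) (mw := M3) (cyz := C1) (cyw := C5)
        (czw := C2) q3 (by linear_combination B3) (by linear_combination B1)
        (by linear_combination B2) r3
        (by rw [n1]; ring) (hM.trans (by ring)) hM0 c2 k2 m3 m0
        (by rw [← F3]; unfold He; ring) (by rw [← F0])
    · exact BRe_co (p := l 4) (q := l 0) (r := l 3) (s := l 2) (t := l 5) (u := l 1) (x0 := x 4)
        (x1 := x 0) (x2 := x 3) (mx := M1) (my := M3) (mz := M0) (mw := M2) (cyz := C2) (cyw := C5)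
        (czw := C1) q4 (by linear_combination B1) (by linear_combination B3)
        (by linear_combination B2) r4
        (by rw [n1]; ring) (hM.trans (by ring)) hM0 c1 k1 m2 m0
        (by rw [← F2]; unfold He; ring) (by rw [← F0]; unfold He; ring)
    · exact BRe_co (p := l 5) (q := l 1) (r := l 3) (s := l 2) (t := l 4) (u := l 0) (x0 := x 5)
        (x1 := x 1) (x2 := x 3) (mx := M2) (my := M3) (mz := M0) (mw := M1) (cyz := C2) (cyw := C4)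
        (czw := C0) q5 (by linear_combination D1) (by linear_combination D2)
        (by linear_combination D3) r5
        (by rw [n2]; ring) (hM.trans (by ring)) hM0 c0 k0 m1 m0
        (by rw [← F1]; unfold He; ring) (by rw [← F0]; unfold He; ring)
  have hW : 0 < W l := by
    have h1 := nu_sq l 0
    have h2 : nu l 0 = 4 * M * C5 * x 0 := N0
    have h3 : ha l 0 = 4 * M * M3 := F3
    have h4 : hb l 0 = 4 * M * M2 := F2
    rw [h2, h3, h4] at h1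
    have h5 : l 0 ^ 2 * (W l - 4 * M ^ 2) = 0 := by
      rw [q0] at h1 ⊢
      have h6 : (4 * M * C5 * x 0) ^ 2 = 16 * M ^ 2 * (M2 * M3) * x 0 ^ 2 := by
        rw [← k5]
        ring
      rw [h6] at h1
      linear_combination h1 / 4
    rcases mul_eq_zero.1 h5 with h6 | h6
    · exact absurd h6 (by positivity)
    · have : W l = 4 * M ^ 2 := by linarith
      rw [this]
      positivity
  refine ⟨⟨fun v j => ?_, hW⟩, hcs⟩
  have z3 := BRe_tri l0 l1 l3 g3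
  have z2 := BRe_tri l0 l2 l4 g2
  have z1 := BRe_tri l1 l2 l5 g1
  have z0 := BRe_tri l3 l4 l5 g0
  fin_cases v <;> fin_cases j <;> simp only [Q, sg, Matrix.cons_val] <;>
    simp <;> linarith [z3.1, z3.2.1, z3.2.2, z2.1, z2.2.1, z2.2.2, z1.1, z1.2.1, z1.2.2, z0.1,
      z0.2.1, z0.2.2]

theorem real_of_PP {t : V6} (ht : t ∈ PP) (hg : gd (cosv t) = 0) : lam t ∈ T ∧ ang (lam t) = t := by
  obtain ⟨ht1, hm, hc⟩ := ht
  have hs : ∀ e, 0 < Real.sin (t e) := fun e => Real.sin_pos_of_pos_of_lt_pi (ht1 e).1 (ht1 e).2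
  have hs2 : ∀ e, Real.sin (t e) ^ 2 = 1 - cosv t e ^ 2 := fun e => Real.sin_sq (t e)
  have hq : ∀ (a b : ℝ) (e f : Fin 6), a * b - cf (cosv t) e ^ 2 = (1 - cosv t f ^ 2) * gd (cosv t) →
      Real.sqrt (a * b) = cf (cosv t) e := by
    intro a b e f h
    rw [hg, mul_zero, sub_eq_zero] at h
    rw [h, Real.sqrt_sq (hc e).le]
  obtain ⟨h1, h2⟩ := BRe_alg (x := cosv t) (s := fun e => Real.sin (t e)) (l := lam t) hs hs2 hm hc
    hg (congrArg (· * Real.sin (t 0)) (hq _ _ 5 5 (BRe_c5 _)))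
    (congrArg (· * Real.sin (t 1)) (hq _ _ 4 4 (BRe_c4 _)))
    (congrArg (· * Real.sin (t 2)) (hq _ _ 3 3 (BRe_c3 _)))
    (congrArg (· * Real.sin (t 3)) (hq _ _ 2 2 (BRe_c2 _)))
    (congrArg (· * Real.sin (t 4)) (hq _ _ 1 1 (BRe_c1 _)))
    (congrArg (· * Real.sin (t 5)) (hq _ _ 0 0 (BRe_c0 _)))
  refine ⟨h1, funext fun e => ?_⟩
  unfold ang
  rw [h2 e]
  exact Real.arccos_cos (ht1 e).1.le (ht1 e).2.le

end Pool.Agent.helper37.NP
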