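import Pool.Agent.helper37.NP.GAr
import Pool.Agent.helper37.NP.ZNs

/-!
NP-G5 (GZe).  The normalised edge vectors with given data lie on countably many analytic arcs.

PROOF.  `arcs_of_no_surface` with `X = V6`, `O = T` (`isOpen_T`), index type
`Unit ⊕ {g : V6 →ₗ[ℝ] ℝ // span ≤ ker g} ⊕ Fin k` (nested `Sum`) and the functions
`x ↦ ∑ e, x e - 1`, `x ↦ g x`, `x ↦ dotp (s i) (ang x) - c i`, analytic on `T` (`ang_analytic`,
continuous linear maps).  The zero set is the set of the statement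
(`Submodule.exists_le_ker_of_notMem` for the span), so `Arcs.mono` finishes.
`hno`: let `K, y0, ε, φ` be given, `v1, v2 ∈ K` linearly independent (`2 ≤ finrank K`).  Put
`l u = φ (y0 + u.1 • v1 + u.2 • v2)` on the open set `U = {u | y0 + u.1 • v1 + u.2 • v2 ∈ ball y0 ε}`,
`(0, 0) ∈ U`.  `l` is `C¹` on `U`, `fderiv ℝ l u x = fderiv ℝ φ (..) (x.1 • v1 + x.2 • v2)`, which is
`0` only for `x = 0`.  `himm`: let `fderiv ℝ l u x = k • l u`.  Apply the continuous linear form
`σ x = ∑ e, x e`: `σ (l ·) = 1` on `U`, so `σ (fderiv ℝ l u x) = 0`, and `σ (k • l u) = k`.  So `k = 0`,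
`fderiv ℝ l u x = 0`, `x = 0`.  Now `no_data` gives `False`.
-/

namespace Pool.Agent.helper37.NP

open Real

theorem arcs_data {k : ℕ} (s : Fin k → V6) (hs : LinearIndependent ℝ s) (c : Fin k → ℝ) :
    Arcs {x : V6 | x ∈ T ∧ ∑ e, x e = 1 ∧ x ∈ Submodule.span ℝ (Set.range s) ∧
      ∀ i, dotp (s i) (ang x) = c i} := by
  classical
  set P : Submodule ℝ V6 := Submodule.span ℝ (Set.range s) with hP
  let f : Unit ⊕ {g : V6 →ₗ[ℝ] ℝ // P ≤ LinearMap.ker g} ⊕ Fin k → V6 → ℝ := fun i =>
    match i with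
    | Sum.inl _ => fun x => (∑ e, x e) - 1
    | Sum.inr (Sum.inl g) => fun x => g.1 x
    | Sum.inr (Sum.inr i) => fun x => dotp (s i) (ang x) - c i
  let σ : V6 →L[ℝ] ℝ := ∑ e, ContinuousLinearMap.proj e
  have hσ : ∀ x : V6, σ x = ∑ e, x e := by
    intro x
    simp [σ]
  have hf : ∀ i, AnalyticOnNhd ℝ (f i) T := by
    rintro (_ | g | i)
    · intro x _
      change AnalyticAt ℝ (fun x : V6 => (∑ e, x e) - 1) x
      have h1 : (fun x : V6 => (∑ e, x e) - 1) = fun x => σ x - 1 := by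
        funext x
        rw [hσ]
      rw [h1]
      exact (σ.analyticAt x).sub analyticAt_const
    · intro x _
      exact (LinearMap.toContinuousLinearMap g.1).analyticAt x
    · intro x hx
      have h1 : ∀ e, AnalyticAt ℝ (fun x : V6 => s i e * ang x e) x := fun e =>
        analyticAt_const.mul (ang_analytic e x hx)
      change AnalyticAt ℝ (fun x : V6 => dotp (s i) (ang x) - c i) x
      unfold dotp
      exact ((((((h1 0).add (h1 1)).add (h1 2)).add (h1 3)).add (h1 4)).add (h1 5)).sub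
        analyticAt_const
  refine (arcs_of_no_surface isOpen_T f hf ?_).mono ?_
  · intro K y0 ε φ hK hε hφ h
    have : Nontrivial K := Module.nontrivial_of_finrank_pos (R := ℝ) (by omega)
    obtain ⟨v1, hv1⟩ := exists_ne (0 : K)
    obtain ⟨v2, hv⟩ := exists_linearIndependent_pair_of_one_lt_finrank (R := ℝ) (by omega) hv1
    let L : ℝ × ℝ →L[ℝ] K := (ContinuousLinearMap.fst ℝ ℝ ℝ).smulRight v1 +
      (ContinuousLinearMap.snd ℝ ℝ ℝ).smulRight v2
    have hL : ∀ u : ℝ × ℝ, L u = u.1 • v1 + u.2 • v2 := fun u => rfl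
    have hL0 : ∀ u : ℝ × ℝ, L u = 0 → u = 0 := by
      intro u hu
      rw [hL] at hu
      obtain ⟨h1, h2⟩ := LinearIndependent.pair_iff.1 hv u.1 u.2 hu
      exact Prod.ext h1 h2
    have hcont : Continuous fun u : ℝ × ℝ => y0 + L u := continuous_const.add L.continuous
    let U : Set (ℝ × ℝ) := {u | y0 + L u ∈ Metric.ball y0 ε}
    have hU : IsOpen U := Metric.isOpen_ball.preimage hcont
    have hne : U.Nonempty := ⟨0, by
      change y0 + L 0 ∈ Metric.ball y0 ε
      rw [map_zero, add_zero]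
      exact Metric.mem_ball_self hε⟩
    let l : ℝ × ℝ → V6 := fun u => φ (y0 + L u)
    have hd : ∀ u ∈ U, HasFDerivAt l ((fderiv ℝ φ (y0 + L u)).comp L) u := by
      intro u hu
      have h1 : HasFDerivAt φ (fderiv ℝ φ (y0 + L u)) (y0 + L u) :=
        (hφ _ hu).differentiableAt.hasFDerivAt
      have h2 : HasFDerivAt (fun u : ℝ × ℝ => y0 + L u) L u := L.hasFDerivAt.const_add y0
      exact h1.comp u h2
    have hl : ContDiffOn ℝ 1 l U := by
      intro u hu
      have h1 : ContDiffAt ℝ 1 φ (y0 + L u) := (hφ _ hu).contDiffAt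
      have h2 : ContDiffAt ℝ 1 (fun u : ℝ × ℝ => y0 + L u) u :=
        contDiffAt_const.add L.contDiff.contDiffAt
      exact (h1.comp u h2).contDiffWithinAt
    have hsum : ∀ u ∈ U, ∑ e, l u e = 1 := by
      intro u hu
      have h1 : (∑ e, l u e) - 1 = 0 := (h _ hu).2.2 (Sum.inl ())
      linarith
    refine no_data s hs c U hU hne l hl (fun u hu => (h _ hu).2.1) ?_ ?_
    · intro u hu
      refine ⟨?_, ?_⟩
      · by_contra hcon
        obtain ⟨g, hg, hg'⟩ := Submodule.exists_le_ker_of_notMem hcon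
        exact hg (((h _ hu).2.2 (Sum.inr (Sum.inl ⟨g, hg'⟩))))
      · intro i
        have h1 : dotp (s i) (ang (l u)) - c i = 0 := (h _ hu).2.2 (Sum.inr (Sum.inr i))
        linarith
    · intro u hu x k hk
      rw [(hd u hu).fderiv] at hk
      have hder : HasFDerivAt (fun u => σ (l u)) (σ.comp ((fderiv ℝ φ (y0 + L u)).comp L)) u :=
        σ.hasFDerivAt.comp u (hd u hu)
      have hconst : (fun u => σ (l u)) =ᶠ[nhds u] fun _ => (1 : ℝ) := by
        filter_upwards [hU.mem_nhds hu] with w hw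
        rw [hσ]
        exact hsum w hw
      have hz : σ.comp ((fderiv ℝ φ (y0 + L u)).comp L) = 0 := by
        have h1 := hder.fderiv
        rw [hconst.fderiv_eq] at h1
        rw [← h1]
        exact fderiv_const_apply _
      have h2 : σ (((fderiv ℝ φ (y0 + L u)).comp L) x) = 0 := by
        have h3 := congrArg (fun Φ : ℝ × ℝ →L[ℝ] ℝ => Φ x) hz
        exact h3
      rw [hk, map_smul, hσ, hsum u hu, smul_eq_mul, mul_one] at h2
      rw [h2, zero_smul] at hk
      have h4 : fderiv ℝ φ (y0 + L u) (L x) = fderiv ℝ φ (y0 + L u) 0 := by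
        rw [map_zero]
        exact hk
      exact hL0 x ((h _ hu).1 h4)
  · rintro x ⟨hxT, hx1, hxP, hxc⟩
    refine ⟨hxT, ?_⟩
    rintro (_ | g | i)
    · change (∑ e, x e) - 1 = 0
      rw [hx1, sub_self]
    · exact g.2 hxP
    · change dotp (s i) (ang x) - c i = 0
      rw [hxc i, sub_self]

end Pool.Agent.helper37.NP
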