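import Pool.Agent.helper37.NP.Defs

/-!
NP-01 (Bas).  Basic facts for `l ∈ T`.

PROOFS.  `2 * l e` is a sum of two of the twelve positive numbers `sg l v - Q l j`, e.g.
`2 * l 0 = (sg l 0 - Q l 1) + (sg l 0 - Q l 2)`... (check: `sg l 0 - Q l 1 = l 0 + l 2 - l 4`,
`sg l 1 - Q l 2 = l 0 + l 4 - l 2`, so `2 * l 0 = (sg l 0 - Q l 1) + (sg l 1 - Q l 2)`; similarly
for the other edges).  The twelve numbers `sg l v - Q l j` are exactly the expressions
`p + q - r` of the four faces, so `He > 0` for the faces.  `nu_sq` is `ring` (unfold everything).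
Since `0 < W l` and `0 < l e`, `nu_sq` gives `nu² < H H'`, so `|cs l e| < 1`; `cos_ang` is
`Real.cos_arccos`, `sin_ang` follows from `Real.sin_arccos` or from `sin² = 1 - cos²` and
positivity, `ang_arctan`: with `y = nu / (2 l_e √W)` one has
`cos (π/2 - arctan y) = sin (arctan y) = y / √(1 + y²) = cs l e` and `π/2 - arctan y ∈ (0, π)`.
-/

namespace Pool.Agent.helper37.NP

open Real

/-- numerators of the six cosines -/
def nu (l : V6) : V6 :=
  ![Nu (l 0) (l 1) (l 2) (l 3) (l 4) (l 5), Nu (l 1) (l 0) (l 2) (l 3) (l 5) (l 4),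
    Nu (l 2) (l 0) (l 1) (l 4) (l 5) (l 3), Nu (l 3) (l 0) (l 4) (l 1) (l 5) (l 2),
    Nu (l 4) (l 0) (l 3) (l 2) (l 5) (l 1), Nu (l 5) (l 1) (l 3) (l 2) (l 4) (l 0)]

/-- `16 F²` of the first face at the edge `e` (faces `abc, abc, abd, abc, abd, acd`) -/
def ha (l : V6) : V6 :=
  ![He (l 0) (l 1) (l 3), He (l 1) (l 0) (l 3), He (l 2) (l 0) (l 4), He (l 3) (l 0) (l 1),
    He (l 4) (l 0) (l 2), He (l 5) (l 1) (l 2)]

/-- `16 F²` of the second face at the edge `e` (faces `abd, acd, acd, bcd, bcd, bcd`) -/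
def hb (l : V6) : V6 :=
  ![He (l 0) (l 2) (l 4), He (l 1) (l 2) (l 5), He (l 2) (l 1) (l 5), He (l 3) (l 4) (l 5),
    He (l 4) (l 3) (l 5), He (l 5) (l 3) (l 4)]

theorem cs_eq (l : V6) (e : Fin 6) :
    cs l e = nu l e / (Real.sqrt (ha l e) * Real.sqrt (hb l e)) := by
  fin_cases e <;> rfl

theorem nu_sq (l : V6) (e : Fin 6) :
    nu l e ^ 2 + 4 * l e ^ 2 * W l = ha l e * hb l e := by
  fin_cases e
  · change Nu (l 0) (l 1) (l 2) (l 3) (l 4) (l 5) ^ 2 + 4 * l 0 ^ 2 * W l =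
      He (l 0) (l 1) (l 3) * He (l 0) (l 2) (l 4)
    unfold Nu He W Wsq; ring
  · change Nu (l 1) (l 0) (l 2) (l 3) (l 5) (l 4) ^ 2 + 4 * l 1 ^ 2 * W l =
      He (l 1) (l 0) (l 3) * He (l 1) (l 2) (l 5)
    unfold Nu He W Wsq; ring
  · change Nu (l 2) (l 0) (l 1) (l 4) (l 5) (l 3) ^ 2 + 4 * l 2 ^ 2 * W l =
      He (l 2) (l 0) (l 4) * He (l 2) (l 1) (l 5)
    unfold Nu He W Wsq; ring
  · change Nu (l 3) (l 0) (l 4) (l 1) (l 5) (l 2) ^ 2 + 4 * l 3 ^ 2 * W l =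
      He (l 3) (l 0) (l 1) * He (l 3) (l 4) (l 5)
    unfold Nu He W Wsq; ring
  · change Nu (l 4) (l 0) (l 3) (l 2) (l 5) (l 1) ^ 2 + 4 * l 4 ^ 2 * W l =
      He (l 4) (l 0) (l 2) * He (l 4) (l 3) (l 5)
    unfold Nu He W Wsq; ring
  · change Nu (l 5) (l 1) (l 3) (l 2) (l 4) (l 0) ^ 2 + 4 * l 5 ^ 2 * W l =
      He (l 5) (l 1) (l 2) * He (l 5) (l 3) (l 4)
    unfold Nu He W Wsq; ring

/-- the twelve strict triangle inequalities -/
private theorem tri {l : V6} (hl : l ∈ T) :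
    (0 < l 1 + l 2 - l 5 ∧ 0 < l 0 + l 2 - l 4 ∧ 0 < l 0 + l 1 - l 3) ∧
    (0 < l 3 + l 4 - l 5 ∧ 0 < l 0 + l 3 - l 1 ∧ 0 < l 0 + l 4 - l 2) ∧
    (0 < l 1 + l 3 - l 0 ∧ 0 < l 3 + l 5 - l 4 ∧ 0 < l 1 + l 5 - l 2) ∧
    (0 < l 2 + l 4 - l 0 ∧ 0 < l 2 + l 5 - l 1 ∧ 0 < l 4 + l 5 - l 3) := by
  obtain ⟨h, -⟩ := hl
  have h00 : l 0 + l 5 < l 0 + l 1 + l 2 := h 0 0
  have h01 : l 1 + l 4 < l 0 + l 1 + l 2 := h 0 1
  have h02 : l 2 + l 3 < l 0 + l 1 + l 2 := h 0 2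
  have h10 : l 0 + l 5 < l 0 + l 3 + l 4 := h 1 0
  have h11 : l 1 + l 4 < l 0 + l 3 + l 4 := h 1 1
  have h12 : l 2 + l 3 < l 0 + l 3 + l 4 := h 1 2
  have h20 : l 0 + l 5 < l 1 + l 3 + l 5 := h 2 0
  have h21 : l 1 + l 4 < l 1 + l 3 + l 5 := h 2 1
  have h22 : l 2 + l 3 < l 1 + l 3 + l 5 := h 2 2
  have h30 : l 0 + l 5 < l 2 + l 4 + l 5 := h 3 0
  have h31 : l 1 + l 4 < l 2 + l 4 + l 5 := h 3 1
  have h32 : l 2 + l 3 < l 2 + l 4 + l 5 := h 3 2
  refine ⟨⟨?_, ?_, ?_⟩, ⟨?_, ?_, ?_⟩, ⟨?_, ?_, ?_⟩, ⟨?_, ?_, ?_⟩⟩ <;> linarith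

private theorem He_pos {p q r : ℝ} (h1 : 0 < p + q - r) (h2 : 0 < p + r - q)
    (h3 : 0 < q + r - p) : 0 < He p q r := by
  have h4 : 0 < p + q + r := by linarith
  have h2' : 0 < p - q + r := by linarith
  have h3' : 0 < -p + q + r := by linarith
  exact mul_pos (mul_pos (mul_pos h4 h1) h2') h3'

theorem T_pos {l : V6} (hl : l ∈ T) (e : Fin 6) : 0 < l e := by
  obtain ⟨⟨h1, h2, h3⟩, ⟨h4, h5, h6⟩, ⟨h7, h8, h9⟩, ⟨h10, h11, h12⟩⟩ := tri hl
  fin_cases e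
  · change 0 < l 0; linarith
  · change 0 < l 1; linarith
  · change 0 < l 2; linarith
  · change 0 < l 3; linarith
  · change 0 < l 4; linarith
  · change 0 < l 5; linarith

theorem ha_pos {l : V6} (hl : l ∈ T) (e : Fin 6) : 0 < ha l e := by
  obtain ⟨⟨h1, h2, h3⟩, ⟨h4, h5, h6⟩, ⟨h7, h8, h9⟩, ⟨h10, h11, h12⟩⟩ := tri hl
  fin_cases e
  · change 0 < He (l 0) (l 1) (l 3); exact He_pos (by linarith) (by linarith) (by linarith)
  · change 0 < He (l 1) (l 0) (l 3); exact He_pos (by linarith) (by linarith) (by linarith)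
  · change 0 < He (l 2) (l 0) (l 4); exact He_pos (by linarith) (by linarith) (by linarith)
  · change 0 < He (l 3) (l 0) (l 1); exact He_pos (by linarith) (by linarith) (by linarith)
  · change 0 < He (l 4) (l 0) (l 2); exact He_pos (by linarith) (by linarith) (by linarith)
  · change 0 < He (l 5) (l 1) (l 2); exact He_pos (by linarith) (by linarith) (by linarith)

theorem hb_pos {l : V6} (hl : l ∈ T) (e : Fin 6) : 0 < hb l e := by
  obtain ⟨⟨h1, h2, h3⟩, ⟨h4, h5, h6⟩, ⟨h7, h8, h9⟩, ⟨h10, h11, h12⟩⟩ := tri hl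
  fin_cases e
  · change 0 < He (l 0) (l 2) (l 4); exact He_pos (by linarith) (by linarith) (by linarith)
  · change 0 < He (l 1) (l 2) (l 5); exact He_pos (by linarith) (by linarith) (by linarith)
  · change 0 < He (l 2) (l 1) (l 5); exact He_pos (by linarith) (by linarith) (by linarith)
  · change 0 < He (l 3) (l 4) (l 5); exact He_pos (by linarith) (by linarith) (by linarith)
  · change 0 < He (l 4) (l 3) (l 5); exact He_pos (by linarith) (by linarith) (by linarith)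
  · change 0 < He (l 5) (l 3) (l 4); exact He_pos (by linarith) (by linarith) (by linarith)

private theorem den_pos {l : V6} (hl : l ∈ T) (e : Fin 6) :
    0 < Real.sqrt (ha l e) * Real.sqrt (hb l e) :=
  mul_pos (Real.sqrt_pos.2 (ha_pos hl e)) (Real.sqrt_pos.2 (hb_pos hl e))

private theorem den_sq {l : V6} (hl : l ∈ T) (e : Fin 6) :
    (Real.sqrt (ha l e) * Real.sqrt (hb l e)) ^ 2 = ha l e * hb l e := by
  rw [mul_pow, Real.sq_sqrt (ha_pos hl e).le, Real.sq_sqrt (hb_pos hl e).le]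

private theorem W_pos {l : V6} (hl : l ∈ T) : 0 < W l := hl.2

private theorem one_sub_sq {l : V6} (hl : l ∈ T) (e : Fin 6) :
    1 - (cs l e) ^ 2 =
      (2 * l e * Real.sqrt (W l) / (Real.sqrt (ha l e) * Real.sqrt (hb l e))) ^ 2 := by
  rw [cs_eq, div_pow, div_pow, den_sq hl e, mul_pow, Real.sq_sqrt (W_pos hl).le]
  have h1 : ha l e * hb l e ≠ 0 := (mul_pos (ha_pos hl e) (hb_pos hl e)).ne'
  rw [eq_div_iff h1, sub_mul, div_mul_cancel₀ _ h1, ← nu_sq l e]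
  ring

private theorem num_pos {l : V6} (hl : l ∈ T) (e : Fin 6) : 0 < 2 * l e * Real.sqrt (W l) :=
  mul_pos (mul_pos two_pos (T_pos hl e)) (Real.sqrt_pos.2 (W_pos hl))

private theorem cs_sq_lt {l : V6} (hl : l ∈ T) (e : Fin 6) : (cs l e) ^ 2 < 1 := by
  have h := one_sub_sq hl e
  have h2 : 0 < (2 * l e * Real.sqrt (W l) / (Real.sqrt (ha l e) * Real.sqrt (hb l e))) ^ 2 :=
    pow_pos (div_pos (num_pos hl e) (den_pos hl e)) 2
  linarith

private theorem cs_lt {l : V6} (hl : l ∈ T) (e : Fin 6) : cs l e < 1 := by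
  have := cs_sq_lt hl e
  nlinarith

private theorem lt_cs {l : V6} (hl : l ∈ T) (e : Fin 6) : -1 < cs l e := by
  have := cs_sq_lt hl e
  nlinarith

theorem ang_pos {l : V6} (hl : l ∈ T) (e : Fin 6) : 0 < ang l e :=
  Real.arccos_pos.2 (cs_lt hl e)

theorem ang_lt {l : V6} (hl : l ∈ T) (e : Fin 6) : ang l e < π := by
  refine lt_of_le_of_ne (Real.arccos_le_pi _) fun h => ?_
  have h1 : Real.cos (ang l e) = cs l e :=
    Real.cos_arccos (lt_cs hl e).le (cs_lt hl e).le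
  have h2 : ang l e = π := h
  rw [h2, Real.cos_pi] at h1
  exact absurd (lt_cs hl e) (by rw [← h1]; exact lt_irrefl _)

theorem cos_ang {l : V6} (hl : l ∈ T) (e : Fin 6) :
    Real.cos (ang l e) = nu l e / (Real.sqrt (ha l e) * Real.sqrt (hb l e)) := by
  rw [← cs_eq]
  exact Real.cos_arccos (lt_cs hl e).le (cs_lt hl e).le

theorem sin_ang {l : V6} (hl : l ∈ T) (e : Fin 6) :
    Real.sin (ang l e) = 2 * l e * Real.sqrt (W l) / (Real.sqrt (ha l e) * Real.sqrt (hb l e)) := by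
  change Real.sin (Real.arccos (cs l e)) = _
  rw [Real.sin_arccos, one_sub_sq hl e,
    Real.sqrt_sq (div_pos (num_pos hl e) (den_pos hl e)).le]

theorem ang_arctan {l : V6} (hl : l ∈ T) (e : Fin 6) :
    ang l e = π / 2 - Real.arctan (nu l e / (2 * l e * Real.sqrt (W l))) := by
  have hD := den_pos hl e
  have hN := num_pos hl e
  set y := nu l e / (2 * l e * Real.sqrt (W l)) with hy
  have h1 : Real.arctan y < π / 2 := Real.arctan_lt_pi_div_two y
  have h2 : -(π / 2) < Real.arctan y := Real.neg_pi_div_two_lt_arctan y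
  refine Real.injOn_cos ⟨(ang_pos hl e).le, (ang_lt hl e).le⟩
    ⟨by linarith, by linarith⟩ ?_
  rw [Real.cos_pi_div_two_sub, Real.sin_arctan, cos_ang hl e]
  have h3 : Real.sqrt (1 + y ^ 2) =
      (Real.sqrt (ha l e) * Real.sqrt (hb l e)) / (2 * l e * Real.sqrt (W l)) := by
    rw [Real.sqrt_eq_iff_mul_self_eq_of_pos (div_pos hD hN), ← pow_two, div_pow, den_sq hl e,
      ← nu_sq l e, hy, div_pow, div_eq_iff (pow_pos hN 2).ne', add_mul,
      div_mul_cancel₀ _ (pow_pos hN 2).ne', mul_pow, Real.sq_sqrt (W_pos hl).le]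
    ring
  rw [h3, hy, div_div_div_cancel_right₀ hN.ne']

end Pool.Agent.helper37.NP
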