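import Pool.Agent.helper37.NP.Bas
import Pool.Agent.helper37.NP.Perm

/-!
NP-05 (V12).  Vertex inequalities.

PROOF.  At the vertex `a` (edges `0, 1, 2`) put `t i = ang l i`.  Polynomial identity (`ring` after
unfolding, checked):
`nu l 2 * He (l 0) (l 1) (l 3) = - nu l 0 * nu l 1 + 2 * W l * (l 0 ^ 2 + l 1 ^ 2 - l 3 ^ 2)`.
With `cos_ang`, `sin_ang` (note `ha l 0 = ha l 1 = He(abc)` up to symmetry of `He`,
`hb l 0 = ha l 2 = He(abd)`, `hb l 1 = hb l 2 = He(acd)`) it says
`cos t2 = - cos t0 cos t1 + sin t0 sin t1 u`, `u = (l0² + l1² - l3²) / (2 l0 l1)`, and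
`-1 < u < 1` because of the strict triangle inequalities of the face `abc`.
Hence `cos t2 < - cos (t0 + t1)` and `cos t2 > - cos (t0 - t1)`.
* If `t0 + t1 ≤ π`, the first gives `cos t2 < cos (π - (t0 + t1))`, so `t2 > π - (t0 + t1)`; if
  `t0 + t1 > π` then `t0 + t1 + t2 > π` trivially.  So `π < t0 + t1 + t2`.
* The second is `cos t2 > cos (π - |t0 - t1|)`, so `t2 < π - |t0 - t1|`.
The other vertices follow with `Perm` (`sab`, `sbc`, `scd`): e.g. for the vertex `b` apply the
result to `sab l`, for `c` to `sbc (sab l)` or directly by the same computation.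
`ev_lt`: for every edge `e` at the vertex `v`: `ev t v < 2 * t e`.
-/

namespace Pool.Agent.helper37.NP

open Real

/-- the three edges at a vertex -/
def vE : Fin 4 → Fin 3 → Fin 6 := ![![0, 1, 2], ![0, 3, 4], ![1, 3, 5], ![2, 4, 5]]

private theorem trig {x y z u : ℝ} (hx : 0 < x) (hx' : x < π) (hy : 0 < y) (hy' : y < π)
    (hz : 0 < z) (hz' : z < π) (hu : -1 < u) (hu' : u < 1)
    (h : Real.cos z = -(Real.cos x * Real.cos y) + Real.sin x * Real.sin y * u) :
    π < x + y + z ∧ x + y + z - π < 2 * x ∧ x + y + z - π < 2 * y ∧ x + y + z - π < 2 * z := by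
  have hs : 0 < Real.sin x * Real.sin y :=
    mul_pos (Real.sin_pos_of_pos_of_lt_pi hx hx') (Real.sin_pos_of_pos_of_lt_pi hy hy')
  have h1 : Real.cos z < -Real.cos (x + y) := by
    rw [h, Real.cos_add]
    nlinarith [mul_lt_mul_of_pos_left hu' hs]
  have h2 : -Real.cos (x - y) < Real.cos z := by
    rw [h, Real.cos_sub]
    nlinarith [mul_lt_mul_of_pos_left hu hs]
  -- decreasing cosine
  have key : ∀ a b : ℝ, 0 ≤ a → a ≤ π → 0 ≤ b → b ≤ π → Real.cos a < Real.cos b → b < a := by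
    intro a b ha ha' hb hb' hab
    by_contra hcon
    exact absurd (Real.cos_le_cos_of_nonneg_of_le_pi ha hb' (not_lt.1 hcon)) (not_le.2 hab)
  have h3 : π < x + y + z := by
    rcases le_or_gt (x + y) π with h4 | h4
    · have h5 : Real.cos z < Real.cos (π - (x + y)) := by
        rw [Real.cos_pi_sub]
        exact h1
      have := key z (π - (x + y)) hz.le hz'.le (by linarith) (by linarith) h5
      linarith
    · linarith
  have h6 : x + y + z - π < 2 * z := by
    rcases le_or_gt π (x + y) with h4 | h4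
    · have h5 : Real.cos z < Real.cos (x + y - π) := by
        rw [Real.cos_sub_pi]
        exact h1
      have := key z (x + y - π) hz.le hz'.le (by linarith) (by linarith) h5
      linarith
    · linarith
  have h7 : x + y + z - π < 2 * x := by
    rcases le_or_gt x y with h4 | h4
    · have h5 : Real.cos (π - (y - x)) < Real.cos z := by
        rw [Real.cos_pi_sub, ← Real.cos_neg (y - x), neg_sub]
        exact h2
      have := key (π - (y - x)) z (by linarith) (by linarith) hz.le hz'.le h5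
      linarith
    · linarith
  have h8 : x + y + z - π < 2 * y := by
    rcases le_or_gt y x with h4 | h4
    · have h5 : Real.cos (π - (x - y)) < Real.cos z := by
        rw [Real.cos_pi_sub]
        exact h2
      have := key (π - (x - y)) z (by linarith) (by linarith) hz.le hz'.le h5
      linarith
    · linarith
  exact ⟨h3, h7, h8, h6⟩

private theorem nu_id (l : V6) :
    nu l 2 * He (l 0) (l 1) (l 3) =
      -(nu l 0 * nu l 1) + 2 * W l * (l 0 ^ 2 + l 1 ^ 2 - l 3 ^ 2) := by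
  change Nu (l 2) (l 0) (l 1) (l 4) (l 5) (l 3) * He (l 0) (l 1) (l 3) =
    -(Nu (l 0) (l 1) (l 2) (l 3) (l 4) (l 5) * Nu (l 1) (l 0) (l 2) (l 3) (l 5) (l 4)) +
      2 * Wsq (l 0 ^ 2) (l 1 ^ 2) (l 2 ^ 2) (l 3 ^ 2) (l 4 ^ 2) (l 5 ^ 2) *
        (l 0 ^ 2 + l 1 ^ 2 - l 3 ^ 2)
  unfold Nu He Wsq
  ring

private theorem cos_id {l : V6} (hl : l ∈ T) :
    Real.cos (ang l 2) = -(Real.cos (ang l 0) * Real.cos (ang l 1)) +
      Real.sin (ang l 0) * Real.sin (ang l 1) *
        ((l 0 ^ 2 + l 1 ^ 2 - l 3 ^ 2) / (2 * l 0 * l 1)) := by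
  have p0 := T_pos hl 0
  have p1 := T_pos hl 1
  have hA : 0 < He (l 0) (l 1) (l 3) := ha_pos hl 0
  have hB : 0 < He (l 0) (l 2) (l 4) := hb_pos hl 0
  have hC : 0 < He (l 1) (l 2) (l 5) := hb_pos hl 1
  have c0 := cos_ang hl 0
  have c1 := cos_ang hl 1
  have c2 := cos_ang hl 2
  have s0 := sin_ang hl 0
  have s1 := sin_ang hl 1
  have e0 : ha l 0 = He (l 0) (l 1) (l 3) := rfl
  have e1 : ha l 1 = He (l 0) (l 1) (l 3) := by
    change He (l 1) (l 0) (l 3) = He (l 0) (l 1) (l 3)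
    unfold He
    ring
  have e2 : ha l 2 = He (l 0) (l 2) (l 4) := by
    change He (l 2) (l 0) (l 4) = He (l 0) (l 2) (l 4)
    unfold He
    ring
  have f0 : hb l 0 = He (l 0) (l 2) (l 4) := rfl
  have f1 : hb l 1 = He (l 1) (l 2) (l 5) := rfl
  have f2 : hb l 2 = He (l 1) (l 2) (l 5) := by
    change He (l 2) (l 1) (l 5) = He (l 1) (l 2) (l 5)
    unfold He
    ring
  rw [e0, f0] at c0 s0
  rw [e1, f1] at c1 s1
  rw [e2, f2] at c2
  have qA := Real.sqrt_pos.2 hA
  have qB := Real.sqrt_pos.2 hB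
  have qC := Real.sqrt_pos.2 hC
  have sA := Real.mul_self_sqrt hA.le
  have sW := Real.mul_self_sqrt hl.2.le
  have hid := nu_id l
  rw [← sA] at hid
  rw [c0, c1, c2, s0, s1]
  generalize Real.sqrt (He (l 0) (l 1) (l 3)) = A at *
  generalize Real.sqrt (He (l 0) (l 2) (l 4)) = B at *
  generalize Real.sqrt (He (l 1) (l 2) (l 5)) = C at *
  rw [← sW] at hid
  generalize Real.sqrt (W l) = w at *
  generalize nu l 0 = n0 at *
  generalize nu l 1 = n1 at *
  generalize nu l 2 = n2 at *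
  have hA' := qA.ne'
  have hB' := qB.ne'
  have hC' := qC.ne'
  have h0' := p0.ne'
  have h1' := p1.ne'
  field_simp
  linear_combination hid

private theorem main {l : V6} (hl : l ∈ T) :
    π < ang l 0 + ang l 1 + ang l 2 ∧ ang l 0 + ang l 1 + ang l 2 - π < 2 * ang l 0 ∧
      ang l 0 + ang l 1 + ang l 2 - π < 2 * ang l 1 ∧
      ang l 0 + ang l 1 + ang l 2 - π < 2 * ang l 2 := by
  have p0 := T_pos hl 0
  have p1 := T_pos hl 1
  have p3 := T_pos hl 3
  have t1 : 0 < l 0 + l 1 - l 3 := by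
    have h : l 2 + l 3 < l 0 + l 1 + l 2 := hl.1 0 2
    linarith
  have t2 : 0 < l 0 + l 3 - l 1 := by
    have h : l 1 + l 4 < l 0 + l 3 + l 4 := hl.1 1 1
    linarith
  have t3 : 0 < l 1 + l 3 - l 0 := by
    have h : l 0 + l 5 < l 1 + l 3 + l 5 := hl.1 2 0
    linarith
  have hp : 0 < 2 * l 0 * l 1 := by positivity
  refine trig (ang_pos hl 0) (ang_lt hl 0) (ang_pos hl 1) (ang_lt hl 1) (ang_pos hl 2)
    (ang_lt hl 2) ?_ ?_ (cos_id hl)
  · rw [lt_div_iff₀ hp]
    nlinarith [mul_pos t1 (add_pos (add_pos p0 p1) p3)]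
  · rw [div_lt_iff₀ hp]
    nlinarith [mul_pos t2 t3]

theorem ev_pos {l : V6} (hl : l ∈ T) (v : Fin 4) : 0 < ev (ang l) v := by
  have h0 := (main hl).1
  have h1 := (main (T_sab hl)).1
  have h2 := (main (T_sab (T_sbc hl))).1
  have h3 := (main (T_sab (T_sbc (T_scd hl)))).1
  rw [ang_sab] at h1
  rw [ang_sab, ang_sbc] at h2
  rw [ang_sab, ang_sbc, ang_scd] at h3
  fin_cases v
  · exact sub_pos.2 h0
  · exact sub_pos.2 h1
  · exact sub_pos.2 h2
  · exact sub_pos.2 h3

theorem ev_lt {l : V6} (hl : l ∈ T) (v : Fin 4) (i : Fin 3) :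
    ev (ang l) v < 2 * ang l (vE v i) := by
  have h0 := (main hl).2
  have h1 := (main (T_sab hl)).2
  have h2 := (main (T_sab (T_sbc hl))).2
  have h3 := (main (T_sab (T_sbc (T_scd hl)))).2
  rw [ang_sab] at h1
  rw [ang_sab, ang_sbc] at h2
  rw [ang_sab, ang_sbc, ang_scd] at h3
  fin_cases v <;> fin_cases i
  · exact h0.1
  · exact h0.2.1
  · exact h0.2.2
  · exact h1.1
  · exact h1.2.1
  · exact h1.2.2
  · exact h2.1
  · exact h2.2.1
  · exact h2.2.2
  · exact h3.1
  · exact h3.2.1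
  · exact h3.2.2

end Pool.Agent.helper37.NP
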