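import Pool.Agent.helper37.NP.Ana
import Pool.Agent.helper37.NP.V12

/-!
NP-13 (Clo).  The closure of `T` and degenerate length vectors.

PROOFS.
* `closure_T`: `CT` is closed (weak inequalities between continuous functions) and contains `T`.
* `CT_nonneg`: `2 * p e` is a sum of two of the numbers `sg p v - Q p j ≥ 0`.
* `W_deg`: if `Q p j = sg p v`, one edge is the sum of two others and `W p = - κ²`.  For
  `v = 2, j = 0` (the point `c` lies between `a` and `b`): `p 0 = p 1 + p 3` and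
  `W p = - (p 1 * p 4 ^ 2 + p 3 * p 2 ^ 2 - (p 1 + p 3) * (p 5 ^ 2 + p 1 * p 3)) ^ 2` (`ring` after
  substitution, checked).  In general: middle vertex `v`, edges `e1 = vx`, `e2 = vy`, `e3 = vd`,
  `f = xy = e1 + e2`, `g1 = xd`, `g2 = yd`:
  `W = - (e1 g2² + e2 g1² - (e1 + e2)(e3² + e1 e2))²`.  Twelve cases (or use `Perm`).
* `W_zero`: if `p ∈ CT`, `p ∉ T`, then either some `Q p j = sg p v`, so `W p ≤ 0` by `W_deg`, or
  all are strict and then `W p ≤ 0` by definition of `T`.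
* `edge_zero`: e.g. `v = 0`, `e = 0`: `p 0 = 0` gives `p 1 = p 3`, `p 2 = p 4` from the triangle
  inequalities, so `sg p 0 = p 1 + p 2 = p 1 + p 4 = Q p 1`.
* `Dv_zero`: `4 D² = ((a+b)² - z²)((b+c)² - x²)((c+a)² - y²) - W` (`ring`, with `D = Dd a b c x y z`
  and the squared lengths in the correct order; checked).  If `W = 0`, `D = 0`, one of the three
  factors vanishes, e.g. `a + b = z` (all numbers are `≥ 0` and `a, b > 0`), which is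
  `sg p v = Q p j` for the pair `j` containing `z`.
-/

namespace Pool.Agent.helper37.NP

open Real

/-- a closed set containing the closure of `T` -/
def CT : Set V6 := {p | (∀ v j, Q p j ≤ sg p v) ∧ 0 ≤ W p}

theorem closure_T : closure T ⊆ CT := by
  apply closure_minimal
  · intro p hp
    exact ⟨fun v j => (hp.1 v j).le, hp.2.le⟩
  · have h1 : IsClosed {p : V6 | ∀ v j, Q p j ≤ sg p v} := by
      simp only [Set.ofPred_forall]
      refine isClosed_iInter fun v => isClosed_iInter fun j => isClosed_le ?_ ?_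
      · fin_cases j <;> simp only [Q] <;> simp <;> fun_prop
      · fin_cases v <;> simp only [sg] <;> simp <;> fun_prop
    have h2 : IsClosed {p : V6 | 0 ≤ W p} := by
      refine isClosed_le continuous_const ?_
      unfold W Wsq
      fun_prop
    exact h1.inter h2

private theorem Clo_ineqs {p : V6} (hp : p ∈ CT) :
    (p 0 ≤ p 1 + p 3 ∧ p 1 ≤ p 0 + p 3 ∧ p 3 ≤ p 0 + p 1) ∧
    (p 0 ≤ p 2 + p 4 ∧ p 2 ≤ p 0 + p 4 ∧ p 4 ≤ p 0 + p 2) ∧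
    (p 1 ≤ p 2 + p 5 ∧ p 2 ≤ p 1 + p 5 ∧ p 5 ≤ p 1 + p 2) ∧
    (p 3 ≤ p 4 + p 5 ∧ p 4 ≤ p 3 + p 5 ∧ p 5 ≤ p 3 + p 4) := by
  have h00 : p 0 + p 5 ≤ p 0 + p 1 + p 2 := hp.1 0 0
  have h01 : p 1 + p 4 ≤ p 0 + p 1 + p 2 := hp.1 0 1
  have h02 : p 2 + p 3 ≤ p 0 + p 1 + p 2 := hp.1 0 2
  have h10 : p 0 + p 5 ≤ p 0 + p 3 + p 4 := hp.1 1 0
  have h11 : p 1 + p 4 ≤ p 0 + p 3 + p 4 := hp.1 1 1
  have h12 : p 2 + p 3 ≤ p 0 + p 3 + p 4 := hp.1 1 2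
  have h20 : p 0 + p 5 ≤ p 1 + p 3 + p 5 := hp.1 2 0
  have h21 : p 1 + p 4 ≤ p 1 + p 3 + p 5 := hp.1 2 1
  have h22 : p 2 + p 3 ≤ p 1 + p 3 + p 5 := hp.1 2 2
  have h30 : p 0 + p 5 ≤ p 2 + p 4 + p 5 := hp.1 3 0
  have h31 : p 1 + p 4 ≤ p 2 + p 4 + p 5 := hp.1 3 1
  have h32 : p 2 + p 3 ≤ p 2 + p 4 + p 5 := hp.1 3 2
  refine ⟨⟨?_, ?_, ?_⟩, ⟨?_, ?_, ?_⟩, ⟨?_, ?_, ?_⟩, ⟨?_, ?_, ?_⟩⟩ <;> linarith

theorem CT_nonneg {p : V6} (hp : p ∈ CT) (e : Fin 6) : 0 ≤ p e := by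
  obtain ⟨⟨h1, h2, h3⟩, ⟨h4, h5, h6⟩, ⟨h7, h8, h9⟩, ⟨h10, h11, h12⟩⟩ := Clo_ineqs hp
  have k0 : 0 ≤ p 0 := by linarith
  have k1 : 0 ≤ p 1 := by linarith
  have k2 : 0 ≤ p 2 := by linarith
  have k3 : 0 ≤ p 3 := by linarith
  have k4 : 0 ≤ p 4 := by linarith
  have k5 : 0 ≤ p 5 := by linarith
  fin_cases e <;> assumption

theorem W_deg {p : V6} {v : Fin 4} {j : Fin 3} (h0 : Q p j = sg p v) : W p ≤ 0 := by
  fin_cases v <;> fin_cases j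
  · have h : p 0 + p 5 = p 0 + p 1 + p 2 := h0
    have hf : p 5 = p 1 + p 2 := by linarith
    have hW : W p = -(p 1 * p 4 ^ 2 + p 2 * p 3 ^ 2 -
        (p 1 + p 2) * (p 0 ^ 2 + p 1 * p 2)) ^ 2 := by
      unfold W Wsq
      rw [hf]
      ring
    rw [hW]
    exact neg_nonpos.2 (sq_nonneg _)
  · have h : p 1 + p 4 = p 0 + p 1 + p 2 := h0
    have hf : p 4 = p 0 + p 2 := by linarith
    have hW : W p = -(p 0 * p 5 ^ 2 + p 2 * p 3 ^ 2 -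
        (p 0 + p 2) * (p 1 ^ 2 + p 0 * p 2)) ^ 2 := by
      unfold W Wsq
      rw [hf]
      ring
    rw [hW]
    exact neg_nonpos.2 (sq_nonneg _)
  · have h : p 2 + p 3 = p 0 + p 1 + p 2 := h0
    have hf : p 3 = p 0 + p 1 := by linarith
    have hW : W p = -(p 0 * p 5 ^ 2 + p 1 * p 4 ^ 2 -
        (p 0 + p 1) * (p 2 ^ 2 + p 0 * p 1)) ^ 2 := by
      unfold W Wsq
      rw [hf]
      ring
    rw [hW]
    exact neg_nonpos.2 (sq_nonneg _)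
  · have h : p 0 + p 5 = p 0 + p 3 + p 4 := h0
    have hf : p 5 = p 3 + p 4 := by linarith
    have hW : W p = -(p 3 * p 2 ^ 2 + p 4 * p 1 ^ 2 -
        (p 3 + p 4) * (p 0 ^ 2 + p 3 * p 4)) ^ 2 := by
      unfold W Wsq
      rw [hf]
      ring
    rw [hW]
    exact neg_nonpos.2 (sq_nonneg _)
  · have h : p 1 + p 4 = p 0 + p 3 + p 4 := h0
    have hf : p 1 = p 0 + p 3 := by linarith
    have hW : W p = -(p 0 * p 5 ^ 2 + p 3 * p 2 ^ 2 -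
        (p 0 + p 3) * (p 4 ^ 2 + p 0 * p 3)) ^ 2 := by
      unfold W Wsq
      rw [hf]
      ring
    rw [hW]
    exact neg_nonpos.2 (sq_nonneg _)
  · have h : p 2 + p 3 = p 0 + p 3 + p 4 := h0
    have hf : p 2 = p 0 + p 4 := by linarith
    have hW : W p = -(p 0 * p 5 ^ 2 + p 4 * p 1 ^ 2 -
        (p 0 + p 4) * (p 3 ^ 2 + p 0 * p 4)) ^ 2 := by
      unfold W Wsq
      rw [hf]
      ring
    rw [hW]
    exact neg_nonpos.2 (sq_nonneg _)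
  · have h : p 0 + p 5 = p 1 + p 3 + p 5 := h0
    have hf : p 0 = p 1 + p 3 := by linarith
    have hW : W p = -(p 1 * p 4 ^ 2 + p 3 * p 2 ^ 2 -
        (p 1 + p 3) * (p 5 ^ 2 + p 1 * p 3)) ^ 2 := by
      unfold W Wsq
      rw [hf]
      ring
    rw [hW]
    exact neg_nonpos.2 (sq_nonneg _)
  · have h : p 1 + p 4 = p 1 + p 3 + p 5 := h0
    have hf : p 4 = p 3 + p 5 := by linarith
    have hW : W p = -(p 3 * p 2 ^ 2 + p 5 * p 0 ^ 2 -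
        (p 3 + p 5) * (p 1 ^ 2 + p 3 * p 5)) ^ 2 := by
      unfold W Wsq
      rw [hf]
      ring
    rw [hW]
    exact neg_nonpos.2 (sq_nonneg _)
  · have h : p 2 + p 3 = p 1 + p 3 + p 5 := h0
    have hf : p 2 = p 1 + p 5 := by linarith
    have hW : W p = -(p 1 * p 4 ^ 2 + p 5 * p 0 ^ 2 -
        (p 1 + p 5) * (p 3 ^ 2 + p 1 * p 5)) ^ 2 := by
      unfold W Wsq
      rw [hf]
      ring
    rw [hW]
    exact neg_nonpos.2 (sq_nonneg _)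
  · have h : p 0 + p 5 = p 2 + p 4 + p 5 := h0
    have hf : p 0 = p 2 + p 4 := by linarith
    have hW : W p = -(p 2 * p 3 ^ 2 + p 4 * p 1 ^ 2 -
        (p 2 + p 4) * (p 5 ^ 2 + p 2 * p 4)) ^ 2 := by
      unfold W Wsq
      rw [hf]
      ring
    rw [hW]
    exact neg_nonpos.2 (sq_nonneg _)
  · have h : p 1 + p 4 = p 2 + p 4 + p 5 := h0
    have hf : p 1 = p 2 + p 5 := by linarith
    have hW : W p = -(p 2 * p 3 ^ 2 + p 5 * p 0 ^ 2 -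
        (p 2 + p 5) * (p 4 ^ 2 + p 2 * p 5)) ^ 2 := by
      unfold W Wsq
      rw [hf]
      ring
    rw [hW]
    exact neg_nonpos.2 (sq_nonneg _)
  · have h : p 2 + p 3 = p 2 + p 4 + p 5 := h0
    have hf : p 3 = p 4 + p 5 := by linarith
    have hW : W p = -(p 4 * p 1 ^ 2 + p 5 * p 0 ^ 2 -
        (p 4 + p 5) * (p 2 ^ 2 + p 4 * p 5)) ^ 2 := by
      unfold W Wsq
      rw [hf]
      ring
    rw [hW]
    exact neg_nonpos.2 (sq_nonneg _)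

theorem W_zero {p : V6} (hp : p ∈ CT) (hT : p ∉ T) : W p = 0 := by
  refine le_antisymm ?_ hp.2
  by_cases h : ∃ v j, Q p j = sg p v
  · obtain ⟨v, j, h⟩ := h
    exact W_deg h
  · push Not at h
    by_contra hW
    exact hT ⟨fun v j => lt_of_le_of_ne (hp.1 v j) (h v j), not_le.1 hW⟩

theorem edge_zero {p : V6} (hp : p ∈ CT) {v : Fin 4} {i : Fin 3} (h0 : p (vE v i) = 0) :
    ∃ j, Q p j = sg p v := by
  obtain ⟨⟨h1, h2, h3⟩, ⟨h4, h5, h6⟩, ⟨h7, h8, h9⟩, ⟨h10, h11, h12⟩⟩ := Clo_ineqs hp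
  fin_cases v <;> fin_cases i
  · have h : p 0 = 0 := h0
    exact ⟨1, show p 1 + p 4 = p 0 + p 1 + p 2 by linarith⟩
  · have h : p 1 = 0 := h0
    exact ⟨2, show p 2 + p 3 = p 0 + p 1 + p 2 by linarith⟩
  · have h : p 2 = 0 := h0
    exact ⟨0, show p 0 + p 5 = p 0 + p 1 + p 2 by linarith⟩
  · have h : p 0 = 0 := h0
    exact ⟨2, show p 2 + p 3 = p 0 + p 3 + p 4 by linarith⟩
  · have h : p 3 = 0 := h0
    exact ⟨1, show p 1 + p 4 = p 0 + p 3 + p 4 by linarith⟩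
  · have h : p 4 = 0 := h0
    exact ⟨0, show p 0 + p 5 = p 0 + p 3 + p 4 by linarith⟩
  · have h : p 1 = 0 := h0
    exact ⟨2, show p 2 + p 3 = p 1 + p 3 + p 5 by linarith⟩
  · have h : p 3 = 0 := h0
    exact ⟨0, show p 0 + p 5 = p 1 + p 3 + p 5 by linarith⟩
  · have h : p 5 = 0 := h0
    exact ⟨1, show p 1 + p 4 = p 1 + p 3 + p 5 by linarith⟩
  · have h : p 2 = 0 := h0
    exact ⟨1, show p 1 + p 4 = p 2 + p 4 + p 5 by linarith⟩
  · have h : p 4 = 0 := h0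
    exact ⟨0, show p 0 + p 5 = p 2 + p 4 + p 5 by linarith⟩
  · have h : p 5 = 0 := h0
    exact ⟨2, show p 2 + p 3 = p 2 + p 4 + p 5 by linarith⟩

private theorem Clo_Dd_sq (a b c x y z : ℝ) : 4 * Dd a b c x y z ^ 2 =
    ((a + b) ^ 2 - z ^ 2) * ((b + c) ^ 2 - x ^ 2) * ((c + a) ^ 2 - y ^ 2) -
      Wsq (a ^ 2) (b ^ 2) (c ^ 2) (z ^ 2) (y ^ 2) (x ^ 2) := by
  unfold Dd Wsq
  ring

private theorem Clo_factor {a b c x y z : ℝ} (ha : 0 < a) (hb : 0 < b) (hc : 0 < c) (hx : 0 ≤ x)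
    (hy : 0 ≤ y) (hz : 0 ≤ z) (hD : Dd a b c x y z = 0)
    (hW : Wsq (a ^ 2) (b ^ 2) (c ^ 2) (z ^ 2) (y ^ 2) (x ^ 2) = 0) :
    z = a + b ∨ x = b + c ∨ y = c + a := by
  have h := Clo_Dd_sq a b c x y z
  rw [hD, hW] at h
  have h1 : ((a + b) ^ 2 - z ^ 2) * ((b + c) ^ 2 - x ^ 2) * ((c + a) ^ 2 - y ^ 2) = 0 := by
    linarith
  have key : ∀ s t : ℝ, 0 < s → 0 ≤ t → s ^ 2 - t ^ 2 = 0 → t = s := by
    intro s t hs ht hst
    have h2 : (s - t) * (s + t) = 0 := by linarith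
    rcases mul_eq_zero.1 h2 with h3 | h3
    · linarith
    · linarith
  rcases mul_eq_zero.1 h1 with h2 | h2
  · rcases mul_eq_zero.1 h2 with h3 | h3
    · exact Or.inl (key _ _ (by linarith) hz h3)
    · exact Or.inr (Or.inl (key _ _ (by linarith) hx h3))
  · exact Or.inr (Or.inr (key _ _ (by linarith) hy h2))

theorem Dv_zero {p : V6} (hp : p ∈ CT) (hW : W p = 0) {v : Fin 4} (hpos : ∀ i, 0 < p (vE v i))
    (hD : Dv p v = 0) : ∃ j, Q p j = sg p v := by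
  have hn := CT_nonneg hp
  fin_cases v
  · have h : Dd (p 0) (p 1) (p 2) (p 5) (p 4) (p 3) = 0 := hD
    have ha : 0 < p 0 := hpos 0
    have hb : 0 < p 1 := hpos 1
    have hc : 0 < p 2 := hpos 2
    have hW' : Wsq (p 0 ^ 2) (p 1 ^ 2) (p 2 ^ 2) (p 3 ^ 2) (p 4 ^ 2) (p 5 ^ 2) = 0 := by
      rw [← hW]
      unfold W Wsq
      ring
    rcases Clo_factor ha hb hc (hn 5) (hn 4) (hn 3) h hW' with h1 | h1 | h1
    · exact ⟨2, show p 2 + p 3 = p 0 + p 1 + p 2 by linarith⟩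
    · exact ⟨0, show p 0 + p 5 = p 0 + p 1 + p 2 by linarith⟩
    · exact ⟨1, show p 1 + p 4 = p 0 + p 1 + p 2 by linarith⟩
  · have h : Dd (p 0) (p 3) (p 4) (p 5) (p 2) (p 1) = 0 := hD
    have ha : 0 < p 0 := hpos 0
    have hb : 0 < p 3 := hpos 1
    have hc : 0 < p 4 := hpos 2
    have hW' : Wsq (p 0 ^ 2) (p 3 ^ 2) (p 4 ^ 2) (p 1 ^ 2) (p 2 ^ 2) (p 5 ^ 2) = 0 := by
      rw [← hW]
      unfold W Wsq
      ring
    rcases Clo_factor ha hb hc (hn 5) (hn 2) (hn 1) h hW' with h1 | h1 | h1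
    · exact ⟨1, show p 1 + p 4 = p 0 + p 3 + p 4 by linarith⟩
    · exact ⟨0, show p 0 + p 5 = p 0 + p 3 + p 4 by linarith⟩
    · exact ⟨2, show p 2 + p 3 = p 0 + p 3 + p 4 by linarith⟩
  · have h : Dd (p 1) (p 3) (p 5) (p 4) (p 2) (p 0) = 0 := hD
    have ha : 0 < p 1 := hpos 0
    have hb : 0 < p 3 := hpos 1
    have hc : 0 < p 5 := hpos 2
    have hW' : Wsq (p 1 ^ 2) (p 3 ^ 2) (p 5 ^ 2) (p 0 ^ 2) (p 2 ^ 2) (p 4 ^ 2) = 0 := by
      rw [← hW]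
      unfold W Wsq
      ring
    rcases Clo_factor ha hb hc (hn 4) (hn 2) (hn 0) h hW' with h1 | h1 | h1
    · exact ⟨0, show p 0 + p 5 = p 1 + p 3 + p 5 by linarith⟩
    · exact ⟨1, show p 1 + p 4 = p 1 + p 3 + p 5 by linarith⟩
    · exact ⟨2, show p 2 + p 3 = p 1 + p 3 + p 5 by linarith⟩
  · have h : Dd (p 2) (p 4) (p 5) (p 3) (p 1) (p 0) = 0 := hD
    have ha : 0 < p 2 := hpos 0
    have hb : 0 < p 4 := hpos 1
    have hc : 0 < p 5 := hpos 2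
    have hW' : Wsq (p 2 ^ 2) (p 4 ^ 2) (p 5 ^ 2) (p 0 ^ 2) (p 1 ^ 2) (p 3 ^ 2) = 0 := by
      rw [← hW]
      unfold W Wsq
      ring
    rcases Clo_factor ha hb hc (hn 3) (hn 1) (hn 0) h hW' with h1 | h1 | h1
    · exact ⟨0, show p 0 + p 5 = p 2 + p 4 + p 5 by linarith⟩
    · exact ⟨2, show p 2 + p 3 = p 2 + p 4 + p 5 by linarith⟩
    · exact ⟨1, show p 1 + p 4 = p 2 + p 4 + p 5 by linarith⟩

end Pool.Agent.helper37.NP
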