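import Mathlib

/-!
NP-08 (VLc).  A calculus lemma about spherical triangles.

PROOF.  Fix `b, r ∈ (0, π)` (`r` is the angle at the vertex `R`, `b = pR`).  For `x ∈ (0, π)` put
* `f x = (cos x / sin x * sin b - cos b * cos r) / sin r`, `P x = π/2 - arctan (f x)`,
* `h x = (sin x * (cos b / sin b) - cos x * cos r) / sin r`, `X x = π/2 - arctan (h x)`,
* `k x = cos b * cos x + sin b * sin x * cos r` (`= cos c`),
* `Ψ x = P x + X x * k x + r * cos b`.
Derivatives: `P' = - f' / (1 + f²)`, `f' = - sin b / (sin r sin² x)`; and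
`(1 + f²) sin² r sin² x = 1 - k²` (algebra with `sin² + cos² = 1`), so
`P' = sin b sin r / (1 - k²)`.  Note `0 < 1 - k²` (it is `(1+f²) sin² r sin² x`).
`h' = (cos x cos b / sin b + sin x cos r) / sin r = k / (sin b sin r)` and
`(1 + h²) sin² r sin² b = 1 - k²`, so `X' = - h'/(1+h²) = - k sin b sin r / (1 - k²)`.
`k' = - cos b sin x + sin b cos x cos r = - sin b sin r h`.
Hence `Ψ' = sin b sin r / (1 - k²) - k² sin b sin r / (1 - k²) - X sin b sin r h
= sin b sin r (1 - X h)`, and `h = cot X` with `X ∈ (0, π)`, so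
`1 - X h = (sin X - X cos X) / sin X > 0` (`sin y > y cos y` on `(0, π)`: clear for
`y ≥ π/2`, and for `y < π/2` it is `tan y > y`).  So `Ψ` is strictly increasing on `(0, π)`.
Limits: as `x → 0+`, `f → +∞`, `P → 0`, `h → - cos r / sin r = - cot r`,
`X → π/2 + arctan (cot r) = π - r`, `k → cos b`: `Ψ → (π - r) cos b + r cos b = π cos b`.
As `x → π-`, `f → -∞`, `P → π`, `h → cot r`, `X → r`, `k → - cos b`: `Ψ → π`.
So `π cos b < Ψ x < π`.
-/

namespace Pool.Agent.helper37.NP

open Real

private theorem vlc_key (h : ℝ) : (π / 2 - arctan h) * h < 1 := by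
  rcases le_or_gt h 0 with h0 | h0
  · have h1 : 0 < π / 2 - arctan h := by linarith [arctan_lt_pi_div_two h]
    nlinarith
  · rw [← arctan_inv_of_pos h0]
    have h1 : arctan h⁻¹ < h⁻¹ := by
      have h2 : 0 < arctan h⁻¹ := arctan_pos.2 (inv_pos.2 h0)
      have h3 := lt_tan h2 (arctan_lt_pi_div_two _)
      rwa [tan_arctan] at h3
    calc arctan h⁻¹ * h < h⁻¹ * h := mul_lt_mul_of_pos_right h1 h0
      _ = 1 := inv_mul_cancel₀ h0.ne'

private noncomputable def vlcF (b r x : ℝ) : ℝ :=
  (cos x / sin x * sin b - cos b * cos r) / sin r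

private noncomputable def vlcH (b r x : ℝ) : ℝ :=
  (sin x * (cos b / sin b) - cos x * cos r) / sin r

private noncomputable def vlcK (b r x : ℝ) : ℝ := cos b * cos x + sin b * sin x * cos r

private noncomputable def vlcPsi (b r x : ℝ) : ℝ :=
  (π / 2 - arctan (vlcF b r x)) + (π / 2 - arctan (vlcH b r x)) * vlcK b r x + r * cos b

private theorem vlc_F {b r x : ℝ} (hr : sin r ≠ 0) (hx : sin x ≠ 0) :
    1 + vlcF b r x ^ 2 = (1 - vlcK b r x ^ 2) / (sin r ^ 2 * sin x ^ 2) := by
  unfold vlcF vlcK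
  have h1 := sin_sq_add_cos_sq b
  have h2 := sin_sq_add_cos_sq r
  have h3 := sin_sq_add_cos_sq x
  rw [eq_div_iff (by positivity)]
  field_simp
  generalize sin b = B at *
  generalize cos b = B' at *
  generalize sin r = R at *
  generalize cos r = R' at *
  generalize sin x = X at *
  generalize cos x = X' at *
  have e1 : B ^ 2 = 1 - B' ^ 2 := by linarith
  have e2 : R ^ 2 = 1 - R' ^ 2 := by linarith
  have e3 : X ^ 2 = 1 - X' ^ 2 := by linarith
  linear_combination (X ^ 2) * e2 + (X' ^ 2 + X ^ 2 * R' ^ 2) * e1 + e3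

private theorem vlc_H {b r x : ℝ} (hb : sin b ≠ 0) (hr : sin r ≠ 0) :
    1 + vlcH b r x ^ 2 = (1 - vlcK b r x ^ 2) / (sin r ^ 2 * sin b ^ 2) := by
  unfold vlcH vlcK
  have h1 := sin_sq_add_cos_sq b
  have h2 := sin_sq_add_cos_sq r
  have h3 := sin_sq_add_cos_sq x
  rw [eq_div_iff (by positivity)]
  field_simp
  generalize sin b = B at *
  generalize cos b = B' at *
  generalize sin r = R at *
  generalize cos r = R' at *
  generalize sin x = X at *
  generalize cos x = X' at *
  have e1 : B ^ 2 = 1 - B' ^ 2 := by linarith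
  have e2 : R ^ 2 = 1 - R' ^ 2 := by linarith
  have e3 : X ^ 2 = 1 - X' ^ 2 := by linarith
  linear_combination (B ^ 2) * e2 + (X' ^ 2 + X ^ 2 * R' ^ 2 + X ^ 2 * (1 - R' ^ 2)) * e1 +
    (1 - B ^ 2 * (1 - R' ^ 2)) * e3

private theorem vlc_hasDeriv {b r x : ℝ} (hb : 0 < sin b) (hr : 0 < sin r) (hx : 0 < sin x) :
    HasDerivAt (vlcPsi b r)
      (sin b * sin r * (1 - (π / 2 - arctan (vlcH b r x)) * vlcH b r x)) x := by
  have hF : HasDerivAt (vlcF b r)
      (((-sin x * sin x - cos x * cos x) / sin x ^ 2 * sin b) / sin r) x :=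
    ((((hasDerivAt_cos x).div (hasDerivAt_sin x) hx.ne').mul_const (sin b)).sub_const
      (cos b * cos r)).div_const (sin r)
  have hH : HasDerivAt (vlcH b r)
      ((cos x * (cos b / sin b) - -sin x * cos r) / sin r) x :=
    (((hasDerivAt_sin x).mul_const (cos b / sin b)).sub
      ((hasDerivAt_cos x).mul_const (cos r))).div_const (sin r)
  have hK : HasDerivAt (vlcK b r) (cos b * -sin x + sin b * cos x * cos r) x :=
    ((hasDerivAt_cos x).const_mul (cos b)).add
      (((hasDerivAt_sin x).const_mul (sin b)).mul_const (cos r))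
  have hP := (((hF.arctan).const_sub (π / 2)).add
    (((hH.arctan).const_sub (π / 2)).mul hK)).add_const (r * cos b)
  have hq : 0 < 1 - vlcK b r x ^ 2 := by
    have h1 := vlc_F (b := b) hr.ne' hx.ne'
    have h2 : 0 < 1 + vlcF b r x ^ 2 := by positivity
    rw [h1] at h2
    have h3 : 0 < sin r ^ 2 * sin x ^ 2 := by positivity
    by_contra h4
    have h5 := div_nonpos_of_nonpos_of_nonneg (not_lt.1 h4) h3.le
    linarith
  refine hP.congr_deriv ?_
  rw [vlc_F hr.ne' hx.ne', vlc_H hb.ne' hr.ne']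
  have e3 := sin_sq_add_cos_sq x
  have hF' : ((-sin x * sin x - cos x * cos x) / sin x ^ 2 * sin b) / sin r =
      -(sin b / (sin r * sin x ^ 2)) := by
    have h1 : -sin x * sin x - cos x * cos x = -1 := by linarith
    rw [h1]
    field_simp
  have hH' : (cos x * (cos b / sin b) - -sin x * cos r) / sin r =
      vlcK b r x / (sin b * sin r) := by
    unfold vlcK
    field_simp
    ring
  have hK' : cos b * -sin x + sin b * cos x * cos r = -(sin b * sin r * vlcH b r x) := by
    unfold vlcH
    field_simp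
    ring
  rw [hF', hH', hK']
  set q := 1 - vlcK b r x ^ 2 with hqd
  set X := π / 2 - arctan (vlcH b r x) with hX
  have e1 : -(1 / (q / (sin r ^ 2 * sin x ^ 2)) * -(sin b / (sin r * sin x ^ 2))) =
      sin b * sin r / q := by
    field_simp
  have e2 : -(1 / (q / (sin r ^ 2 * sin b ^ 2)) * (vlcK b r x / (sin b * sin r))) =
      -(sin b * sin r * vlcK b r x / q) := by
    field_simp
  rw [e1, e2]
  have e4 : sin b * sin r / q + -(sin b * sin r * vlcK b r x / q) * vlcK b r x =
      sin b * sin r := by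
    field_simp
    rw [hqd]
    ring
  linear_combination e4

private theorem vlc_mono {b r : ℝ} (hb : 0 < sin b) (hr : 0 < sin r) :
    StrictMonoOn (vlcPsi b r) (Set.Ioo 0 π) := by
  refine strictMonoOn_of_deriv_pos (convex_Ioo 0 π) ?_ ?_
  · intro x hx
    exact (vlc_hasDeriv hb hr (sin_pos_of_pos_of_lt_pi hx.1 hx.2)).continuousAt.continuousWithinAt
  · intro x hx
    rw [interior_Ioo] at hx
    rw [(vlc_hasDeriv hb hr (sin_pos_of_pos_of_lt_pi hx.1 hx.2)).deriv]
    have h1 := vlc_key (vlcH b r x)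
    have h2 := mul_pos hb hr
    exact mul_pos h2 (by linarith)

private theorem vlc_cot {r : ℝ} (hr : 0 < r) (hr' : r < π) :
    arctan (cos r / sin r) = π / 2 - r := by
  rw [← arctan_tan (x := π / 2 - r) (by linarith) (by linarith), tan_pi_div_two_sub,
    tan_eq_sin_div_cos, inv_div]

private theorem vlc_lim0 {b r : ℝ} (hb : 0 < sin b) (hr : 0 < r) (hr' : r < π) :
    Filter.Tendsto (vlcPsi b r) (nhdsWithin 0 (Set.Ioi 0)) (nhds (π * cos b)) := by
  have hs : 0 < sin r := sin_pos_of_pos_of_lt_pi hr hr'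
  have h1 : Filter.Tendsto (fun x : ℝ => cos x / sin x) (nhdsWithin 0 (Set.Ioi 0))
      Filter.atTop := by
    have h2 : Filter.Tendsto (fun x : ℝ => π / 2 - x) (nhdsWithin 0 (Set.Ioi 0))
        (nhdsWithin (π / 2) (Set.Iio (π / 2))) := by
      refine tendsto_nhdsWithin_iff.2 ⟨?_, ?_⟩
      · have h3 : Filter.Tendsto (fun x : ℝ => π / 2 - x) (nhds 0) (nhds (π / 2 - 0)) :=
          (continuous_const.sub continuous_id).tendsto 0
        rw [sub_zero] at h3
        exact h3.mono_left nhdsWithin_le_nhds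
      · filter_upwards [self_mem_nhdsWithin] with x hx
        have : (0 : ℝ) < x := hx
        show π / 2 - x < π / 2
        linarith
    refine (tendsto_tan_pi_div_two.comp h2).congr fun x => ?_
    rw [Function.comp_apply, tan_pi_div_two_sub, tan_eq_sin_div_cos, inv_div]
  have h2 : Filter.Tendsto (vlcF b r) (nhdsWithin 0 (Set.Ioi 0)) Filter.atTop := by
    have h3 := h1.atTop_mul_const hb
    have h4 := Filter.tendsto_atTop_add_const_right _ (-(cos b * cos r)) h3
    exact h4.atTop_div_const hs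
  have h3 : Filter.Tendsto (fun x => arctan (vlcF b r x)) (nhdsWithin 0 (Set.Ioi 0))
      (nhds (π / 2)) :=
    (tendsto_arctan_atTop.mono_right nhdsWithin_le_nhds).comp h2
  have h4 : Continuous (vlcH b r) := by unfold vlcH; fun_prop
  have h5 : Continuous (vlcK b r) := by unfold vlcK; fun_prop
  have h6 : Filter.Tendsto (fun x => (π / 2 - arctan (vlcH b r x)) * vlcK b r x)
      (nhdsWithin 0 (Set.Ioi 0)) (nhds ((π / 2 - arctan (vlcH b r 0)) * vlcK b r 0)) :=
    (((continuous_const.sub (continuous_arctan.comp h4)).mul h5).tendsto 0).mono_left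
      nhdsWithin_le_nhds
  have h7 := ((tendsto_const_nhds (x := π / 2)).sub h3).add h6 |>.add
    (tendsto_const_nhds (x := r * cos b))
  have e1 : vlcH b r 0 = -(cos r / sin r) := by
    unfold vlcH
    rw [sin_zero, cos_zero]
    ring
  have e2 : vlcK b r 0 = cos b := by
    unfold vlcK
    rw [sin_zero, cos_zero]
    ring
  rw [e1, e2, arctan_neg, vlc_cot hr hr'] at h7
  have e3 : π / 2 - π / 2 + (π / 2 - -(π / 2 - r)) * cos b + r * cos b = π * cos b := by ring
  rw [e3] at h7
  exact h7

private theorem vlc_limpi {b r : ℝ} (hb : 0 < sin b) (hr : 0 < r) (hr' : r < π) :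
    Filter.Tendsto (vlcPsi b r) (nhdsWithin π (Set.Iio π)) (nhds π) := by
  have hs : 0 < sin r := sin_pos_of_pos_of_lt_pi hr hr'
  have h1 : Filter.Tendsto (fun x : ℝ => cos x / sin x) (nhdsWithin π (Set.Iio π))
      Filter.atBot := by
    have h2 : Filter.Tendsto (fun x : ℝ => π / 2 - x) (nhdsWithin π (Set.Iio π))
        (nhdsWithin (-(π / 2)) (Set.Ioi (-(π / 2)))) := by
      refine tendsto_nhdsWithin_iff.2 ⟨?_, ?_⟩
      · have h3 : Filter.Tendsto (fun x : ℝ => π / 2 - x) (nhds π) (nhds (π / 2 - π)) :=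
          (continuous_const.sub continuous_id).tendsto π
        have h4 : π / 2 - π = -(π / 2) := by ring
        rw [h4] at h3
        exact h3.mono_left nhdsWithin_le_nhds
      · filter_upwards [self_mem_nhdsWithin] with x hx
        have : x < π := hx
        show -(π / 2) < π / 2 - x
        linarith
    refine (tendsto_tan_neg_pi_div_two.comp h2).congr fun x => ?_
    rw [Function.comp_apply, tan_pi_div_two_sub, tan_eq_sin_div_cos, inv_div]
  have h2 : Filter.Tendsto (vlcF b r) (nhdsWithin π (Set.Iio π)) Filter.atBot := by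
    have h3 := h1.atBot_mul_const hb
    have h4 := Filter.tendsto_atBot_add_const_right _ (-(cos b * cos r)) h3
    exact h4.atBot_div_const hs
  have h3 : Filter.Tendsto (fun x => arctan (vlcF b r x)) (nhdsWithin π (Set.Iio π))
      (nhds (-(π / 2))) :=
    (tendsto_arctan_atBot.mono_right nhdsWithin_le_nhds).comp h2
  have h4 : Continuous (vlcH b r) := by unfold vlcH; fun_prop
  have h5 : Continuous (vlcK b r) := by unfold vlcK; fun_prop
  have h6 : Filter.Tendsto (fun x => (π / 2 - arctan (vlcH b r x)) * vlcK b r x)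
      (nhdsWithin π (Set.Iio π)) (nhds ((π / 2 - arctan (vlcH b r π)) * vlcK b r π)) :=
    (((continuous_const.sub (continuous_arctan.comp h4)).mul h5).tendsto π).mono_left
      nhdsWithin_le_nhds
  have h7 := ((tendsto_const_nhds (x := π / 2)).sub h3).add h6 |>.add
    (tendsto_const_nhds (x := r * cos b))
  have e1 : vlcH b r π = cos r / sin r := by
    unfold vlcH
    rw [sin_pi, cos_pi]
    ring
  have e2 : vlcK b r π = -cos b := by
    unfold vlcK
    rw [sin_pi, cos_pi]
    ring
  rw [e1, e2, vlc_cot hr hr'] at h7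
  have e3 : π / 2 - -(π / 2) + (π / 2 - (π / 2 - r)) * -cos b + r * cos b = π := by ring
  rw [e3] at h7
  exact h7


theorem vl_calc {b r x : ℝ} (hb : 0 < b) (hb' : b < π) (hr : 0 < r) (hr' : r < π) (hx : 0 < x)
    (hx' : x < π) :
    π * cos b < (π / 2 - arctan ((cos x / sin x * sin b - cos b * cos r) / sin r))
        + (π / 2 - arctan ((sin x * (cos b / sin b) - cos x * cos r) / sin r))
          * (cos b * cos x + sin b * sin x * cos r) + r * cos b ∧
    (π / 2 - arctan ((cos x / sin x * sin b - cos b * cos r) / sin r))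
        + (π / 2 - arctan ((sin x * (cos b / sin b) - cos x * cos r) / sin r))
          * (cos b * cos x + sin b * sin x * cos r) + r * cos b < π := by
  have hb0 := sin_pos_of_pos_of_lt_pi hb hb'
  have hr0 := sin_pos_of_pos_of_lt_pi hr hr'
  have hm := vlc_mono hb0 hr0
  constructor
  · have h1 : vlcPsi b r (x / 2) < vlcPsi b r x :=
      hm ⟨by linarith, by linarith⟩ ⟨hx, hx'⟩ (by linarith)
    have h2 : π * cos b ≤ vlcPsi b r (x / 2) := by
      refine le_of_tendsto (vlc_lim0 hb0 hr hr') ?_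
      filter_upwards [Ioo_mem_nhdsGT (show (0 : ℝ) < x / 2 by linarith)] with y hy
      exact (hm ⟨hy.1, by linarith [hy.2]⟩ ⟨by linarith, by linarith⟩ hy.2).le
    exact h2.trans_lt h1
  · have h1 : vlcPsi b r x < vlcPsi b r ((x + π) / 2) :=
      hm ⟨hx, hx'⟩ ⟨by linarith, by linarith⟩ (by linarith)
    have h2 : vlcPsi b r ((x + π) / 2) ≤ π := by
      refine ge_of_tendsto (vlc_limpi hb0 hr hr') ?_
      filter_upwards [Ioo_mem_nhdsLT (show (x + π) / 2 < π by linarith)] with y hy
      exact (hm ⟨by linarith, by linarith⟩ ⟨by linarith [hy.1], hy.2⟩ hy.1).le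
    exact h1.trans_le h2

end Pool.Agent.helper37.NP
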