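import Pool.Agent.helper37.NP.V12
import Pool.Agent.helper37.NP.VLc

/-!
NP-09 (VL).  The vertex lemma: bounds for `Φ = t0 + t1 cos(bac) + t2 cos(bad)` at the vertex `a`.

PROOF.  Let `l ∈ T`, `t = ang l`, `u1 = (l0² + l1² - l3²)/(2 l0 l1)`,
`u2 = (l0² + l2² - l4²)/(2 l0 l2)`, `u3 = (l1² + l2² - l5²)/(2 l1 l2)`; all three lie in `(-1, 1)`.
Apply `vl_calc` with `b = arccos u2`, `r = t2`, `x = arccos u3`.  One has to check:
* `u1 = cos b cos x + sin b sin x cos r`, i.e. `u1 = u2 u3 + √(1-u2²) √(1-u3²) cos t2`: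
  since `√(1 - u2²) = √(ha l 2) / (2 l0 l2)`, `√(1 - u3²) = √(hb l 2)/(2 l1 l2)` this is
  `cos t2 = nu l 2 / (√ √)` and the definition of `Nu`;
* `t0 = π/2 - arctan ((cos x / sin x * sin b - cos b * cos r) / sin r)`: by `ang_arctan` it is
  enough that `nu l 0 / (2 l0 w) = (u3 sin b / sin x - u2 cos t2) / sin t2`, `w = √(W l)`;
  multiply by `sin t2 = 2 l2 w / (√(ha l 2) √(hb l 2))`, it becomes the polynomial identity
  `l2 nu l 0 / l0 = (...)`: precisely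
  `nu l 0 * l 2 / l 0 = u3 * (ha l 2) * (l 1 / l 0) - u2 * nu l 2`
  (from `sin b / sin x = (√(ha l 2)/(2 l0 l2)) / (√(hb l 2)/(2 l1 l2)) = √(ha l 2) l1/(√(hb l 2) l0)`);
* `t1 = π/2 - arctan ((sin x * (cos b / sin b) - cos x * cos r) / sin r)`: similarly
  `nu l 1 * l 2 / l 1 = u2 * (hb l 2) * (l 0 / l 1) - u3 * nu l 2`.
This gives `π u2 < Φ < π` with `Φ = t0 + t1 u1 + t2 u2`.  The bound `π u1 < Φ` follows by applying
the same to `scd l` (exchange of `c` and `d`).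
-/

namespace Pool.Agent.helper37.NP

open Real

/-- cosine of the angle `bac` -/
noncomputable def cbac (l : V6) : ℝ := (l 0 ^ 2 + l 1 ^ 2 - l 3 ^ 2) / (2 * l 0 * l 1)
/-- cosine of the angle `bad` -/
noncomputable def cbad (l : V6) : ℝ := (l 0 ^ 2 + l 2 ^ 2 - l 4 ^ 2) / (2 * l 0 * l 2)

private theorem vl_sin_arccos {p q s H : ℝ} (hp : 0 < p) (hq : 0 < q) (hH : 0 < H)
    (h : 4 * p ^ 2 * q ^ 2 - (p ^ 2 + q ^ 2 - s ^ 2) ^ 2 = H) :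
    sin (arccos ((p ^ 2 + q ^ 2 - s ^ 2) / (2 * p * q))) = Real.sqrt H / (2 * p * q) ∧
      cos (arccos ((p ^ 2 + q ^ 2 - s ^ 2) / (2 * p * q))) =
        (p ^ 2 + q ^ 2 - s ^ 2) / (2 * p * q) ∧
      0 < arccos ((p ^ 2 + q ^ 2 - s ^ 2) / (2 * p * q)) ∧
      arccos ((p ^ 2 + q ^ 2 - s ^ 2) / (2 * p * q)) < π := by
  have hpq : 0 < 2 * p * q := by positivity
  set u := (p ^ 2 + q ^ 2 - s ^ 2) / (2 * p * q) with hu
  have h1 : 1 - u ^ 2 = H / (2 * p * q) ^ 2 := by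
    rw [hu]
    field_simp
    linarith [h]
  have h2 : 0 < 1 - u ^ 2 := by
    rw [h1]
    positivity
  have hu1 : u < 1 := by nlinarith
  have hu2 : -1 < u := by nlinarith
  refine ⟨?_, ?_, ?_, ?_⟩
  · rw [Real.sin_arccos, h1, Real.sqrt_div hH.le, Real.sqrt_sq hpq.le]
  · exact Real.cos_arccos hu2.le hu1.le
  · exact Real.arccos_pos.mpr hu1
  · have h3 : arccos u ≠ π := by
      intro h4
      rw [Real.arccos_eq_pi] at h4
      linarith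
    exact lt_of_le_of_ne (Real.arccos_le_pi u) h3

private theorem vl_main {l : V6} (hl : l ∈ T) :
    π * cbad l < ang l 0 + ang l 1 * cbac l + ang l 2 * cbad l ∧
    ang l 0 + ang l 1 * cbac l + ang l 2 * cbad l < π := by
  have h0 : 0 < l 0 := T_pos hl 0
  have h1 : 0 < l 1 := T_pos hl 1
  have h2 : 0 < l 2 := T_pos hl 2
  have hA : 0 < ha l 2 := ha_pos hl 2
  have hB : 0 < hb l 2 := hb_pos hl 2
  have hW : 0 < W l := hl.2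
  have hw : 0 < Real.sqrt (W l) := Real.sqrt_pos.mpr hW
  have hsA : 0 < Real.sqrt (ha l 2) := Real.sqrt_pos.mpr hA
  have hsB : 0 < Real.sqrt (hb l 2) := Real.sqrt_pos.mpr hB
  have hAA : Real.sqrt (ha l 2) * Real.sqrt (ha l 2) = ha l 2 := Real.mul_self_sqrt hA.le
  have hBB : Real.sqrt (hb l 2) * Real.sqrt (hb l 2) = hb l 2 := Real.mul_self_sqrt hB.le
  have eA : ha l 2 = He (l 2) (l 0) (l 4) := rfl
  have eB : hb l 2 = He (l 2) (l 1) (l 5) := rfl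
  obtain ⟨sb, cb, pb, lb⟩ := vl_sin_arccos (p := l 0) (q := l 2) (s := l 4) h0 h2 hA
    (by rw [eA]; unfold He; ring)
  obtain ⟨sx, cx, px, lx⟩ := vl_sin_arccos (p := l 1) (q := l 2) (s := l 5) h1 h2 hB
    (by rw [eB]; unfold He; ring)
  have hc := vl_calc pb lb (ang_pos hl 2) (ang_lt hl 2) px lx
  rw [sb, cb, sx, cx, cos_ang hl 2, sin_ang hl 2] at hc
  set wA := Real.sqrt (ha l 2) with hwA
  set wB := Real.sqrt (hb l 2) with hwB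
  set w := Real.sqrt (W l) with hww
  have e1 : ((l 1 ^ 2 + l 2 ^ 2 - l 5 ^ 2) / (2 * l 1 * l 2) / (wB / (2 * l 1 * l 2)) *
      (wA / (2 * l 0 * l 2)) - (l 0 ^ 2 + l 2 ^ 2 - l 4 ^ 2) / (2 * l 0 * l 2) *
      (nu l 2 / (wA * wB))) / (2 * l 2 * w / (wA * wB)) = nu l 0 / (2 * l 0 * w) := by
    have hn0 : nu l 0 = Nu (l 0) (l 1) (l 2) (l 3) (l 4) (l 5) := rfl
    have hn2 : nu l 2 = Nu (l 2) (l 0) (l 1) (l 4) (l 5) (l 3) := rfl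
    have hid : 2 * l 2 ^ 2 * nu l 0 = (l 1 ^ 2 + l 2 ^ 2 - l 5 ^ 2) * ha l 2
        - (l 0 ^ 2 + l 2 ^ 2 - l 4 ^ 2) * nu l 2 := by
      rw [hn0, hn2, eA]
      unfold Nu He
      ring
    have step : ((l 1 ^ 2 + l 2 ^ 2 - l 5 ^ 2) / (2 * l 1 * l 2) / (wB / (2 * l 1 * l 2)) *
      (wA / (2 * l 0 * l 2)) - (l 0 ^ 2 + l 2 ^ 2 - l 4 ^ 2) / (2 * l 0 * l 2) *
      (nu l 2 / (wA * wB))) / (2 * l 2 * w / (wA * wB)) =
      ((l 1 ^ 2 + l 2 ^ 2 - l 5 ^ 2) * (wA * wA) - (l 0 ^ 2 + l 2 ^ 2 - l 4 ^ 2) * nu l 2) /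
        (4 * l 0 * l 2 ^ 2 * w) := by
      field_simp
      ring
    rw [step, hAA, ← hid]
    field_simp
    ring
  have e2 : (wB / (2 * l 1 * l 2) * ((l 0 ^ 2 + l 2 ^ 2 - l 4 ^ 2) / (2 * l 0 * l 2) /
      (wA / (2 * l 0 * l 2))) - (l 1 ^ 2 + l 2 ^ 2 - l 5 ^ 2) / (2 * l 1 * l 2) *
      (nu l 2 / (wA * wB))) / (2 * l 2 * w / (wA * wB)) = nu l 1 / (2 * l 1 * w) := by
    have hn1 : nu l 1 = Nu (l 1) (l 0) (l 2) (l 3) (l 5) (l 4) := rfl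
    have hn2 : nu l 2 = Nu (l 2) (l 0) (l 1) (l 4) (l 5) (l 3) := rfl
    have hid : 2 * l 2 ^ 2 * nu l 1 = (l 0 ^ 2 + l 2 ^ 2 - l 4 ^ 2) * hb l 2
        - (l 1 ^ 2 + l 2 ^ 2 - l 5 ^ 2) * nu l 2 := by
      rw [hn1, hn2, eB]
      unfold Nu He
      ring
    have step : (wB / (2 * l 1 * l 2) * ((l 0 ^ 2 + l 2 ^ 2 - l 4 ^ 2) / (2 * l 0 * l 2) /
      (wA / (2 * l 0 * l 2))) - (l 1 ^ 2 + l 2 ^ 2 - l 5 ^ 2) / (2 * l 1 * l 2) *
      (nu l 2 / (wA * wB))) / (2 * l 2 * w / (wA * wB)) =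
      ((l 0 ^ 2 + l 2 ^ 2 - l 4 ^ 2) * (wB * wB) - (l 1 ^ 2 + l 2 ^ 2 - l 5 ^ 2) * nu l 2) /
        (4 * l 1 * l 2 ^ 2 * w) := by
      field_simp
      ring
    rw [step, hBB, ← hid]
    field_simp
    ring
  have e3 : (l 0 ^ 2 + l 2 ^ 2 - l 4 ^ 2) / (2 * l 0 * l 2) *
      ((l 1 ^ 2 + l 2 ^ 2 - l 5 ^ 2) / (2 * l 1 * l 2)) +
      wA / (2 * l 0 * l 2) * (wB / (2 * l 1 * l 2)) * (nu l 2 / (wA * wB)) = cbac l := by
    have hn2 : nu l 2 = Nu (l 2) (l 0) (l 1) (l 4) (l 5) (l 3) := rfl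
    unfold cbac
    have step : (l 0 ^ 2 + l 2 ^ 2 - l 4 ^ 2) / (2 * l 0 * l 2) *
      ((l 1 ^ 2 + l 2 ^ 2 - l 5 ^ 2) / (2 * l 1 * l 2)) +
      wA / (2 * l 0 * l 2) * (wB / (2 * l 1 * l 2)) * (nu l 2 / (wA * wB)) =
      ((l 0 ^ 2 + l 2 ^ 2 - l 4 ^ 2) * (l 1 ^ 2 + l 2 ^ 2 - l 5 ^ 2) + nu l 2) /
        (4 * l 0 * l 1 * l 2 ^ 2) := by
      field_simp
      ring
    rw [step, hn2]
    unfold Nu
    field_simp
    ring
  rw [e1, e2, e3, ← ang_arctan hl 0, ← ang_arctan hl 1] at hc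
  exact hc

theorem vl {l : V6} (hl : l ∈ T) :
    π * cbac l < ang l 0 + ang l 1 * cbac l + ang l 2 * cbad l ∧
    π * cbad l < ang l 0 + ang l 1 * cbac l + ang l 2 * cbad l ∧
    ang l 0 + ang l 1 * cbac l + ang l 2 * cbad l < π := by
  obtain ⟨ha1, ha2⟩ := vl_main hl
  obtain ⟨hb1, _⟩ := vl_main (T_scd hl)
  refine ⟨?_, ha1, ha2⟩
  have ec : cbad (scd l) = cbac l := rfl
  have ed : cbac (scd l) = cbad l := rfl
  rw [ec, ed, ang_scd] at hb1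
  have e0 : scd (ang l) 0 = ang l 0 := rfl
  have e1 : scd (ang l) 1 = ang l 2 := rfl
  have e2 : scd (ang l) 2 = ang l 1 := rfl
  rw [e0, e1, e2] at hb1
  linarith

end Pool.Agent.helper37.NP
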