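import Pool.Agent.helper37.NP.MvD
import Pool.Agent.helper37.NP.VL
import Pool.Agent.helper37.NP.Perm

/-!
NP-12 (F1).  The inequalities `π Q_j < S < π σ_v`.

PROOF.  Let `l ∈ T`, `F x = dotp (mv l x) (ang (mv l x))`, `m = mv l x ∈ T`.  At `m` the cosines of
the angles at the vertex `a` are `cbac m = (x - γ)/r1`, `cbad m = (x - δ)/r2` (because
`x² + r1² - p² = 2x(x - γ)`), so `F' = Φ(m)` with `Φ` as in `vl`, and `(r1)' = cbac m`,
`(r2)' = cbad m`.  By `vl`: `F - π r1` and `F - π r2` are strictly increasing, `F - π x` is strictly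
decreasing on `(0, ∞)`.  Limits at `0+`: `F → π (l3 + l4)`, `r1 → l3`, `r2 → l4`.  At `x = l0`
(`mv_self`, `r1 = l1`, `r2 = l2`): `F - π l1 > π l4`, `F - π l2 > π l3`, `F - π l0 < π (l3 + l4)`,
i.e. `S > π Q_1`, `S > π Q_2`, `S < π σ_b`.
The remaining `j`, `v` by `Perm`: all quantities are equivariant under `sab, sbc, scd`.
-/

namespace Pool.Agent.helper37.NP

open Real

private theorem f1_lim {G G' : ℝ → ℝ} {L : ℝ} (hd : ∀ x, 0 < x → HasDerivAt G (G' x) x)
    (hp : ∀ x, 0 < x → 0 < G' x)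
    (hl : Filter.Tendsto G (nhdsWithin 0 (Set.Ioi 0)) (nhds L)) {x : ℝ} (hx : 0 < x) :
    L < G x := by
  have hm : StrictMonoOn G (Set.Ioi 0) := by
    refine strictMonoOn_of_deriv_pos (convex_Ioi 0)
      (fun y hy => (hd y hy).continuousAt.continuousWithinAt) (fun y hy => ?_)
    rw [interior_Ioi] at hy
    rw [(hd y hy).deriv]
    exact hp y hy
  have h2 : 0 < x / 2 := by linarith
  have h1 : G (x / 2) < G x := hm h2 hx (by linarith)
  have h3 : L ≤ G (x / 2) := by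
    refine le_of_tendsto hl ?_
    have hev : ∀ᶠ y in nhdsWithin (0 : ℝ) (Set.Ioi 0), y ∈ Set.Ioo (0 : ℝ) (x / 2) :=
      Ioo_mem_nhdsGT h2
    filter_upwards [hev] with y hy
    exact (hm hy.1 h2 hy.2).le
  linarith

private theorem f1_r1 {l : V6} (hl : l ∈ T) (x : ℝ) :
    HasDerivAt (fun y => r1 l y) ((x - gam l) / r1 l x) x := by
  have h0 := r1_sq hl x
  have h1 : HasDerivAt (fun y : ℝ => y ^ 2 - 2 * gam l * y + l 3 ^ 2) (2 * x - 2 * gam l) x := by
    refine HasDerivAt.congr_deriv ((((hasDerivAt_id' x).pow 2).sub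
      ((hasDerivAt_id' x).const_mul (2 * gam l))).add_const (l 3 ^ 2)) ?_
    simp
  have h3 : x ^ 2 - 2 * gam l * x + l 3 ^ 2 ≠ 0 := by
    rw [← h0.1]
    exact pow_ne_zero 2 h0.2.ne'
  have h4 := h1.sqrt h3
  have h5 : (2 * x - 2 * gam l) / (2 * Real.sqrt (x ^ 2 - 2 * gam l * x + l 3 ^ 2))
      = (x - gam l) / r1 l x := by
    show _ = (x - gam l) / Real.sqrt (x ^ 2 - 2 * gam l * x + l 3 ^ 2)
    rw [← mul_sub, mul_div_mul_left _ _ (two_ne_zero)]
  rw [h5] at h4
  exact h4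

private theorem f1_r2 {l : V6} (hl : l ∈ T) (x : ℝ) :
    HasDerivAt (fun y => r2 l y) ((x - del l) / r2 l x) x := by
  have h0 := r2_sq hl x
  have h1 : HasDerivAt (fun y : ℝ => y ^ 2 - 2 * del l * y + l 4 ^ 2) (2 * x - 2 * del l) x := by
    refine HasDerivAt.congr_deriv ((((hasDerivAt_id' x).pow 2).sub
      ((hasDerivAt_id' x).const_mul (2 * del l))).add_const (l 4 ^ 2)) ?_
    simp
  have h3 : x ^ 2 - 2 * del l * x + l 4 ^ 2 ≠ 0 := by
    rw [← h0.1]
    exact pow_ne_zero 2 h0.2.ne'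
  have h4 := h1.sqrt h3
  have h5 : (2 * x - 2 * del l) / (2 * Real.sqrt (x ^ 2 - 2 * del l * x + l 4 ^ 2))
      = (x - del l) / r2 l x := by
    show _ = (x - del l) / Real.sqrt (x ^ 2 - 2 * del l * x + l 4 ^ 2)
    rw [← mul_sub, mul_div_mul_left _ _ (two_ne_zero)]
  rw [h5] at h4
  exact h4

/-- the derivative of `F` satisfies the vertex bounds -/
private theorem f1_vl {l : V6} (hl : l ∈ T) {x : ℝ} (hx : 0 < x) :
    π * ((x - gam l) / r1 l x) < ang (mv l x) 0 + ang (mv l x) 1 * ((x - gam l) / r1 l x)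
        + ang (mv l x) 2 * ((x - del l) / r2 l x) ∧
    π * ((x - del l) / r2 l x) < ang (mv l x) 0 + ang (mv l x) 1 * ((x - gam l) / r1 l x)
        + ang (mv l x) 2 * ((x - del l) / r2 l x) ∧
    ang (mv l x) 0 + ang (mv l x) 1 * ((x - gam l) / r1 l x)
        + ang (mv l x) 2 * ((x - del l) / r2 l x) < π := by
  have h := vl (mv_mem hl hx)
  have h1 := r1_sq hl x
  have h2 := r2_sq hl x
  have e1 : cbac (mv l x) = (x - gam l) / r1 l x := by
    show (x ^ 2 + r1 l x ^ 2 - l 3 ^ 2) / (2 * x * r1 l x) = _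
    rw [h1.1, div_eq_div_iff (by have := h1.2; positivity) h1.2.ne']
    ring
  have e2 : cbad (mv l x) = (x - del l) / r2 l x := by
    show (x ^ 2 + r2 l x ^ 2 - l 4 ^ 2) / (2 * x * r2 l x) = _
    rw [h2.1, div_eq_div_iff (by have := h2.2; positivity) h2.2.ne']
    ring
  rw [e1, e2] at h
  exact h

private theorem f1_r1_lim {l : V6} (hl : l ∈ T) :
    Filter.Tendsto (fun y => r1 l y) (nhdsWithin 0 (Set.Ioi 0)) (nhds (l 3)) := by
  have hr1 : r1 l 0 = l 3 := by
    unfold r1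
    rw [show (0 : ℝ) ^ 2 - 2 * gam l * 0 + l 3 ^ 2 = l 3 ^ 2 by ring,
      Real.sqrt_sq (T_pos hl 3).le]
  have h := (f1_r1 hl 0).continuousAt.tendsto.mono_left
    (nhdsWithin_le_nhds (s := Set.Ioi (0 : ℝ)))
  simpa only [hr1] using h

private theorem f1_r2_lim {l : V6} (hl : l ∈ T) :
    Filter.Tendsto (fun y => r2 l y) (nhdsWithin 0 (Set.Ioi 0)) (nhds (l 4)) := by
  have hr2 : r2 l 0 = l 4 := by
    unfold r2
    rw [show (0 : ℝ) ^ 2 - 2 * del l * 0 + l 4 ^ 2 = l 4 ^ 2 by ring,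
      Real.sqrt_sq (T_pos hl 4).le]
  have h := (f1_r2 hl 0).continuousAt.tendsto.mono_left
    (nhdsWithin_le_nhds (s := Set.Ioi (0 : ℝ)))
  simpa only [hr2] using h

private theorem f1_base1 {l : V6} (hl : l ∈ T) : π * (l 1 + l 4) < dotp l (ang l) := by
  have h := f1_lim (G := fun y => dotp (mv l y) (ang (mv l y)) - π * r1 l y)
    (fun x hx => (mv_deriv hl hx).sub ((f1_r1 hl x).const_mul π))
    (fun x hx => by have := (f1_vl hl hx).1; linarith)
    ((mv_lim hl).sub ((f1_r1_lim hl).const_mul π)) (T_pos hl 0)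
  have e1 : r1 l (l 0) = l 1 := congrFun (mv_self hl) 1
  have h' : π * (l 3 + l 4) - π * l 3 < dotp (mv l (l 0)) (ang (mv l (l 0))) - π * r1 l (l 0) := h
  rw [mv_self hl, e1] at h'
  linarith

private theorem f1_base2 {l : V6} (hl : l ∈ T) : π * (l 2 + l 3) < dotp l (ang l) := by
  have h := f1_lim (G := fun y => dotp (mv l y) (ang (mv l y)) - π * r2 l y)
    (fun x hx => (mv_deriv hl hx).sub ((f1_r2 hl x).const_mul π))
    (fun x hx => by have := (f1_vl hl hx).2.1; linarith)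
    ((mv_lim hl).sub ((f1_r2_lim hl).const_mul π)) (T_pos hl 0)
  have e1 : r2 l (l 0) = l 2 := congrFun (mv_self hl) 2
  have h' : π * (l 3 + l 4) - π * l 4 < dotp (mv l (l 0)) (ang (mv l (l 0))) - π * r2 l (l 0) := h
  rw [mv_self hl, e1] at h'
  linarith

private theorem f1_base3 {l : V6} (hl : l ∈ T) : dotp l (ang l) < π * (l 0 + l 3 + l 4) := by
  have hid : Filter.Tendsto (fun y : ℝ => π * y) (nhdsWithin 0 (Set.Ioi 0)) (nhds (π * 0)) :=
    ((continuous_const.mul continuous_id).tendsto 0).mono_left nhdsWithin_le_nhds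
  have h := f1_lim (G := fun y => π * y - dotp (mv l y) (ang (mv l y)))
    (fun x hx => ((hasDerivAt_id' x).const_mul π).sub (mv_deriv hl hx))
    (fun x hx => by have := (f1_vl hl hx).2.2; linarith)
    (hid.sub (mv_lim hl)) (T_pos hl 0)
  have h' : π * 0 - π * (l 3 + l 4) < π * l 0 - dotp (mv l (l 0)) (ang (mv l (l 0))) := h
  rw [mv_self hl] at h'
  linarith

private theorem f1_gg {l : V6} {j : Fin 3} (h : π * Q l j < dotp l (ang l)) :
    0 < gg l (ang l) j := by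
  unfold gg
  rw [sub_pos, lt_div_iff₀ Real.pi_pos]
  linarith

private theorem f1_ss {l : V6} {v : Fin 4} (h : dotp l (ang l) < π * sg l v) :
    0 < ss l (ang l) v := by
  unfold ss
  rw [sub_pos, div_lt_iff₀ Real.pi_pos]
  linarith

theorem gg_pos {l : V6} (hl : l ∈ T) (j : Fin 3) : 0 < gg l (ang l) j := by
  apply f1_gg
  fin_cases j
  · show π * (l 0 + l 5) < dotp l (ang l)
    have h := f1_base1 (T_sbc hl)
    rw [ang_sbc, dotp_sbc] at h
    exact h
  · exact f1_base1 hl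
  · exact f1_base2 hl

theorem ss_pos {l : V6} (hl : l ∈ T) (v : Fin 4) : 0 < ss l (ang l) v := by
  apply f1_ss
  have h2 : ∀ {m : V6}, m ∈ T → dotp m (ang m) < π * (m 1 + m 3 + m 5) := by
    intro m hm
    have h := f1_base3 (T_sbc hm)
    rw [ang_sbc, dotp_sbc] at h
    exact h
  fin_cases v
  · show dotp l (ang l) < π * (l 0 + l 1 + l 2)
    have h := f1_base3 (T_sab hl)
    rw [ang_sab, dotp_sab] at h
    exact h
  · exact f1_base3 hl
  · exact h2 hl
  · show dotp l (ang l) < π * (l 2 + l 4 + l 5)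
    have h := h2 (T_scd hl)
    rw [ang_scd, dotp_scd] at h
    exact h

end Pool.Agent.helper37.NP
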