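import Pool.Agent.helper37.NP.Clo
import Pool.Agent.helper37.NP.Bas

/-!
NP-16 (Half).  A limit of one dihedral angle along a straight path.

`es v j` is the edge of the pair `j` which does not contain the vertex `v`; if `Q p j = sg p v`, the
vertex `v` lies between the two ends of `es v j`, and the face containing `v` and `es v j` is
degenerate.

PROOF.  `v = 2, j = 0` (others by relabelling): `es = 0` (edge `ab`), faces `abc` (degenerate,
`p 0 = p 1 + p 3`) and `abd`.  `cos (ang l 0) = nu l 0 / (√He(abc) √He(abd))` for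
`l = p + η n ∈ T`.  `He(abd)` at `p` is positive: its factors are `sg p v - Q p k` for
`(v, k) = (3, 0), (1, 2), (0, 1)` and the perimeter.  `He(abc)(p + η n) = η (sg n 2 - Q n 0) · G(η)`,
`G` continuous at `0` with `G(0) = (2 p 0)(2 p 1)(2 p 3) > 0` (product of the other three factors:
`p0 + p1 + p3 = 2 p0`, `p0 + p1 - p3 = 2 p1`, `p0 + p3 - p1 = 2 p3`; they are positive since
`(v,k) = (0,2), (1,1)` are strict).  So `√He(abc) ≥ C √η`.  And `nu p 0 = 0` because of
`nu_sq`: `nu² = ha hb - 4 p0² W p = 0` at `p`; `nu (p + η n) 0` is a polynomial in `η` vanishing at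
`0`, so it is `O(η)`.  Hence `cos (ang (p + η n) 0) = O(√η) → 0` and, `arccos` being continuous,
`ang → arccos 0 = π/2`.
-/

namespace Pool.Agent.helper37.NP

open Real Filter Topology

/-- the edge of the pair `j` not containing the vertex `v` -/
def es : Fin 4 → Fin 3 → Fin 6 := ![![5, 4, 3], ![5, 1, 2], ![0, 4, 2], ![0, 1, 3]]

private lemma half_lim {N A B G : ℝ → ℝ} {d : ℝ} (hN : DifferentiableAt ℝ N 0) (hN0 : N 0 = 0)
    (hd : 0 < d) (hA : ∀ η, A η = η * (d * G η)) (hG : ContinuousAt G 0) (hG0 : 0 < G 0)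
    (hB : ContinuousAt B 0) (hB0 : 0 < B 0) :
    Tendsto (fun η => N η / (√(A η) * √(B η))) (𝓝[>] 0) (𝓝 0) := by
  have h1 : Tendsto (fun η => N η / η) (𝓝[>] 0) (𝓝 (deriv N 0)) := by
    have := hasDerivAt_iff_tendsto_slope.1 hN.hasDerivAt
    have h2 : Tendsto (slope N 0) (𝓝[>] 0) (𝓝 (deriv N 0)) :=
      this.mono_left (nhdsWithin_mono _ (fun x hx => ne_of_gt hx))
    refine h2.congr (fun x => ?_)
    rw [slope_def_field, hN0]
    simp
  have h2 : Tendsto (fun η : ℝ => √η / (√(d * G η) * √(B η))) (𝓝[>] 0)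
      (𝓝 (√0 / (√(d * G 0) * √(B 0)))) := by
    have hc : ContinuousAt (fun η : ℝ => √η / (√(d * G η) * √(B η))) 0 := by
      apply ContinuousAt.div
      · exact Real.continuous_sqrt.continuousAt
      · apply ContinuousAt.mul
        · exact (continuousAt_const.mul hG).sqrt
        · exact hB.sqrt
      · have h3 : 0 < √(d * G 0) := Real.sqrt_pos.2 (mul_pos hd hG0)
        have h4 : 0 < √(B 0) := Real.sqrt_pos.2 hB0
        exact (mul_pos h3 h4).ne'
    exact hc.tendsto.mono_left nhdsWithin_le_nhds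
  have h3 := h1.mul h2
  rw [Real.sqrt_zero, zero_div, mul_zero] at h3
  refine h3.congr' ?_
  filter_upwards [self_mem_nhdsWithin] with η hη
  have hη' : 0 < η := hη
  rw [hA, Real.sqrt_mul hη'.le]
  have hs : √η * √η = η := Real.mul_self_sqrt hη'.le
  have hs0 : √η ≠ 0 := (Real.sqrt_pos.2 hη').ne'
  rw [div_mul_div_comm]
  by_cases hD : √(d * G η) * √(B η) = 0
  · rw [hD, mul_zero, div_zero, mul_assoc, hD, mul_zero, div_zero]
  · rw [mul_assoc, div_eq_div_iff (mul_ne_zero hη'.ne' hD) (mul_ne_zero hs0 hD)]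
    linear_combination (N η * (√(d * G η) * √(B η))) * hs

private lemma half_gen {N : ℝ → ℝ} (hN : DifferentiableAt ℝ N 0) (hN0 : N 0 = 0)
    {x0 x1 x2 y0 y1 y2 z1 z2 w1 w2 : ℝ} (hx : x0 = x1 + x2) (hy : y0 < y1 + y2)
    (h1 : x2 < x0 + x1) (h2 : x1 < x0 + x2) (k1 : z2 < x0 + z1) (k2 : z1 < x0 + z2)
    (k3 : x0 < z1 + z2) :
    Tendsto (fun η => N η / (√(He (x0 + η * y0) (x1 + η * y1) (x2 + η * y2))
      * √(He (x0 + η * y0) (z1 + η * w1) (z2 + η * w2)))) (𝓝[>] 0) (𝓝 0) := by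
  refine half_lim (d := y1 + y2 - y0) (G := fun η => (x0 + η * y0 + (x1 + η * y1) + (x2 + η * y2))
    * (x0 + η * y0 + (x1 + η * y1) - (x2 + η * y2))
    * (x0 + η * y0 - (x1 + η * y1) + (x2 + η * y2))) hN hN0 (by linarith) ?_ ?_ ?_ ?_ ?_
  · intro η
    unfold He
    rw [hx]
    ring
  · fun_prop
  · simp only [zero_mul, add_zero]
    have a1 : 0 < x0 + x1 + x2 := by linarith
    have a2 : 0 < x0 + x1 - x2 := by linarith
    have a3 : 0 < x0 - x1 + x2 := by linarith
    positivity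
  · unfold He
    fun_prop
  · simp only [zero_mul, add_zero]
    unfold He
    have a1 : 0 < x0 + z1 + z2 := by linarith
    have a2 : 0 < x0 + z1 - z2 := by linarith
    have a3 : 0 < x0 - z1 + z2 := by linarith
    have a4 : 0 < -x0 + z1 + z2 := by linarith
    positivity

private lemma nu_diff (p n : V6) (e : Fin 6) :
    DifferentiableAt ℝ (fun η : ℝ => nu (p + η • n) e) 0 := by
  have h : ∀ i, DifferentiableAt ℝ (fun η : ℝ => (p + η • n) i) 0 := by
    intro i
    simp only [Pi.add_apply, Pi.smul_apply, smul_eq_mul]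
    fun_prop
  have h0 := h 0
  have h1 := h 1
  have h2 := h 2
  have h3 := h 3
  have h4 := h 4
  have h5 := h 5
  fin_cases e <;> simp only [nu, Nu, Fin.isValue, Fin.zero_eta, Fin.mk_one, Fin.reduceFinMk,
    Matrix.cons_val_zero, Matrix.cons_val_one, Matrix.cons_val] <;> fun_prop

private lemma nu_zero_a {p : V6} (hW : W p = 0) {e : Fin 6} (h : ha p e = 0) : nu p e = 0 := by
  have := nu_sq p e
  rw [hW, h] at this
  nlinarith

private lemma nu_zero_b {p : V6} (hW : W p = 0) {e : Fin 6} (h : hb p e = 0) : nu p e = 0 := by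
  have := nu_sq p e
  rw [hW, h] at this
  nlinarith

private lemma to_ang {p n : V6} {e : Fin 6}
    (h : Tendsto (fun η : ℝ => nu (p + η • n) e /
      (√(ha (p + η • n) e) * √(hb (p + η • n) e))) (𝓝[>] 0) (𝓝 0)) :
    Tendsto (fun η : ℝ => ang (p + η • n) e) (𝓝[>] 0) (𝓝 (π / 2)) := by
  have h1 : Tendsto Real.arccos (𝓝 0) (𝓝 (π / 2)) := by
    have := Real.continuous_arccos.tendsto 0
    rwa [Real.arccos_zero] at this
  have h2 := h1.comp h
  refine h2.congr (fun η => ?_)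
  simp only [Function.comp, ang]
  rw [cs_eq]

private lemma half_00 {p n : V6} (hW : W p = 0)
    (h0 : Q p 0 = sg p 0) (hoth : ∀ w k, (w ≠ 0 ∨ k ≠ 0) → Q p k < sg p w)
    (hn : Q n 0 < sg n 0) :
    Tendsto (fun η : ℝ => ang (p + η • n) 5) (𝓝[>] 0) (𝓝 (π / 2)) := by
  have f0 := hoth 2 2 (by decide)
  have f1 := hoth 3 1 (by decide)
  have f2 := hoth 2 1 (by decide)
  have f3 := hoth 3 2 (by decide)
  have f4 := hoth 1 0 (by decide)
  simp only [sg, Q, Fin.isValue, Matrix.cons_val_zero, Matrix.cons_val_one, Matrix.cons_val] at h0 hn f0 f1 f2 f3 f4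
  have hz : nu p 5 = 0 := by
    apply nu_zero_a hW
    show He (p 5) (p 1) (p 2) = 0
    unfold He
    have hq : -p 5 + p 1 + p 2 = 0 := by linarith
    rw [hq, mul_zero]
  have hg := half_gen (N := fun η : ℝ => nu (p + η • n) 5) (x0 := p 5) (x1 := p 1) (x2 := p 2) (y0 := n 5) (y1 := n 1) (y2 := n 2)
    (z1 := p 3) (z2 := p 4) (w1 := n 3) (w2 := n 4)
    (nu_diff p n 5) (by simpa using hz) (by linarith) (by linarith) (by linarith) (by linarith)
    (by linarith) (by linarith) (by linarith)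
  apply to_ang
  refine hg.congr (fun η => ?_)
  rfl

private lemma half_01 {p n : V6} (hW : W p = 0)
    (h0 : Q p 1 = sg p 0) (hoth : ∀ w k, (w ≠ 0 ∨ k ≠ 1) → Q p k < sg p w)
    (hn : Q n 1 < sg n 0) :
    Tendsto (fun η : ℝ => ang (p + η • n) 4) (𝓝[>] 0) (𝓝 (π / 2)) := by
  have f0 := hoth 1 2 (by decide)
  have f1 := hoth 3 0 (by decide)
  have f2 := hoth 1 0 (by decide)
  have f3 := hoth 3 2 (by decide)
  have f4 := hoth 2 1 (by decide)
  simp only [sg, Q, Fin.isValue, Matrix.cons_val_zero, Matrix.cons_val_one, Matrix.cons_val] at h0 hn f0 f1 f2 f3 f4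
  have hz : nu p 4 = 0 := by
    apply nu_zero_a hW
    show He (p 4) (p 0) (p 2) = 0
    unfold He
    have hq : -p 4 + p 0 + p 2 = 0 := by linarith
    rw [hq, mul_zero]
  have hg := half_gen (N := fun η : ℝ => nu (p + η • n) 4) (x0 := p 4) (x1 := p 0) (x2 := p 2) (y0 := n 4) (y1 := n 0) (y2 := n 2)
    (z1 := p 3) (z2 := p 5) (w1 := n 3) (w2 := n 5)
    (nu_diff p n 4) (by simpa using hz) (by linarith) (by linarith) (by linarith) (by linarith)
    (by linarith) (by linarith) (by linarith)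
  apply to_ang
  refine hg.congr (fun η => ?_)
  rfl

private lemma half_02 {p n : V6} (hW : W p = 0)
    (h0 : Q p 2 = sg p 0) (hoth : ∀ w k, (w ≠ 0 ∨ k ≠ 2) → Q p k < sg p w)
    (hn : Q n 2 < sg n 0) :
    Tendsto (fun η : ℝ => ang (p + η • n) 3) (𝓝[>] 0) (𝓝 (π / 2)) := by
  have f0 := hoth 1 1 (by decide)
  have f1 := hoth 2 0 (by decide)
  have f2 := hoth 1 0 (by decide)
  have f3 := hoth 2 1 (by decide)
  have f4 := hoth 3 2 (by decide)
  simp only [sg, Q, Fin.isValue, Matrix.cons_val_zero, Matrix.cons_val_one, Matrix.cons_val] at h0 hn f0 f1 f2 f3 f4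
  have hz : nu p 3 = 0 := by
    apply nu_zero_a hW
    show He (p 3) (p 0) (p 1) = 0
    unfold He
    have hq : -p 3 + p 0 + p 1 = 0 := by linarith
    rw [hq, mul_zero]
  have hg := half_gen (N := fun η : ℝ => nu (p + η • n) 3) (x0 := p 3) (x1 := p 0) (x2 := p 1) (y0 := n 3) (y1 := n 0) (y2 := n 1)
    (z1 := p 4) (z2 := p 5) (w1 := n 4) (w2 := n 5)
    (nu_diff p n 3) (by simpa using hz) (by linarith) (by linarith) (by linarith) (by linarith)
    (by linarith) (by linarith) (by linarith)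
  apply to_ang
  refine hg.congr (fun η => ?_)
  rfl

private lemma half_10 {p n : V6} (hW : W p = 0)
    (h0 : Q p 0 = sg p 1) (hoth : ∀ w k, (w ≠ 1 ∨ k ≠ 0) → Q p k < sg p w)
    (hn : Q n 0 < sg n 1) :
    Tendsto (fun η : ℝ => ang (p + η • n) 5) (𝓝[>] 0) (𝓝 (π / 2)) := by
  have f0 := hoth 2 1 (by decide)
  have f1 := hoth 3 2 (by decide)
  have f2 := hoth 2 2 (by decide)
  have f3 := hoth 3 1 (by decide)
  have f4 := hoth 0 0 (by decide)
  simp only [sg, Q, Fin.isValue, Matrix.cons_val_zero, Matrix.cons_val_one, Matrix.cons_val] at h0 hn f0 f1 f2 f3 f4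
  have hz : nu p 5 = 0 := by
    apply nu_zero_b hW
    show He (p 5) (p 3) (p 4) = 0
    unfold He
    have hq : -p 5 + p 3 + p 4 = 0 := by linarith
    rw [hq, mul_zero]
  have hg := half_gen (N := fun η : ℝ => nu (p + η • n) 5) (x0 := p 5) (x1 := p 3) (x2 := p 4) (y0 := n 5) (y1 := n 3) (y2 := n 4)
    (z1 := p 1) (z2 := p 2) (w1 := n 1) (w2 := n 2)
    (nu_diff p n 5) (by simpa using hz) (by linarith) (by linarith) (by linarith) (by linarith)
    (by linarith) (by linarith) (by linarith)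
  apply to_ang
  refine hg.congr (fun η => ?_)
  rw [mul_comm]
  rfl

private lemma half_11 {p n : V6} (hW : W p = 0)
    (h0 : Q p 1 = sg p 1) (hoth : ∀ w k, (w ≠ 1 ∨ k ≠ 1) → Q p k < sg p w)
    (hn : Q n 1 < sg n 1) :
    Tendsto (fun η : ℝ => ang (p + η • n) 1) (𝓝[>] 0) (𝓝 (π / 2)) := by
  have f0 := hoth 0 2 (by decide)
  have f1 := hoth 2 0 (by decide)
  have f2 := hoth 0 0 (by decide)
  have f3 := hoth 2 2 (by decide)
  have f4 := hoth 3 1 (by decide)
  simp only [sg, Q, Fin.isValue, Matrix.cons_val_zero, Matrix.cons_val_one, Matrix.cons_val] at h0 hn f0 f1 f2 f3 f4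
  have hz : nu p 1 = 0 := by
    apply nu_zero_a hW
    show He (p 1) (p 0) (p 3) = 0
    unfold He
    have hq : -p 1 + p 0 + p 3 = 0 := by linarith
    rw [hq, mul_zero]
  have hg := half_gen (N := fun η : ℝ => nu (p + η • n) 1) (x0 := p 1) (x1 := p 0) (x2 := p 3) (y0 := n 1) (y1 := n 0) (y2 := n 3)
    (z1 := p 2) (z2 := p 5) (w1 := n 2) (w2 := n 5)
    (nu_diff p n 1) (by simpa using hz) (by linarith) (by linarith) (by linarith) (by linarith)
    (by linarith) (by linarith) (by linarith)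
  apply to_ang
  refine hg.congr (fun η => ?_)
  rfl

private lemma half_12 {p n : V6} (hW : W p = 0)
    (h0 : Q p 2 = sg p 1) (hoth : ∀ w k, (w ≠ 1 ∨ k ≠ 2) → Q p k < sg p w)
    (hn : Q n 2 < sg n 1) :
    Tendsto (fun η : ℝ => ang (p + η • n) 2) (𝓝[>] 0) (𝓝 (π / 2)) := by
  have f0 := hoth 0 1 (by decide)
  have f1 := hoth 3 0 (by decide)
  have f2 := hoth 0 0 (by decide)
  have f3 := hoth 3 1 (by decide)
  have f4 := hoth 2 2 (by decide)
  simp only [sg, Q, Fin.isValue, Matrix.cons_val_zero, Matrix.cons_val_one, Matrix.cons_val] at h0 hn f0 f1 f2 f3 f4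
  have hz : nu p 2 = 0 := by
    apply nu_zero_a hW
    show He (p 2) (p 0) (p 4) = 0
    unfold He
    have hq : -p 2 + p 0 + p 4 = 0 := by linarith
    rw [hq, mul_zero]
  have hg := half_gen (N := fun η : ℝ => nu (p + η • n) 2) (x0 := p 2) (x1 := p 0) (x2 := p 4) (y0 := n 2) (y1 := n 0) (y2 := n 4)
    (z1 := p 1) (z2 := p 5) (w1 := n 1) (w2 := n 5)
    (nu_diff p n 2) (by simpa using hz) (by linarith) (by linarith) (by linarith) (by linarith)
    (by linarith) (by linarith) (by linarith)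
  apply to_ang
  refine hg.congr (fun η => ?_)
  rfl

private lemma half_20 {p n : V6} (hW : W p = 0)
    (h0 : Q p 0 = sg p 2) (hoth : ∀ w k, (w ≠ 2 ∨ k ≠ 0) → Q p k < sg p w)
    (hn : Q n 0 < sg n 2) :
    Tendsto (fun η : ℝ => ang (p + η • n) 0) (𝓝[>] 0) (𝓝 (π / 2)) := by
  have f0 := hoth 0 2 (by decide)
  have f1 := hoth 1 1 (by decide)
  have f2 := hoth 0 1 (by decide)
  have f3 := hoth 1 2 (by decide)
  have f4 := hoth 3 0 (by decide)
  simp only [sg, Q, Fin.isValue, Matrix.cons_val_zero, Matrix.cons_val_one, Matrix.cons_val] at h0 hn f0 f1 f2 f3 f4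
  have hz : nu p 0 = 0 := by
    apply nu_zero_a hW
    show He (p 0) (p 1) (p 3) = 0
    unfold He
    have hq : -p 0 + p 1 + p 3 = 0 := by linarith
    rw [hq, mul_zero]
  have hg := half_gen (N := fun η : ℝ => nu (p + η • n) 0) (x0 := p 0) (x1 := p 1) (x2 := p 3) (y0 := n 0) (y1 := n 1) (y2 := n 3)
    (z1 := p 2) (z2 := p 4) (w1 := n 2) (w2 := n 4)
    (nu_diff p n 0) (by simpa using hz) (by linarith) (by linarith) (by linarith) (by linarith)
    (by linarith) (by linarith) (by linarith)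
  apply to_ang
  refine hg.congr (fun η => ?_)
  rfl

private lemma half_21 {p n : V6} (hW : W p = 0)
    (h0 : Q p 1 = sg p 2) (hoth : ∀ w k, (w ≠ 2 ∨ k ≠ 1) → Q p k < sg p w)
    (hn : Q n 1 < sg n 2) :
    Tendsto (fun η : ℝ => ang (p + η • n) 4) (𝓝[>] 0) (𝓝 (π / 2)) := by
  have f0 := hoth 1 0 (by decide)
  have f1 := hoth 3 2 (by decide)
  have f2 := hoth 1 2 (by decide)
  have f3 := hoth 3 0 (by decide)
  have f4 := hoth 0 1 (by decide)
  simp only [sg, Q, Fin.isValue, Matrix.cons_val_zero, Matrix.cons_val_one, Matrix.cons_val] at h0 hn f0 f1 f2 f3 f4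
  have hz : nu p 4 = 0 := by
    apply nu_zero_b hW
    show He (p 4) (p 3) (p 5) = 0
    unfold He
    have hq : -p 4 + p 3 + p 5 = 0 := by linarith
    rw [hq, mul_zero]
  have hg := half_gen (N := fun η : ℝ => nu (p + η • n) 4) (x0 := p 4) (x1 := p 3) (x2 := p 5) (y0 := n 4) (y1 := n 3) (y2 := n 5)
    (z1 := p 0) (z2 := p 2) (w1 := n 0) (w2 := n 2)
    (nu_diff p n 4) (by simpa using hz) (by linarith) (by linarith) (by linarith) (by linarith)
    (by linarith) (by linarith) (by linarith)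
  apply to_ang
  refine hg.congr (fun η => ?_)
  rw [mul_comm]
  rfl

private lemma half_22 {p n : V6} (hW : W p = 0)
    (h0 : Q p 2 = sg p 2) (hoth : ∀ w k, (w ≠ 2 ∨ k ≠ 2) → Q p k < sg p w)
    (hn : Q n 2 < sg n 2) :
    Tendsto (fun η : ℝ => ang (p + η • n) 2) (𝓝[>] 0) (𝓝 (π / 2)) := by
  have f0 := hoth 0 0 (by decide)
  have f1 := hoth 3 1 (by decide)
  have f2 := hoth 0 1 (by decide)
  have f3 := hoth 3 0 (by decide)
  have f4 := hoth 1 2 (by decide)
  simp only [sg, Q, Fin.isValue, Matrix.cons_val_zero, Matrix.cons_val_one, Matrix.cons_val] at h0 hn f0 f1 f2 f3 f4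
  have hz : nu p 2 = 0 := by
    apply nu_zero_b hW
    show He (p 2) (p 1) (p 5) = 0
    unfold He
    have hq : -p 2 + p 1 + p 5 = 0 := by linarith
    rw [hq, mul_zero]
  have hg := half_gen (N := fun η : ℝ => nu (p + η • n) 2) (x0 := p 2) (x1 := p 1) (x2 := p 5) (y0 := n 2) (y1 := n 1) (y2 := n 5)
    (z1 := p 0) (z2 := p 4) (w1 := n 0) (w2 := n 4)
    (nu_diff p n 2) (by simpa using hz) (by linarith) (by linarith) (by linarith) (by linarith)
    (by linarith) (by linarith) (by linarith)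
  apply to_ang
  refine hg.congr (fun η => ?_)
  rw [mul_comm]
  rfl

private lemma half_30 {p n : V6} (hW : W p = 0)
    (h0 : Q p 0 = sg p 3) (hoth : ∀ w k, (w ≠ 3 ∨ k ≠ 0) → Q p k < sg p w)
    (hn : Q n 0 < sg n 3) :
    Tendsto (fun η : ℝ => ang (p + η • n) 0) (𝓝[>] 0) (𝓝 (π / 2)) := by
  have f0 := hoth 0 1 (by decide)
  have f1 := hoth 1 2 (by decide)
  have f2 := hoth 0 2 (by decide)
  have f3 := hoth 1 1 (by decide)
  have f4 := hoth 2 0 (by decide)
  simp only [sg, Q, Fin.isValue, Matrix.cons_val_zero, Matrix.cons_val_one, Matrix.cons_val] at h0 hn f0 f1 f2 f3 f4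
  have hz : nu p 0 = 0 := by
    apply nu_zero_b hW
    show He (p 0) (p 2) (p 4) = 0
    unfold He
    have hq : -p 0 + p 2 + p 4 = 0 := by linarith
    rw [hq, mul_zero]
  have hg := half_gen (N := fun η : ℝ => nu (p + η • n) 0) (x0 := p 0) (x1 := p 2) (x2 := p 4) (y0 := n 0) (y1 := n 2) (y2 := n 4)
    (z1 := p 1) (z2 := p 3) (w1 := n 1) (w2 := n 3)
    (nu_diff p n 0) (by simpa using hz) (by linarith) (by linarith) (by linarith) (by linarith)
    (by linarith) (by linarith) (by linarith)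
  apply to_ang
  refine hg.congr (fun η => ?_)
  rw [mul_comm]
  rfl

private lemma half_31 {p n : V6} (hW : W p = 0)
    (h0 : Q p 1 = sg p 3) (hoth : ∀ w k, (w ≠ 3 ∨ k ≠ 1) → Q p k < sg p w)
    (hn : Q n 1 < sg n 3) :
    Tendsto (fun η : ℝ => ang (p + η • n) 1) (𝓝[>] 0) (𝓝 (π / 2)) := by
  have f0 := hoth 0 0 (by decide)
  have f1 := hoth 2 2 (by decide)
  have f2 := hoth 0 2 (by decide)
  have f3 := hoth 2 0 (by decide)
  have f4 := hoth 1 1 (by decide)
  simp only [sg, Q, Fin.isValue, Matrix.cons_val_zero, Matrix.cons_val_one, Matrix.cons_val] at h0 hn f0 f1 f2 f3 f4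
  have hz : nu p 1 = 0 := by
    apply nu_zero_b hW
    show He (p 1) (p 2) (p 5) = 0
    unfold He
    have hq : -p 1 + p 2 + p 5 = 0 := by linarith
    rw [hq, mul_zero]
  have hg := half_gen (N := fun η : ℝ => nu (p + η • n) 1) (x0 := p 1) (x1 := p 2) (x2 := p 5) (y0 := n 1) (y1 := n 2) (y2 := n 5)
    (z1 := p 0) (z2 := p 3) (w1 := n 0) (w2 := n 3)
    (nu_diff p n 1) (by simpa using hz) (by linarith) (by linarith) (by linarith) (by linarith)
    (by linarith) (by linarith) (by linarith)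
  apply to_ang
  refine hg.congr (fun η => ?_)
  rw [mul_comm]
  rfl

private lemma half_32 {p n : V6} (hW : W p = 0)
    (h0 : Q p 2 = sg p 3) (hoth : ∀ w k, (w ≠ 3 ∨ k ≠ 2) → Q p k < sg p w)
    (hn : Q n 2 < sg n 3) :
    Tendsto (fun η : ℝ => ang (p + η • n) 3) (𝓝[>] 0) (𝓝 (π / 2)) := by
  have f0 := hoth 1 0 (by decide)
  have f1 := hoth 2 1 (by decide)
  have f2 := hoth 1 1 (by decide)
  have f3 := hoth 2 0 (by decide)
  have f4 := hoth 0 2 (by decide)
  simp only [sg, Q, Fin.isValue, Matrix.cons_val_zero, Matrix.cons_val_one, Matrix.cons_val] at h0 hn f0 f1 f2 f3 f4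
  have hz : nu p 3 = 0 := by
    apply nu_zero_b hW
    show He (p 3) (p 4) (p 5) = 0
    unfold He
    have hq : -p 3 + p 4 + p 5 = 0 := by linarith
    rw [hq, mul_zero]
  have hg := half_gen (N := fun η : ℝ => nu (p + η • n) 3) (x0 := p 3) (x1 := p 4) (x2 := p 5) (y0 := n 3) (y1 := n 4) (y2 := n 5)
    (z1 := p 0) (z2 := p 1) (w1 := n 0) (w2 := n 1)
    (nu_diff p n 3) (by simpa using hz) (by linarith) (by linarith) (by linarith) (by linarith)
    (by linarith) (by linarith) (by linarith)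
  apply to_ang
  refine hg.congr (fun η => ?_)
  rw [mul_comm]
  rfl

theorem tendsto_half_pi {p n : V6} (hp : p ∈ CT) (hW : W p = 0) {v : Fin 4} {j : Fin 3}
    (h0 : Q p j = sg p v) (hoth : ∀ w k, (w ≠ v ∨ k ≠ j) → Q p k < sg p w)
    (hn : Q n j < sg n v) (hT : ∀ η : ℝ, 0 < η → η ≤ 1 → p + η • n ∈ T) :
    Tendsto (fun η : ℝ => ang (p + η • n) (es v j)) (𝓝[>] 0) (𝓝 (π / 2)) := by
  fin_cases v <;> fin_cases j
  · exact half_00 hW h0 hoth hn
  · exact half_01 hW h0 hoth hn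
  · exact half_02 hW h0 hoth hn
  · exact half_10 hW h0 hoth hn
  · exact half_11 hW h0 hoth hn
  · exact half_12 hW h0 hoth hn
  · exact half_20 hW h0 hoth hn
  · exact half_21 hW h0 hoth hn
  · exact half_22 hW h0 hoth hn
  · exact half_30 hW h0 hoth hn
  · exact half_31 hW h0 hoth hn
  · exact half_32 hW h0 hoth hn

end Pool.Agent.helper37.NP
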