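import Pool.Agent.helper37.NP.Clo

/-!
NP-15 (TyP).  If a degenerate `p` has vanishing triangle excesses only for one pair `j`, then it has
only one vanishing excess.

PROOF.  `j = 0` (the others by relabelling, `Perm` or the same computation).  The eight numbers
`sg p v - Q p k`, `k = 1, 2`, are positive:
with `c = p 0 = ab, b = p 1 = ac, x = p 2 = ad, a = p 3 = bc, y = p 4 = bd, z = p 5 = cd`:
`c + x - y, c + a - b, a + z - y, x + z - b > 0` (`k = 1`, `v = 0, 1, 2, 3`) and
`c + b - a, c + y - x, b + z - x, y + z - a > 0` (`k = 2`).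
The four numbers for `j = 0`: `b + x - z` (v = 0), `a + y - z` (v = 1), `a + b - c` (v = 2),
`x + y - c` (v = 3), all `≥ 0`.  Suppose two vanish.  By symmetry there are two types.
Type (2,3): `c = a + b = x + y`.  `W p = 0` and `W_deg`-formula: `b y² + a x² = c (z² + a b)`; with
`y = c - x` this becomes `z² = (x - b)²` (as `c > 0`), so `z = x - b` or `z = b - x`, contradicting
`b + z - x > 0` or `x + z - b > 0`.  [`c > 0` since `2c = (c + x - y) + (c + y - x)`.]
Type (0,2): `c = a + b`, `z = b + x`.  Then `b y² + a x² = (a + b)((b + x)² + a b)` and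
`(a + b)((b+x)² + ab) - a x² = b (a + b + x)²`, so `y² = (a + b + x)²` (`b > 0`:
`2b = (c + b - a) - 0`... indeed `c + b - a = 2b > 0`), `y = c + x`, contradicting `c + x - y > 0`.
The other pairs are of one of these types after relabelling: {0,1} is like {2,3}; {0,2}, {0,3},
{1,2}, {1,3} are of the second type.
-/

namespace Pool.Agent.helper37.NP

/-- type (2, 3) -/
private lemma TyP_core1 {c b x a y z : ℝ}
    (hW : Wsq (c ^ 2) (b ^ 2) (x ^ 2) (a ^ 2) (y ^ 2) (z ^ 2) = 0)
    (h1 : 0 < c + x - y) (h2 : 0 < c + y - x) (h3 : 0 < b + z - x) (h4 : 0 < x + z - b)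
    (e1 : c = a + b) (e2 : c = x + y) : False := by
  have hc : 0 < c := by linarith
  have hy : y = c - x := by linarith
  have ha : a = c - b := by linarith
  subst hy
  subst ha
  have h : (c * (z ^ 2 - (x - b) ^ 2)) ^ 2 = 0 := by
    rw [← neg_eq_zero, ← hW]
    unfold Wsq
    ring
  have h5 := (mul_eq_zero.1 (pow_eq_zero_iff (two_ne_zero)|>.1 h)).resolve_left hc.ne'
  have h6 : (b + z - x) * (x + z - b) = 0 := by linear_combination h5
  have := mul_pos h3 h4
  linarith

/-- type (0, 2) -/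
private lemma TyP_core2 {c b x a y z : ℝ}
    (hW : Wsq (c ^ 2) (b ^ 2) (x ^ 2) (a ^ 2) (y ^ 2) (z ^ 2) = 0)
    (hy : 0 ≤ y) (hx : 0 ≤ x) (h1 : 0 < c + x - y) (h2 : 0 < c + b - a)
    (e1 : c = a + b) (e2 : z = b + x) : False := by
  have hb : 0 < b := by linarith
  have ha : a = c - b := by linarith
  subst ha
  subst e2
  have h : (b * (y ^ 2 - (c + x) ^ 2)) ^ 2 = 0 := by
    rw [← neg_eq_zero, ← hW]
    unfold Wsq
    ring
  have h5 := (mul_eq_zero.1 (pow_eq_zero_iff (two_ne_zero)|>.1 h)).resolve_left hb.ne'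
  have h6 : (c + x - y) * (c + x + y) = 0 := by linear_combination -h5
  have h7 : 0 < c + x + y := by linarith
  have := mul_pos h1 h7
  linarith

/-- the case `j = 0` -/
private lemma TyP_core {c b x a y z : ℝ}
    (hW : Wsq (c ^ 2) (b ^ 2) (x ^ 2) (a ^ 2) (y ^ 2) (z ^ 2) = 0)
    (c0 : 0 ≤ c) (b0 : 0 ≤ b) (x0 : 0 ≤ x) (a0 : 0 ≤ a) (y0 : 0 ≤ y) (z0 : 0 ≤ z)
    (k1 : 0 < c + x - y) (k2 : 0 < c + a - b) (k3 : 0 < a + z - y) (k4 : 0 < x + z - b)
    (l1 : 0 < c + b - a) (l2 : 0 < c + y - x) (l3 : 0 < b + z - x) (l4 : 0 < y + z - a)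
    (h : (z = b + x ∧ z = a + y) ∨ (z = b + x ∧ c = a + b) ∨ (z = b + x ∧ c = x + y) ∨
      (z = a + y ∧ c = a + b) ∨ (z = a + y ∧ c = x + y) ∨ (c = a + b ∧ c = x + y)) : False := by
  rcases h with ⟨e1, e2⟩ | ⟨e1, e2⟩ | ⟨e1, e2⟩ | ⟨e1, e2⟩ | ⟨e1, e2⟩ | ⟨e1, e2⟩
  · refine TyP_core1 (c := z) (b := b) (x := a) (a := x) (y := y) (z := c) ?_ ?_ ?_ ?_ ?_ ?_ ?_
    · rw [← hW]
      unfold Wsq
      ring
    all_goals linarith
  · exact TyP_core2 hW y0 x0 k1 l1 e2 e1
  · refine TyP_core2 (c := c) (b := x) (x := b) (a := y) (y := a) (z := z) ?_ ?_ ?_ ?_ ?_ ?_ ?_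
    · rw [← hW]
      unfold Wsq
      ring
    all_goals linarith
  · refine TyP_core2 (c := c) (b := a) (x := y) (a := b) (y := x) (z := z) ?_ ?_ ?_ ?_ ?_ ?_ ?_
    · rw [← hW]
      unfold Wsq
      ring
    all_goals linarith
  · refine TyP_core2 (c := c) (b := y) (x := a) (a := x) (y := b) (z := z) ?_ ?_ ?_ ?_ ?_ ?_ ?_
    · rw [← hW]
      unfold Wsq
      ring
    all_goals linarith
  · exact TyP_core1 hW k1 l2 l3 k4 e1 e2

theorem at_most_one {p : V6} (hp : p ∈ CT) (hW : W p = 0) {j : Fin 3}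
    (hk : ∀ k, k ≠ j → ∀ v, Q p k < sg p v) {v w : Fin 4} (hvw : v ≠ w)
    (hv : Q p j = sg p v) (hw : Q p j = sg p w) : False := by
  have n0 := CT_nonneg hp 0
  have n1 := CT_nonneg hp 1
  have n2 := CT_nonneg hp 2
  have n3 := CT_nonneg hp 3
  have n4 := CT_nonneg hp 4
  have n5 := CT_nonneg hp 5
  have q0 : Q p 0 = p 0 + p 5 := rfl
  have q1 : Q p 1 = p 1 + p 4 := rfl
  have q2 : Q p 2 = p 2 + p 3 := rfl
  have s0 : sg p 0 = p 0 + p 1 + p 2 := rfl
  have s1 : sg p 1 = p 0 + p 3 + p 4 := rfl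
  have s2 : sg p 2 = p 1 + p 3 + p 5 := rfl
  have s3 : sg p 3 = p 2 + p 4 + p 5 := rfl
  fin_cases j
  · have a0 := hk 1 (by decide) 0
    have a1 := hk 1 (by decide) 1
    have a2 := hk 1 (by decide) 2
    have a3 := hk 1 (by decide) 3
    have b0 := hk 2 (by decide) 0
    have b1 := hk 2 (by decide) 1
    have b2 := hk 2 (by decide) 2
    have b3 := hk 2 (by decide) 3
    clear hk
    refine TyP_core (c := p 0) (b := p 1) (x := p 2) (a := p 3) (y := p 4) (z := p 5)
      hW n0 n1 n2 n3 n4 n5 (by linarith) (by linarith) (by linarith) (by linarith)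
      (by linarith) (by linarith) (by linarith) (by linarith) ?_
    clear hW hp a0 a1 a2 a3 b0 b1 b2 b3 n0 n1 n2 n3 n4 n5
    fin_cases v <;> fin_cases w <;> simp only [Fin.zero_eta, Fin.mk_one, Fin.reduceFinMk] at hv hw <;>
    first
    | exact absurd rfl hvw
    | exact Or.inl ⟨by linarith, by linarith⟩
    | exact Or.inr (Or.inl ⟨by linarith, by linarith⟩)
    | exact Or.inr (Or.inr (Or.inl ⟨by linarith, by linarith⟩))
    | exact Or.inr (Or.inr (Or.inr (Or.inl ⟨by linarith, by linarith⟩)))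
    | exact Or.inr (Or.inr (Or.inr (Or.inr (Or.inl ⟨by linarith, by linarith⟩))))
    | exact Or.inr (Or.inr (Or.inr (Or.inr (Or.inr ⟨by linarith, by linarith⟩))))
  · have a0 := hk 0 (by decide) 0
    have a1 := hk 0 (by decide) 1
    have a2 := hk 0 (by decide) 2
    have a3 := hk 0 (by decide) 3
    have b0 := hk 2 (by decide) 0
    have b1 := hk 2 (by decide) 1
    have b2 := hk 2 (by decide) 2
    have b3 := hk 2 (by decide) 3
    clear hk
    refine TyP_core (c := p 1) (b := p 0) (x := p 2) (a := p 3) (y := p 5) (z := p 4)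
      ?_ n1 n0 n2 n3 n5 n4 (by linarith) (by linarith) (by linarith) (by linarith)
      (by linarith) (by linarith) (by linarith) (by linarith) ?_
    · rw [← hW]
      unfold W Wsq
      ring
    clear hW hp a0 a1 a2 a3 b0 b1 b2 b3 n0 n1 n2 n3 n4 n5
    fin_cases v <;> fin_cases w <;> simp only [Fin.zero_eta, Fin.mk_one, Fin.reduceFinMk] at hv hw <;>
    first
    | exact absurd rfl hvw
    | exact Or.inl ⟨by linarith, by linarith⟩
    | exact Or.inr (Or.inl ⟨by linarith, by linarith⟩)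
    | exact Or.inr (Or.inr (Or.inl ⟨by linarith, by linarith⟩))
    | exact Or.inr (Or.inr (Or.inr (Or.inl ⟨by linarith, by linarith⟩)))
    | exact Or.inr (Or.inr (Or.inr (Or.inr (Or.inl ⟨by linarith, by linarith⟩))))
    | exact Or.inr (Or.inr (Or.inr (Or.inr (Or.inr ⟨by linarith, by linarith⟩))))
  · have a0 := hk 0 (by decide) 0
    have a1 := hk 0 (by decide) 1
    have a2 := hk 0 (by decide) 2
    have a3 := hk 0 (by decide) 3
    have b0 := hk 1 (by decide) 0
    have b1 := hk 1 (by decide) 1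
    have b2 := hk 1 (by decide) 2
    have b3 := hk 1 (by decide) 3
    clear hk
    refine TyP_core (c := p 2) (b := p 1) (x := p 0) (a := p 5) (y := p 4) (z := p 3)
      ?_ n2 n1 n0 n5 n4 n3 (by linarith) (by linarith) (by linarith) (by linarith)
      (by linarith) (by linarith) (by linarith) (by linarith) ?_
    · rw [← hW]
      unfold W Wsq
      ring
    clear hW hp a0 a1 a2 a3 b0 b1 b2 b3 n0 n1 n2 n3 n4 n5
    fin_cases v <;> fin_cases w <;> simp only [Fin.zero_eta, Fin.mk_one, Fin.reduceFinMk] at hv hw <;>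
    first
    | exact absurd rfl hvw
    | exact Or.inl ⟨by linarith, by linarith⟩
    | exact Or.inr (Or.inl ⟨by linarith, by linarith⟩)
    | exact Or.inr (Or.inr (Or.inl ⟨by linarith, by linarith⟩))
    | exact Or.inr (Or.inr (Or.inr (Or.inl ⟨by linarith, by linarith⟩)))
    | exact Or.inr (Or.inr (Or.inr (Or.inr (Or.inl ⟨by linarith, by linarith⟩))))
    | exact Or.inr (Or.inr (Or.inr (Or.inr (Or.inr ⟨by linarith, by linarith⟩))))

end Pool.Agent.helper37.NP
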