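import Pool.Agent.helper37.NP.Sla
import Pool.Agent.helper37.NP.TyP
import Pool.Agent.helper37.NP.Half

/-!
NP-19 (AWa).  Case A, the wall relation.

Hypotheses: the region property (`hreg`, from `region`), `u ∈ S` in the region, and a point `p ∈ S`
on the wall `j`: `c p / π = Q p j`, `c p / π > Q p k` for `k ≠ j`.
Conclusion: there is a vertex `v` with `Q p j = sg p v`, `W p = 0` and
`2 (c s / π) = sg s v + Q s j` for all `s ∈ S`.

PROOF.  Put `n = u - p`, `x η = p + η n = (1-η) p + η u`, `0 < η ≤ 1`: `x η` is in the region, so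
`x η ∈ T` and `dotp s (ang (x η)) = c s`.  `p ∉ T`: otherwise by continuity
`dotp p (ang p) = c p`, contradicting `gg_pos` for `j`.  `p ∈ CT`, `W p = 0`.  By compactness of
`[0, π]^6` there is an ultrafilter `F ≤ 𝓝[>] 0` (or a sequence) along which `ang (x η) → t`;
`dotp s t = c s` on `S`.  `slack` applies: `gg p t k = c p / π - Q p k > 0` for `k ≠ j`, so
`R t k = 0` for `k ≠ j`; `gg p t j = 0`.
(i) Some `v` has `Q p j = sg p v`: otherwise `ss p t v = sg p v - Q p j > 0` for all `v`, so
`ev t v = 0` for all `v`, `R t j = 2π` and `two_dotp` gives `c s = dotp s t = π Q s j` on `S`; for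
`s = u` this contradicts `gg_pos`.
(ii) By `at_most_one` (for `k ≠ j`: `Q p k < c p / π ≤ sg p w` for all `w`, as `ss p t w ≥ 0`) this
`v` is unique, so for `w ≠ v`: `ss p t w = sg p w - Q p j > 0` and `ev t w = 0`.
(iii) Angles: `es v j = xy` with `x, y ≠ v`, and by `t_eq` `t (es v j) = (R t j + ev t x + ev t y)/2
= R t j / 2`.  By `tendsto_half_pi` (`hn`: `sg n v - Q n j = sg u v - Q u j > 0`, as
`sg p v = Q p j`) it is `π/2`, so `R t j = π`, and the sum `2π` gives `ev t v = π`.
(iv) `two_dotp`: `2 c s = 2 dotp s t = π Q s j + π sg s v` for `s ∈ S`.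
-/

namespace Pool.Agent.helper37.NP

open Real Filter Topology

private lemma Q_lin (p n : V6) (η : ℝ) (j : Fin 3) : Q (p + η • n) j = Q p j + η * Q n j := by
  fin_cases j <;> simp [Q] <;> ring

private lemma sg_lin (p n : V6) (η : ℝ) (v : Fin 4) : sg (p + η • n) v = sg p v + η * sg n v := by
  fin_cases v <;> simp [sg] <;> ring

private lemma Q_sub' (u p : V6) (j : Fin 3) : Q (u - p) j = Q u j - Q p j := by
  fin_cases j <;> simp [Q] <;> ring

private lemma sg_sub' (u p : V6) (v : Fin 4) : sg (u - p) v = sg u v - sg p v := by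
  fin_cases v <;> simp [sg] <;> ring

private lemma sum3 {f : Fin 3 → ℝ} (g : Fin 3 → ℝ) {j : Fin 3} (h : ∀ k, k ≠ j → f k = 0) :
    f 0 * g 0 + f 1 * g 1 + f 2 * g 2 = f j * g j := by
  fin_cases j
  · rw [h 1 (by decide), h 2 (by decide)]; simp
  · rw [h 0 (by decide), h 2 (by decide)]; simp
  · rw [h 0 (by decide), h 1 (by decide)]; simp

private lemma sum4 {f : Fin 4 → ℝ} (g : Fin 4 → ℝ) {v : Fin 4} (h : ∀ k, k ≠ v → f k = 0) :
    f 0 * g 0 + f 1 * g 1 + f 2 * g 2 + f 3 * g 3 = f v * g v := by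
  fin_cases v
  · rw [h 1 (by decide), h 2 (by decide), h 3 (by decide)]; simp
  · rw [h 0 (by decide), h 2 (by decide), h 3 (by decide)]; simp
  · rw [h 0 (by decide), h 1 (by decide), h 3 (by decide)]; simp
  · rw [h 0 (by decide), h 1 (by decide), h 2 (by decide)]; simp

private lemma dotp_cont (s : V6) : Continuous (fun t : V6 => dotp s t) := by
  unfold dotp
  fun_prop

private lemma t_es (t : V6) {v : Fin 4} {j : Fin 3} (hev : ∀ w, w ≠ v → ev t w = 0) :
    t (es v j) = R t j / 2 := by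
  obtain ⟨h0, h1, h2, h3, h4, h5⟩ := t_eq t
  fin_cases v
  · have a1 := hev 1 (by decide)
    have a2 := hev 2 (by decide)
    have a3 := hev 3 (by decide)
    fin_cases j
    · show t 5 = R t 0 / 2
      linarith
    · show t 4 = R t 1 / 2
      linarith
    · show t 3 = R t 2 / 2
      linarith
  · have a1 := hev 0 (by decide)
    have a2 := hev 2 (by decide)
    have a3 := hev 3 (by decide)
    fin_cases j
    · show t 5 = R t 0 / 2
      linarith
    · show t 1 = R t 1 / 2
      linarith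
    · show t 2 = R t 2 / 2
      linarith
  · have a1 := hev 0 (by decide)
    have a2 := hev 1 (by decide)
    have a3 := hev 3 (by decide)
    fin_cases j
    · show t 0 = R t 0 / 2
      linarith
    · show t 4 = R t 1 / 2
      linarith
    · show t 2 = R t 2 / 2
      linarith
  · have a1 := hev 0 (by decide)
    have a2 := hev 1 (by decide)
    have a3 := hev 2 (by decide)
    fin_cases j
    · show t 0 = R t 0 / 2
      linarith
    · show t 1 = R t 1 / 2
      linarith
    · show t 3 = R t 2 / 2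
      linarith

theorem wall (S : Submodule ℝ V6) (c : V6 →ₗ[ℝ] ℝ)
    (hreg : ∀ l ∈ S, (∀ j, Q l j < c l / π) → l ∈ T ∧ ∀ s ∈ S, dotp s (ang l) = c s)
    {u : V6} (hu : u ∈ S) (hu' : ∀ j, Q u j < c u / π) {p : V6} (hp : p ∈ S) (j : Fin 3)
    (hj : c p / π = Q p j) (hk : ∀ k, k ≠ j → Q p k < c p / π) :
    ∃ v, Q p j = sg p v ∧ W p = 0 ∧ ∀ s ∈ S, 2 * (c s / π) = sg s v + Q s j := by
  classical
  have hπ : 0 < π := Real.pi_pos
  set n : V6 := u - p with hn_def
  have hxS : ∀ η : ℝ, p + η • n ∈ S := fun η => S.add_mem hp (S.smul_mem _ (S.sub_mem hu hp))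
  have hQle : ∀ k, Q p k ≤ c p / π := by
    intro k
    by_cases h : k = j
    · rw [h, hj]
    · exact (hk k h).le
  have hcn : ∀ η : ℝ, c (p + η • n) / π = c p / π + η * (c u / π - c p / π) := by
    intro η
    rw [map_add, map_smul, hn_def, map_sub, smul_eq_mul]
    ring
  have hxO : ∀ η : ℝ, 0 < η → η ≤ 1 → ∀ k, Q (p + η • n) k < c (p + η • n) / π := by
    intro η h0 h1 k
    rw [Q_lin, hcn, hn_def, Q_sub']
    have e1 := hQle k
    have e2 := hu' k
    nlinarith [mul_pos h0 (sub_pos.2 e2), mul_nonneg (sub_nonneg.2 h1) (sub_nonneg.2 e1)]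
  have hxT : ∀ η : ℝ, 0 < η → η ≤ 1 → p + η • n ∈ T := fun η h0 h1 =>
    (hreg _ (hxS η) (hxO η h0 h1)).1
  have hxd : ∀ η : ℝ, 0 < η → η ≤ 1 → ∀ s ∈ S, dotp s (ang (p + η • n)) = c s := fun η h0 h1 =>
    (hreg _ (hxS η) (hxO η h0 h1)).2
  have hcont : Continuous (fun η : ℝ => p + η • n) := by fun_prop
  have hlim0 : Tendsto (fun η : ℝ => p + η • n) (𝓝[>] 0) (𝓝 p) := by
    have := (hcont.tendsto 0)
    rw [zero_smul, add_zero] at this
    exact this.mono_left nhdsWithin_le_nhds
  have hev01 : ∀ᶠ η : ℝ in 𝓝[>] 0, 0 < η ∧ η ≤ 1 := by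
    have h1 : ∀ᶠ η : ℝ in 𝓝[>] 0, η ≤ 1 := by
      have : Set.Iic (1:ℝ) ∈ 𝓝 (0:ℝ) := Iic_mem_nhds (by norm_num)
      exact nhdsWithin_le_nhds this
    filter_upwards [self_mem_nhdsWithin, h1] with η h h'
    exact ⟨h, h'⟩
  have hpT : p ∉ T := by
    intro hT
    have hc : ContinuousAt (fun l : V6 => ang l) p := by
      rw [continuousAt_pi]
      intro e
      exact (ang_continuousOn e).continuousAt (isOpen_T.mem_nhds hT)
    have h1 : Tendsto (fun η : ℝ => dotp p (ang (p + η • n))) (𝓝[>] 0) (𝓝 (dotp p (ang p))) :=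
      ((dotp_cont p).tendsto _).comp (hc.tendsto.comp hlim0)
    have h2 : Tendsto (fun η : ℝ => dotp p (ang (p + η • n))) (𝓝[>] 0) (𝓝 (c p)) := by
      refine tendsto_const_nhds.congr' ?_
      filter_upwards [hev01] with η hη
      exact (hxd η hη.1 hη.2 p hp).symm
    have h3 := tendsto_nhds_unique h1 h2
    have h4 := gg_pos hT j
    unfold gg at h4
    rw [h3, hj] at h4
    linarith
  have hpC : p ∈ CT := by
    apply closure_T
    apply mem_closure_of_tendsto hlim0
    filter_upwards [hev01] with η hη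
    exact hxT η hη.1 hη.2
  have hW : W p = 0 := W_zero hpC hpT
  -- ultrafilter
  let U : Ultrafilter ℝ := Ultrafilter.of (𝓝[>] (0:ℝ))
  have hUle : (U : Filter ℝ) ≤ 𝓝[>] 0 := Ultrafilter.of_le _
  obtain ⟨t, -, ht⟩ : ∃ t ∈ Set.pi Set.univ (fun _ : Fin 6 => Set.Icc (0:ℝ) π),
      ((U.map (fun η : ℝ => ang (p + η • n))) : Filter V6) ≤ 𝓝 t := by
    apply IsCompact.ultrafilter_le_nhds (isCompact_univ_pi (fun _ => isCompact_Icc))
    rw [Filter.le_principal_iff]
    have hall : ∀ η : ℝ, ang (p + η • n) ∈ Set.pi Set.univ (fun _ : Fin 6 => Set.Icc (0:ℝ) π) :=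
      fun η e _ => ⟨Real.arccos_nonneg _, Real.arccos_le_pi _⟩
    exact Filter.mem_map.2 (Filter.univ_mem' hall)
  have ht' : Tendsto (fun η : ℝ => ang (p + η • n)) U (𝓝 t) := ht
  have hdt : ∀ s ∈ S, dotp s t = c s := by
    intro s hs
    have h1 : Tendsto (fun η : ℝ => dotp s (ang (p + η • n))) U (𝓝 (dotp s t)) :=
      ((dotp_cont s).tendsto _).comp ht'
    have h2 : Tendsto (fun η : ℝ => dotp s (ang (p + η • n))) U (𝓝 (c s)) := by
      refine tendsto_const_nhds.congr' ?_
      filter_upwards [hUle hev01] with η hη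
      exact (hxd η hη.1 hη.2 s hs).symm
    exact tendsto_nhds_unique h1 h2
  obtain ⟨hev, hR, hss, hgg, hevss, hRgg⟩ := slack (F := (U : Filter ℝ))
    (x := fun η : ℝ => p + η • n) (p := p) (t := t)
    (by filter_upwards [hUle hev01] with η hη; exact hxT η hη.1 hη.2)
    (hlim0.mono_left hUle) ht' hpT
  have hgk : ∀ k, gg p t k = c p / π - Q p k := by
    intro k
    unfold gg
    rw [hdt p hp]
  have hsv : ∀ v, ss p t v = sg p v - c p / π := by
    intro v
    unfold ss
    rw [hdt p hp]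
  have hR0 : ∀ k, k ≠ j → R t k = 0 := by
    intro k hkj
    have h1 := hRgg k
    have h2 : gg p t k ≠ 0 := by
      rw [hgk]
      exact (sub_pos.2 (hk k hkj)).ne'
    exact (mul_eq_zero.1 h1).resolve_right h2
  have hsum : R t j + (ev t 0 + ev t 1 + ev t 2 + ev t 3) = 2 * π := by
    have h1 := sum_R_ev t
    have h2 := sum3 (f := R t) (fun _ => 1) hR0
    simp only [mul_one] at h2
    linarith
  have htwo : ∀ s ∈ S, 2 * c s = R t j * Q s j
      + (ev t 0 * sg s 0 + ev t 1 * sg s 1 + ev t 2 * sg s 2 + ev t 3 * sg s 3) := by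
    intro s hs
    have h1 := two_dotp s t
    rw [hdt s hs, sum3 (f := R t) (Q s) hR0] at h1
    exact h1
  obtain ⟨v, hv⟩ : ∃ v, Q p j = sg p v := by
    by_contra hno
    push Not at hno
    have h0 : ∀ w, ev t w = 0 := by
      intro w
      have h1 := hevss w
      have h2 : ss p t w ≠ 0 := by
        rw [hsv, hj]
        intro h
        exact hno w (by linarith)
      exact (mul_eq_zero.1 h1).resolve_right h2
    rw [h0, h0, h0, h0] at hsum
    have h2 := htwo u hu
    rw [h0, h0, h0, h0] at h2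
    have h3 : R t j = 2 * π := by linarith
    rw [h3] at h2
    have h4 := hu' j
    rw [lt_div_iff₀ hπ] at h4
    nlinarith
  have hkv : ∀ k, k ≠ j → ∀ w, Q p k < sg p w := by
    intro k hkj w
    have h1 := hss w
    rw [hsv] at h1
    linarith [hk k hkj]
  have hjw : ∀ w, w ≠ v → Q p j < sg p w := by
    intro w hw
    have h1 := hss w
    rw [hsv, hj] at h1
    have h2 : Q p j ≠ sg p w := fun h => at_most_one hpC hW hkv hw h hv
    exact lt_of_le_of_ne (by linarith) h2
  have hev0 : ∀ w, w ≠ v → ev t w = 0 := by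
    intro w hw
    have h1 := hevss w
    have h2 : ss p t w ≠ 0 := by
      rw [hsv, hj]
      exact (sub_pos.2 (hjw w hw)).ne'
    exact (mul_eq_zero.1 h1).resolve_right h2
  have huT : u ∈ T := (hreg u hu hu').1
  have hhalf := tendsto_half_pi (p := p) (n := n) hpC hW (v := v) (j := j) hv
    (by
      intro w k hwk
      by_cases hkj : k = j
      · subst hkj
        rcases hwk with h | h
        · exact hjw w h
        · exact absurd rfl h
      · exact hkv k hkj w)
    (by
      rw [hn_def, Q_sub', sg_sub', hv]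
      have := huT.1 v j
      linarith)
    hxT
  have hte : t (es v j) = π / 2 := by
    have h1 : Tendsto (fun η : ℝ => ang (p + η • n) (es v j)) U (𝓝 (t (es v j))) :=
      ((continuous_apply (es v j)).tendsto t).comp ht'
    exact tendsto_nhds_unique h1 (hhalf.mono_left hUle)
  rw [t_es t hev0] at hte
  have hRj : R t j = π := by linarith
  have hsv4 := sum4 (f := ev t) (fun _ => 1) hev0
  simp only [mul_one] at hsv4
  have hevv : ev t v = π := by linarith
  refine ⟨v, hv, hW, ?_⟩
  intro s hs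
  have h1 := htwo s hs
  rw [sum4 (f := ev t) (sg s) hev0, hRj, hevv] at h1
  have h2 : c s / π * π = c s := div_mul_cancel₀ _ hπ.ne'
  have h3 : (2 * (c s / π)) * π = (sg s v + Q s j) * π := by linarith
  exact mul_right_cancel₀ hπ.ne' h3

end Pool.Agent.helper37.NP
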