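import Pool.Agent.helper37.NP.Sol

/-!
NP-07 (Rpos).  `R_j > 0` on `T`.

PROOF.  `j = 0`: with `s = (ev t 0 + ev t 1) / 2`, `t = ang l`, one has `R t 0 = 2 (t 0 - s)`
(linear identity).  Polynomial identity (checked with exact rational numbers):
`l 0 * (4 * Dv l 0 * Dv l 1 - W l) - nu l 0 * (Dv l 0 + Dv l 1)
   = (1/2) (l 1 + l 2 + l 3 + l 4) (sg l 0 - Q l 1) (sg l 0 - Q l 2) (sg l 1 - Q l 1) (sg l 1 - Q l 2)
       (l 0 + l 1 + l 3 + l 2 + l 4 + l 5 - sg l 2) (l 0 + l 1 + l 3 + l 2 + l 4 + l 5 - sg l 3)`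
and every factor on the right is positive on `T`.
With `cos_ang`, `sin_ang` for the edge `0` and `cos_half_ev`, `sin_half_ev` for the vertices `0, 1`
(put `w = √(W l)`), `sin (t 0 - s) = sin t0 cos s - cos t0 sin s` is a positive multiple of
`2 l0 w (4 D0 D1 - w²) - nu0 (2 D0 w + 2 D1 w) = 2 w (l0 (4 D0 D1 - W) - nu0 (D0 + D1)) > 0`.
Moreover `t 0 - s < t 0 < π` and, by `ev_lt`, `s < 2 t 0`, so `t 0 - s > - t 0 > -π`; with
`sin (t 0 - s) > 0` this gives `t 0 - s > 0`.  The cases `j = 1, 2` by `Perm` (`sbc`, `scd`).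
-/

namespace Pool.Agent.helper37.NP

open Real

private theorem n07_id (a b c d e f : ℝ) :
    a * (4 * Dd a b c f e d * Dd a d e f c b - Wsq (a ^ 2) (b ^ 2) (c ^ 2) (d ^ 2) (e ^ 2) (f ^ 2))
      - Nu a b c d e f * (Dd a b c f e d + Dd a d e f c b)
      = (1 / 2) * (b + c + d + e) * (a + c - e) * (a + b - d) * (a + d - b) * (a + e - c) *
        (a + c + e) * (a + b + d) := by
  unfold Nu Wsq Dd
  ring

private theorem n07_zero {l : V6} (hl : l ∈ T) : 0 < R (ang l) 0 := by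
  have hW : 0 < W l := hl.2
  have p0 := T_pos hl 0
  have p1 := T_pos hl 1
  have p2 := T_pos hl 2
  have p3 := T_pos hl 3
  have p4 := T_pos hl 4
  have f1 : 0 < l 0 + l 2 - l 4 := by
    have h := hl.1 0 1
    have e1 : sg l 0 = l 0 + l 1 + l 2 := rfl
    have e2 : Q l 1 = l 1 + l 4 := rfl
    linarith
  have f2 : 0 < l 0 + l 1 - l 3 := by
    have h := hl.1 0 2
    have e1 : sg l 0 = l 0 + l 1 + l 2 := rfl
    have e2 : Q l 2 = l 2 + l 3 := rfl
    linarith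
  have f3 : 0 < l 0 + l 3 - l 1 := by
    have h := hl.1 1 1
    have e1 : sg l 1 = l 0 + l 3 + l 4 := rfl
    have e2 : Q l 1 = l 1 + l 4 := rfl
    linarith
  have f4 : 0 < l 0 + l 4 - l 2 := by
    have h := hl.1 1 2
    have e1 : sg l 1 = l 0 + l 3 + l 4 := rfl
    have e2 : Q l 2 = l 2 + l 3 := rfl
    linarith
  have key : 0 < l 0 * (4 * Dv l 0 * Dv l 1 - W l) - nu l 0 * (Dv l 0 + Dv l 1) := by
    have h := n07_id (l 0) (l 1) (l 2) (l 3) (l 4) (l 5)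
    have e : l 0 * (4 * Dv l 0 * Dv l 1 - W l) - nu l 0 * (Dv l 0 + Dv l 1)
        = (1 / 2) * (l 1 + l 2 + l 3 + l 4) * (l 0 + l 2 - l 4) * (l 0 + l 1 - l 3) *
          (l 0 + l 3 - l 1) * (l 0 + l 4 - l 2) * (l 0 + l 2 + l 4) * (l 0 + l 1 + l 3) := h
    rw [e]
    positivity
  have hA : 0 < Real.sqrt (ha l 0) := Real.sqrt_pos.2 (ha_pos hl 0)
  have hB : 0 < Real.sqrt (hb l 0) := Real.sqrt_pos.2 (hb_pos hl 0)
  have hw : 0 < Real.sqrt (W l) := Real.sqrt_pos.2 hW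
  have hww : Real.sqrt (W l) ^ 2 = W l := Real.sq_sqrt hW.le
  have hm0 : 0 < Real.sqrt (4 * Dv l 0 ^ 2 + W l) := Real.sqrt_pos.2 (by positivity)
  have hm1 : 0 < Real.sqrt (4 * Dv l 1 ^ 2 + W l) := Real.sqrt_pos.2 (by positivity)
  have hs : 0 < Real.sin (ang l 0 - (ev (ang l) 0 / 2 + ev (ang l) 1 / 2)) := by
    rw [Real.sin_sub, Real.cos_add, Real.sin_add, cos_half_ev hl, cos_half_ev hl, sin_half_ev hl,
      sin_half_ev hl, cos_ang hl, sin_ang hl]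
    have e : 2 * l 0 * Real.sqrt (W l) / (Real.sqrt (ha l 0) * Real.sqrt (hb l 0)) *
          (2 * Dv l 0 / Real.sqrt (4 * Dv l 0 ^ 2 + W l) *
              (2 * Dv l 1 / Real.sqrt (4 * Dv l 1 ^ 2 + W l)) -
            Real.sqrt (W l) / Real.sqrt (4 * Dv l 0 ^ 2 + W l) *
              (Real.sqrt (W l) / Real.sqrt (4 * Dv l 1 ^ 2 + W l))) -
        nu l 0 / (Real.sqrt (ha l 0) * Real.sqrt (hb l 0)) *
          (Real.sqrt (W l) / Real.sqrt (4 * Dv l 0 ^ 2 + W l) *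
              (2 * Dv l 1 / Real.sqrt (4 * Dv l 1 ^ 2 + W l)) +
            2 * Dv l 0 / Real.sqrt (4 * Dv l 0 ^ 2 + W l) *
              (Real.sqrt (W l) / Real.sqrt (4 * Dv l 1 ^ 2 + W l)))
        = 2 * Real.sqrt (W l) *
          (l 0 * (4 * Dv l 0 * Dv l 1 - Real.sqrt (W l) ^ 2) - nu l 0 * (Dv l 0 + Dv l 1)) /
          (Real.sqrt (ha l 0) * Real.sqrt (hb l 0) * Real.sqrt (4 * Dv l 0 ^ 2 + W l) *
            Real.sqrt (4 * Dv l 1 ^ 2 + W l)) := by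
      field_simp
      ring
    rw [e, hww]
    positivity
  have h0 := ev_pos hl 0
  have h1 := ev_pos hl 1
  have h2 : ev (ang l) 0 < 2 * ang l 0 := ev_lt hl 0 0
  have h3 : ev (ang l) 1 < 2 * ang l 0 := ev_lt hl 1 0
  have h4 := ang_lt hl 0
  have hR : R (ang l) 0 = 2 * (ang l 0 - (ev (ang l) 0 / 2 + ev (ang l) 1 / 2)) := by
    have e0 : ev (ang l) 0 = (ang l 0 + ang l 1 + ang l 2) - π := rfl
    have e1 : ev (ang l) 1 = (ang l 0 + ang l 3 + ang l 4) - π := rfl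
    have e2 : R (ang l) 0 = 2 * π - (ang l 0 + ang l 1 + ang l 2 + ang l 3 + ang l 4 + ang l 5)
        + (ang l 0 + ang l 5) := rfl
    rw [e0, e1, e2]
    ring
  rw [hR]
  by_contra hcon
  have h5 : ang l 0 - (ev (ang l) 0 / 2 + ev (ang l) 1 / 2) ≤ 0 := by linarith
  have h6 := Real.sin_nonpos_of_nonpos_of_neg_pi_le h5 (by linarith)
  linarith

private theorem n07_one {l : V6} (hl : l ∈ T) : 0 < R (ang l) 1 := by
  have h := n07_zero (T_sbc hl)
  have e : R (ang (sbc l)) 0 = R (ang l) 1 := by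
    rw [ang_sbc]
    unfold R
    rw [Q_sbc]
    change 2 * π - (ang l 1 + ang l 0 + ang l 2 + ang l 3 + ang l 5 + ang l 4) + Q (ang l) 1
      = 2 * π - (ang l 0 + ang l 1 + ang l 2 + ang l 3 + ang l 4 + ang l 5) + Q (ang l) 1
    ring
  rwa [e] at h

private theorem n07_two {l : V6} (hl : l ∈ T) : 0 < R (ang l) 2 := by
  have h := n07_one (T_scd hl)
  have e : R (ang (scd l)) 1 = R (ang l) 2 := by
    rw [ang_scd]
    unfold R
    rw [Q_scd]
    change 2 * π - (ang l 0 + ang l 2 + ang l 1 + ang l 4 + ang l 3 + ang l 5) + Q (ang l) 2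
      = 2 * π - (ang l 0 + ang l 1 + ang l 2 + ang l 3 + ang l 4 + ang l 5) + Q (ang l) 2
    ring
  rwa [e] at h

theorem R_pos {l : V6} (hl : l ∈ T) (j : Fin 3) : 0 < R (ang l) j := by
  fin_cases j
  · exact n07_zero hl
  · exact n07_one hl
  · exact n07_two hl

end Pool.Agent.helper37.NP
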