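import Pool.Agent.helper37.NP.Clo
import Pool.Agent.helper37.NP.Rpos
import Pool.Agent.helper37.NP.F1
import Pool.Agent.helper37.NP.Alg

/-!
NP-14 (Sla).  Complementary slackness at a degeneration.

Let `x i ∈ T` (eventually along the filter `F`), `x → p ∉ T`, `ang ∘ x → t`.

PROOF.  By continuity of the (bi)linear expressions and `ev_pos, R_pos, ss_pos, gg_pos` the four
limits are `≥ 0`; `p ∈ CT`, so `W p = 0` (`W_zero`).
(1) If `Q p j = sg p v` for some `j`, then `ss p t v + gg p t j = sg p v - Q p j = 0`, both are
`≥ 0`, so `ss p t v = 0` and `ev t v * ss p t v = 0`.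
(2) Otherwise, by `edge_zero` all three edges of `p` at `v` are positive, and by `Dv_zero`
`Dv p v ≠ 0`.
 (2a) `Dv p v > 0`: `sin (ev/2) = √W / √(4 D² + W) → 0` and `cos (ev/2) → 1` along `x`
 (`sin_half_ev`, `cos_half_ev`, continuity of `Dv`, `W`), so `cos (ev t v / 2) = 1`, and
 `ev t v / 2 ∈ [0, π]`, so `ev t v = 0`.
 (2b) `Dv p v < 0`: similarly `cos (ev t v / 2) = -1`, so `ev t v = 2π`.  As all `ev t w`, `R t j`
 are `≥ 0` with sum `2π` (`sum_R_ev`), the others vanish, and `two_dotp` gives
 `2 dotp p t = 2π sg p v`, i.e. `ss p t v = 0`.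
So `ev t v * ss p t v = 0` for all `v`; by `bilin` `∑ R t j * gg p t j = 0`, a sum of nonnegative
terms, so every term is zero.
-/

namespace Pool.Agent.helper37.NP

open Real Filter Topology

private lemma Sla_cont_sg (v : Fin 4) : Continuous (fun l : V6 => sg l v) := by
  fin_cases v <;> simp [sg] <;> fun_prop

private lemma Sla_cont_Q (j : Fin 3) : Continuous (fun l : V6 => Q l j) := by
  fin_cases j <;> simp [Q] <;> fun_prop

private lemma Sla_cont_ev (v : Fin 4) : Continuous (fun t : V6 => ev t v) :=
  (Sla_cont_sg v).sub continuous_const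

private lemma Sla_cont_R (j : Fin 3) : Continuous (fun t : V6 => R t j) := by
  unfold R
  exact (Continuous.sub continuous_const (by fun_prop)).add (Sla_cont_Q j)

private lemma Sla_cont_dotp : Continuous (fun q : V6 × V6 => dotp q.1 q.2) := by
  unfold dotp
  fun_prop

private lemma Sla_cont_ss (v : Fin 4) : Continuous (fun q : V6 × V6 => ss q.1 q.2 v) := by
  unfold ss
  exact ((Sla_cont_sg v).comp continuous_fst).sub (Sla_cont_dotp.div_const π)

private lemma Sla_cont_gg (j : Fin 3) : Continuous (fun q : V6 × V6 => gg q.1 q.2 j) := by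
  unfold gg
  exact (Sla_cont_dotp.div_const π).sub ((Sla_cont_Q j).comp continuous_fst)

private lemma Sla_cont_W : Continuous W := by
  unfold W Wsq
  fun_prop

private lemma Sla_cont_Dv (v : Fin 4) : Continuous (fun l : V6 => Dv l v) := by
  fin_cases v <;> simp [Dv, Dd] <;> fun_prop

theorem slack {ι : Type*} {F : Filter ι} [F.NeBot] {x : ι → V6} {p t : V6}
    (hx : ∀ᶠ i in F, x i ∈ T) (hp : Tendsto x F (𝓝 p))
    (ht : Tendsto (fun i => ang (x i)) F (𝓝 t)) (hpT : p ∉ T) :
    (∀ v, 0 ≤ ev t v) ∧ (∀ j, 0 ≤ R t j) ∧ (∀ v, 0 ≤ ss p t v) ∧ (∀ j, 0 ≤ gg p t j) ∧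
      (∀ v, ev t v * ss p t v = 0) ∧ (∀ j, R t j * gg p t j = 0) := by
  have hev : ∀ v, 0 ≤ ev t v := fun v =>
    ge_of_tendsto (((Sla_cont_ev v).tendsto t).comp ht) (hx.mono fun i hi => (ev_pos hi v).le)
  have hR : ∀ j, 0 ≤ R t j := fun j =>
    ge_of_tendsto (((Sla_cont_R j).tendsto t).comp ht) (hx.mono fun i hi => (R_pos hi j).le)
  have hss : ∀ v, 0 ≤ ss p t v := fun v =>
    ge_of_tendsto (((Sla_cont_ss v).tendsto (p, t)).comp (hp.prodMk_nhds ht))
      (hx.mono fun i hi => (ss_pos hi v).le)
  have hgg : ∀ j, 0 ≤ gg p t j := fun j =>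
    ge_of_tendsto (((Sla_cont_gg j).tendsto (p, t)).comp (hp.prodMk_nhds ht))
      (hx.mono fun i hi => (gg_pos hi j).le)
  have hCT : p ∈ CT := closure_T (mem_closure_of_tendsto hp hx)
  have hW : W p = 0 := W_zero hCT hpT
  have hsum := sum_R_ev t
  have hev2 : ∀ v, ev t v ≤ 2 * π := by
    intro v
    have h0 := hev 0
    have h1 := hev 1
    have h2 := hev 2
    have h3 := hev 3
    have k0 := hR 0
    have k1 := hR 1
    have k2 := hR 2
    fin_cases v <;> simp only [Fin.zero_eta, Fin.mk_one, Fin.reduceFinMk] <;> linarith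
  have hprod : ∀ v, ev t v * ss p t v = 0 := by
    intro v
    by_cases h : ∃ j, Q p j = sg p v
    · obtain ⟨j, hj⟩ := h
      have h1 := sg_sub_Q p t v j
      rw [hj, sub_self] at h1
      have h2 : ss p t v = 0 := by
        have := hss v
        have := hgg j
        linarith
      rw [h2, mul_zero]
    · have hpos : ∀ i, 0 < p (vE v i) := by
        intro i
        refine lt_of_le_of_ne (CT_nonneg hCT _) fun h0 => h ?_
        exact edge_zero hCT h0.symm
      have hD : Dv p v ≠ 0 := fun h0 => h (Dv_zero hCT hW hpos h0)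
      have hlim1 : Tendsto (fun i => Real.sin (ev (ang (x i)) v / 2)) F
          (𝓝 (Real.sin (ev t v / 2))) :=
        ((Real.continuous_sin.comp ((Sla_cont_ev v).div_const 2)).tendsto t).comp ht
      have hden : Real.sqrt (4 * Dv p v ^ 2 + W p) ≠ 0 := by
        rw [hW, add_zero]
        refine (Real.sqrt_pos.2 ?_).ne'
        positivity
      have hlim2 : Tendsto (fun i => Real.sqrt (W (x i)) /
          Real.sqrt (4 * Dv (x i) v ^ 2 + W (x i))) F
          (𝓝 (Real.sqrt (W p) / Real.sqrt (4 * Dv p v ^ 2 + W p))) := by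
        refine Tendsto.div ?_ ?_ hden
        · exact ((Real.continuous_sqrt.comp Sla_cont_W).tendsto p).comp hp
        · exact ((Real.continuous_sqrt.comp
            ((continuous_const.mul ((Sla_cont_Dv v).pow 2)).add Sla_cont_W)).tendsto p).comp hp
      have hsin : Real.sin (ev t v / 2) = 0 := by
        have h3 := tendsto_nhds_unique_of_eventuallyEq hlim1 hlim2
          (hx.mono fun i hi => sin_half_ev hi v)
        rw [h3, hW, Real.sqrt_zero, zero_div]
      have h0 := hev v
      have h2 := hev2 v
      rcases h0.eq_or_lt with h4 | h4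
      · rw [← h4, zero_mul]
      · have h5 : ev t v = 2 * π := by
          by_contra hne
          have h6 : ev t v < 2 * π := lt_of_le_of_ne h2 hne
          have := Real.sin_pos_of_pos_of_lt_pi (x := ev t v / 2) (by linarith) (by linarith)
          linarith
        have hd := two_dotp p t
        have e0 := hev 0
        have e1 := hev 1
        have e2 := hev 2
        have e3 := hev 3
        have k0 := hR 0
        have k1 := hR 1
        have k2 := hR 2
        have r0 : R t 0 = 0 := by
          fin_cases v <;> simp only [Fin.zero_eta, Fin.mk_one, Fin.reduceFinMk] at h5 <;> linarith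
        have r1 : R t 1 = 0 := by
          fin_cases v <;> simp only [Fin.zero_eta, Fin.mk_one, Fin.reduceFinMk] at h5 <;> linarith
        have r2 : R t 2 = 0 := by
          fin_cases v <;> simp only [Fin.zero_eta, Fin.mk_one, Fin.reduceFinMk] at h5 <;> linarith
        have hd2 : 2 * dotp p t = 2 * π * sg p v := by
          rw [r0, r1, r2] at hd hsum
          fin_cases v <;> simp only [Fin.zero_eta, Fin.mk_one, Fin.reduceFinMk] at h5 ⊢
          · have a1 : ev t 1 = 0 := by linarith
            have a2 : ev t 2 = 0 := by linarith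
            have a3 : ev t 3 = 0 := by linarith
            rw [hd, h5, a1, a2, a3]
            ring
          · have a1 : ev t 0 = 0 := by linarith
            have a2 : ev t 2 = 0 := by linarith
            have a3 : ev t 3 = 0 := by linarith
            rw [hd, h5, a1, a2, a3]
            ring
          · have a1 : ev t 0 = 0 := by linarith
            have a2 : ev t 1 = 0 := by linarith
            have a3 : ev t 3 = 0 := by linarith
            rw [hd, h5, a1, a2, a3]
            ring
          · have a1 : ev t 0 = 0 := by linarith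
            have a2 : ev t 1 = 0 := by linarith
            have a3 : ev t 2 = 0 := by linarith
            rw [hd, h5, a1, a2, a3]
            ring
        have hss0 : ss p t v = 0 := by
          have hpi := Real.pi_ne_zero
          have : dotp p t = π * sg p v := by linarith
          unfold ss
          rw [this, mul_div_cancel_left₀ _ hpi, sub_self]
        rw [hss0, mul_zero]
  refine ⟨hev, hR, hss, hgg, hprod, ?_⟩
  have hb := bilin p t
  rw [hprod 0, hprod 1, hprod 2, hprod 3] at hb
  have m0 := mul_nonneg (hR 0) (hgg 0)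
  have m1 := mul_nonneg (hR 1) (hgg 1)
  have m2 := mul_nonneg (hR 2) (hgg 2)
  intro j
  fin_cases j <;> simp only [Fin.zero_eta, Fin.mk_one, Fin.reduceFinMk] <;> linarith

end Pool.Agent.helper37.NP
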