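import Pool.Agent.helper37.NP.Defs

/-!
NP-17 (ACo).  Case A, linear algebra.

`S` is a 3-dimensional subspace, `r` a linear form, `O = {l ∈ S | ∀ j, Q l j < r l}` is nonempty and
all its elements have nonnegative entries.  Then the three forms `r - Q_j` are coordinates on `S`.

PROOF.  The linear map `φ : S → ℝ³`, `l ↦ (r l - Q l j)_j` is injective: if `l0 ∈ S`, `φ l0 = 0`, take
`l ∈ O`; then `l + τ l0 ∈ O` for all real `τ`, so `l e + τ l0 e ≥ 0` for all `τ`, hence `l0 e = 0`.
Domain and codomain both have dimension 3, so `φ` is surjective.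
-/

namespace Pool.Agent.helper37.NP

private lemma ACo_Q_add (l m : V6) (j : Fin 3) : Q (l + m) j = Q l j + Q m j := by
  fin_cases j <;> simp [Q] <;> ring

private lemma ACo_Q_smul (c : ℝ) (l : V6) (j : Fin 3) : Q (c • l) j = c * Q l j := by
  fin_cases j <;> simp [Q] <;> ring

theorem coords (S : Submodule ℝ V6) (hS : Module.finrank ℝ S = 3) (r : V6 →ₗ[ℝ] ℝ)
    (hne : ∃ l ∈ S, ∀ j, Q l j < r l) (hpos : ∀ l ∈ S, (∀ j, Q l j < r l) → ∀ e, 0 ≤ l e)
    (t : Fin 3 → ℝ) : ∃ l ∈ S, ∀ j, r l - Q l j = t j := by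
  obtain ⟨l, hl, hlO⟩ := hne
  let φ : S →ₗ[ℝ] (Fin 3 → ℝ) :=
    { toFun := fun x j => r x.1 - Q x.1 j
      map_add' := fun x y => by
        funext j
        change r (x.1 + y.1) - Q (x.1 + y.1) j = (r x.1 - Q x.1 j) + (r y.1 - Q y.1 j)
        rw [map_add, ACo_Q_add]
        ring
      map_smul' := fun c x => by
        funext j
        change r (c • x.1) - Q (c • x.1) j = c * (r x.1 - Q x.1 j)
        rw [map_smul, ACo_Q_smul, smul_eq_mul]
        ring }
  have hφ : ∀ (x : S) (j : Fin 3), φ x j = r x.1 - Q x.1 j := fun _ _ => rfl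
  have hinj : Function.Injective φ := by
    rw [← LinearMap.ker_eq_bot, LinearMap.ker_eq_bot']
    rintro ⟨l0, hl0⟩ h0
    have h1 : ∀ j, r l0 = Q l0 j := by
      intro j
      have h2 := congrFun h0 j
      rw [hφ] at h2
      have h3 : r l0 - Q l0 j = 0 := h2
      linarith
    have h2 : ∀ (τ : ℝ) (e : Fin 6), 0 ≤ l e + τ * l0 e := by
      intro τ e
      refine hpos (l + τ • l0) (S.add_mem hl (S.smul_mem τ hl0)) (fun j => ?_) e
      rw [ACo_Q_add, ACo_Q_smul, map_add, map_smul, smul_eq_mul, h1 j]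
      linarith [hlO j]
    have h3 : l0 = 0 := by
      funext e
      by_contra hne
      have hne' : l0 e ≠ 0 := hne
      have h4 := h2 (-(l e + 1) / l0 e) e
      rw [div_mul_cancel₀ _ hne'] at h4
      linarith
    exact Subtype.ext h3
  have hsurj : Function.Surjective φ :=
    (LinearMap.injective_iff_surjective_of_finrank_eq_finrank (by
      rw [hS, Module.finrank_fin_fun])).1 hinj
  obtain ⟨x, hx⟩ := hsurj t
  exact ⟨x.1, x.2, fun j => by rw [← hφ, hx]⟩

end Pool.Agent.helper37.NP
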