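import Pool.Agent.helper37.NP.Alg

/-!
NP-20 (AFi).  Case A, the final computation.

If `Q p 0 = r`, `Q p 1 = Q p 2 = r - 1` and `sg p` takes the values `r, r + 1, r + 1` at three
different vertices, then `W p = -4`.

PROOF.  24 cases for the injective map `v`.  In each case the fourth value of `sg p` is
`2 (Q p 0 + Q p 1 + Q p 2) - (3 r + 2) = 3 r - 6` (`sum_sg`), `l_eq` expresses all `p e` affinely in
`r`, and `W p` expands to the constant `-4` (checked for all 24 cases; the 24 cases are equivalent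
under the Regge symmetry).
-/

namespace Pool.Agent.helper37.NP

private lemma aFi_aux {p : V6} {r x0 x1 x2 x3 : ℝ}
    (h0 : Q p 0 = r) (h1 : Q p 1 = r - 1) (h2 : Q p 2 = r - 1)
    (s0 : sg p 0 = x0) (s1 : sg p 1 = x1) (s2 : sg p 2 = x2) (s3 : sg p 3 = x3) :
    W p = Wsq (((x0 + x1 - (r - 1) - (r - 1)) / 2) ^ 2) (((x0 + x2 - r - (r - 1)) / 2) ^ 2)
      (((x0 + x3 - r - (r - 1)) / 2) ^ 2) (((x1 + x2 - r - (r - 1)) / 2) ^ 2)
      (((x1 + x3 - r - (r - 1)) / 2) ^ 2) (((x2 + x3 - (r - 1) - (r - 1)) / 2) ^ 2) := by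
  obtain ⟨e0, e1, e2, e3, e4, e5⟩ := l_eq p
  unfold W
  rw [e0, e1, e2, e3, e4, e5, h0, h1, h2, s0, s1, s2, s3]

theorem W_eq {p : V6} {r : ℝ} {v : Fin 3 → Fin 4} (hv : Function.Injective v)
    (h0 : Q p 0 = r) (h1 : Q p 1 = r - 1) (h2 : Q p 2 = r - 1)
    (s0 : sg p (v 0) = r) (s1 : sg p (v 1) = r + 1) (s2 : sg p (v 2) = r + 1) : W p = -4 := by
  have hsum := sum_sg p
  rw [h0, h1, h2] at hsum
  have h01 : v 0 ≠ v 1 := fun h => absurd (hv h) (by decide)
  have h02 : v 0 ≠ v 2 := fun h => absurd (hv h) (by decide)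
  have h12 : v 1 ≠ v 2 := fun h => absurd (hv h) (by decide)
  have hc : ∀ x : Fin 4, x = 0 ∨ x = 1 ∨ x = 2 ∨ x = 3 := by decide
  rcases hc (v 0) with e | e | e | e <;> rcases hc (v 1) with f | f | f | f <;>
  first
  | exact absurd (e.trans f.symm) h01
  | (rcases hc (v 2) with g | g | g | g <;>
     first
     | exact absurd (e.trans g.symm) h02
     | exact absurd (f.trans g.symm) h12
     | (rw [e] at s0
        rw [f] at s1
        rw [g] at s2
        first
        | (have t : sg p 0 = 3 * r - 6 := by linarith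
           first
           | rw [aFi_aux h0 h1 h2 t s0 s1 s2]
           | rw [aFi_aux h0 h1 h2 t s0 s2 s1]
           | rw [aFi_aux h0 h1 h2 t s1 s0 s2]
           | rw [aFi_aux h0 h1 h2 t s1 s2 s0]
           | rw [aFi_aux h0 h1 h2 t s2 s0 s1]
           | rw [aFi_aux h0 h1 h2 t s2 s1 s0])
        | (have t : sg p 1 = 3 * r - 6 := by linarith
           first
           | rw [aFi_aux h0 h1 h2 s0 t s1 s2]
           | rw [aFi_aux h0 h1 h2 s0 t s2 s1]
           | rw [aFi_aux h0 h1 h2 s1 t s0 s2]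
           | rw [aFi_aux h0 h1 h2 s1 t s2 s0]
           | rw [aFi_aux h0 h1 h2 s2 t s0 s1]
           | rw [aFi_aux h0 h1 h2 s2 t s1 s0])
        | (have t : sg p 2 = 3 * r - 6 := by linarith
           first
           | rw [aFi_aux h0 h1 h2 s0 s1 t s2]
           | rw [aFi_aux h0 h1 h2 s0 s2 t s1]
           | rw [aFi_aux h0 h1 h2 s1 s0 t s2]
           | rw [aFi_aux h0 h1 h2 s1 s2 t s0]
           | rw [aFi_aux h0 h1 h2 s2 s0 t s1]
           | rw [aFi_aux h0 h1 h2 s2 s1 t s0])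
        | (have t : sg p 3 = 3 * r - 6 := by linarith
           first
           | rw [aFi_aux h0 h1 h2 s0 s1 s2 t]
           | rw [aFi_aux h0 h1 h2 s0 s2 s1 t]
           | rw [aFi_aux h0 h1 h2 s1 s0 s2 t]
           | rw [aFi_aux h0 h1 h2 s1 s2 s0 t]
           | rw [aFi_aux h0 h1 h2 s2 s0 s1 t]
           | rw [aFi_aux h0 h1 h2 s2 s1 s0 t])
        unfold Wsq
        ring))

end Pool.Agent.helper37.NP
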