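import Pool.Agent.helper37.NP.BRg
import Pool.Agent.helper37.NP.TyP

/-!
NP-27 (BCo).  Case B: at a corner of the triangle at most one `ev` is nonzero.

`pt x = H0 + x.1 • u + x.2 • w`; `X : Fin 3 → ℝ × ℝ` are three points with `R (pt (X j)) j > 0` and
`R (pt (X j)) k = 0` for `k ≠ j`; every `x` with all `R (pt x) j > 0` is realised (`hreg`).

PROOF.  Fix the corner `j`, let `{a, b}` be the other two indices.  For `ε, τ ∈ (0, 1)` put
`y ε τ = X j + ε (τ (X a - X j) + (1 - τ) (X b - X j))`.  Since `x ↦ R (pt x) k` is affine: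
`R a = ε τ R_a(X a) > 0`, `R b = ε (1-τ) R_b(X b) > 0`, `R j = (1 - ε) R_j(X j) > 0`, so `y ε τ` is
realised, `pt (y ε τ) ∈ PP`.  Let `λ = lam (pt (y ε τ))` and
`h ε τ = gg λ (pt (y ε τ)) a - gg λ (pt (y ε τ)) b`, continuous in `τ ∈ (0, 1)` (`lam` is continuous on
`PP`).  No point with some `R = 0` is realised (`R_pos`).
(1) For fixed `ε` there are `τ` near `0` with `h ε τ > 0`: otherwise `h ≤ 0` for all `τ` in some
`(0, δ)`; apply `lim_exists` to `τ → 0+` (limit point `z = X j + ε (X b - X j)`, where `R a = 0`,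
`R b, R j > 0`): we get `p` with `gg p b = gg p j = 0` (slackness), not all zero, so `gg p a > 0`;
but `h ≤ 0` passes to the (normalised) limit: `gg p a ≤ gg p b = 0`, contradiction.
(2) Similarly there are `τ` near `1` with `h ε τ < 0`.  So there is `τ_ε` with `h ε τ_ε = 0`
(intermediate value theorem).
(3) Let `ε → 0+`, `y_ε = y ε τ_ε → X j` (not realised since `R a (X j) = 0`).  `lim_exists` gives
`p` with slackness at `t = pt (X j)`: `gg p t j = 0` (as `R t j > 0`), `gg p t a = gg p t b`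
(limit of `h = 0`), not all zero, so `gg p t a = gg p t b > 0`.
(4) Let `v ≠ w` with `ev t v ≠ 0`, `ev t w ≠ 0`.  Then `ss p t v = ss p t w = 0`, so
`sg p v = Q p j = sg p w` (`sg_sub_Q`).  For `k ≠ j` all `sg p v' - Q p k = ss + gg > 0`.  This
contradicts `at_most_one`.
-/

namespace Pool.Agent.helper37.NP

open Real Filter Topology


/-- the barycentric point -/
private noncomputable def bp (X : Fin 3 → ℝ × ℝ) (j a b : Fin 3) (ε τ : ℝ) : ℝ × ℝ :=
  (1 - ε) • X j + (ε * τ) • X a + (ε * (1 - τ)) • X b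

private theorem R_bp (H0 u w : V6) (X : Fin 3 → ℝ × ℝ) (j a b k : Fin 3) (ε τ : ℝ) :
    R (H0 + (bp X j a b ε τ).1 • u + (bp X j a b ε τ).2 • w) k =
      (1 - ε) * R (H0 + (X j).1 • u + (X j).2 • w) k +
      (ε * τ) * R (H0 + (X a).1 • u + (X a).2 • w) k +
      (ε * (1 - τ)) * R (H0 + (X b).1 • u + (X b).2 • w) k := by
  unfold R bp
  fin_cases k <;>
    simp [Q, Prod.fst_add, Prod.snd_add, Prod.smul_fst, Prod.smul_snd, smul_eq_mul] <;> ring

private theorem cont_lam : Continuous lam := by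
  unfold lam
  refine continuous_pi fun e => ?_
  fin_cases e <;> simp [mi, cosv] <;> fun_prop

private theorem cont_pt (H0 u w : V6) :
    Continuous (fun x : ℝ × ℝ => H0 + x.1 • u + x.2 • w) := by fun_prop

private theorem cont_gg (j : Fin 3) : Continuous (fun q : V6 × V6 => gg q.1 q.2 j) := by
  unfold gg dotp Q
  fin_cases j <;> simp <;> fun_prop

private theorem gg_smul (c : ℝ) (l t : V6) (j : Fin 3) : gg (c • l) t j = c * gg l t j := by
  unfold gg dotp Q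
  fin_cases j <;> simp [smul_eq_mul] <;> ring

/-- the difference of two of the `gg` at the realising length vector -/
private noncomputable def hh (H0 u w : V6) (a b : Fin 3) (x : ℝ × ℝ) : ℝ :=
  gg (lam (H0 + x.1 • u + x.2 • w)) (H0 + x.1 • u + x.2 • w) a -
    gg (lam (H0 + x.1 • u + x.2 • w)) (H0 + x.1 • u + x.2 • w) b

private theorem cont_hh (H0 u w : V6) (a b : Fin 3) : Continuous (hh H0 u w a b) := by
  unfold hh
  have h1 := cont_pt H0 u w
  have h2 := cont_lam.comp h1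
  exact ((cont_gg a).comp (h2.prodMk h1)).sub ((cont_gg b).comp (h2.prodMk h1))

private theorem sum_lam_pos {l : V6} (hl : l ∈ T) : 0 < ∑ e, lam (ang l) e := by
  rw [lam_ang hl]
  refine Finset.sum_pos (fun e _ => ?_) Finset.univ_nonempty
  simpa [smul_eq_mul] using mul_pos (kfac_pos hl) (T_pos hl e)

private theorem not_real (H0 u w : V6) {z : ℝ × ℝ} {k : Fin 3}
    (h : R (H0 + z.1 • u + z.2 • w) k = 0) : ¬ ∃ l ∈ T, ang l = H0 + z.1 • u + z.2 • w := by
  rintro ⟨l, hl, he⟩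
  have := R_pos hl k
  rw [he, h] at this
  exact lt_irrefl _ this

/-- limits of the normalised differences -/
private theorem lim_hh (H0 u w : V6) (a b : Fin 3) {ι : Type*} {G : Filter ι} {y : ι → ℝ × ℝ}
    {z : ℝ × ℝ} {p : V6} (hz : Tendsto y G (𝓝 z))
    (hp : Tendsto (fun i => (∑ e, lam (H0 + (y i).1 • u + (y i).2 • w) e)⁻¹ •
        lam (H0 + (y i).1 • u + (y i).2 • w)) G (𝓝 p)) :
    Tendsto (fun i => (∑ e, lam (H0 + (y i).1 • u + (y i).2 • w) e)⁻¹ * hh H0 u w a b (y i)) G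
      (𝓝 (gg p (H0 + z.1 • u + z.2 • w) a - gg p (H0 + z.1 • u + z.2 • w) b)) := by
  have h1 : Tendsto (fun i => H0 + (y i).1 • u + (y i).2 • w) G
      (𝓝 (H0 + z.1 • u + z.2 • w)) := ((cont_pt H0 u w).tendsto z).comp hz
  have h2 := hp.prodMk_nhds h1
  have h3 := (((cont_gg a).tendsto _).comp h2).sub (((cont_gg b).tendsto _).comp h2)
  refine h3.congr fun i => ?_
  simp only [Function.comp, gg_smul, hh]
  ring

private theorem step1 (H0 u w : V6) (hgd : ∀ x : ℝ × ℝ, gd (cosv (H0 + x.1 • u + x.2 • w)) = 0)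
    {x0 : ℝ × ℝ} (hx0 : ∃ l ∈ T, ang l = H0 + x0.1 • u + x0.2 • w)
    (hreg : ∀ x : ℝ × ℝ, (∀ j, 0 < R (H0 + x.1 • u + x.2 • w) j) →
      ∃ l ∈ T, ang l = H0 + x.1 • u + x.2 • w)
    (X : Fin 3 → ℝ × ℝ) (hX : ∀ j, 0 < R (H0 + (X j).1 • u + (X j).2 • w) j)
    (hX0 : ∀ j k, k ≠ j → R (H0 + (X j).1 • u + (X j).2 • w) k = 0) {j a b : Fin 3}
    (hja : a ≠ j) (hjb : b ≠ j) (hab : a ≠ b) (hall : ∀ k, k = j ∨ k = a ∨ k = b)
    {ε : ℝ} (h0 : 0 < ε) (h1 : ε < 1) :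
    ∃ τ ∈ Set.Ioo (0 : ℝ) 1, 0 < hh H0 u w a b (bp X j a b ε τ) := by
  by_contra hcon
  push Not at hcon
  have hRa : ∀ τ : ℝ, R (H0 + (bp X j a b ε τ).1 • u + (bp X j a b ε τ).2 • w) a =
      (ε * τ) * R (H0 + (X a).1 • u + (X a).2 • w) a := fun τ => by
    rw [R_bp, hX0 j a hja, hX0 b a hab]; ring
  have hRb : ∀ τ : ℝ, R (H0 + (bp X j a b ε τ).1 • u + (bp X j a b ε τ).2 • w) b =
      (ε * (1 - τ)) * R (H0 + (X b).1 • u + (X b).2 • w) b := fun τ => by
    rw [R_bp, hX0 j b hjb, hX0 a b hab.symm]; ring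
  have hRj : ∀ τ : ℝ, R (H0 + (bp X j a b ε τ).1 • u + (bp X j a b ε τ).2 • w) j =
      (1 - ε) * R (H0 + (X j).1 • u + (X j).2 • w) j := fun τ => by
    rw [R_bp, hX0 a j hja.symm, hX0 b j hjb.symm]; ring
  have hyy : ∀ τ ∈ Set.Ioo (0 : ℝ) 1, ∃ l ∈ T, ang l =
      H0 + (bp X j a b ε τ).1 • u + (bp X j a b ε τ).2 • w := by
    intro τ hτ
    refine hreg _ fun k => ?_
    rcases hall k with rfl | rfl | rfl
    · rw [hRj]; exact mul_pos (by linarith) (hX _)
    · rw [hRa]; exact mul_pos (mul_pos h0 hτ.1) (hX _)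
    · rw [hRb]; exact mul_pos (mul_pos h0 (by linarith [hτ.2])) (hX _)
  have hcy : Continuous (fun τ => bp X j a b ε τ) := by unfold bp; fun_prop
  have hev : ∀ᶠ τ in 𝓝[>] (0 : ℝ), τ ∈ Set.Ioo (0 : ℝ) 1 :=
    Ioo_mem_nhdsGT (by norm_num)
  have hz : Tendsto (fun τ => bp X j a b ε τ) (𝓝[>] 0) (𝓝 (bp X j a b ε 0)) :=
    (hcy.tendsto 0).mono_left nhdsWithin_le_nhds
  have hn := not_real H0 u w (z := bp X j a b ε 0) (k := a) (by rw [hRa]; ring)
  obtain ⟨G, hG, hGF, p, hp, hpC, hpT, hW, hss, hgg, hes, hRg, hne⟩ :=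
    lim_exists H0 u w hgd hx0 (hev.mono fun τ hτ => hyy τ hτ) hz hn
  have hlim := lim_hh H0 u w a b (hz.mono_left hGF) hp
  have hle : gg p (H0 + (bp X j a b ε 0).1 • u + (bp X j a b ε 0).2 • w) a -
      gg p (H0 + (bp X j a b ε 0).1 • u + (bp X j a b ε 0).2 • w) b ≤ 0 := by
    refine le_of_tendsto hlim ?_
    filter_upwards [hGF hev] with τ hτ
    obtain ⟨l, hl, hle⟩ := hyy τ hτ
    have := sum_lam_pos hl
    rw [hle] at this
    exact mul_nonpos_of_nonneg_of_nonpos (inv_nonneg.2 this.le) (hcon τ hτ)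
  have hgj : gg p (H0 + (bp X j a b ε 0).1 • u + (bp X j a b ε 0).2 • w) j = 0 := by
    rcases mul_eq_zero.1 (hRg j) with h | h
    · rw [hRj] at h
      exact absurd h (mul_pos (by linarith) (hX _)).ne'
    · exact h
  have hgb : gg p (H0 + (bp X j a b ε 0).1 • u + (bp X j a b ε 0).2 • w) b = 0 := by
    rcases mul_eq_zero.1 (hRg b) with h | h
    · rw [hRb] at h
      exact absurd h (mul_pos (by simpa using h0) (hX _)).ne'
    · exact h
  apply hne
  intro k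
  rcases hall k with rfl | rfl | rfl
  · exact hgj
  · have := hgg k
    linarith
  · exact hgb

private theorem bp_swap (X : Fin 3 → ℝ × ℝ) (j a b : Fin 3) (ε τ : ℝ) :
    bp X j b a ε τ = bp X j a b ε (1 - τ) := by
  unfold bp
  rw [show 1 - (1 - τ) = τ by ring]
  abel

private theorem step2 (H0 u w : V6) (hgd : ∀ x : ℝ × ℝ, gd (cosv (H0 + x.1 • u + x.2 • w)) = 0)
    {x0 : ℝ × ℝ} (hx0 : ∃ l ∈ T, ang l = H0 + x0.1 • u + x0.2 • w)
    (hreg : ∀ x : ℝ × ℝ, (∀ j, 0 < R (H0 + x.1 • u + x.2 • w) j) →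
      ∃ l ∈ T, ang l = H0 + x.1 • u + x.2 • w)
    (X : Fin 3 → ℝ × ℝ) (hX : ∀ j, 0 < R (H0 + (X j).1 • u + (X j).2 • w) j)
    (hX0 : ∀ j k, k ≠ j → R (H0 + (X j).1 • u + (X j).2 • w) k = 0) {j a b : Fin 3}
    (hja : a ≠ j) (hjb : b ≠ j) (hab : a ≠ b) (hall : ∀ k, k = j ∨ k = a ∨ k = b)
    {ε : ℝ} (h0 : 0 < ε) (h1 : ε < 1) :
    ∃ τ ∈ Set.Ioo (0 : ℝ) 1, hh H0 u w a b (bp X j a b ε τ) = 0 := by
  obtain ⟨τ1, hτ1, hp1⟩ := step1 H0 u w hgd hx0 hreg X hX hX0 hja hjb hab hall h0 h1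
  obtain ⟨τ2, hτ2, hp2⟩ := step1 H0 u w hgd hx0 hreg X hX hX0 hjb hja hab.symm
    (fun k => by rcases hall k with h | h | h <;> tauto) h0 h1
  rw [bp_swap] at hp2
  have hp2' : hh H0 u w a b (bp X j a b ε (1 - τ2)) < 0 := by
    have : hh H0 u w a b (bp X j a b ε (1 - τ2)) = - hh H0 u w b a (bp X j a b ε (1 - τ2)) := by
      unfold hh; ring
    rw [this]; linarith
  have hcy : Continuous (fun τ => bp X j a b ε τ) := by unfold bp; fun_prop
  have hc : ContinuousOn (fun τ => hh H0 u w a b (bp X j a b ε τ)) (Set.Ioo (0 : ℝ) 1) :=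
    ((cont_hh H0 u w a b).comp hcy).continuousOn
  have h12 : (1 - τ2) ∈ Set.Ioo (0 : ℝ) 1 := ⟨by linarith [hτ2.2], by linarith [hτ2.1]⟩
  obtain ⟨τ, hτ, he⟩ := isPreconnected_Ioo.intermediate_value h12 hτ1 hc ⟨hp2'.le, hp1.le⟩
  exact ⟨τ, hτ, he⟩

private theorem others (j : Fin 3) : ∃ a b : Fin 3, a ≠ j ∧ b ≠ j ∧ a ≠ b ∧
    ∀ k, k = j ∨ k = a ∨ k = b := by
  revert j; decide

theorem corner (H0 u w : V6) (hgd : ∀ x : ℝ × ℝ, gd (cosv (H0 + x.1 • u + x.2 • w)) = 0)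
    {x0 : ℝ × ℝ} (hx0 : ∃ l ∈ T, ang l = H0 + x0.1 • u + x0.2 • w)
    (hreg : ∀ x : ℝ × ℝ, (∀ j, 0 < R (H0 + x.1 • u + x.2 • w) j) →
      ∃ l ∈ T, ang l = H0 + x.1 • u + x.2 • w)
    (X : Fin 3 → ℝ × ℝ) (hX : ∀ j, 0 < R (H0 + (X j).1 • u + (X j).2 • w) j)
    (hX0 : ∀ j k, k ≠ j → R (H0 + (X j).1 • u + (X j).2 • w) k = 0) (j : Fin 3) {v v' : Fin 4}
    (hv : v ≠ v') : ev (H0 + (X j).1 • u + (X j).2 • w) v = 0 ∨
      ev (H0 + (X j).1 • u + (X j).2 • w) v' = 0 := by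
  obtain ⟨a, b, hja, hjb, hab, hall⟩ := others j
  have hε : ∀ n : ℕ, 0 < 1 / ((n : ℝ) + 2) ∧ 1 / ((n : ℝ) + 2) < 1 := fun n =>
    ⟨by positivity, by
      rw [div_lt_one (by positivity)]
      linarith [(Nat.cast_nonneg n : (0 : ℝ) ≤ n)]⟩
  choose τ hτ hτ0 using fun n : ℕ =>
    step2 H0 u w hgd hx0 hreg X hX hX0 hja hjb hab hall (hε n).1 (hε n).2
  have hyy : ∀ n : ℕ, ∃ l ∈ T, ang l =
      H0 + (bp X j a b (1 / ((n : ℝ) + 2)) (τ n)).1 • u +
        (bp X j a b (1 / ((n : ℝ) + 2)) (τ n)).2 • w := by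
    intro n
    refine hreg _ fun k => ?_
    rw [R_bp]
    have e1 := (hε n).1
    have e2 := (hε n).2
    rcases hall k with rfl | rfl | rfl
    · rw [hX0 a k hja.symm, hX0 b k hjb.symm]
      have := mul_pos (sub_pos.2 e2) (hX k)
      linarith
    · rw [hX0 j k hja, hX0 b k hab]
      have := mul_pos (mul_pos e1 (hτ n).1) (hX k)
      linarith
    · rw [hX0 j k hjb, hX0 a k hab.symm]
      have := mul_pos (mul_pos e1 (sub_pos.2 (hτ n).2)) (hX k)
      linarith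
  have hlim0 : Tendsto (fun n : ℕ => 1 / ((n : ℝ) + 2)) atTop (𝓝 0) := by
    have h := (tendsto_one_div_add_atTop_nhds_zero_nat (𝕜 := ℝ))
    have h' := h.comp (tendsto_add_atTop_nat 1)
    refine h'.congr fun n => ?_
    simp only [Function.comp]
    push_cast
    ring_nf
  have hl1 : Tendsto (fun n : ℕ => 1 / ((n : ℝ) + 2) * τ n) atTop (𝓝 0) := by
    refine squeeze_zero (fun n => (mul_pos (hε n).1 (hτ n).1).le) (fun n => ?_) hlim0
    exact mul_le_of_le_one_right (hε n).1.le (hτ n).2.le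
  have hl2 : Tendsto (fun n : ℕ => 1 / ((n : ℝ) + 2) * (1 - τ n)) atTop (𝓝 0) := by
    refine squeeze_zero (fun n => (mul_pos (hε n).1 (sub_pos.2 (hτ n).2)).le) (fun n => ?_) hlim0
    exact mul_le_of_le_one_right (hε n).1.le (by linarith [(hτ n).1])
  have hz : Tendsto (fun n : ℕ => bp X j a b (1 / ((n : ℝ) + 2)) (τ n)) atTop (𝓝 (X j)) := by
    unfold bp
    have h := (((tendsto_const_nhds (x := (1 : ℝ))).sub hlim0).smul_const (X j)).add
      (hl1.smul_const (X a)) |>.add (hl2.smul_const (X b))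
    simpa using h
  have hn := not_real H0 u w (z := X j) (k := a) (hX0 j a hja)
  obtain ⟨G, hG, hGF, p, hp, hpC, hpT, hW, hss, hgg, hes, hRg, hne⟩ :=
    lim_exists H0 u w hgd hx0 (Filter.Eventually.of_forall hyy) hz hn
  have hlim := lim_hh H0 u w a b (hz.mono_left hGF) hp
  simp only [hτ0, mul_zero] at hlim
  have hab0 := tendsto_nhds_unique hlim tendsto_const_nhds
  have hgj : gg p (H0 + (X j).1 • u + (X j).2 • w) j = 0 := by
    rcases mul_eq_zero.1 (hRg j) with h | h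
    · exact absurd h (hX j).ne'
    · exact h
  by_contra hcon
  push Not at hcon
  have hv1 : ss p (H0 + (X j).1 • u + (X j).2 • w) v = 0 :=
    (mul_eq_zero.1 (hes v)).resolve_left hcon.1
  have hv2 : ss p (H0 + (X j).1 • u + (X j).2 • w) v' = 0 :=
    (mul_eq_zero.1 (hes v')).resolve_left hcon.2
  have hapos : 0 < gg p (H0 + (X j).1 • u + (X j).2 • w) a := by
    refine lt_of_le_of_ne (hgg a) fun h => hne fun k => ?_
    rcases hall k with rfl | rfl | rfl
    · exact hgj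
    · exact h.symm
    · linarith
  have hbpos : 0 < gg p (H0 + (X j).1 • u + (X j).2 • w) b := by linarith
  refine at_most_one hpC hW (j := j) (fun k hk v'' => ?_) hv ?_ ?_
  · have h1 := hss v''
    have h2 : 0 < gg p (H0 + (X j).1 • u + (X j).2 • w) k := by
      rcases hall k with rfl | rfl | rfl
      · exact absurd rfl hk
      · exact hapos
      · exact hbpos
    unfold ss at h1
    unfold gg at h2
    linarith
  · unfold ss at hv1
    unfold gg at hgj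
    linarith
  · unfold ss at hv2
    unfold gg at hgj
    linarith

end Pool.Agent.helper37.NP
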