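import Pool.Agent.helper37.NP.Defs

/-!
NP-24 (BSc).  `PP` is open; Schläfli's relation from the determinant; the determinant vanishes on a
plane as soon as it vanishes on an open part of it.

PROOFS.
* `isOpen_PP`: finitely many strict inequalities between continuous functions.
* `schl`: `∂ gd / ∂ x_e = - 2 cf x (5 - e)` (`ring`), so the derivative of
  `τ ↦ gd (cosv (t + τ • ξ))` at `0` is `2 ∑ cf x (5 - e) sin (t e) ξ e`, `x = cosv t`.  It is `0` by
  hypothesis.  As in NP-23, `gd x = 0` gives `cf x 5 = √(mi x 2 * mi x 3)` etc. (identity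
  `mi x 2 * mi x 3 - cf x 5 ^ 2 = (1 - x 5 ^ 2) * gd x` and the analogues), so
  `lam t e = cf x (5 - e) * sin (t e)` and the sum is `2 dotp (lam t) ξ`.
* `gd_zero`: `x ↦ gd (cosv (H0 + x.1 • u + x.2 • w))` is analytic on `ℝ × ℝ` (polynomial in
  cosines of affine functions) and vanishes on a nonempty open set
  (`AnalyticOnNhd.eqOn_zero_of_preconnected_of_eventuallyEq_zero`, or in one variable along
  lines).
-/

namespace Pool.Agent.helper37.NP

open Real Filter Topology

theorem isOpen_PP : IsOpen PP := by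
  have hc : Continuous cosv := by
    unfold cosv
    fun_prop
  have hmi : ∀ v, Continuous fun x : V6 => mi x v := by
    intro v
    fin_cases v <;> simp [mi] <;> fun_prop
  have hcf : ∀ e, Continuous fun x : V6 => cf x e := by
    intro e
    fin_cases e <;> simp [cf] <;> fun_prop
  have h1 : PP = (⋂ e : Fin 6, {t : V6 | 0 < t e ∧ t e < π}) ∩
      ((⋂ v : Fin 4, {t : V6 | 0 < mi (cosv t) v}) ∩ ⋂ e : Fin 6, {t : V6 | 0 < cf (cosv t) e}) := by
    ext t
    simp only [PP, Set.mem_ofPred_eq, Set.mem_inter_iff, Set.mem_iInter]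
  rw [h1]
  refine IsOpen.inter ?_ (IsOpen.inter ?_ ?_)
  · refine isOpen_iInter_of_finite fun e => ?_
    exact (isOpen_lt continuous_const (continuous_apply e)).inter
      (isOpen_lt (continuous_apply e) continuous_const)
  · refine isOpen_iInter_of_finite fun v => ?_
    exact isOpen_lt continuous_const ((hmi v).comp hc)
  · refine isOpen_iInter_of_finite fun e => ?_
    exact isOpen_lt continuous_const ((hcf e).comp hc)

private theorem cf_eq_sqrt {c m n k g : ℝ} (hc : 0 < c) (hg : g = 0)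
    (h : m * n - c ^ 2 = k * g) : c = Real.sqrt (m * n) := by
  rw [hg, mul_zero] at h
  have : m * n = c ^ 2 := by linarith
  rw [this, Real.sqrt_sq hc.le]

theorem schl {t ξ : V6} (ht : t ∈ PP) (hg : gd (cosv t) = 0)
    (h : ∀ᶠ τ : ℝ in 𝓝 0, gd (cosv (t + τ • ξ)) = 0) : dotp (lam t) ξ = 0 := by
  have hc := ht.2.2
  have e0 : cf (cosv t) 5 = Real.sqrt (mi (cosv t) 2 * mi (cosv t) 3) :=
    cf_eq_sqrt (k := 1 - cosv t 5 ^ 2) (hc 5) hg (by simp [mi, cf, gd]; ring)
  have e1 : cf (cosv t) 4 = Real.sqrt (mi (cosv t) 1 * mi (cosv t) 3) :=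
    cf_eq_sqrt (k := 1 - cosv t 4 ^ 2) (hc 4) hg (by simp [mi, cf, gd]; ring)
  have e2 : cf (cosv t) 3 = Real.sqrt (mi (cosv t) 1 * mi (cosv t) 2) :=
    cf_eq_sqrt (k := 1 - cosv t 3 ^ 2) (hc 3) hg (by simp [mi, cf, gd]; ring)
  have e3 : cf (cosv t) 2 = Real.sqrt (mi (cosv t) 0 * mi (cosv t) 3) :=
    cf_eq_sqrt (k := 1 - cosv t 2 ^ 2) (hc 2) hg (by simp [mi, cf, gd]; ring)
  have e4 : cf (cosv t) 1 = Real.sqrt (mi (cosv t) 0 * mi (cosv t) 2) :=
    cf_eq_sqrt (k := 1 - cosv t 1 ^ 2) (hc 1) hg (by simp [mi, cf, gd]; ring)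
  have e5 : cf (cosv t) 0 = Real.sqrt (mi (cosv t) 0 * mi (cosv t) 1) :=
    cf_eq_sqrt (k := 1 - cosv t 0 ^ 2) (hc 0) hg (by simp [mi, cf, gd]; ring)
  have hd : ∀ e : Fin 6, HasDerivAt (fun τ : ℝ => Real.cos (t e + τ * ξ e))
      (-Real.sin (t e) * ξ e) 0 := by
    intro e
    have h1 : HasDerivAt (fun τ : ℝ => t e + τ * ξ e) (ξ e) 0 := by
      simpa using ((hasDerivAt_id (0 : ℝ)).mul_const (ξ e)).const_add (t e)
    have h2 := h1.cos
    simpa using h2
  have hD : HasDerivAt (fun τ : ℝ => gd (cosv (t + τ • ξ)))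
      (2 * (cf (cosv t) 5 * Real.sin (t 0) * ξ 0 + cf (cosv t) 4 * Real.sin (t 1) * ξ 1
        + cf (cosv t) 3 * Real.sin (t 2) * ξ 2 + cf (cosv t) 2 * Real.sin (t 3) * ξ 3
        + cf (cosv t) 1 * Real.sin (t 4) * ξ 4 + cf (cosv t) 0 * Real.sin (t 5) * ξ 5)) 0 := by
    have d0 := hd 0
    have d1 := hd 1
    have d2 := hd 2
    have d3 := hd 3
    have d4 := hd 4
    have d5 := hd 5
    have key := (((((((hasDerivAt_const (0 : ℝ) (1 : ℝ)).sub
      ((((((d0.pow 2).add (d1.pow 2)).add (d2.pow 2)).add (d3.pow 2)).add (d4.pow 2)).add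
        (d5.pow 2))).sub
      ((((((d0.mul d1).mul d2).add ((d0.mul d3).mul d4)).add ((d1.mul d3).mul d5)).add
        ((d2.mul d4).mul d5)).const_mul 2)).add ((d0.mul d5).pow 2)).add ((d1.mul d4).pow 2)).add
      ((d2.mul d3).pow 2)).sub
      (((((d0.mul d5).mul (d1.mul d4)).add ((d0.mul d5).mul (d2.mul d3))).add
        ((d1.mul d4).mul (d2.mul d3))).const_mul 2))
    refine HasDerivAt.congr_deriv (HasDerivAt.congr_of_eventuallyEq key ?_) ?_
    · refine Filter.Eventually.of_forall fun τ => ?_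
      simp only [gd, cosv, Pi.add_apply, Pi.smul_apply, smul_eq_mul, Pi.sub_apply, Pi.mul_apply,
        Pi.pow_apply]
    · simp [cf, cosv]
      ring
  have hz : HasDerivAt (fun τ : ℝ => gd (cosv (t + τ • ξ))) 0 0 := by
    refine (hasDerivAt_const (0 : ℝ) (0 : ℝ)).congr_of_eventuallyEq ?_
    filter_upwards [h] with τ hτ
    exact hτ
  have hu := hD.unique hz
  rw [e0, e1, e2, e3, e4, e5] at hu
  simp only [dotp, lam, Matrix.cons_val_zero, Matrix.cons_val_one, Matrix.cons_val]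
  linarith

theorem gd_zero (H0 u w : V6) (U : Set (ℝ × ℝ)) (hU : IsOpen U) (hne : U.Nonempty)
    (h : ∀ x ∈ U, gd (cosv (H0 + x.1 • u + x.2 • w)) = 0) :
    ∀ x : ℝ × ℝ, gd (cosv (H0 + x.1 • u + x.2 • w)) = 0 := by
  have hcos : ∀ e : Fin 6, AnalyticOnNhd ℝ
      (fun x : ℝ × ℝ => Real.cos (H0 e + x.1 * u e + x.2 * w e)) Set.univ := by
    intro e x _
    have : AnalyticAt ℝ (fun x : ℝ × ℝ => H0 e + x.1 * u e + x.2 * w e) x := by
      exact (analyticAt_const.add (analyticAt_fst.mul analyticAt_const)).add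
        (analyticAt_snd.mul analyticAt_const)
    exact Real.analyticAt_cos.comp this
  have hA : AnalyticOnNhd ℝ (fun x : ℝ × ℝ => gd (cosv (H0 + x.1 • u + x.2 • w))) Set.univ := by
    intro x hx
    have h0 := hcos 0 x hx
    have h1 := hcos 1 x hx
    have h2 := hcos 2 x hx
    have h3 := hcos 3 x hx
    have h4 := hcos 4 x hx
    have h5 := hcos 5 x hx
    simp only [gd, cosv, Pi.add_apply, Pi.smul_apply, smul_eq_mul]
    fun_prop
  obtain ⟨x0, hx0⟩ := hne
  have hE := hA.eqOn_zero_of_preconnected_of_eventuallyEq_zero isPreconnected_univ (Set.mem_univ x0)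
    (by
      filter_upwards [hU.mem_nhds hx0] with x hx
      exact h x hx)
  intro x
  exact hE (Set.mem_univ x)

end Pool.Agent.helper37.NP
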