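import Pool.Agent.helper37.NP.Sla
import Pool.Agent.helper37.NP.BGr
import Pool.Agent.helper37.NP.BRe
import Pool.Agent.helper37.NP.BSc

/-!
NP-26 (BRg).  Case B: limits of realising length vectors, and the region.

Fix `H0, u, w`, `pt x = H0 + x.1 • u + x.2 • w`, and assume `gd (cosv (pt x)) = 0` for all `x`.
Let `x0` be realised: `ang l0 = pt x0`, `l0 ∈ T`.

`lim_exists`: let `F` be a nontrivial filter on `ι`, `y : ι → ℝ × ℝ` tending to `z` along `F`, each
`pt (y i)` realised by a vector of `T`, and suppose that `pt z` is not realised.  Then for a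
nontrivial `G ≤ F` the normalised vectors `m i = lam (pt (y i)) / ∑ lam` converge along `G` to some
`p` with: `p ∈ CT`, `p ∉ T`, `W p = 0`, `∑ p e = 1`, the slackness relations for `(p, pt z)`, and not
all `gg p (pt z) j` vanish.
PROOF.  `pt (y i) = ang l_i`, so `pt (y i) ∈ PP` and `m i ∈ T`, `ang (m i) = pt (y i)`
(`ang_mem_PP`, `real_of_PP`, `smul_mem_T`, `ang_smul`).  The simplex
`{p | p ≥ 0, ∑ p = 1}` is compact, so take an ultrafilter `G ≤ F` and the limit `p`.  `schl`
(applicable because `gd ∘ cosv ∘ pt` vanishes identically) gives `dotp (m i) u = dotp (m i) w = 0`,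
hence `dotp p u = dotp p w = 0`.  If `p ∈ T`, continuity of `ang` gives `ang p = pt z`, excluded.
`slack` with `x = m`, `t = pt z`.  Suppose all `gg p (pt z) j = 0` and put `r = dotp p (pt z) / π`, so
`Q p j = r`.  Since `pt x0 - pt z` is a combination of `u, w`: `dotp p (pt x0) = π r`.  `bilin'` with
`t = pt x0`: `0 = ∑ ev (pt x0) v (sg p v - r)`, `ev (pt x0) v > 0` (`ev_pos`), and
`sg p v - r = ss p (pt z) v ≥ 0`: so `sg p v = r` for all `v`; `sum_sg`: `4 r = 6 r`, `r = 0`, so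
`p = 0` (nonnegative entries, `sg p v = 0`), contradicting `∑ p = 1`.

`B_region`: every `x` with `R (pt x) j > 0` for all `j` is realised.
PROOF.  Let `O` be the (convex, open) set of such `x` and `G ⊆ O` the set of realised points
(`R_pos` shows that realised points are in `O`).  `x0 ∈ G`.  `G` is open: if `x ∈ G` then
`pt x ∈ PP` open, so for `x'` near `x` `pt x' ∈ PP`, `gd = 0`, and `real_of_PP` realises it.  `G` is
closed in `O`: if `y_n → z ∈ O`, `y_n ∈ G` and `z` is not realised, `lim_exists` gives `p` with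
`R (pt z) j * gg p (pt z) j = 0`, `R (pt z) j > 0`, so all `gg p (pt z) j = 0`, contradiction.
`O` is preconnected, so `G = O`.
-/

namespace Pool.Agent.helper37.NP

open Real Filter Topology

private theorem bRg_cont (H0 u w : V6) :
    Continuous (fun x : ℝ × ℝ => H0 + x.1 • u + x.2 • w) := by fun_prop

private theorem bRg_dotp_smul (k : ℝ) (l t : V6) : dotp (k • l) t = k * dotp l t := by
  simp only [dotp, Pi.smul_apply, smul_eq_mul]
  ring

private theorem bRg_dotp_cont (t : V6) : Continuous (fun l : V6 => dotp l t) := by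
  unfold dotp
  fun_prop

/-- a realised point -/
private theorem bRg_real {H0 u w : V6}
    (hgd : ∀ x : ℝ × ℝ, gd (cosv (H0 + x.1 • u + x.2 • w)) = 0) {x : ℝ × ℝ}
    (hx : ∃ l ∈ T, ang l = H0 + x.1 • u + x.2 • w) :
    let m := (∑ e, lam (H0 + x.1 • u + x.2 • w) e)⁻¹ • lam (H0 + x.1 • u + x.2 • w)
    m ∈ T ∧ ang m = H0 + x.1 • u + x.2 • w ∧ m ∈ stdSimplex ℝ (Fin 6) ∧ dotp m u = 0 ∧
      dotp m w = 0 := by
  intro m
  obtain ⟨l, hl, he⟩ := hx
  have h1 : H0 + x.1 • u + x.2 • w ∈ PP := he ▸ ang_mem_PP hl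
  obtain ⟨h2, h3⟩ := real_of_PP h1 (hgd x)
  have hs : 0 < ∑ e, lam (H0 + x.1 • u + x.2 • w) e :=
    Finset.sum_pos (fun e _ => T_pos h2 e) Finset.univ_nonempty
  have hk : 0 < (∑ e, lam (H0 + x.1 • u + x.2 • w) e)⁻¹ := inv_pos.2 hs
  have hmT : m ∈ T := smul_mem_T h2 hk
  refine ⟨hmT, (ang_smul hk).trans h3, ⟨fun e => (T_pos hmT e).le, ?_⟩, ?_, ?_⟩
  · simp only [m, Pi.smul_apply, smul_eq_mul]
    rw [← Finset.mul_sum, inv_mul_cancel₀ hs.ne']
  · have h4 : dotp (lam (H0 + x.1 • u + x.2 • w)) u = 0 := by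
      refine schl h1 (hgd x) (Eventually.of_forall fun τ => ?_)
      have h5 := hgd (x.1 + τ, x.2)
      have h6 : H0 + (x.1 + τ, x.2).1 • u + (x.1 + τ, x.2).2 • w =
          H0 + x.1 • u + x.2 • w + τ • u := by
        simp only [add_smul]
        abel
      rwa [h6] at h5
    exact (bRg_dotp_smul _ _ _).trans (by rw [h4, mul_zero])
  · have h4 : dotp (lam (H0 + x.1 • u + x.2 • w)) w = 0 := by
      refine schl h1 (hgd x) (Eventually.of_forall fun τ => ?_)
      have h5 := hgd (x.1, x.2 + τ)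
      have h6 : H0 + (x.1, x.2 + τ).1 • u + (x.1, x.2 + τ).2 • w =
          H0 + x.1 • u + x.2 • w + τ • w := by
        simp only [add_smul]
        abel
      rwa [h6] at h5
    exact (bRg_dotp_smul _ _ _).trans (by rw [h4, mul_zero])

theorem lim_exists (H0 u w : V6) (hgd : ∀ x : ℝ × ℝ, gd (cosv (H0 + x.1 • u + x.2 • w)) = 0)
    {x0 : ℝ × ℝ} (hx0 : ∃ l ∈ T, ang l = H0 + x0.1 • u + x0.2 • w)
    {ι : Type*} {F : Filter ι} [F.NeBot] {y : ι → ℝ × ℝ} {z : ℝ × ℝ}
    (hy : ∀ᶠ i in F, ∃ l ∈ T, ang l = H0 + (y i).1 • u + (y i).2 • w) (hz : Tendsto y F (𝓝 z))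
    (hn : ¬ ∃ l ∈ T, ang l = H0 + z.1 • u + z.2 • w) :
    ∃ G : Filter ι, G.NeBot ∧ G ≤ F ∧ ∃ p : V6,
      Tendsto (fun i => (∑ e, lam (H0 + (y i).1 • u + (y i).2 • w) e)⁻¹ •
        lam (H0 + (y i).1 • u + (y i).2 • w)) G (𝓝 p) ∧
      p ∈ CT ∧ p ∉ T ∧ W p = 0 ∧
      (∀ v, 0 ≤ ss p (H0 + z.1 • u + z.2 • w) v) ∧ (∀ j, 0 ≤ gg p (H0 + z.1 • u + z.2 • w) j) ∧
      (∀ v, ev (H0 + z.1 • u + z.2 • w) v * ss p (H0 + z.1 • u + z.2 • w) v = 0) ∧
      (∀ j, R (H0 + z.1 • u + z.2 • w) j * gg p (H0 + z.1 • u + z.2 • w) j = 0) ∧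
      ¬ ∀ j, gg p (H0 + z.1 • u + z.2 • w) j = 0 := by
  obtain ⟨x0', hx0'⟩ : ∃ t, t = H0 + x0.1 • u + x0.2 • w := ⟨_, rfl⟩
  set m : ι → V6 := fun i => (∑ e, lam (H0 + (y i).1 • u + (y i).2 • w) e)⁻¹ •
        lam (H0 + (y i).1 • u + (y i).2 • w) with hm
  have hall : ∀ᶠ i in F, m i ∈ T ∧ ang (m i) = H0 + (y i).1 • u + (y i).2 • w ∧
      m i ∈ stdSimplex ℝ (Fin 6) ∧ dotp (m i) u = 0 ∧ dotp (m i) w = 0 := by
    filter_upwards [hy] with i hi
    exact bRg_real hgd hi
  let G : Ultrafilter ι := Ultrafilter.of F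
  have hGF : (G : Filter ι) ≤ F := Ultrafilter.of_le F
  have hall' := hall.filter_mono hGF
  obtain ⟨p, hpS, hp⟩ : ∃ p ∈ stdSimplex ℝ (Fin 6), Tendsto m G (𝓝 p) := by
    have h1 := (isCompact_stdSimplex ℝ (Fin 6)).ultrafilter_le_nhds (G.map m) (by
      rw [le_principal_iff]
      exact hall'.mono fun i hi => hi.2.2.1)
    obtain ⟨p, hp, hp'⟩ := h1
    exact ⟨p, hp, hp'⟩
  have hang : Tendsto (fun i => ang (m i)) G (𝓝 (H0 + z.1 • u + z.2 • w)) := by
    have h1 : Tendsto (fun i => H0 + (y i).1 • u + (y i).2 • w) (G : Filter ι)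
        (𝓝 (H0 + z.1 • u + z.2 • w)) :=
      ((bRg_cont H0 u w).tendsto z).comp (hz.mono_left hGF)
    refine h1.congr' ?_
    filter_upwards [hall'] with i hi
    exact hi.2.1.symm
  have hpC : p ∈ CT := closure_T (mem_closure_of_tendsto hp (hall'.mono fun i hi => hi.1))
  have hpT : p ∉ T := by
    intro hpT
    apply hn
    refine ⟨p, hpT, ?_⟩
    have h1 : Tendsto (fun i => ang (m i)) G (𝓝 (ang p)) := by
      rw [tendsto_pi_nhds]
      intro e
      have h2 : ContinuousAt (fun l : V6 => ang l e) p :=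
        (ang_continuousOn e).continuousAt (isOpen_T.mem_nhds hpT)
      exact h2.tendsto.comp hp
    exact tendsto_nhds_unique h1 hang
  have hpu : dotp p u = 0 := by
    have h1 := ((bRg_dotp_cont u).tendsto p).comp hp
    refine tendsto_nhds_unique h1 (tendsto_const_nhds.congr' ?_)
    filter_upwards [hall'] with i hi
    exact hi.2.2.2.1.symm
  have hpw : dotp p w = 0 := by
    have h1 := ((bRg_dotp_cont w).tendsto p).comp hp
    refine tendsto_nhds_unique h1 (tendsto_const_nhds.congr' ?_)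
    filter_upwards [hall'] with i hi
    exact hi.2.2.2.2.symm
  obtain ⟨-, -, s3, s4, s5, s6⟩ := slack (hall'.mono fun i hi => hi.1) hp hang hpT
  refine ⟨G, inferInstance, hGF, p, hp, hpC, hpT, W_zero hpC hpT, s3, s4, s5, s6, ?_⟩
  intro hg
  obtain ⟨l0, hl0, he0⟩ := hx0
  set r : ℝ := dotp p (H0 + z.1 • u + z.2 • w) / π with hr
  have hQ : ∀ j, Q p j = r := by
    intro j
    have := hg j
    unfold gg at this
    linarith
  have hd : dotp p (ang l0) = π * r := by
    have h1 : dotp p (H0 + z.1 • u + z.2 • w) = π * r := by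
      rw [hr]
      field_simp
    rw [he0, ← h1]
    have h2 : dotp p (H0 + x0.1 • u + x0.2 • w) =
        dotp p H0 + x0.1 * dotp p u + x0.2 * dotp p w := by
      simp only [dotp, Pi.add_apply, Pi.smul_apply, smul_eq_mul]
      ring
    have h3 : dotp p (H0 + z.1 • u + z.2 • w) =
        dotp p H0 + z.1 * dotp p u + z.2 * dotp p w := by
      simp only [dotp, Pi.add_apply, Pi.smul_apply, smul_eq_mul]
      ring
    rw [h2, h3, hpu, hpw]
    ring
  have hb := bilin' p (ang l0) r hd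
  rw [hQ 0, hQ 1, hQ 2] at hb
  have hs : ∀ v, 0 ≤ sg p v - r := s3
  have hev := fun v => ev_pos hl0 v
  have hprod : ∀ v, 0 ≤ ev (ang l0) v * (sg p v - r) := fun v => mul_nonneg (hev v).le (hs v)
  have hz0 : ∀ v, sg p v - r = 0 := by
    have key : ∀ v, ev (ang l0) v * (sg p v - r) = 0 := by
      have a0 := hprod 0
      have a1 := hprod 1
      have a2 := hprod 2
      have a3 := hprod 3
      intro v
      fin_cases v
      · change ev (ang l0) 0 * (sg p 0 - r) = 0
        linarith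
      · change ev (ang l0) 1 * (sg p 1 - r) = 0
        linarith
      · change ev (ang l0) 2 * (sg p 2 - r) = 0
        linarith
      · change ev (ang l0) 3 * (sg p 3 - r) = 0
        linarith
    intro v
    rcases mul_eq_zero.1 (key v) with h | h
    · exact absurd h (hev v).ne'
    · exact h
  have h4 := sum_sg p
  rw [hQ 0, hQ 1, hQ 2] at h4
  have hr0 : r = 0 := by linarith [hz0 0, hz0 1, hz0 2, hz0 3]
  have h5 := hpS.2
  rw [Fin.sum_univ_six] at h5
  have b0 := hQ 0
  have b1 := hQ 1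
  have b2 := hQ 2
  simp only [Q, Matrix.cons_val_zero, Matrix.cons_val_one, Matrix.cons_val_two,
    Matrix.tail_cons, Matrix.head_cons] at b0 b1 b2
  linarith

theorem B_region (H0 u w : V6) (hgd : ∀ x : ℝ × ℝ, gd (cosv (H0 + x.1 • u + x.2 • w)) = 0)
    {x0 : ℝ × ℝ} (hx0 : ∃ l ∈ T, ang l = H0 + x0.1 • u + x0.2 • w) :
    ∀ x : ℝ × ℝ, (∀ j, 0 < R (H0 + x.1 • u + x.2 • w) j) →
      ∃ l ∈ T, ang l = H0 + x.1 • u + x.2 • w := by
  set pt : ℝ × ℝ → V6 := fun x => H0 + x.1 • u + x.2 • w with hpt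
  have hptc : Continuous pt := bRg_cont H0 u w
  set O : Set (ℝ × ℝ) := {x | ∀ j, 0 < R (pt x) j} with hO
  set S : Set (ℝ × ℝ) := {x | ∃ l ∈ T, ang l = pt x} with hS
  have hOc : Convex ℝ O := by
    have h1 : O = ⋂ j, {x | 0 < R (pt x) j} := by
      ext x
      simp [hO]
    rw [h1]
    refine convex_iInter fun j => ?_
    intro x hx y hy a b ha hb hab
    have h2 : R (pt (a • x + b • y)) j = a * R (pt x) j + b * R (pt y) j := by
      have ha' : a = 1 - b := by linarith
      subst ha'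
      fin_cases j <;>
        simp only [R, Q, hpt, Pi.add_apply, Pi.smul_apply, smul_eq_mul, Prod.fst_add, Prod.snd_add,
          Prod.smul_fst, Prod.smul_snd, Matrix.cons_val_zero, Matrix.cons_val_one,
          Matrix.cons_val, Fin.zero_eta, Fin.mk_one, Fin.reduceFinMk] <;> ring
    change 0 < R (pt (a • x + b • y)) j
    rw [h2]
    have hx' : 0 < R (pt x) j := hx
    have hy' : 0 < R (pt y) j := hy
    rcases ha.eq_or_lt with h | h
    · subst h
      have : b = 1 := by linarith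
      subst this
      linarith
    · have := mul_pos h hx'
      have := mul_nonneg hb hy'.le
      linarith
  have hSo : IsOpen S := by
    rw [isOpen_iff_mem_nhds]
    intro x hx
    have hx' : pt x ∈ PP := by
      obtain ⟨l, hl, he⟩ := hx
      exact he ▸ ang_mem_PP hl
    have h1 : ∀ᶠ x' in 𝓝 x, pt x' ∈ PP := hptc.continuousAt (isOpen_PP.mem_nhds hx')
    filter_upwards [h1] with x' hx'
    obtain ⟨h2, h3⟩ := real_of_PP hx' (hgd x')
    exact ⟨_, h2, h3⟩
  have hx0O : x0 ∈ O := by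
    obtain ⟨l, hl, he⟩ := hx0
    intro j
    have := R_pos hl j
    rwa [he] at this
  have hsub : O ⊆ S := by
    refine hOc.isPreconnected.subset_of_closure_inter_subset hSo ⟨x0, hx0O, hx0⟩ ?_
    rintro z ⟨hz, hzO⟩
    by_contra hn
    have : (𝓝[S] z).NeBot := mem_closure_iff_nhdsWithin_neBot.1 hz
    obtain ⟨G, -, -, p, -, -, -, -, -, -, -, h6, h7⟩ := lim_exists H0 u w hgd hx0
      (F := 𝓝[S] z) (y := id) (z := z) (self_mem_nhdsWithin) (tendsto_id.mono_left nhdsWithin_le_nhds) hn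
    apply h7
    intro j
    rcases mul_eq_zero.1 (h6 j) with h | h
    · exact absurd h (hzO j).ne'
    · exact h
  exact fun x hx => hsub hx

end Pool.Agent.helper37.NP
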