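import Mathlib

/-!
NP-25 (BTr).  Three half planes with bounded nonempty intersection form a triangle.

PROOF.  `f j x = a j * x.1 + b j * x.2 + c j`.  Any two of the vectors `(a j, b j)` are linearly
independent: if `(a i, b i)`, `(a k, b k)` are dependent there is `y ≠ 0` with
`a i y.1 + b i y.2 = 0 = a k y.1 + b k y.2`; choose the sign of `y` with `a m y.1 + b m y.2 ≥ 0` for
the third index `m`; then `x0 + τ y` stays in the region for all `τ ≥ 0`, contradiction to
boundedness.  Let `X j` be the common zero of `f k, f m` (`{j, k, m} = {0, 1, 2}`, Cramer).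
`f j (X j) > 0`: let `y_k` be a direction with `f k`-part `> 0` and `f m`-part `0`, and `y_m`
vice versa; the region is unbounded along `y_k` unless the `f j`-part of `y_k` is `< 0`; same for
`y_m`; the point `x0 = X j + α y_k + β y_m`, `α, β > 0`, has `f j x0 < f j (X j)`, and `f j x0 > 0`.
Last claim: an affine function `g` vanishing at the three points: the points `X j` are not
collinear, because `f j` is `0` at the other two and `> 0` at `X j` (if `X k = X m` then
`f k (X k) > 0 = f k (X m)`); so `g = 0`.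
-/

namespace Pool.Agent.helper37.NP

private theorem BTr_dir (a b c : Fin 3 → ℝ)
    (hne : ∃ x : ℝ × ℝ, ∀ j, 0 < a j * x.1 + b j * x.2 + c j)
    (hbd : Bornology.IsBounded {x : ℝ × ℝ | ∀ j, 0 < a j * x.1 + b j * x.2 + c j})
    (y : ℝ × ℝ) (hy : y ≠ 0) (h : ∀ j, 0 ≤ a j * y.1 + b j * y.2) : False := by
  obtain ⟨x, hx⟩ := hne
  obtain ⟨C, hC⟩ := hbd.exists_norm_le
  have hn : 0 < ‖y‖ := norm_pos_iff.2 hy
  set τ : ℝ := (|C| + ‖x‖ + 1) / ‖y‖ with hτ
  have hτ0 : 0 ≤ τ := by positivity
  have hmem : x + τ • y ∈ {x : ℝ × ℝ | ∀ j, 0 < a j * x.1 + b j * x.2 + c j} := by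
    intro j
    have e : a j * (x + τ • y).1 + b j * (x + τ • y).2 + c j =
        (a j * x.1 + b j * x.2 + c j) + τ * (a j * y.1 + b j * y.2) := by
      simp only [Prod.fst_add, Prod.snd_add, Prod.smul_fst, Prod.smul_snd, smul_eq_mul]
      ring
    rw [e]
    have := mul_nonneg hτ0 (h j)
    have := hx j
    linarith
  have h1 := hC _ hmem
  have h2 : ‖τ • y‖ = |C| + ‖x‖ + 1 := by
    rw [norm_smul, Real.norm_eq_abs, abs_of_nonneg hτ0, hτ]
    field_simp
  have h3 : ‖τ • y‖ ≤ ‖x + τ • y‖ + ‖x‖ := by
    have e : τ • y = (x + τ • y) - x := by abel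
    calc ‖τ • y‖ = ‖(x + τ • y) - x‖ := by rw [← e]
      _ ≤ ‖x + τ • y‖ + ‖x‖ := norm_sub_le _ _
  have h4 := le_abs_self C
  linarith

private theorem BTr_ind (a b c : Fin 3 → ℝ)
    (hne : ∃ x : ℝ × ℝ, ∀ j, 0 < a j * x.1 + b j * x.2 + c j)
    (hbd : Bornology.IsBounded {x : ℝ × ℝ | ∀ j, 0 < a j * x.1 + b j * x.2 + c j})
    (k m j : Fin 3) (hj : ∀ i, i = j ∨ i = k ∨ i = m) : a k * b m - a m * b k ≠ 0 := by
  intro hD
  have key : ∃ y : ℝ × ℝ, y ≠ 0 ∧ a k * y.1 + b k * y.2 = 0 ∧ a m * y.1 + b m * y.2 = 0 := by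
    by_cases h1 : a k = 0 ∧ b k = 0
    · by_cases h2 : a m = 0 ∧ b m = 0
      · refine ⟨(1, 0), ?_, ?_, ?_⟩
        · intro h
          have := congrArg Prod.fst h
          norm_num at this
        · rw [h1.1, h1.2]; ring
        · rw [h2.1, h2.2]; ring
      · refine ⟨(b m, -a m), ?_, ?_, ?_⟩
        · intro h
          have e1 := congrArg Prod.fst h
          have e2 := congrArg Prod.snd h
          simp only [Prod.fst_zero, Prod.snd_zero, neg_eq_zero] at e1 e2
          exact h2 ⟨e2, e1⟩
        · rw [h1.1, h1.2]; ring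
        · ring
    · refine ⟨(b k, -a k), ?_, ?_, ?_⟩
      · intro h
        have e1 := congrArg Prod.fst h
        have e2 := congrArg Prod.snd h
        simp only [Prod.fst_zero, Prod.snd_zero, neg_eq_zero] at e1 e2
        exact h1 ⟨e2, e1⟩
      · ring
      · linear_combination -hD
  obtain ⟨y, hy, h1, h2⟩ := key
  rcases le_total 0 (a j * y.1 + b j * y.2) with h | h
  · refine BTr_dir a b c hne hbd y hy fun i => ?_
    rcases hj i with rfl | rfl | rfl
    · exact h
    · exact h1.ge
    · exact h2.ge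
  · refine BTr_dir a b c hne hbd (-y) (neg_ne_zero.2 hy) fun i => ?_
    simp only [Prod.fst_neg, Prod.snd_neg]
    rcases hj i with rfl | rfl | rfl
    · linarith
    · linarith
    · linarith

private theorem BTr_pt (a b c : Fin 3 → ℝ)
    (hne : ∃ x : ℝ × ℝ, ∀ j, 0 < a j * x.1 + b j * x.2 + c j)
    (hbd : Bornology.IsBounded {x : ℝ × ℝ | ∀ j, 0 < a j * x.1 + b j * x.2 + c j})
    (k m j : Fin 3) (hj : ∀ i, i = j ∨ i = k ∨ i = m) :
    ∃ X : ℝ × ℝ, 0 < a j * X.1 + b j * X.2 + c j ∧ a k * X.1 + b k * X.2 + c k = 0 ∧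
      a m * X.1 + b m * X.2 + c m = 0 := by
  have hD := BTr_ind a b c hne hbd k m j hj
  have hne' := hne
  obtain ⟨x, hx⟩ := hne'
  set D := a k * b m - a m * b k with hDd
  refine ⟨((b k * c m - b m * c k) / D, (a m * c k - a k * c m) / D), ?_, ?_, ?_⟩
  · have u1 : a j * (b m / D) + b j * (-a m / D) < 0 := by
      by_contra hcon
      push Not at hcon
      refine BTr_dir a b c hne hbd (b m / D, -a m / D) ?_ fun i => ?_
      · intro h
        have e1 := congrArg Prod.fst h
        have e2 := congrArg Prod.snd h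
        simp only [Prod.fst_zero, Prod.snd_zero, div_eq_zero_iff, neg_eq_zero, hD, or_false]
          at e1 e2
        exact hD (by rw [hDd, e1, e2]; ring)
      · rcases hj i with rfl | rfl | rfl
        · exact hcon
        · have e : a i * (b m / D) + b i * (-a m / D) = D / D := by rw [hDd]; ring
          change 0 ≤ a i * (b m / D) + b i * (-a m / D)
          rw [e, div_self hD]
          norm_num
        · have e : a i * (b i / D) + b i * (-a i / D) = 0 := by ring
          exact e.ge
    have u2 : a j * (-b k / D) + b j * (a k / D) < 0 := by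
      by_contra hcon
      push Not at hcon
      refine BTr_dir a b c hne hbd (-b k / D, a k / D) ?_ fun i => ?_
      · intro h
        have e1 := congrArg Prod.fst h
        have e2 := congrArg Prod.snd h
        simp only [Prod.fst_zero, Prod.snd_zero, div_eq_zero_iff, neg_eq_zero, hD, or_false]
          at e1 e2
        exact hD (by rw [hDd, e1, e2]; ring)
      · rcases hj i with rfl | rfl | rfl
        · exact hcon
        · have e : a i * (-b i / D) + b i * (a i / D) = 0 := by ring
          exact e.ge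
        · have e : a i * (-b k / D) + b i * (a k / D) = D / D := by rw [hDd]; ring
          change 0 ≤ a i * (-b k / D) + b i * (a k / D)
          rw [e, div_self hD]
          norm_num
    have hk := hx k
    have hm := hx m
    have hjx := hx j
    have e : a j * ((b k * c m - b m * c k) / D) + b j * ((a m * c k - a k * c m) / D) + c j =
        (a j * x.1 + b j * x.2 + c j)
        - (a k * x.1 + b k * x.2 + c k) * (a j * (b m / D) + b j * (-a m / D))
        - (a m * x.1 + b m * x.2 + c m) * (a j * (-b k / D) + b j * (a k / D)) := by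
      have e1 : D / D = 1 := div_self hD
      have e2 : (a j * x.1 + b j * x.2) * (D / D) = (a j * x.1 + b j * x.2) := by
        rw [e1, mul_one]
      have e3 : (a j * x.1 + b j * x.2) * (D / D) =
          (a k * x.1 + b k * x.2) * (a j * (b m / D) + b j * (-a m / D))
          + (a m * x.1 + b m * x.2) * (a j * (-b k / D) + b j * (a k / D)) := by
        rw [show D / D = (a k * b m - a m * b k) / D by rw [← hDd]]
        ring
      rw [← e2, e3]
      ring
    change 0 < a j * ((b k * c m - b m * c k) / D) + b j * ((a m * c k - a k * c m) / D) + c j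
    rw [e]
    have v1 := mul_neg_of_pos_of_neg hk u1
    have v2 := mul_neg_of_pos_of_neg hm u2
    linarith
  · change a k * ((b k * c m - b m * c k) / D) + b k * ((a m * c k - a k * c m) / D) + c k = 0
    have e : a k * ((b k * c m - b m * c k) / D) + b k * ((a m * c k - a k * c m) / D) =
        -(c k * (D / D)) := by
      rw [show D / D = (a k * b m - a m * b k) / D by rw [← hDd]]
      ring
    rw [e, div_self hD]
    ring
  · change a m * ((b k * c m - b m * c k) / D) + b m * ((a m * c k - a k * c m) / D) + c m = 0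
    have e : a m * ((b k * c m - b m * c k) / D) + b m * ((a m * c k - a k * c m) / D) =
        -(c m * (D / D)) := by
      rw [show D / D = (a k * b m - a m * b k) / D by rw [← hDd]]
      ring
    rw [e, div_self hD]
    ring

private theorem BTr_idx : ∀ j : Fin 3, ∃ k m : Fin 3, ∀ i, i = j ∨ i = k ∨ i = m := by decide

theorem triangle (a b c : Fin 3 → ℝ)
    (hne : ∃ x : ℝ × ℝ, ∀ j, 0 < a j * x.1 + b j * x.2 + c j)
    (hbd : Bornology.IsBounded {x : ℝ × ℝ | ∀ j, 0 < a j * x.1 + b j * x.2 + c j}) :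
    ∃ X : Fin 3 → ℝ × ℝ, (∀ j, 0 < a j * (X j).1 + b j * (X j).2 + c j) ∧
      (∀ j k, k ≠ j → a k * (X j).1 + b k * (X j).2 + c k = 0) ∧
      ∀ α β γ : ℝ, (∀ j, α * (X j).1 + β * (X j).2 + γ = 0) → α = 0 ∧ β = 0 ∧ γ = 0 := by
  have key : ∀ j : Fin 3, ∃ X : ℝ × ℝ, 0 < a j * X.1 + b j * X.2 + c j ∧
      ∀ k, k ≠ j → a k * X.1 + b k * X.2 + c k = 0 := by
    intro j
    obtain ⟨k, m, h⟩ := BTr_idx j
    obtain ⟨X, h1, h2, h3⟩ := BTr_pt a b c hne hbd k m j h
    refine ⟨X, h1, fun i hi => ?_⟩
    rcases h i with h4 | rfl | rfl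
    · exact absurd h4 hi
    · exact h2
    · exact h3
  choose X hX1 hX2 using key
  refine ⟨X, hX1, hX2, ?_⟩
  intro α β γ h
  set M : Matrix (Fin 3) (Fin 3) ℝ := Matrix.of fun j => ![(X j).1, (X j).2, 1] with hM
  set F : Matrix (Fin 3) (Fin 3) ℝ := Matrix.of ![fun k => a k, fun k => b k, fun k => c k] with hF
  have hMF : M * F = Matrix.diagonal fun j => a j * (X j).1 + b j * (X j).2 + c j := by
    ext j k
    rw [Matrix.mul_apply, Fin.sum_univ_three]
    have e : M j 0 * F 0 k + M j 1 * F 1 k + M j 2 * F 2 k =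
        a k * (X j).1 + b k * (X j).2 + c k := by
      simp only [hM, hF, Matrix.of_apply, Matrix.cons_val_zero, Matrix.cons_val_one,
        Matrix.cons_val]
      ring
    rw [e]
    by_cases hjk : j = k
    · subst hjk
      rw [Matrix.diagonal_apply_eq]
    · rw [Matrix.diagonal_apply_ne _ hjk, hX2 j k (Ne.symm hjk)]
  have hdet : M.det ≠ 0 := by
    intro h0
    have h1 := congrArg Matrix.det hMF
    rw [Matrix.det_mul, h0, zero_mul, Matrix.det_diagonal] at h1
    exact (Finset.prod_ne_zero_iff.2 fun j _ => (hX1 j).ne') h1.symm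
  have hv : M.mulVec ![α, β, γ] = 0 := by
    funext j
    simp only [Matrix.mulVec, dotProduct, Fin.sum_univ_three, hM, Matrix.of_apply,
      Matrix.cons_val_zero, Matrix.cons_val_one, Matrix.cons_val, Pi.zero_apply]
    linear_combination h j
  have h0 := Matrix.eq_zero_of_mulVec_eq_zero hdet hv
  refine ⟨?_, ?_, ?_⟩
  · simpa using congrFun h0 0
  · simpa using congrFun h0 1
  · simpa using congrFun h0 2

end Pool.Agent.helper37.NP
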