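import Pool.Agent.helper37.NP.ACo
import Pool.Agent.helper37.NP.ARe
import Pool.Agent.helper37.NP.AWa
import Pool.Agent.helper37.NP.AFi

/-!
NP-21 (CaseA).  There is no 3-dimensional space of edge vectors on which the angles restrict to a
constant form.

PROOF.  `region` gives `hreg`.  `u ∈ U` satisfies `Q u j < c u / π` (`gg_pos`).  `coords` with
`r l = c l / π` (elements of the region are in `T`, so positive).  For `j : Fin 3` let `p_j ∈ S` with
`c p_j / π - Q p_j k = 0` for `k = j` and `1` for `k ≠ j`.  `wall` gives vertices `v j` with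
`2 (c s / π) = sg s (v j) + Q s j` for all `s ∈ S`, i.e. `sg s (v j) = ρ s + g_j s`,
`Q s j = ρ s - g_j s` with `ρ = c / π`, `g_j = ρ - Q_j`.  `v` is injective: if `v j = v k` then
`g_j = g_k` on `S`, but `g_j (p_j) = 0`, `g_k (p_j) = 1` for `k ≠ j`.  Apply `W_eq` to `p_0` with
`r = ρ p_0`: `W p_0 = -4`, but `wall` says `W p_0 = 0`.
-/

namespace Pool.Agent.helper37.NP

open Real

theorem caseA (S : Submodule ℝ V6) (hS : Module.finrank ℝ S = 3) (c : V6 →ₗ[ℝ] ℝ) (U : Set V6)
    (hUT : U ⊆ T) (hUS : U ⊆ (S : Set V6)) (hne : U.Nonempty)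
    (hop : ∀ l ∈ U, ∃ ε > 0, ∀ y ∈ S, dist y l < ε → y ∈ U)
    (hc : ∀ l ∈ U, ∀ s ∈ S, dotp s (ang l) = c s) : False := by
  have hreg := region S c U hUT hUS hne hop hc
  obtain ⟨u, huU⟩ := hne
  have huT : u ∈ T := hUT huU
  have huS : u ∈ S := hUS huU
  have hcu : ∀ j, Q u j < c u / π := by
    intro j
    have h1 := gg_pos huT j
    have h2 := hc u huU u huS
    unfold gg at h1
    rw [h2] at h1
    linarith
  let r : V6 →ₗ[ℝ] ℝ := (1 / π) • c
  have hr : ∀ l, r l = c l / π := by
    intro l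
    simp [r]
    ring
  have hco := coords S hS r ⟨u, huS, fun j => by rw [hr]; exact hcu j⟩
    (fun l hl hlj e => (T_pos (hreg l hl (fun j => by rw [← hr]; exact hlj j)).1 e).le)
  have hP : ∀ j : Fin 3, ∃ p ∈ S, c p / π - Q p j = 0 ∧ ∀ k, k ≠ j → c p / π - Q p k = 1 := by
    intro j
    obtain ⟨p, hp, hpj⟩ := hco (fun k => if k = j then 0 else 1)
    refine ⟨p, hp, ?_, fun k hk => ?_⟩
    · have h := hpj j
      rw [hr] at h
      simpa using h
    · have h := hpj k
      rw [hr] at h
      simpa [hk] using h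
  choose p hpS hp0 hp1 using hP
  have hw : ∀ j, ∃ v, Q (p j) j = sg (p j) v ∧ W (p j) = 0 ∧
      ∀ s ∈ S, 2 * (c s / π) = sg s v + Q s j := fun j =>
    wall S c hreg huS hcu (hpS j) j (by linarith [hp0 j]) (fun k hk => by linarith [hp1 j k hk])
  choose v hv0 hvW hv using hw
  have hinj : Function.Injective v := by
    intro j k hjk
    by_contra hne
    have h1 := hv j (p j) (hpS j)
    have h2 := hv k (p j) (hpS j)
    rw [hjk] at h1
    have h3 := hp0 j
    have h4 := hp1 j k (Ne.symm hne)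
    linarith
  have hW : W (p 0) = -4 := by
    have e0 := hp0 0
    have e1 := hp1 0 1 (by decide)
    have e2 := hp1 0 2 (by decide)
    have f0 := hv 0 (p 0) (hpS 0)
    have f1 := hv 1 (p 0) (hpS 0)
    have f2 := hv 2 (p 0) (hpS 0)
    exact W_eq (r := c (p 0) / π) hinj (by linarith) (by linarith) (by linarith) (by linarith)
      (by linarith) (by linarith)
  have := hvW 0
  linarith

end Pool.Agent.helper37.NP
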