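import Pool.Agent.helper37.NP.BCo
import Pool.Agent.helper37.NP.BTr
import Pool.Agent.helper37.NP.Alg

/-!
NP-28 (CaseB).  A plane of angle vectors contains no open set of angle vectors of tetrahedra.

PROOF.  `gd` vanishes on the points of `U` (`gd_ang`), so everywhere (`gd_zero`).  `B_region`.  The
functions `x ↦ R (pt x) j` are affine: `a j * x.1 + b j * x.2 + c j` with `a j = R u j - R 0 j`, etc.
The set where all are positive is nonempty (`R_pos`) and bounded: its points are realised, so
`pt x ∈ (0, π)^6`, and `x ↦ x.1 • u + x.2 • w` is an injective linear map of finite-dimensional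
spaces (antilipschitz), as `u, w` are linearly independent.  `triangle` gives the corners `X j`.
By `corner` for every `j` at most one `v` has `ev (pt (X j)) v ≠ 0`; there are 4 vertices and 3
corners, so some `v0` has `ev (pt (X j)) v0 = 0` for all `j`.  The function `x ↦ ev (pt x) v0` is
affine and vanishes at the three corners, so it vanishes identically (last part of `triangle`),
contradicting `ev_pos` at a point of `U`.
-/

namespace Pool.Agent.helper37.NP

open Real

theorem sg_affine (H0 u w : V6) (x y : ℝ) (v : Fin 4) :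
    sg (H0 + x • u + y • w) v = sg H0 v + x * sg u v + y * sg w v := by
  fin_cases v <;> simp [sg] <;> ring

theorem R_affine (H0 u w : V6) (x y : ℝ) (j : Fin 3) :
    R (H0 + x • u + y • w) j = (R u j - 2 * π) * x + (R w j - 2 * π) * y + R H0 j := by
  fin_cases j <;> simp [R, Q] <;> ring

theorem caseB (H0 u w : V6) (huw : LinearIndependent ℝ ![u, w]) (U : Set (ℝ × ℝ)) (hU : IsOpen U)
    (hne : U.Nonempty) (h : ∀ x ∈ U, ∃ l ∈ T, ang l = H0 + x.1 • u + x.2 • w) : False := by
  have hgd := gd_zero H0 u w U hU hne (fun x hx => by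
    obtain ⟨l, hl, hl'⟩ := h x hx
    rw [← hl']
    exact gd_ang hl)
  obtain ⟨x0, hx0⟩ := hne
  have hreg := B_region H0 u w hgd (h x0 hx0)
  obtain ⟨l0, hl0, hl0'⟩ := h x0 hx0
  -- the region is bounded
  let L : ℝ × ℝ →ₗ[ℝ] V6 :=
    { toFun := fun x => x.1 • u + x.2 • w
      map_add' := fun x y => by
        ext e
        simp
        ring
      map_smul' := fun k x => by
        ext e
        simp
        ring }
  have hLinj : LinearMap.ker L = ⊥ := by
    rw [LinearMap.ker_eq_bot']
    rintro ⟨x, y⟩ hxy
    have h1 := LinearIndependent.pair_iff.mp huw x y hxy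
    exact Prod.ext h1.1 h1.2
  obtain ⟨K, -, hK⟩ := L.exists_antilipschitzWith hLinj
  have hbd : Bornology.IsBounded {x : ℝ × ℝ | ∀ j, 0 < (R u j - 2 * π) * x.1 +
      (R w j - 2 * π) * x.2 + R H0 j} := by
    have hb : Bornology.IsBounded (L ⁻¹' (Metric.closedBall (-H0) π)) :=
      hK.isBounded_preimage Metric.isBounded_closedBall
    refine hb.subset ?_
    intro x hx
    obtain ⟨l, hl, hl'⟩ := hreg x (fun j => by rw [R_affine]; exact hx j)
    have h1 : ∀ e, |ang l e| ≤ π := fun e => by
      rw [abs_of_pos (ang_pos hl e)]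
      exact (ang_lt hl e).le
    have h2 : L x - (-H0) = ang l := by
      rw [hl']
      change x.1 • u + x.2 • w - (-H0) = _
      abel
    rw [Set.mem_preimage, Metric.mem_closedBall, dist_eq_norm, h2,
      pi_norm_le_iff_of_nonneg pi_pos.le]
    exact fun e => h1 e
  obtain ⟨X, hX, hX0, haff⟩ := triangle (fun j => R u j - 2 * π) (fun j => R w j - 2 * π)
    (fun j => R H0 j) ⟨x0, fun j => by
      have := R_pos hl0 j
      rw [hl0', R_affine] at this
      exact this⟩ hbd
  have hcor := fun j v v' hv => corner H0 u w hgd (h x0 hx0) hreg X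
    (fun j => by rw [R_affine]; exact hX j)
    (fun j k hk => by rw [R_affine]; exact hX0 j k hk) j (v := v) (v' := v') hv
  obtain ⟨v0, hv0⟩ : ∃ v0 : Fin 4, ∀ j, ev (H0 + (X j).1 • u + (X j).2 • w) v0 = 0 := by
    by_contra hcon
    push Not at hcon
    choose f hf using hcon
    obtain ⟨v, v', hvv, hff⟩ := Fintype.exists_ne_map_eq_of_card_lt f (by simp)
    rcases hcor (f v) v v' hvv with h1 | h1
    · exact hf v h1
    · rw [hff] at h1
      exact hf v' h1
  have h0 := haff (sg u v0) (sg w v0) (sg H0 v0 - π) (fun j => by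
    have := hv0 j
    unfold ev at this
    rw [sg_affine] at this
    linarith)
  have h1 := ev_pos hl0 v0
  rw [hl0'] at h1
  unfold ev at h1
  rw [sg_affine, h0.1, h0.2.1] at h1
  linarith [h0.2.2]

end Pool.Agent.helper37.NP
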