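import Pool.Agent.Helper93.Tet.Basic

/-!
NP project (MP_6c15a0_gt): no two-parameter family of tetrahedra with Dehn invariant zero.

Edges of the tetrahedron `abcd` are numbered `0 = ab, 1 = ac, 2 = ad, 3 = bc, 4 = bd, 5 = cd`
(the order of `dehn`), vertices `0 = a, 1 = b, 2 = c, 3 = d`, pairs of opposite edges
`0 = {ab, cd}, 1 = {ac, bd}, 2 = {ad, bc}`.  Everything is written for vectors in `V6 = Fin 6 → ℝ`
(edge lengths `l`, dihedral angles `t`).
-/

namespace Pool.Agent.helper37.NP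

open Real Pool.Agent.Helper93.Tet

/-- vectors indexed by the six edges -/
abbrev V6 : Type := Fin 6 → ℝ

/-- the six edge lengths of `abcd` -/
noncomputable def lenv (a b c d : E) : V6 :=
  ![dist a b, dist a c, dist a d, dist b c, dist b d, dist c d]

/-- the six dihedral angles of `abcd` -/
noncomputable def angv (a b c d : E) : V6 :=
  ![dihedral a b c d, dihedral a c b d, dihedral a d b c, dihedral b c a d, dihedral b d a c,
    dihedral c d a b]

/-- sum over the three edges at a vertex -/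
def sg (l : V6) : Fin 4 → ℝ :=
  ![l 0 + l 1 + l 2, l 0 + l 3 + l 4, l 1 + l 3 + l 5, l 2 + l 4 + l 5]

/-- sum over a pair of opposite edges -/
def Q (l : V6) : Fin 3 → ℝ := ![l 0 + l 5, l 1 + l 4, l 2 + l 3]

/-- the scalar product `∑ l_e t_e` -/
def dotp (l t : V6) : ℝ := l 0 * t 0 + l 1 * t 1 + l 2 * t 2 + l 3 * t 3 + l 4 * t 4 + l 5 * t 5

/-- the (solid) angle excess at a vertex -/
noncomputable def ev (t : V6) (v : Fin 4) : ℝ := sg t v - π

/-- `2π` minus the four dihedral angles not in the pair `j` -/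
noncomputable def R (t : V6) (j : Fin 3) : ℝ :=
  2 * π - (t 0 + t 1 + t 2 + t 3 + t 4 + t 5) + Q t j

/-- `S / π - Q_j` where `S = ∑ l_e t_e` -/
noncomputable def gg (l t : V6) (j : Fin 3) : ℝ := dotp l t / π - Q l j

/-- `σ_v - S / π` -/
noncomputable def ss (l t : V6) (v : Fin 4) : ℝ := sg l v - dotp l t / π

/-- `16 F²` of a triangle with sides `p, q, r` -/
def He (p q r : ℝ) : ℝ := (p + q + r) * (p + q - r) * (p - q + r) * (-p + q + r)

/-- numerator of the cosine of the dihedral angle at `xy`;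
arguments: `xy, xz, xw, yz, yw, zw` -/
def Nu (p q r s t u : ℝ) : ℝ :=
  2 * p ^ 2 * (q ^ 2 + r ^ 2 - u ^ 2) - (p ^ 2 + q ^ 2 - s ^ 2) * (p ^ 2 + r ^ 2 - t ^ 2)

/-- cosine of the dihedral angle at `xy`; arguments: `xy, xz, xw, yz, yw, zw` -/
noncomputable def co (p q r s t u : ℝ) : ℝ :=
  Nu p q r s t u / (Real.sqrt (He p q s) * Real.sqrt (He p r t))

/-- `144 V²` as a function of the squared edges `ab, ac, ad, bc, bd, cd` -/
def Wsq (a b c d e f : ℝ) : ℝ :=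
  a * f * (-a + b + c + d + e - f) + b * e * (a - b + c + d - e + f)
    + c * d * (a + b - c - d + e + f) - (a * b * d + a * c * e + b * c * f + d * e * f)

/-- `144 V²` -/
def W (l : V6) : ℝ := Wsq (l 0 ^ 2) (l 1 ^ 2) (l 2 ^ 2) (l 3 ^ 2) (l 4 ^ 2) (l 5 ^ 2)

/-- the six cosines of the dihedral angles as functions of the edge lengths -/
noncomputable def cs (l : V6) : V6 :=
  ![co (l 0) (l 1) (l 2) (l 3) (l 4) (l 5), co (l 1) (l 0) (l 2) (l 3) (l 5) (l 4),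
    co (l 2) (l 0) (l 1) (l 4) (l 5) (l 3), co (l 3) (l 0) (l 4) (l 1) (l 5) (l 2),
    co (l 4) (l 0) (l 3) (l 2) (l 5) (l 1), co (l 5) (l 1) (l 3) (l 2) (l 4) (l 0)]

/-- the six dihedral angles as functions of the edge lengths -/
noncomputable def ang (l : V6) : V6 := fun e => Real.arccos (cs l e)

/-- the open cone of the edge length vectors of nondegenerate tetrahedra: all twelve strict triangle
inequalities (these are `Q l j < sg l v`) and positive volume -/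
def T : Set V6 := {l | (∀ v j, Q l j < sg l v) ∧ 0 < W l}

/-- vertex minors of the Gram matrix of the face normals, `x = cos` of the dihedral angles -/
def mi (x : V6) : Fin 4 → ℝ :=
  ![1 - x 0 ^ 2 - x 1 ^ 2 - x 2 ^ 2 - 2 * x 0 * x 1 * x 2,
    1 - x 0 ^ 2 - x 3 ^ 2 - x 4 ^ 2 - 2 * x 0 * x 3 * x 4,
    1 - x 1 ^ 2 - x 3 ^ 2 - x 5 ^ 2 - 2 * x 1 * x 3 * x 5,
    1 - x 2 ^ 2 - x 4 ^ 2 - x 5 ^ 2 - 2 * x 2 * x 4 * x 5]

/-- off-diagonal cofactors of the Gram matrix; the cofactor of the faces opposite to `x` and `y` is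
numbered by the edge `xy` -/
def cf (x : V6) : V6 :=
  ![x 5 * (1 - x 0 ^ 2) + x 4 * x 2 + x 3 * x 1 + x 0 * (x 4 * x 1 + x 3 * x 2),
    x 4 * (1 - x 1 ^ 2) + x 5 * x 2 + x 3 * x 0 + x 1 * (x 5 * x 0 + x 3 * x 2),
    x 3 * (1 - x 2 ^ 2) + x 5 * x 1 + x 4 * x 0 + x 2 * (x 5 * x 0 + x 4 * x 1),
    x 2 * (1 - x 3 ^ 2) + x 5 * x 4 + x 1 * x 0 + x 3 * (x 5 * x 0 + x 4 * x 1),
    x 1 * (1 - x 4 ^ 2) + x 5 * x 3 + x 2 * x 0 + x 4 * (x 5 * x 0 + x 3 * x 2),
    x 0 * (1 - x 5 ^ 2) + x 4 * x 3 + x 2 * x 1 + x 5 * (x 4 * x 1 + x 3 * x 2)]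

/-- determinant of the Gram matrix of the face normals -/
def gd (x : V6) : ℝ :=
  1 - (x 0 ^ 2 + x 1 ^ 2 + x 2 ^ 2 + x 3 ^ 2 + x 4 ^ 2 + x 5 ^ 2)
    - 2 * (x 0 * x 1 * x 2 + x 0 * x 3 * x 4 + x 1 * x 3 * x 5 + x 2 * x 4 * x 5)
    + (x 0 * x 5) ^ 2 + (x 1 * x 4) ^ 2 + (x 2 * x 3) ^ 2
    - 2 * (x 0 * x 5 * (x 1 * x 4) + x 0 * x 5 * (x 2 * x 3) + x 1 * x 4 * (x 2 * x 3))

/-- cosines of an angle vector -/
noncomputable def cosv (t : V6) : V6 := fun e => Real.cos (t e)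

/-- edge lengths from the dihedral angles: `l_xy ∼ √(m_z m_w) sin θ_xy` -/
noncomputable def lam (t : V6) : V6 :=
  ![Real.sqrt (mi (cosv t) 2 * mi (cosv t) 3) * Real.sin (t 0),
    Real.sqrt (mi (cosv t) 1 * mi (cosv t) 3) * Real.sin (t 1),
    Real.sqrt (mi (cosv t) 1 * mi (cosv t) 2) * Real.sin (t 2),
    Real.sqrt (mi (cosv t) 0 * mi (cosv t) 3) * Real.sin (t 3),
    Real.sqrt (mi (cosv t) 0 * mi (cosv t) 2) * Real.sin (t 4),
    Real.sqrt (mi (cosv t) 0 * mi (cosv t) 1) * Real.sin (t 5)]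

/-- the open set of angle vectors with positive minors and cofactors -/
def PP : Set V6 :=
  {t | (∀ e, 0 < t e ∧ t e < π) ∧ (∀ v, 0 < mi (cosv t) v) ∧ ∀ e, 0 < cf (cosv t) e}

/-- solid angle denominators `D_v` (van Oosterom–Strackee) in terms of the edges `p, q, r` at the
vertex and the opposite edges `x` (opposite to `p`), `y`, `z` -/
noncomputable def Dd (p q r x y z : ℝ) : ℝ :=
  p * q * r + ((p ^ 2 + q ^ 2 - z ^ 2) * r + (q ^ 2 + r ^ 2 - x ^ 2) * p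
    + (r ^ 2 + p ^ 2 - y ^ 2) * q) / 2

/-- solid angle denominators at the four vertices -/
noncomputable def Dv (l : V6) : Fin 4 → ℝ :=
  ![Dd (l 0) (l 1) (l 2) (l 5) (l 4) (l 3), Dd (l 0) (l 3) (l 4) (l 5) (l 2) (l 1),
    Dd (l 1) (l 3) (l 5) (l 4) (l 2) (l 0), Dd (l 2) (l 4) (l 5) (l 3) (l 1) (l 0)]

end Pool.Agent.helper37.NP
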