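import Pool.Agent.helper37.NP.GMa

/-!
NP-G4 (GAr).  Countable unions of analytic arcs.

PROOFS.
* `Arcs.mono`, `Arcs.empty` trivial (constant curves).
* `Arcs.iUnion`: reindex `ℕ × ℕ` by `ℕ` (`Nat.unpair`).
* `Arcs.of_local`: the space is second countable (finite-dimensional), so countably many of the
  neighbourhoods `V x` cover `A` (`TopologicalSpace.countable_cover_nhdsWithin`), then `Arcs.iUnion`.
* `Arcs.of_param`: `K` has dimension `0` or `1`.  If `finrank K = 0`, the image is one point: constant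
  curve.  If `finrank K = 1`, there is `k` with `‖k‖ = 1` spanning `K`, and
  `ball y0 ε = {y0 + (t * ε) • k | t ∈ (-1, 1)}`; the curve is `t ↦ φ (y0 + (t * ε) • k)`.
* `Arcs.dimH_le`: `dimH_iUnion`, `ContDiffOn.dimH_image_le` (`Ioo (-1) 1` is convex), `dimH` of a
  subset of `ℝ` is at most `1`.
* `arcs_of_no_surface`: let `Z` be the zero set and `S = {x ∈ Z | ∀ V ∈ 𝓝 x, ¬ Arcs (Z ∩ V)}`.
  `Z \ S` satisfies `Arcs` by `of_local` (every `x ∈ Z \ S` has `V ∈ 𝓝 x` with `Arcs (Z ∩ V)`, and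
  `(Z \ S) ∩ V ⊆ Z ∩ V`).  If `S` is empty we are done.  Otherwise `local_structure` for `S` gives
  `x0, K, y0, ε, φ, V`.  `Arcs (S ∩ V)` is false, because `Z ∩ V ⊆ (Z \ S) ∪ (S ∩ V)` would then be
  a countable union of arcs, contradicting `x0 ∈ S`.  So `finrank K ≥ 2` (otherwise `of_param` and
  `mono`), and `hno` gives a contradiction.
-/

namespace Pool.Agent.helper37.NP

open Filter Topology ENNReal

/-- the set `A` is contained in a countable union of real-analytic arcs -/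
def Arcs {X : Type*} [NormedAddCommGroup X] [NormedSpace ℝ X] (A : Set X) : Prop :=
  ∃ γ : ℕ → ℝ → X, (∀ n, AnalyticOnNhd ℝ (γ n) (Set.Ioo (-1) 1)) ∧
    A ⊆ ⋃ n, γ n '' Set.Ioo (-1) 1

section
variable {X : Type*} [NormedAddCommGroup X] [NormedSpace ℝ X]

theorem Arcs.mono {A B : Set X} (h : Arcs B) (hAB : A ⊆ B) : Arcs A := by
  obtain ⟨γ, h1, h2⟩ := h
  exact ⟨γ, h1, hAB.trans h2⟩

theorem Arcs.empty : Arcs (∅ : Set X) :=
  ⟨fun _ _ => 0, fun _ => analyticOnNhd_const, Set.empty_subset _⟩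

theorem Arcs.iUnion {ι : Type*} [Countable ι] {A : ι → Set X} (h : ∀ i, Arcs (A i)) :
    Arcs (⋃ i, A i) := by
  rcases isEmpty_or_nonempty ι with hι | hι
  · rw [Set.iUnion_of_empty]
    exact Arcs.empty
  obtain ⟨e, he⟩ := exists_surjective_nat ι
  choose γ h1 h2 using h
  refine ⟨fun n => γ (e n.unpair.1) n.unpair.2, fun n => h1 _ _, ?_⟩
  intro x hx
  rw [Set.mem_iUnion] at hx
  obtain ⟨i, hi⟩ := hx
  obtain ⟨m, rfl⟩ := he i
  have h3 := h2 _ hi
  rw [Set.mem_iUnion] at h3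
  obtain ⟨k, hk⟩ := h3
  rw [Set.mem_iUnion]
  refine ⟨Nat.pair m k, ?_⟩
  simpa only [Nat.unpair_pair] using hk

theorem Arcs.union {A B : Set X} (hA : Arcs A) (hB : Arcs B) : Arcs (A ∪ B) := by
  rw [Set.union_eq_iUnion]
  refine Arcs.iUnion fun b => ?_
  cases b
  · exact hB
  · exact hA

theorem Arcs.of_local [SecondCountableTopology X] {A : Set X}
    (h : ∀ x ∈ A, ∃ V ∈ 𝓝 x, Arcs (A ∩ V)) : Arcs A := by
  classical
  have h' : ∀ x : X, ∃ V : Set X, x ∈ A → V ∈ 𝓝 x ∧ Arcs (A ∩ V) := by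
    intro x
    by_cases hx : x ∈ A
    · obtain ⟨V, h1, h2⟩ := h x hx
      exact ⟨V, fun _ => ⟨h1, h2⟩⟩
    · exact ⟨∅, fun h => absurd h hx⟩
  choose V hV using h'
  obtain ⟨t, ht, htc, hcov⟩ := TopologicalSpace.countable_cover_nhdsWithin (f := V) (s := A)
    fun x hx => mem_nhdsWithin_of_mem_nhds (hV x hx).1
  have := htc.to_subtype
  have h3 : Arcs (⋃ x : t, A ∩ V x) := Arcs.iUnion fun x => (hV x (ht x.2)).2
  refine h3.mono ?_
  intro x hx
  have h4 := hcov hx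
  rw [Set.mem_iUnion₂] at h4
  obtain ⟨y, hy, hxy⟩ := h4
  rw [Set.mem_iUnion]
  exact ⟨⟨y, hy⟩, hx, hxy⟩

theorem Arcs.of_param {K : Type*} [NormedAddCommGroup K] [NormedSpace ℝ K]
    [FiniteDimensional ℝ K] (hK : Module.finrank ℝ K ≤ 1) {φ : K → X} {y0 : K} {ε : ℝ}
    (hε : 0 < ε) (hφ : AnalyticOnNhd ℝ φ (Metric.ball y0 ε)) : Arcs (φ '' Metric.ball y0 ε) := by
  rcases Nat.le_one_iff_eq_zero_or_eq_one.1 hK with h0 | h1
  · have := Module.finrank_zero_iff.1 h0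
    refine ⟨fun _ _ => φ y0, fun _ => analyticOnNhd_const, ?_⟩
    rintro _ ⟨y, -, rfl⟩
    rw [Set.mem_iUnion]
    exact ⟨0, 0, by norm_num, by rw [Subsingleton.elim y y0]⟩
  · obtain ⟨v, hv, hspan⟩ := finrank_eq_one_iff'.1 h1
    have hv0 : 0 < ‖v‖ := norm_pos_iff.2 hv
    refine ⟨fun _ t => φ (y0 + (t * (ε / ‖v‖)) • v), fun _ => ?_, ?_⟩
    · have h2 : AnalyticOnNhd ℝ (fun t : ℝ => y0 + (t * (ε / ‖v‖)) • v) (Set.Ioo (-1) 1) := by
        refine analyticOnNhd_const.add ?_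
        exact (analyticOnNhd_id.mul analyticOnNhd_const).smul analyticOnNhd_const
      refine hφ.comp h2 ?_
      intro t ht
      rw [Metric.mem_ball, dist_eq_norm, add_sub_cancel_left, norm_smul, norm_mul, norm_div,
        norm_norm, Real.norm_of_nonneg hε.le, mul_assoc, div_mul_cancel₀ _ hv0.ne']
      have : ‖t‖ < 1 := by
        rw [Real.norm_eq_abs, abs_lt]
        exact ht
      nlinarith
    · rintro _ ⟨y, hy, rfl⟩
      obtain ⟨c, hc⟩ := hspan (y - y0)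
      rw [Set.mem_iUnion]
      refine ⟨0, c * (‖v‖ / ε), ?_, ?_⟩
      · rw [Metric.mem_ball, dist_eq_norm, ← hc, norm_smul, Real.norm_eq_abs] at hy
        have h3 : |c * (‖v‖ / ε)| < 1 := by
          rw [abs_mul, abs_of_pos (div_pos hv0 hε), ← mul_div_assoc, div_lt_one hε]
          exact hy
        exact abs_lt.1 h3
      · change φ (y0 + (c * (‖v‖ / ε) * (ε / ‖v‖)) • v) = φ y
        have h4 : c * (‖v‖ / ε) * (ε / ‖v‖) = c := by
          field_simp
        rw [h4, hc, add_sub_cancel]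

theorem Arcs.dimH_le {A : Set X} (h : Arcs A) : dimH A ≤ 1 := by
  obtain ⟨γ, h1, h2⟩ := h
  refine (dimH_mono h2).trans ?_
  rw [dimH_iUnion]
  refine iSup_le fun n => ?_
  have h3 : ContDiffOn ℝ 1 (γ n) (Set.Ioo (-1) 1) :=
    (h1 n).contDiffOn isOpen_Ioo.uniqueDiffOn
  refine (h3.dimH_image_le (convex_Ioo _ _) subset_rfl).trans ?_
  exact (dimH_mono (Set.subset_univ _)).trans Real.dimH_univ.le

theorem arcs_of_no_surface [FiniteDimensional ℝ X] {O : Set X} (hO : IsOpen O) {ι : Type*}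
    (f : ι → X → ℝ) (hf : ∀ i, AnalyticOnNhd ℝ (f i) O)
    (hno : ∀ (K : Submodule ℝ X) (y0 : K) (ε : ℝ) (φ : K → X), 2 ≤ Module.finrank ℝ K → 0 < ε →
      AnalyticOnNhd ℝ φ (Metric.ball y0 ε) →
      (∀ y ∈ Metric.ball y0 ε, Function.Injective (fderiv ℝ φ y) ∧ φ y ∈ O ∧
        ∀ i, f i (φ y) = 0) → False) :
    Arcs {x | x ∈ O ∧ ∀ i, f i x = 0} := by
  have : SecondCountableTopology X := by
    have : ProperSpace X := FiniteDimensional.proper_real X
    infer_instance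
  set Z : Set X := {x | x ∈ O ∧ ∀ i, f i x = 0} with hZ
  set S : Set X := {x | x ∈ Z ∧ ∀ V ∈ 𝓝 x, ¬ Arcs (Z ∩ V)} with hS
  have hSZ : S ⊆ Z := fun x hx => hx.1
  have hgood : Arcs (Z \ S) := by
    refine Arcs.of_local ?_
    rintro x ⟨hx, hxS⟩
    have : ∃ V ∈ 𝓝 x, Arcs (Z ∩ V) := by
      by_contra hcon
      push Not at hcon
      exact hxS ⟨hx, hcon⟩
    obtain ⟨V, hV, hV'⟩ := this
    exact ⟨V, hV, hV'.mono (Set.inter_subset_inter_left _ Set.sdiff_subset)⟩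
  rcases S.eq_empty_or_nonempty with hE | hne
  · rwa [hE, Set.sdiff_empty] at hgood
  · exfalso
    obtain ⟨x0, K, y0, ε, φ, V, hx0, hε, hV, hxV, hφ, hφ', hSV⟩ :=
      local_structure hO f hf S hne (fun x hx => (hSZ hx).1) (fun x hx => (hSZ hx).2)
    have hbad : ¬ Arcs (S ∩ V) := by
      intro h
      refine hx0.2 V (hV.mem_nhds hxV) ((hgood.union h).mono ?_)
      rintro x ⟨hx, hx'⟩
      by_cases hxS : x ∈ S
      · exact Or.inr ⟨hxS, hx'⟩
      · exact Or.inl ⟨hx, hxS⟩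
    have hK : 2 ≤ Module.finrank ℝ K := by
      by_contra hlt
      exact hbad ((Arcs.of_param (by omega) hε hφ).mono hSV)
    exact hno K y0 ε φ hK hε hφ hφ'

end

end Pool.Agent.helper37.NP
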