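import Mathlib

/-!
NP-G1 (GDe).  A family of analytic functions closed under directional derivatives and vanishing at
one point vanishes identically.

PROOF.  Let `F ∈ A`, `y ∈ N`, `v = y - y0`.  Put `F 0 = F`, `F (n+1) = fun y => fderiv ℝ (F n) y v`; all
`F n ∈ A`.  On the open interval-like set `J = {t : ℝ | y0 + t • v ∈ N}` (open, convex, contains `0` and
`1`) the functions `g n t = F n (y0 + t • v)` are analytic and `deriv (g n) t = g (n+1) t`, so
`iteratedDeriv n (g 0) t = g n t` on `J` (induction, `J` open), and `iteratedDeriv n (g 0) 0 = 0` for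
all `n` by `h0`.  By `AnalyticAt.hasFPowerSeriesAt` (coefficients `iteratedDeriv n g 0 / n!`) the power
series of `g 0` at `0` is zero, so `g 0` vanishes near `0`
(`HasFPowerSeriesAt.eventually_eq_zero` or similar), hence on `J` by
`AnalyticOnNhd.eqOn_zero_of_preconnected_of_eventuallyEq_zero`.  Take `t = 1`.
-/

namespace Pool.Agent.helper37.NP

open Filter Topology

theorem eq_zero_of_dderiv {K : Type*} [NormedAddCommGroup K] [NormedSpace ℝ K] (A : Set (K → ℝ))
    {N : Set K} (hN : IsOpen N) (hc : Convex ℝ N) (hA : ∀ F ∈ A, AnalyticOnNhd ℝ F N)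
    (hD : ∀ F ∈ A, ∀ v : K, (fun y => fderiv ℝ F y v) ∈ A) {y0 : K} (hy0 : y0 ∈ N)
    (h0 : ∀ F ∈ A, F y0 = 0) : ∀ F ∈ A, ∀ y ∈ N, F y = 0 := by
  intro F hF y hy
  set v : K := y - y0 with hv
  let Fs : ℕ → (K → ℝ) := fun n => Nat.rec F (fun _ G => fun y => fderiv ℝ G y v) n
  have hFs0 : Fs 0 = F := rfl
  have hFs1 : ∀ n, Fs (n + 1) = fun y => fderiv ℝ (Fs n) y v := fun n => rfl
  have hmem : ∀ n, Fs n ∈ A := by
    intro n
    induction n with
    | zero => exact hF
    | succ n ih => rw [hFs1]; exact hD _ ih v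
  let J : Set ℝ := {t : ℝ | y0 + t • v ∈ N}
  have hcont : Continuous (fun t : ℝ => y0 + t • v) := by fun_prop
  have hJo : IsOpen J := hN.preimage hcont
  have hJc : Convex ℝ J := by
    intro s hs t ht a b ha hb hab
    have h1 := hc hs ht ha hb hab
    show y0 + (a • s + b • t) • v ∈ N
    have h2 : a • (y0 + s • v) + b • (y0 + t • v) = y0 + (a • s + b • t) • v := by
      have h3 : a • y0 + b • y0 = y0 := by rw [← add_smul, hab, one_smul]
      calc a • (y0 + s • v) + b • (y0 + t • v)
          = (a • y0 + b • y0) + (a • s + b • t) • v := by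
            simp only [smul_add, add_smul, smul_eq_mul, mul_smul]
            abel
        _ = _ := by rw [h3]
    rw [← h2]
    exact h1
  have hJ0 : (0 : ℝ) ∈ J := by
    show y0 + (0 : ℝ) • v ∈ N
    simpa using hy0
  have hJ1 : (1 : ℝ) ∈ J := by
    show y0 + (1 : ℝ) • v ∈ N
    rw [one_smul, hv]
    simpa using hy
  let g : ℕ → ℝ → ℝ := fun n t => Fs n (y0 + t • v)
  have hlin : ∀ t : ℝ, AnalyticAt ℝ (fun t : ℝ => y0 + t • v) t := by
    intro t
    exact analyticAt_const.add (analyticAt_id.smul analyticAt_const)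
  have hga : ∀ n, AnalyticOnNhd ℝ (g n) J := by
    intro n t ht
    exact (hA _ (hmem n) _ ht).comp_of_eq (hlin t) rfl
  have hder : ∀ n, ∀ t ∈ J, HasDerivAt (g n) (g (n + 1) t) t := by
    intro n t ht
    have h1 : HasFDerivAt (Fs n) (fderiv ℝ (Fs n) (y0 + t • v)) (y0 + t • v) :=
      (hA _ (hmem n) _ ht).differentiableAt.hasFDerivAt
    have h2 : HasDerivAt (fun t : ℝ => y0 + t • v) v t := by
      simpa using ((hasDerivAt_id t).smul_const v).const_add y0
    exact h1.comp_hasDerivAt t h2
  have hit : ∀ n, ∀ t ∈ J, iteratedDeriv n (g 0) t = g n t := by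
    intro n
    induction n with
    | zero => intro t _; simp
    | succ n ih =>
      intro t ht
      rw [iteratedDeriv_succ]
      have h1 : iteratedDeriv n (g 0) =ᶠ[𝓝 t] g n := by
        filter_upwards [hJo.mem_nhds ht] with s hs using ih s hs
      rw [h1.deriv_eq]
      exact (hder n t ht).deriv
  have hz : ∀ᶠ t in 𝓝 (0 : ℝ), g 0 t = 0 := by
    have h1 := (hga 0 0 hJ0).hasFPowerSeriesAt
    have h2 : (FormalMultilinearSeries.ofScalars ℝ
        (fun n => iteratedDeriv n (g 0) 0 / (n.factorial : ℝ))) = 0 := by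
      ext n
      have h3 : iteratedDeriv n (g 0) 0 = 0 := by
        rw [hit n 0 hJ0]
        show Fs n (y0 + (0 : ℝ) • v) = 0
        simpa using h0 _ (hmem n)
      simp [FormalMultilinearSeries.ofScalars, h3]
    rw [h2] at h1
    exact h1.eventually_eq_zero
  have hfin := (hga 0).eqOn_zero_of_preconnected_of_eventuallyEq_zero hJc.isPreconnected hJ0 hz
  have h4 := hfin hJ1
  have h5 : g 0 1 = F y := by
    show F (y0 + (1 : ℝ) • v) = F y
    rw [one_smul, hv]
    congr 1
    abel
  rw [← h5]
  exact h4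

end Pool.Agent.helper37.NP
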