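import Mathlib

/-!
NP-G2 (GSt).  Straightening: the common zero set of `r` analytic functions with independent
differentials is locally a graph over the kernel of the differential.

PROOF.  Put `G x = (g i x)_i : X → (Fin r → ℝ)`, `G' = fderiv ℝ G x0`, `G' x i = fderiv ℝ (g i) x0 x`.
Since the `fderiv ℝ (g i) x0` are linearly independent functionals, `G'` is surjective (a functional
vanishing on the range of `G'` is a linear relation between them; use `Submodule.exists_le_ker_of_notMem`
or a dual basis argument).  `K = ker G'`; `K` has a complement, so there is a continuous linear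
`L : X → K` with `L k = k` for `k ∈ K` (finite dimension: `Submodule.exists_isCompl`,
`Submodule.linearProjOfIsCompl`, `LinearMap.toContinuousLinearMap`).  The map `Φ x = (G x, L x)` from `X`
to `(Fin r → ℝ) × K` has derivative `(G', L)` at `x0`, a linear isomorphism (injective: `G' v = 0` and
`L v = 0` give `v ∈ K`, `v = L v = 0`; surjective: given `(w, k)` take `v` with `G' v = w` and
`v + (k - L v)`).  `Φ` is `C^ω` at `x0` (`AnalyticAt.contDiffAt`, `ContDiffAt.prodMk`); let
`e = ContDiffAt.toOpenPartialHomeomorph Φ ..` and `h = e.symm`, which is `C^ω` at `Φ x0 = (0, L x0)` by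
`ContDiffAt.to_localInverse` (with `n = ω`), so analytic in a neighbourhood of `(0, L x0)`
(`ContDiffAt.analyticAt`, `AnalyticAt.eventually_analyticAt`).  The functionals `fderiv ℝ (g i) x` remain
linearly independent for `x` near `x0` (e.g. the determinant argument, or: `(fderiv G x, L)` stays
invertible, `ContinuousLinearEquiv.nhds`; an isomorphism has a surjective first component, so the
components are independent).
Choose an open set `A ∋ (0, L x0)` in `(Fin r → ℝ) × K` such that `A ⊆ e.target`, `h` is analytic on `A`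
and `h` maps `A` into the open set of the points `x ∈ O` at which all `g i` are analytic with
independent differentials; choose `ε > 0` such that `{0} × ball (L x0) ε ⊆ A`.  Put
`φ y = h (0, y)` and `V = {x ∈ e.source | e x ∈ A, L x ∈ ball (L x0) ε} ∩ (good points)`; note
`φ y ∈ V` for `y ∈ ball`.  All claims follow: `Φ (φ y) = (0, y)` gives `g i (φ y) = 0`,
`L (φ y) = y`, and differentiating `L (φ y) = y` gives injectivity of `fderiv ℝ φ y`; if `x ∈ V` and all
`g i x = 0`, then `e x = (0, L x)`, so `φ (L x) = h (e x) = x`.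
-/

namespace Pool.Agent.helper37.NP

open Filter Topology

private theorem GSt_surj {X : Type*} [NormedAddCommGroup X] [NormedSpace ℝ X]
    {r : ℕ} (f : Fin r → X →L[ℝ] ℝ) (hi : LinearIndependent ℝ f) :
    Function.Surjective (ContinuousLinearMap.pi f : X →L[ℝ] (Fin r → ℝ)) := by
  have h : Function.Injective (ContinuousLinearMap.pi f : X →L[ℝ] (Fin r → ℝ)).toLinearMap.dualMap := by
    rw [← LinearMap.ker_eq_bot, LinearMap.ker_eq_bot']
    intro φ hφ
    rw [Fintype.linearIndependent_iff] at hi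
    have h1 : ∑ i, φ (Pi.single i 1) • f i = 0 := by
      ext v
      have h2 := LinearMap.congr_fun hφ v
      rw [LinearMap.dualMap_apply] at h2
      have h3 : (ContinuousLinearMap.pi f : X →L[ℝ] (Fin r → ℝ)).toLinearMap v =
          ∑ i, f i v • (Pi.single i 1 : Fin r → ℝ) := by
        ext j
        simp [Finset.sum_apply, Pi.single_apply]
      rw [h3, map_sum] at h2
      simp only [map_smul, smul_eq_mul, LinearMap.zero_apply] at h2
      simp only [_root_.sum_apply, _root_.smul_apply, smul_eq_mul,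
        _root_.zero_apply]
      rw [← h2]
      exact Finset.sum_congr rfl fun i _ => mul_comm _ _
    have h2 := hi _ h1
    refine LinearMap.pi_ext' fun i => ?_
    ext
    simpa using h2 i
  exact LinearMap.dualMap_injective_iff.1 h

private theorem GSt_indep {X : Type*} [NormedAddCommGroup X] [NormedSpace ℝ X]
    {r : ℕ} (f : Fin r → X →L[ℝ] ℝ)
    (hs : Function.Surjective (ContinuousLinearMap.pi f : X →L[ℝ] (Fin r → ℝ))) :
    LinearIndependent ℝ f := by
  rw [Fintype.linearIndependent_iff]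
  intro c hc j
  obtain ⟨v, hv⟩ := hs (Pi.single j 1)
  have h1 := congrArg (fun φ : X →L[ℝ] ℝ => φ v) hc
  simp only [_root_.sum_apply, _root_.smul_apply, smul_eq_mul,
    _root_.zero_apply] at h1
  have h2 : ∀ i, f i v = (Pi.single j 1 : Fin r → ℝ) i := fun i => congrFun hv i
  simp_rw [h2] at h1
  simpa [Pi.single_apply] using h1

theorem straighten {X : Type*} [NormedAddCommGroup X] [NormedSpace ℝ X] [FiniteDimensional ℝ X]
    {r : ℕ} (g : Fin r → X → ℝ) (x0 : X) (hg : ∀ i, AnalyticAt ℝ (g i) x0) (h0 : ∀ i, g i x0 = 0)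
    (hi : LinearIndependent ℝ (fun i => fderiv ℝ (g i) x0)) {O : Set X} (hO : O ∈ 𝓝 x0) :
    ∃ (K : Submodule ℝ X) (L : X →L[ℝ] K) (ε : ℝ) (φ : K → X) (V : Set X),
      0 < ε ∧ IsOpen V ∧ x0 ∈ V ∧ V ⊆ O ∧
      (∀ x ∈ V, ∀ i, AnalyticAt ℝ (g i) x) ∧
      (∀ x ∈ V, LinearIndependent ℝ (fun i => fderiv ℝ (g i) x)) ∧
      (∀ x ∈ V, L x ∈ Metric.ball (L x0) ε) ∧
      AnalyticOnNhd ℝ φ (Metric.ball (L x0) ε) ∧
      (∀ y ∈ Metric.ball (L x0) ε, φ y ∈ V ∧ L (φ y) = y ∧ (∀ i, g i (φ y) = 0) ∧
        Function.Injective (fderiv ℝ φ y)) ∧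
      (∀ x ∈ V, (∀ i, g i x = 0) → φ (L x) = x) ∧
      Module.finrank ℝ K + r = Module.finrank ℝ X := by
  have hX : CompleteSpace X := FiniteDimensional.complete ℝ X
  set D : X → X →L[ℝ] (Fin r → ℝ) := fun x => ContinuousLinearMap.pi fun i => fderiv ℝ (g i) x
    with hD
  have hsurj : Function.Surjective (D x0) := GSt_surj _ hi
  set K : Submodule ℝ X := LinearMap.ker (D x0).toLinearMap with hK
  obtain ⟨L, hL⟩ := Submodule.ClosedComplemented.of_finiteDimensional K
  set G : X → Fin r → ℝ := fun x i => g i x with hG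
  set Φ : X → (Fin r → ℝ) × K := fun x => (G x, L x) with hΦ
  -- derivatives
  have hGan : ∀ x, (∀ i, AnalyticAt ℝ (g i) x) → AnalyticAt ℝ G x := fun x hx => AnalyticAt.pi hx
  have hΦan : ∀ x, (∀ i, AnalyticAt ℝ (g i) x) → AnalyticAt ℝ Φ x := fun x hx =>
    (hGan x hx).prod (L.analyticAt x)
  have hGd : ∀ x, (∀ i, AnalyticAt ℝ (g i) x) → HasStrictFDerivAt G (D x) x := fun x hx =>
    hasStrictFDerivAt_pi.2 fun i => (hx i).hasStrictFDerivAt
  have hΦd : ∀ x, (∀ i, AnalyticAt ℝ (g i) x) → HasStrictFDerivAt Φ ((D x).prod L) x :=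
    fun x hx => (hGd x hx).prodMk L.hasStrictFDerivAt
  -- the isomorphism at `x0`
  have hinj : Function.Injective ((D x0).prod L) := by
    rw [← ContinuousLinearMap.coe_coe, ← LinearMap.ker_eq_bot, LinearMap.ker_eq_bot']
    intro v hv
    have h1 : D x0 v = 0 := congrArg Prod.fst hv
    have h2 : L v = 0 := congrArg Prod.snd hv
    have h3 : v ∈ K := h1
    have h4 := hL ⟨v, h3⟩
    rw [h2] at h4
    exact (congrArg Subtype.val h4).symm
  have hsur : Function.Surjective ((D x0).prod L) := by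
    rintro ⟨w, k⟩
    obtain ⟨v, hv⟩ := hsurj w
    refine ⟨v + ((k - L v : K) : X), ?_⟩
    have h1 : D x0 ((k - L v : K) : X) = 0 := (k - L v).2
    have h2 : L ((k - L v : K) : X) = k - L v := hL _
    ext1
    · change D x0 (v + ((k - L v : K) : X)) = w
      rw [map_add, h1, add_zero, hv]
    · change L (v + ((k - L v : K) : X)) = k
      rw [map_add, h2]
      abel
  let e0 : X ≃L[ℝ] (Fin r → ℝ) × K :=
    (LinearEquiv.ofBijective ((D x0).prod L).toLinearMap ⟨hinj, hsur⟩).toContinuousLinearEquiv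
  have he0 : (e0 : X →L[ℝ] (Fin r → ℝ) × K) = (D x0).prod L := by
    ext v <;> rfl
  -- the good points
  have hgood : ∀ᶠ x in 𝓝 x0, (∀ i, AnalyticAt ℝ (g i) x) ∧
      (∃ i : X ≃L[ℝ] (Fin r → ℝ) × K, (i : X →L[ℝ] (Fin r → ℝ) × K) = (D x).prod L) ∧ x ∈ O := by
    refine (Filter.eventually_all.2 fun i => (hg i).eventually_analyticAt).and
      (Filter.Eventually.and ?_ hO)
    have hc : ContinuousAt (fun x => (D x).prod L) x0 := by
      have h2 : fderiv ℝ Φ =ᶠ[𝓝 x0] fun x => (D x).prod L := by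
        filter_upwards [Filter.eventually_all.2 fun i => (hg i).eventually_analyticAt] with x hx
        exact (hΦd x hx).hasFDerivAt.fderiv
      exact (hΦan x0 hg).fderiv.continuousAt.congr h2
    have h1 := e0.nhds
    rw [he0] at h1
    exact hc h1
  obtain ⟨W0, hW0, hW0o, hxW0⟩ := eventually_nhds_iff.1 hgood
  have hstr : HasStrictFDerivAt Φ (e0 : X →L[ℝ] (Fin r → ℝ) × K) x0 := by
    rw [he0]
    exact hΦd x0 hg
  set e := hstr.toOpenPartialHomeomorph Φ with he
  have hecoe : (e : X → (Fin r → ℝ) × K) = Φ := hstr.toOpenPartialHomeomorph_coe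
  have hxe : x0 ∈ e.source := hstr.mem_toOpenPartialHomeomorph_source
  set W := e.source ∩ W0 with hW
  have hWo : IsOpen W := e.open_source.inter hW0o
  have hxW : x0 ∈ W := ⟨hxe, hxW0⟩
  have heW : IsOpen (e '' W) := e.isOpen_image_of_subset_source hWo Set.inter_subset_left
  have hΦ0 : Φ x0 = (0, L x0) := by
    ext1
    · funext i
      exact h0 i
    · rfl
  have hmem : ((0 : Fin r → ℝ), L x0) ∈ e '' W := by
    rw [← hΦ0, ← hecoe]
    exact ⟨x0, hxW, rfl⟩
  obtain ⟨ε, hε, hball⟩ := Metric.isOpen_iff.1 heW _ hmem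
  have hy : ∀ y ∈ Metric.ball (L x0) ε, ((0 : Fin r → ℝ), y) ∈ e '' W := by
    intro y hy
    apply hball
    rw [Metric.mem_ball, Prod.dist_eq, dist_self, max_eq_right dist_nonneg]
    exact hy
  set φ : K → X := fun y => e.symm ((0 : Fin r → ℝ), y) with hφ
  have hφW : ∀ y ∈ Metric.ball (L x0) ε, φ y ∈ W ∧ Φ (φ y) = (0, y) := by
    intro y hyb
    obtain ⟨x, hx, hxy⟩ := hy y hyb
    have h1 : φ y = x := by
      rw [hφ]
      change e.symm ((0 : Fin r → ℝ), y) = x
      rw [← hxy]
      exact e.left_inv hx.1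
    rw [h1]
    exact ⟨hx, by rw [← hecoe]; exact hxy⟩
  have hLφ : ∀ y ∈ Metric.ball (L x0) ε, L (φ y) = y := fun y hyb =>
    congrArg Prod.snd (hφW y hyb).2
  have hφan : AnalyticOnNhd ℝ φ (Metric.ball (L x0) ε) := by
    intro y hyb
    obtain ⟨h1, h2⟩ := hφW y hyb
    obtain ⟨h3, ⟨i, hi'⟩, -⟩ := hW0 _ h1.2
    have h4 : AnalyticAt ℝ e (φ y) := by
      rw [hecoe]
      exact hΦan _ h3
    have h5 : fderiv ℝ e (φ y) = i := by
      rw [hecoe, hi']
      exact (hΦd _ h3).hasFDerivAt.fderiv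
    have h6 := e.analyticAt_symm' h1.1 h4 h5
    rw [hecoe, h2] at h6
    exact h6.comp_of_eq (analyticAt_const.prod analyticAt_id) rfl
  refine ⟨K, L, ε, φ, W ∩ L ⁻¹' Metric.ball (L x0) ε, hε,
    hWo.inter (Metric.isOpen_ball.preimage L.continuous), ⟨hxW, Metric.mem_ball_self hε⟩,
    fun x hx => (hW0 _ hx.1.2).2.2, fun x hx => (hW0 _ hx.1.2).1, ?_, fun x hx => hx.2, hφan,
    ?_, ?_, ?_⟩
  · intro x hx
    obtain ⟨-, ⟨i, hi'⟩, -⟩ := hW0 _ hx.1.2
    apply GSt_indep
    intro w
    obtain ⟨v, hv⟩ := i.surjective (w, 0)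
    refine ⟨v, ?_⟩
    have h1 : ((D x).prod L) v = (w, 0) := by
      rw [← hi']
      exact hv
    exact congrArg Prod.fst h1
  · intro y hyb
    obtain ⟨h1, h2⟩ := hφW y hyb
    refine ⟨⟨h1, ?_⟩, hLφ y hyb, fun i => congrFun (congrArg Prod.fst h2) i, ?_⟩
    · rw [Set.mem_preimage, hLφ y hyb]
      exact hyb
    · have h3 : (fun z => L (φ z)) =ᶠ[𝓝 y] fun z => z := by
        filter_upwards [Metric.isOpen_ball.mem_nhds hyb] with z hz
        exact hLφ z hz
      have h4 := (L.hasFDerivAt.comp y (hφan y hyb).differentiableAt.hasFDerivAt)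
      have h5 : HasFDerivAt (fun z : K => z) (ContinuousLinearMap.id ℝ K) y := hasFDerivAt_id y
      have h6 := (h5.congr_of_eventuallyEq h3).unique h4
      intro a b' hab
      have h7 := congrArg (fun F : K →L[ℝ] K => F a) h6
      have h8 := congrArg (fun F : K →L[ℝ] K => F b') h6
      simp only [ContinuousLinearMap.coe_id', id_eq, ContinuousLinearMap.comp_apply] at h7 h8
      rw [h7, h8, hab]
  · intro x hx hgx
    have h1 : Φ x = (0, L x) := by
      ext1
      · funext i
        exact hgx i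
      · rfl
    change e.symm ((0 : Fin r → ℝ), L x) = x
    rw [← h1, ← hecoe]
    exact e.left_inv hx.1.1
  · have h1 := LinearMap.finrank_range_add_finrank_ker (D x0).toLinearMap
    have h2 : LinearMap.range (D x0).toLinearMap = ⊤ := LinearMap.range_eq_top.2 hsurj
    rw [h2, finrank_top, Module.finrank_fin_fun] at h1
    rw [add_comm]
    exact h1

end Pool.Agent.helper37.NP
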