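import Pool.Agent.helper37.NP.GDe
import Pool.Agent.helper37.NP.GSt

/-!
NP-G3 (GMa).  Local structure of a subset of an analytic set.

`X` is a finite-dimensional space, `f i` analytic on the open set `O`, `S ⊆ O` a nonempty subset of
the common zero set.  Then some nonempty relatively open piece of `S` is contained in an analytically
parametrised piece of a manifold contained in the common zero set.

PROOF.  For `r : ℕ` let `Ind r` be the statement: there are `x ∈ S` and `g : Fin r → X → ℝ`, every `g i`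
analytic at `x` and zero on `S` near `x` (`∀ᶠ y in 𝓝[S] x, g i y = 0`), with
`LinearIndependent ℝ (fun i => fderiv ℝ (g i) x)`.  `Ind 0` holds and `Ind r` implies
`r ≤ finrank (X →L[ℝ] ℝ)`.  Let `r` be maximal with `Ind r` (`Nat.findGreatest`, or well-foundedness)
and take `x0, g`.  Apply `straighten` with a neighbourhood `O'` of `x0`, `O' ⊆ O`, such that all
`g i` vanish on `S ∩ O'`.  We get `K, L, ε, φ, V`, put `N = ball (L x0) ε`.
* `S ∩ V ⊆ φ '' N`: for `x ∈ S ∩ V` all `g i x = 0`, so `x = φ (L x)`.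
* Let `A` be the set of `F : K → ℝ`, analytic on `N`, vanishing on `Y = {y ∈ N | φ y ∈ S}`.
  `L x0 ∈ Y` as `φ (L x0) = x0`.  Claim: `A` is closed under directional derivatives.  Let `F ∈ A`,
  `v : K`, `y ∈ Y`, `x = φ y ∈ S ∩ V`, and suppose `fderiv ℝ F y v ≠ 0`.  The function
  `f' = F ∘ L` is analytic at `x` (`L x = y ∈ N`) and vanishes on `S ∩ V`
  (for `x' ∈ S ∩ V`: `L x' ∈ N`, `φ (L x') = x' ∈ S`, so `L x' ∈ Y`).  The `r + 1` functions
  `g 0, .., g (r-1), f'` (`Fin.snoc` or `Fin.cons`) are analytic at `x`, vanish on `S` near `x`, and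
  their differentials at `x` are independent: apply a relation `∑ a i dg i + b df' = 0` to
  `w = fderiv ℝ φ y v`: `dg i (w) = 0` (as `g i ∘ φ = 0` on `N`) and
  `df' (w) = fderiv ℝ F y (L w) = fderiv ℝ F y v ≠ 0` (as `L ∘ φ = id` on `N`), so `b = 0`, and
  `a = 0` by independence at `x ∈ V`.  So `Ind (r+1)`, contradiction.
* `eq_zero_of_dderiv` (`N` is a ball, so convex): all `F ∈ A` vanish on `N`.  Apply to
  `F = f i ∘ φ` (analytic on `N`, as `φ` maps `N` into `V ⊆ O`, and zero on `Y`).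
-/

namespace Pool.Agent.helper37.NP

open Filter Topology

private def Ind {X : Type*} [NormedAddCommGroup X] [NormedSpace ℝ X] (S : Set X) (r : ℕ) : Prop :=
  ∃ x ∈ S, ∃ g : Fin r → X → ℝ, (∀ i, AnalyticAt ℝ (g i) x) ∧
    (∀ i, ∀ᶠ y in 𝓝[S] x, g i y = 0) ∧ LinearIndependent ℝ (fun i => fderiv ℝ (g i) x)

private theorem ind_zero {X : Type*} [NormedAddCommGroup X] [NormedSpace ℝ X] {S : Set X}
    (hS : S.Nonempty) : Ind S 0 := by
  obtain ⟨x, hx⟩ := hS
  refine ⟨x, hx, fun i => i.elim0, fun i => i.elim0, fun i => i.elim0, ?_⟩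
  exact linearIndependent_empty_type

private theorem ind_le {X : Type*} [NormedAddCommGroup X] [NormedSpace ℝ X]
    [FiniteDimensional ℝ X] {S : Set X} {r : ℕ} (h : Ind S r) :
    r ≤ Module.finrank ℝ (X →L[ℝ] ℝ) := by
  obtain ⟨x, _, g, _, _, hl⟩ := h
  have := hl.fintype_card_le_finrank
  simpa using this

private theorem exists_max {X : Type*} [NormedAddCommGroup X] [NormedSpace ℝ X]
    [FiniteDimensional ℝ X] {S : Set X} (hS : S.Nonempty) :
    ∃ r, Ind S r ∧ ¬ Ind S (r + 1) := by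
  classical
  set n := Module.finrank ℝ (X →L[ℝ] ℝ)
  refine ⟨Nat.findGreatest (Ind S) n, Nat.findGreatest_spec (Nat.zero_le n) (ind_zero hS), ?_⟩
  intro h
  exact Nat.findGreatest_is_greatest (Nat.lt_succ_self _) (ind_le h) h

theorem local_structure {X : Type*} [NormedAddCommGroup X] [NormedSpace ℝ X]
    [FiniteDimensional ℝ X] {O : Set X} (hO : IsOpen O) {ι : Type*} (f : ι → X → ℝ)
    (hf : ∀ i, AnalyticOnNhd ℝ (f i) O) (S : Set X) (hS : S.Nonempty) (hSO : S ⊆ O)
    (hSf : ∀ x ∈ S, ∀ i, f i x = 0) :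
    ∃ (x0 : X) (K : Submodule ℝ X) (y0 : K) (ε : ℝ) (φ : K → X) (V : Set X),
      x0 ∈ S ∧ 0 < ε ∧ IsOpen V ∧ x0 ∈ V ∧ AnalyticOnNhd ℝ φ (Metric.ball y0 ε) ∧
      (∀ y ∈ Metric.ball y0 ε, Function.Injective (fderiv ℝ φ y) ∧ φ y ∈ O ∧
        ∀ i, f i (φ y) = 0) ∧
      S ∩ V ⊆ φ '' Metric.ball y0 ε := by
  obtain ⟨r, ⟨x0, hx0, g, hg, hgS, hgi⟩, hmax⟩ := exists_max hS
  have hgS' : ∀ᶠ y in 𝓝 x0, y ∈ S → ∀ i, g i y = 0 := by
    have : ∀ᶠ y in 𝓝[S] x0, ∀ i, g i y = 0 := eventually_all.2 hgS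
    exact eventually_nhdsWithin_iff.1 this
  have hg0 : ∀ i, g i x0 = 0 := hgS'.self_of_nhds hx0
  have hO' : {y | y ∈ S → ∀ i, g i y = 0} ∩ O ∈ 𝓝 x0 :=
    inter_mem hgS' (hO.mem_nhds (hSO hx0))
  obtain ⟨K, L, ε, φ, V, hε, hV, hx0V, hVO, hVan, hVli, hVL, hφ, hφy, hφL, -⟩ :=
    straighten g x0 hg hg0 hgi hO'
  have hSV : ∀ x ∈ S ∩ V, (∀ i, g i x = 0) ∧ L x ∈ Metric.ball (L x0) ε ∧ φ (L x) = x := by
    intro x hx
    have h1 : ∀ i, g i x = 0 := (hVO hx.2).1 hx.1
    exact ⟨h1, hVL x hx.2, hφL x hx.2 h1⟩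
  have hA := eq_zero_of_dderiv
    {F : K → ℝ | AnalyticOnNhd ℝ F (Metric.ball (L x0) ε) ∧
      ∀ y ∈ Metric.ball (L x0) ε, φ y ∈ S → F y = 0}
    Metric.isOpen_ball (convex_ball (L x0) ε) (fun F hF => hF.1) ?_
    (Metric.mem_ball_self hε) ?_
  · refine ⟨x0, K, L x0, ε, φ, V, hx0, hε, hV, hx0V, hφ, ?_, ?_⟩
    · intro y hy
      obtain ⟨h1, _, _, h4⟩ := hφy y hy
      refine ⟨h4, (hVO h1).2, fun i => ?_⟩
      refine hA (fun y => f i (φ y)) ⟨?_, ?_⟩ y hy
      · exact (hf i).comp hφ (fun z hz => (hVO (hφy z hz).1).2)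
      · intro z _ hz
        exact hSf _ hz i
    · intro x hx
      obtain ⟨_, h2, h3⟩ := hSV x hx
      exact ⟨L x, h2, h3⟩
  · intro F hF v
    refine ⟨?_, ?_⟩
    · intro z hz
      exact ((ContinuousLinearMap.apply ℝ ℝ v).analyticAt _).fun_comp (hF.1.fderiv z hz)
    · intro y hy hyS
      by_contra hne
      apply hmax
      obtain ⟨hyV, hLy, hgy, _⟩ := hφy y hy
      have hφd : HasFDerivAt φ (fderiv ℝ φ y) y := ((hφ y hy).differentiableAt).hasFDerivAt
      have hN : Metric.ball (L x0) ε ∈ 𝓝 y := Metric.isOpen_ball.mem_nhds hy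
      have hFL : AnalyticAt ℝ (fun x => F (L x)) (φ y) := by
        refine AnalyticAt.fun_comp ?_ (L.analyticAt (φ y))
        rw [hLy]
        exact hF.1 y hy
      refine ⟨φ y, hyS, Fin.cons (fun x => F (L x)) g, ?_, ?_, ?_⟩
      · intro i
        refine Fin.cases ?_ (fun j => ?_) i
        · simpa using hFL
        · simpa using hVan (φ y) hyV j
      · intro i
        have hev : ∀ᶠ x in 𝓝[S] (φ y), x ∈ S ∩ V :=
          inter_mem self_mem_nhdsWithin (mem_nhdsWithin_of_mem_nhds (hV.mem_nhds hyV))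
        filter_upwards [hev] with x hx
        obtain ⟨h1, h2, h3⟩ := hSV x hx
        refine Fin.cases ?_ (fun j => ?_) i
        · simpa using hF.2 (L x) h2 (by rw [h3]; exact hx.1)
        · simpa using h1 j
      · have heq : (fun i => fderiv ℝ ((Fin.cons (fun x => F (L x)) g : Fin (r + 1) → X → ℝ) i)
            (φ y)) = Fin.cons (fderiv ℝ (fun x => F (L x)) (φ y))
              (fun i => fderiv ℝ (g i) (φ y)) := by
          funext i
          refine Fin.cases ?_ (fun j => ?_) i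
          · simp
          · simp
        rw [heq, linearIndependent_finCons]
        refine ⟨hVli (φ y) hyV, fun hmem => hne ?_⟩
        have hker : Submodule.span ℝ (Set.range (fun i => fderiv ℝ (g i) (φ y))) ≤
            LinearMap.ker (ContinuousLinearMap.apply ℝ ℝ (fderiv ℝ φ y v)).toLinearMap := by
          rw [Submodule.span_le]
          rintro _ ⟨i, rfl⟩
          simp only [SetLike.mem_coe, LinearMap.mem_ker]
          have h1 : HasFDerivAt (fun z => g i (φ z)) ((fderiv ℝ (g i) (φ y)).comp (fderiv ℝ φ y)) y :=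
            ((hVan (φ y) hyV i).differentiableAt.hasFDerivAt).comp y hφd
          have h2 : HasFDerivAt (fun z => g i (φ z)) (0 : K →L[ℝ] ℝ) y := by
            refine (hasFDerivAt_const (0 : ℝ) y).congr_of_eventuallyEq ?_
            filter_upwards [hN] with z hz
            exact (hφy z hz).2.2.1 i
          have h3 := h1.unique h2
          have h4 := congrArg (fun T : K →L[ℝ] ℝ => T v) h3
          simpa using h4
        have h5 := hker hmem
        simp only [LinearMap.mem_ker] at h5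
        have h6 : HasFDerivAt (fun x => F (L x)) ((fderiv ℝ F y).comp L) (φ y) := by
          have h7 : HasFDerivAt F (fderiv ℝ F y) (L (φ y)) := by
            rw [hLy]
            exact (hF.1 y hy).differentiableAt.hasFDerivAt
          exact h7.comp (φ y) L.hasFDerivAt
        have h8 : HasFDerivAt (fun z => L (φ z)) (L.comp (fderiv ℝ φ y)) y :=
          L.hasFDerivAt.comp y hφd
        have h9 : HasFDerivAt (fun z => L (φ z)) (ContinuousLinearMap.id ℝ K) y := by
          refine (hasFDerivAt_id y).congr_of_eventuallyEq ?_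
          filter_upwards [hN] with z hz
          exact (hφy z hz).2.1
        have h10 := congrArg (fun T : K →L[ℝ] K => T v) (h8.unique h9)
        rw [h6.fderiv] at h5
        simp only [ContinuousLinearMap.coe_comp, Function.comp_apply,
          ContinuousLinearMap.coe_id', id_eq] at h10
        simpa [h10] using h5
  · intro F hF
    obtain ⟨_, h2, h3⟩ := hSV x0 ⟨hx0, hx0V⟩
    exact hF.2 (L x0) h2 (by rw [h3]; exact hx0)

end Pool.Agent.helper37.NP
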