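import Mathlib

/-!
NP-H1 (HAf).  Analytic functions which are algebraic over `ℚ[u_b]`, and their closure properties.

`B` is a finite type, `N ⊆ (B → ℝ)` a convex open set containing a point `u0` whose coordinates are
algebraically independent over `ℚ`.  `AF N F` says that the complex valued function `F` is
real-analytic on `N` and satisfies a nontrivial polynomial equation with coefficients in `ℚ[u_b]`.

PROOFS.  Let `D` be the subring of `N → ℂ` (functions on the subtype) of all `F` which are restrictions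
of functions analytic on (a neighbourhood of every point of) `N`.  `D` is a domain: if `F G = 0` and
`F x ≠ 0` for some `x ∈ N`, then `F ≠ 0` near `x`, so `G = 0` near `x`, so `G = 0` on `N` by
`AnalyticOnNhd.eqOn_zero_of_preconnected_of_eventuallyEq_zero` (`N` is convex, so preconnected).  The
ring homomorphism `MvPolynomial B ℚ →+* D`, `p ↦ (u ↦ aeval (fun b => (u b : ℂ)) p)` is injective: if the
image of `p` is zero, then `aeval u0 p = 0`, so `p = 0` by algebraic independence.  Make `D` an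
algebra over `R = MvPolynomial B ℚ` by it.  Then `AF N F` iff `F` is analytic on `N` and its restriction
is `IsAlgebraic R` in `D`.  Therefore `add, mul, neg, sub` are `IsAlgebraic.add, mul, neg, sub`
(algebras over a domain which are domains), `of_sq` is `IsAlgebraic.of_pow` (or substitute `T ^ 2`
in the polynomial), `const` is the image of the minimal polynomial, `coord` is `T - u_b`.  `inv`: if
`P (F) = 0`, then the reversed polynomial kills `F⁻¹` (`Polynomial.eval₂_reverse_eq_zero_iff` or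
`IsAlgebraic.inv` in the fraction field of `D`).
`eq_zero`: let `F ≠ 0` in `D`.  By `IsAlgebraic.exists_nonzero_coeff_and_aeval_eq_zero` there is a
polynomial `q` over `R` with `q.coeff 0 ≠ 0` and `q (F) = 0`.  At `u0`: `F u0 = 0` gives
`aeval u0 (q.coeff 0) = 0`, contradicting the algebraic independence.
-/

namespace Pool.Agent.helper37.NP

/-- value of a polynomial over `ℚ[u_b]` at the point `u` and the number `z` -/
noncomputable def pe {B : Type} (P : Polynomial (MvPolynomial B ℚ)) (u : B → ℝ) (z : ℂ) : ℂ :=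
  Polynomial.eval₂ (MvPolynomial.aeval (fun b => (u b : ℂ)) : MvPolynomial B ℚ →ₐ[ℚ] ℂ).toRingHom
    z P

/-- analytic on `N` and algebraic over `ℚ[u_b]` -/
def AF {B : Type} [Fintype B] (N : Set (B → ℝ)) (F : (B → ℝ) → ℂ) : Prop :=
  AnalyticOnNhd ℝ F N ∧ ∃ P : Polynomial (MvPolynomial B ℚ), P ≠ 0 ∧ ∀ u ∈ N, pe P u (F u) = 0

/-- a convex open set with a generic point -/
structure Gen {B : Type} [Fintype B] (N : Set (B → ℝ)) (u0 : B → ℝ) : Prop where
  isOpen : IsOpen N
  convex : Convex ℝ N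
  mem : u0 ∈ N
  gen : AlgebraicIndependent ℚ u0

/-- evaluation of polynomials on `N` as a ring homomorphism -/
private noncomputable def phi {B : Type} (N : Set (B → ℝ)) : MvPolynomial B ℚ →+* (N → ℂ) :=
  RingHom.pi (fun x : N =>
    (MvPolynomial.aeval (fun b => ((x : B → ℝ) b : ℂ)) : MvPolynomial B ℚ →ₐ[ℚ] ℂ).toRingHom)

private theorem eval₂_phi {B : Type} (N : Set (B → ℝ)) (f : N → ℂ)
    (P : Polynomial (MvPolynomial B ℚ)) (x : N) :
    Polynomial.eval₂ (phi N) f P x = pe P x (f x) := by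
  have h := Polynomial.hom_eval₂ P (phi N) (Pi.evalRingHom (fun _ : N => ℂ) x) f
  exact h

private theorem AF_iff {B : Type} [Fintype B] (N : Set (B → ℝ)) (F : (B → ℝ) → ℂ) :
    AF N F ↔ AnalyticOnNhd ℝ F N ∧
      @IsAlgebraic (MvPolynomial B ℚ) (N → ℂ) _ _ (phi N).toAlgebra (fun x : N => F x) := by
  let _ := (phi N).toAlgebra
  constructor
  · rintro ⟨h, P, hP, hu⟩
    refine ⟨h, P, hP, ?_⟩
    funext x
    have := eval₂_phi N (fun x : N => F x) P x
    exact this.trans (hu x x.2)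
  · rintro ⟨h, P, hP, hu⟩
    refine ⟨h, P, hP, fun u hu' => ?_⟩
    have := eval₂_phi N (fun x : N => F x) P ⟨u, hu'⟩
    exact this.symm.trans (congrFun hu ⟨u, hu'⟩)

section
variable {B : Type} [Fintype B] {N : Set (B → ℝ)} {u0 : B → ℝ} {F G : (B → ℝ) → ℂ}

theorem AF.add (hN : Gen N u0) (hF : AF N F) (hG : AF N G) : AF N (fun u => F u + G u) := by
  have _ := hN
  let _ := (phi N).toAlgebra
  rw [AF_iff] at *
  exact ⟨hF.1.add hG.1, hF.2.add hG.2⟩

theorem AF.mul (hN : Gen N u0) (hF : AF N F) (hG : AF N G) : AF N (fun u => F u * G u) := by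
  have _ := hN
  let _ := (phi N).toAlgebra
  rw [AF_iff] at *
  exact ⟨hF.1.mul hG.1, hF.2.mul hG.2⟩

theorem AF.neg (hN : Gen N u0) (hF : AF N F) : AF N (fun u => - F u) := by
  have _ := hN
  let _ := (phi N).toAlgebra
  rw [AF_iff] at *
  exact ⟨hF.1.neg, hF.2.neg⟩

theorem AF.sub (hN : Gen N u0) (hF : AF N F) (hG : AF N G) : AF N (fun u => F u - G u) := by
  have _ := hN
  let _ := (phi N).toAlgebra
  rw [AF_iff] at *
  exact ⟨hF.1.sub hG.1, hF.2.sub hG.2⟩

theorem AF.inv (hN : Gen N u0) (hF : AF N F) (h0 : ∀ u ∈ N, F u ≠ 0) :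
    AF N (fun u => (F u)⁻¹) := by
  have _ := hN
  obtain ⟨h, P, hP, hu⟩ := hF
  refine ⟨h.inv h0, P.reverse, by simpa using hP, fun u hu' => ?_⟩
  let _ := invertibleOfNonzero (h0 u hu')
  have h1 := (Polynomial.eval₂_reverse_eq_zero_iff
    (MvPolynomial.aeval (fun b => (u b : ℂ)) : MvPolynomial B ℚ →ₐ[ℚ] ℂ).toRingHom
    (F u) P).2 (hu u hu')
  rw [invOf_eq_inv] at h1
  exact h1

theorem AF.const (hN : Gen N u0) {z : ℂ} (hz : IsAlgebraic ℚ z) : AF N (fun _ => z) := by
  have _ := hN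
  obtain ⟨p, hp, hz⟩ := hz
  refine ⟨analyticOnNhd_const, p.map MvPolynomial.C, ?_, fun u _ => ?_⟩
  · exact (Polynomial.map_ne_zero_iff (MvPolynomial.C_injective B ℚ)).2 hp
  · have h1 : ((MvPolynomial.aeval (fun b => (u b : ℂ)) :
        MvPolynomial B ℚ →ₐ[ℚ] ℂ).toRingHom).comp (MvPolynomial.C : ℚ →+* MvPolynomial B ℚ)
        = algebraMap ℚ ℂ := Subsingleton.elim _ _
    unfold pe
    rw [Polynomial.eval₂_map, h1]
    exact hz

theorem AF.coord (hN : Gen N u0) (b : B) : AF N (fun u => (u b : ℂ)) := by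
  have _ := hN
  refine ⟨?_, Polynomial.X - Polynomial.C (MvPolynomial.X b), Polynomial.X_sub_C_ne_zero _,
    fun u _ => ?_⟩
  · intro x _
    have h1 : AnalyticAt ℝ (fun u : B → ℝ => u b) x :=
      (ContinuousLinearMap.proj (R := ℝ) (φ := fun _ : B => ℝ) b).analyticAt x
    have h2 : AnalyticAt ℝ (fun t : ℝ => (t : ℂ)) (x b) := Complex.ofRealCLM.analyticAt _
    exact AnalyticAt.comp (g := fun t : ℝ => (t : ℂ)) (f := fun u : B → ℝ => u b) h2 h1
  · simp [pe]

theorem AF.pow (hN : Gen N u0) (hF : AF N F) (n : ℕ) : AF N (fun u => F u ^ n) := by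
  have _ := hN
  let _ := (phi N).toAlgebra
  rw [AF_iff] at *
  exact ⟨hF.1.pow n, hF.2.pow n⟩

theorem AF.of_sq (hN : Gen N u0) (hF : AnalyticOnNhd ℝ F N) (h : AF N (fun u => F u ^ 2)) :
    AF N F := by
  have _ := hN
  let _ := (phi N).toAlgebra
  rw [AF_iff] at *
  exact ⟨hF, IsAlgebraic.of_pow (n := 2) (by norm_num) h.2⟩

theorem AF.mono {N' : Set (B → ℝ)} (hF : AF N F) (h : N' ⊆ N) : AF N' F := by
  obtain ⟨h1, P, hP, hu⟩ := hF
  exact ⟨h1.mono h, P, hP, fun u hu' => hu u (h hu')⟩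

theorem AF.congr (hF : AF N F) (h : ∀ u ∈ N, F u = G u) (hN : IsOpen N) : AF N G := by
  obtain ⟨h1, P, hP, hu⟩ := hF
  exact ⟨h1.congr hN h, P, hP, fun u hu' => by rw [← h u hu']; exact hu u hu'⟩

/-- an algebraic analytic function which vanishes at the generic point vanishes identically -/
theorem AF.eq_zero (hN : Gen N u0) (hF : AF N F) (h0 : F u0 = 0) : ∀ u ∈ N, F u = 0 := by
  obtain ⟨hA, P, hP, hPu⟩ := hF
  by_contra hne
  push Not at hne
  obtain ⟨x, hx, hxne⟩ := hne
  -- split off the power of `T`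
  obtain ⟨Q, hPQ, hQ⟩ := Polynomial.exists_eq_pow_rootMultiplicity_mul_and_not_dvd P hP 0
  rw [Polynomial.C_0, sub_zero] at hPQ hQ
  rw [Polynomial.X_dvd_iff] at hQ
  set m := Polynomial.rootMultiplicity 0 P
  have hQA : AnalyticOnNhd ℝ (fun u => pe Q u (F u)) N := by
    unfold pe
    have : (fun u : B → ℝ => Polynomial.eval₂
        (MvPolynomial.aeval (fun b => (u b : ℂ)) : MvPolynomial B ℚ →ₐ[ℚ] ℂ).toRingHom (F u) Q)
        = fun u => ∑ i ∈ Finset.range (Q.natDegree + 1),
          (MvPolynomial.aeval (fun b => (u b : ℂ)) (Q.coeff i) : ℂ) * F u ^ i := by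
      funext u
      rw [Polynomial.eval₂_eq_sum_range]
      rfl
    rw [this]
    refine Finset.analyticOnNhd_fun_sum _ (fun i _ => ?_)
    refine AnalyticOnNhd.mul ?_ (hA.pow i)
    refine AnalyticOnNhd.aeval_mvPolynomial (fun b => ?_) _
    intro y _
    have h1 : AnalyticAt ℝ (fun u : B → ℝ => u b) y :=
      (ContinuousLinearMap.proj (R := ℝ) (φ := fun _ : B => ℝ) b).analyticAt y
    have h2 : AnalyticAt ℝ (fun t : ℝ => (t : ℂ)) (y b) := Complex.ofRealCLM.analyticAt _
    exact AnalyticAt.comp (g := fun t : ℝ => (t : ℂ)) (f := fun u : B → ℝ => u b) h2 h1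
  have hmul : ∀ u ∈ N, F u ^ m * pe Q u (F u) = 0 := by
    intro u hu
    have := hPu u hu
    rw [hPQ] at this
    unfold pe at this ⊢
    rw [Polynomial.eval₂_mul, Polynomial.eval₂_pow, Polynomial.eval₂_X] at this
    exact this
  have hev : (fun u => pe Q u (F u)) =ᶠ[nhds x] 0 := by
    have h1 : ∀ᶠ u in nhds x, F u ≠ 0 := (hA x hx).continuousAt.eventually_ne hxne
    have h2 : ∀ᶠ u in nhds x, u ∈ N := hN.isOpen.mem_nhds hx
    filter_upwards [h1, h2] with u hu1 hu2
    have := hmul u hu2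
    rcases mul_eq_zero.1 this with h | h
    · exact absurd h (pow_ne_zero _ hu1)
    · exact h
  have hQ0 := hQA.eqOn_zero_of_preconnected_of_eventuallyEq_zero hN.convex.isPreconnected hx hev
    hN.mem
  simp only [Pi.zero_apply] at hQ0
  rw [h0] at hQ0
  unfold pe at hQ0
  rw [Polynomial.eval₂_at_zero] at hQ0
  -- transfer to the reals
  have h3 : (MvPolynomial.aeval (fun b => ((u0 b : ℝ) : ℂ)) (Q.coeff 0) : ℂ)
      = ((MvPolynomial.aeval u0 (Q.coeff 0) : ℝ) : ℂ) := by
    have := MvPolynomial.aeval_algebraMap_apply ℂ u0 (Q.coeff 0)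
    exact this
  have h4 : (MvPolynomial.aeval u0 (Q.coeff 0) : ℝ) = 0 := by
    have h5 : (MvPolynomial.aeval (fun b => ((u0 b : ℝ) : ℂ)) (Q.coeff 0) : ℂ) = 0 := hQ0
    rw [h3] at h5
    exact_mod_cast h5
  exact hQ ((algebraicIndependent_iff.1 hN.gen) _ h4)

end

end Pool.Agent.helper37.NP
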