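import Pool.Agent.helper37.NP.HAf
import Pool.Agent.helper37.NP.Bas

/-!
NP-H5 (HEx).  Along an algebraic family the numbers `exp (i θ_e)` are algebraic functions.

PROOF.  By `cos_ang`, `sin_ang`:
`exp (i θ_e) = (nu_e + 2 i l_e √W) / (√ha_e √hb_e)`, all functions evaluated at `F u ∈ T`.  `nu, W, ha, hb` are
integer polynomials in the six entries, so their composites with `F` are `AF` (`AF.add, mul, ..`,
`AF.const` for rational numbers) and real-analytic.  `√W`, `√ha`, `√hb` are analytic (`√` is analytic on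
the positive reals: `ContDiffAt` of `Real.sqrt` with `n = ω`, or `Real.sqrt x = exp (log x / 2)`), their
squares are `AF`, so they are `AF` by `AF.of_sq`.  `I` is algebraic (`AF.const`).  The denominator
does not vanish (`AF.inv`).
-/

namespace Pool.Agent.helper37.NP

section

variable {B : Type} [Fintype B] {N : Set (B → ℝ)} {u0 : B → ℝ}

private theorem sqrt_AF (hN : Gen N u0) {f : (B → ℝ) → ℝ} (hf : AF N (fun u => (f u : ℂ)))
    (hpos : ∀ u ∈ N, 0 < f u) : AF N (fun u => ((Real.sqrt (f u) : ℝ) : ℂ)) := by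
  refine AF.of_sq hN ?_ (hf.congr (fun u hu => ?_) hN.isOpen)
  · intro u hu
    have h1 : AnalyticAt ℝ (fun u => Complex.reCLM ((f u : ℝ) : ℂ)) u :=
      (Complex.reCLM.analyticAt _).comp (hf.1 u hu)
    have h2 : AnalyticAt ℝ f u := by
      simpa using h1
    have h3 : ContDiffAt ℝ ⊤ (fun u => Real.sqrt (f u)) u :=
      ContDiffAt.sqrt (h2.contDiffAt) (hpos u hu).ne'
    exact (Complex.ofRealCLM.analyticAt _).comp h3.analyticAt
  · rw [← Complex.ofReal_pow, Real.sq_sqrt (hpos u hu).le]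

private theorem two_AF (hN : Gen N u0) : AF N (fun _ => (2 : ℂ)) := by
  refine AF.const hN ?_
  have h := isAlgebraic_algebraMap (R := ℚ) (A := ℂ) (2 : ℚ)
  simpa using h

private theorem He_AF (hN : Gen N u0) {P Q R : (B → ℝ) → ℝ} (hP : AF N (fun u => (P u : ℂ)))
    (hQ : AF N (fun u => (Q u : ℂ))) (hR : AF N (fun u => (R u : ℂ))) :
    AF N (fun u => ((He (P u) (Q u) (R u) : ℝ) : ℂ)) := by
  have h := AF.mul hN (AF.mul hN (AF.mul hN (AF.add hN (AF.add hN hP hQ) hR)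
    (AF.sub hN (AF.add hN hP hQ) hR)) (AF.add hN (AF.sub hN hP hQ) hR))
    (AF.add hN (AF.add hN (AF.neg hN hP) hQ) hR)
  refine h.congr (fun u _ => ?_) hN.isOpen
  unfold He
  push_cast
  ring

private theorem Nu_AF (hN : Gen N u0) {p q r s t x : (B → ℝ) → ℝ}
    (hp : AF N (fun u => (p u : ℂ))) (hq : AF N (fun u => (q u : ℂ)))
    (hr : AF N (fun u => (r u : ℂ))) (hs : AF N (fun u => (s u : ℂ)))
    (ht : AF N (fun u => (t u : ℂ))) (hx : AF N (fun u => (x u : ℂ))) :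
    AF N (fun u => ((Nu (p u) (q u) (r u) (s u) (t u) (x u) : ℝ) : ℂ)) := by
  have hp2 := AF.pow hN hp 2
  have hq2 := AF.pow hN hq 2
  have hr2 := AF.pow hN hr 2
  have hs2 := AF.pow hN hs 2
  have ht2 := AF.pow hN ht 2
  have hx2 := AF.pow hN hx 2
  have h := AF.sub hN (AF.mul hN (AF.mul hN (two_AF hN) hp2) (AF.sub hN (AF.add hN hq2 hr2) hx2))
    (AF.mul hN (AF.sub hN (AF.add hN hp2 hq2) hs2) (AF.sub hN (AF.add hN hp2 hr2) ht2))
  refine h.congr (fun u _ => ?_) hN.isOpen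
  unfold Nu
  push_cast
  ring

private theorem W_AF (hN : Gen N u0) {F : (B → ℝ) → V6} (hF : ∀ i, AF N (fun u => (F u i : ℂ))) :
    AF N (fun u => ((W (F u) : ℝ) : ℂ)) := by
  have a := AF.pow hN (hF 0) 2
  have b := AF.pow hN (hF 1) 2
  have c := AF.pow hN (hF 2) 2
  have d := AF.pow hN (hF 3) 2
  have e := AF.pow hN (hF 4) 2
  have f := AF.pow hN (hF 5) 2
  have na := AF.neg hN a
  have h1 := AF.mul hN (AF.mul hN a f)
    (AF.sub hN (AF.add hN (AF.add hN (AF.add hN (AF.add hN na b) c) d) e) f)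
  have h2 := AF.mul hN (AF.mul hN b e)
    (AF.add hN (AF.sub hN (AF.add hN (AF.add hN (AF.sub hN a b) c) d) e) f)
  have h3 := AF.mul hN (AF.mul hN c d)
    (AF.add hN (AF.add hN (AF.sub hN (AF.sub hN (AF.add hN a b) c) d) e) f)
  have h4 := AF.add hN (AF.add hN (AF.add hN (AF.mul hN (AF.mul hN a b) d)
    (AF.mul hN (AF.mul hN a c) e)) (AF.mul hN (AF.mul hN b c) f)) (AF.mul hN (AF.mul hN d e) f)
  have h := AF.sub hN (AF.add hN (AF.add hN h1 h2) h3) h4
  refine h.congr (fun u _ => ?_) hN.isOpen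
  unfold W Wsq
  push_cast
  ring

private theorem nu_AF (hN : Gen N u0) {F : (B → ℝ) → V6} (hF : ∀ i, AF N (fun u => (F u i : ℂ)))
    (e : Fin 6) : AF N (fun u => ((nu (F u) e : ℝ) : ℂ)) := by
  fin_cases e
  · exact Nu_AF hN (hF 0) (hF 1) (hF 2) (hF 3) (hF 4) (hF 5)
  · exact Nu_AF hN (hF 1) (hF 0) (hF 2) (hF 3) (hF 5) (hF 4)
  · exact Nu_AF hN (hF 2) (hF 0) (hF 1) (hF 4) (hF 5) (hF 3)
  · exact Nu_AF hN (hF 3) (hF 0) (hF 4) (hF 1) (hF 5) (hF 2)
  · exact Nu_AF hN (hF 4) (hF 0) (hF 3) (hF 2) (hF 5) (hF 1)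
  · exact Nu_AF hN (hF 5) (hF 1) (hF 3) (hF 2) (hF 4) (hF 0)

private theorem ha_AF (hN : Gen N u0) {F : (B → ℝ) → V6} (hF : ∀ i, AF N (fun u => (F u i : ℂ)))
    (e : Fin 6) : AF N (fun u => ((ha (F u) e : ℝ) : ℂ)) := by
  fin_cases e
  · exact He_AF hN (hF 0) (hF 1) (hF 3)
  · exact He_AF hN (hF 1) (hF 0) (hF 3)
  · exact He_AF hN (hF 2) (hF 0) (hF 4)
  · exact He_AF hN (hF 3) (hF 0) (hF 1)
  · exact He_AF hN (hF 4) (hF 0) (hF 2)
  · exact He_AF hN (hF 5) (hF 1) (hF 2)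

private theorem hb_AF (hN : Gen N u0) {F : (B → ℝ) → V6} (hF : ∀ i, AF N (fun u => (F u i : ℂ)))
    (e : Fin 6) : AF N (fun u => ((hb (F u) e : ℝ) : ℂ)) := by
  fin_cases e
  · exact He_AF hN (hF 0) (hF 2) (hF 4)
  · exact He_AF hN (hF 1) (hF 2) (hF 5)
  · exact He_AF hN (hF 2) (hF 1) (hF 5)
  · exact He_AF hN (hF 3) (hF 4) (hF 5)
  · exact He_AF hN (hF 4) (hF 3) (hF 5)
  · exact He_AF hN (hF 5) (hF 3) (hF 4)

private theorem exp_AF (hN : Gen N u0) {F : (B → ℝ) → V6} (hT : ∀ u ∈ N, F u ∈ T)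
    (hF : ∀ i, AF N (fun u => (F u i : ℂ))) (e : Fin 6) :
    AF N (fun u => Complex.exp (Complex.I * (ang (F u) e : ℂ))) := by
  have sW := sqrt_AF hN (W_AF hN hF) fun u hu => (hT u hu).2
  have sa := sqrt_AF hN (ha_AF hN hF e) fun u hu => ha_pos (hT u hu) e
  have sb := sqrt_AF hN (hb_AF hN hF e) fun u hu => hb_pos (hT u hu) e
  have hI : AF N (fun _ => Complex.I) :=
    AF.const hN Complex.isIntegral_rat_I.isAlgebraic
  have hden := AF.inv hN (AF.mul hN sa sb) fun u hu => by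
    have h1 := Real.sqrt_pos.2 (ha_pos (hT u hu) e)
    have h2 := Real.sqrt_pos.2 (hb_pos (hT u hu) e)
    exact mul_ne_zero (by exact_mod_cast h1.ne') (by exact_mod_cast h2.ne')
  have h := AF.mul hN (AF.add hN (nu_AF hN hF e)
    (AF.mul hN (AF.mul hN (AF.mul hN (two_AF hN) hI) (hF e)) sW)) hden
  refine h.congr (fun u hu => ?_) hN.isOpen
  rw [mul_comm Complex.I, Complex.exp_mul_I, ← Complex.ofReal_cos, ← Complex.ofReal_sin,
    cos_ang (hT u hu) e, sin_ang (hT u hu) e]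
  push_cast
  rw [div_eq_mul_inv, div_eq_mul_inv]
  ring

end

theorem AF_exp {B : Type} [Fintype B] {N : Set (B → ℝ)} {u0 : B → ℝ} (hN : Gen N u0)
    {F : (B → ℝ) → V6} (hT : ∀ u ∈ N, F u ∈ T) (ha : ∀ i, AnalyticOnNhd ℝ (fun u => F u i) N)
    (hF : ∀ i, AF N (fun u => (F u i : ℂ))) (e : Fin 6) :
    AF N (fun u => Complex.exp (Complex.I * (ang (F u) e : ℂ))) :=
  exp_AF hN hT hF e

end Pool.Agent.helper37.NP
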