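import Pool.Agent.helper37.NP.Ana

/-!
NP-10 (Mv).  Moving the vertex `a` along the line `ab`: the path of edge vectors.

Let `l ∈ T`, `p = l 3 = bc`, `q = l 4 = bd`, `s = l 5 = cd`,
`γ = (l0² + p² - l1²)/(2 l0)`, `δ = (l0² + q² - l2²)/(2 l0)` (projections of `bc`, `bd` to `ba`).
For `x > 0`: `mv l x = ![x, √(x² - 2γx + p²), √(x² - 2δx + q²), p, q, s]`.
Put `κ = √(W l) / (2 l0)`, `ε = (p² + q² - s²)/2`.

PROOFS.  All identities are `ring`/`field_simp` identities in the squared lengths (checked):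
* `W (mv l x) = W l * x² / l0²`; `nu (mv l x) 0 / x² = nu l 0 / l0²`;
  `nu (mv l x) 3 / x = nu l 3 / l0`, `nu (mv l x) 4 / x = nu l 4 / l0`;
* `nu (mv l x) 1 = 4 x (p1 + x q1)`, `p1 = γε - δp²`, `q1 = p² - ε - γ² + γδ`;
* `nu (mv l x) 2 = 4 x (p2 + x q2)`, `p2 = δε - γq²`, `q2 = q² - ε - δ² + γδ`;
* `nu (mv l x) 5 = 4 (b0 + b1 x)`, `b0 = p²q² - ε²`, `b1 = εδ - γq² - p²δ + γε`.
`mv_mem`: `|γ| < p`, `|δ| < q` (strict triangle inequalities of `abc`, `abd`), so the roots are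
positive and the faces `(x, r1, p)`, `(x, r2, q)` satisfy the strict triangle inequalities; the face
`bcd` is unchanged; for the face `acd`: `nu_sq` (edge 1) gives
`ha * hb = nu² + 4 r1² W > 0`, `ha > 0`, so `hb (mv l x) 1 = He (r1, r2, s) > 0`, and
`He > 0` with positive arguments implies the strict triangle inequalities (two of the factors
cannot be `≤ 0` at the same time since the sum of two of them is twice a side).
The angle formulas follow from `ang_arctan`, `√(W (mv l x)) = 2 κ x`.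
-/

namespace Pool.Agent.helper37.NP

open Real

noncomputable def gam (l : V6) : ℝ := (l 0 ^ 2 + l 3 ^ 2 - l 1 ^ 2) / (2 * l 0)
noncomputable def del (l : V6) : ℝ := (l 0 ^ 2 + l 4 ^ 2 - l 2 ^ 2) / (2 * l 0)
noncomputable def eps (l : V6) : ℝ := (l 3 ^ 2 + l 4 ^ 2 - l 5 ^ 2) / 2
noncomputable def kap (l : V6) : ℝ := Real.sqrt (W l) / (2 * l 0)
noncomputable def r1 (l : V6) (x : ℝ) : ℝ := Real.sqrt (x ^ 2 - 2 * gam l * x + l 3 ^ 2)
noncomputable def r2 (l : V6) (x : ℝ) : ℝ := Real.sqrt (x ^ 2 - 2 * del l * x + l 4 ^ 2)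
noncomputable def mv (l : V6) (x : ℝ) : V6 := ![x, r1 l x, r2 l x, l 3, l 4, l 5]

private theorem T_ineq {l : V6} (hl : l ∈ T) :
    (l 5 < l 1 + l 2 ∧ l 4 < l 0 + l 2 ∧ l 3 < l 0 + l 1) ∧
      (l 5 < l 3 + l 4 ∧ l 1 < l 0 + l 3 ∧ l 2 < l 0 + l 4) ∧
      (l 0 < l 1 + l 3 ∧ l 4 < l 3 + l 5 ∧ l 2 < l 1 + l 5) ∧
      (l 0 < l 2 + l 4 ∧ l 1 < l 2 + l 5 ∧ l 3 < l 4 + l 5) := by
  obtain ⟨h, -⟩ := hl
  have a0 : l 0 + l 5 < l 0 + l 1 + l 2 := h 0 0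
  have a1 : l 1 + l 4 < l 0 + l 1 + l 2 := h 0 1
  have a2 : l 2 + l 3 < l 0 + l 1 + l 2 := h 0 2
  have b0 : l 0 + l 5 < l 0 + l 3 + l 4 := h 1 0
  have b1 : l 1 + l 4 < l 0 + l 3 + l 4 := h 1 1
  have b2 : l 2 + l 3 < l 0 + l 3 + l 4 := h 1 2
  have c0 : l 0 + l 5 < l 1 + l 3 + l 5 := h 2 0
  have c1 : l 1 + l 4 < l 1 + l 3 + l 5 := h 2 1
  have c2 : l 2 + l 3 < l 1 + l 3 + l 5 := h 2 2
  have d0 : l 0 + l 5 < l 2 + l 4 + l 5 := h 3 0
  have d1 : l 1 + l 4 < l 2 + l 4 + l 5 := h 3 1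
  have d2 : l 2 + l 3 < l 2 + l 4 + l 5 := h 3 2
  refine ⟨⟨?_, ?_, ?_⟩, ⟨?_, ?_, ?_⟩, ⟨?_, ?_, ?_⟩, ?_, ?_, ?_⟩ <;> linarith

private theorem T_of_ineq {l : V6} (h : (l 5 < l 1 + l 2 ∧ l 4 < l 0 + l 2 ∧ l 3 < l 0 + l 1) ∧
      (l 5 < l 3 + l 4 ∧ l 1 < l 0 + l 3 ∧ l 2 < l 0 + l 4) ∧
      (l 0 < l 1 + l 3 ∧ l 4 < l 3 + l 5 ∧ l 2 < l 1 + l 5) ∧
      (l 0 < l 2 + l 4 ∧ l 1 < l 2 + l 5 ∧ l 3 < l 4 + l 5)) (hW : 0 < W l) : l ∈ T := by
  obtain ⟨⟨a0, a1, a2⟩, ⟨b0, b1, b2⟩, ⟨c0, c1, c2⟩, d0, d1, d2⟩ := h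
  refine ⟨fun v j => ?_, hW⟩
  fin_cases v <;> fin_cases j
  · show l 0 + l 5 < l 0 + l 1 + l 2
    linarith
  · show l 1 + l 4 < l 0 + l 1 + l 2
    linarith
  · show l 2 + l 3 < l 0 + l 1 + l 2
    linarith
  · show l 0 + l 5 < l 0 + l 3 + l 4
    linarith
  · show l 1 + l 4 < l 0 + l 3 + l 4
    linarith
  · show l 2 + l 3 < l 0 + l 3 + l 4
    linarith
  · show l 0 + l 5 < l 1 + l 3 + l 5
    linarith
  · show l 1 + l 4 < l 1 + l 3 + l 5
    linarith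
  · show l 2 + l 3 < l 1 + l 3 + l 5
    linarith
  · show l 0 + l 5 < l 2 + l 4 + l 5
    linarith
  · show l 1 + l 4 < l 2 + l 4 + l 5
    linarith
  · show l 2 + l 3 < l 2 + l 4 + l 5
    linarith

/-- positive numbers with positive Heron expression satisfy the strict triangle inequalities -/
private theorem tri_of_He {p q r : ℝ} (hp : 0 < p) (hq : 0 < q) (hr : 0 < r)
    (h : 0 < He p q r) : r < p + q ∧ q < p + r ∧ p < q + r := by
  unfold He at h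
  refine ⟨?_, ?_, ?_⟩
  · by_contra hc
    have h1 : p + q - r ≤ 0 := by linarith
    have h2 : 0 < (p + q + r) * ((p - q + r) * (-p + q + r)) := by
      have : 0 < p - q + r := by linarith
      have : 0 < -p + q + r := by linarith
      positivity
    have h3 := mul_nonpos_of_nonpos_of_nonneg h1 h2.le
    have h4 : (p + q + r) * (p + q - r) * (p - q + r) * (-p + q + r)
        = (p + q - r) * ((p + q + r) * ((p - q + r) * (-p + q + r))) := by ring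
    linarith
  · by_contra hc
    have h1 : p - q + r ≤ 0 := by linarith
    have h2 : 0 < (p + q + r) * ((p + q - r) * (-p + q + r)) := by
      have : 0 < p + q - r := by linarith
      have : 0 < -p + q + r := by linarith
      positivity
    have h3 := mul_nonpos_of_nonpos_of_nonneg h1 h2.le
    have h4 : (p + q + r) * (p + q - r) * (p - q + r) * (-p + q + r)
        = (p - q + r) * ((p + q + r) * ((p + q - r) * (-p + q + r))) := by ring
    linarith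
  · by_contra hc
    have h1 : -p + q + r ≤ 0 := by linarith
    have h2 : 0 < (p + q + r) * ((p + q - r) * (p - q + r)) := by
      have : 0 < p + q - r := by linarith
      have : 0 < p - q + r := by linarith
      positivity
    have h3 := mul_nonpos_of_nonpos_of_nonneg h1 h2.le
    have h4 : (p + q + r) * (p + q - r) * (p - q + r) * (-p + q + r)
        = (-p + q + r) * ((p + q + r) * ((p + q - r) * (p - q + r))) := by ring
    linarith

/-- `m` is the tetrahedron with the coordinates `γ, δ, ε` -/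
private def Frm (m : V6) (g d e : ℝ) : Prop :=
  m 1 ^ 2 = m 0 ^ 2 - 2 * g * m 0 + m 3 ^ 2 ∧ m 2 ^ 2 = m 0 ^ 2 - 2 * d * m 0 + m 4 ^ 2 ∧
    m 5 ^ 2 = m 3 ^ 2 + m 4 ^ 2 - 2 * e

private theorem Frm.W {m : V6} {g d e : ℝ} (h : Frm m g d e) :
    W m = 4 * m 0 ^ 2 * (m 3 ^ 2 * m 4 ^ 2 - e ^ 2 - g ^ 2 * m 4 ^ 2 - d ^ 2 * m 3 ^ 2
      + 2 * g * d * e) := by
  obtain ⟨h1, h2, h5⟩ := h
  unfold NP.W Wsq
  rw [h1, h2, h5]
  ring

private theorem Frm.nu0 {m : V6} {g d e : ℝ} (h : Frm m g d e) :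
    nu m 0 = 4 * m 0 ^ 2 * (e - g * d) := by
  obtain ⟨h1, h2, h5⟩ := h
  show Nu (m 0) (m 1) (m 2) (m 3) (m 4) (m 5) = _
  unfold Nu
  rw [h1, h2, h5]
  ring

private theorem Frm.nu3 {m : V6} {g d e : ℝ} (h : Frm m g d e) :
    nu m 3 = 4 * m 0 * (m 3 ^ 2 * d - g * e) := by
  obtain ⟨h1, h2, h5⟩ := h
  show Nu (m 3) (m 0) (m 4) (m 1) (m 5) (m 2) = _
  unfold Nu
  rw [h1, h2, h5]
  ring

private theorem Frm.nu4 {m : V6} {g d e : ℝ} (h : Frm m g d e) :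
    nu m 4 = 4 * m 0 * (m 4 ^ 2 * g - d * e) := by
  obtain ⟨h1, h2, h5⟩ := h
  show Nu (m 4) (m 0) (m 3) (m 2) (m 5) (m 1) = _
  unfold Nu
  rw [h1, h2, h5]
  ring

private theorem Frm.nu1 {m : V6} {g d e : ℝ} (h : Frm m g d e) :
    nu m 1 = 4 * m 0 * (g * e - d * m 3 ^ 2 + m 0 * (m 3 ^ 2 - e - g ^ 2 + g * d)) := by
  obtain ⟨h1, h2, h5⟩ := h
  show Nu (m 1) (m 0) (m 2) (m 3) (m 5) (m 4) = _
  unfold Nu
  rw [h1, h2, h5]
  ring

private theorem Frm.nu2 {m : V6} {g d e : ℝ} (h : Frm m g d e) :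
    nu m 2 = 4 * m 0 * (d * e - g * m 4 ^ 2 + m 0 * (m 4 ^ 2 - e - d ^ 2 + g * d)) := by
  obtain ⟨h1, h2, h5⟩ := h
  show Nu (m 2) (m 0) (m 1) (m 4) (m 5) (m 3) = _
  unfold Nu
  rw [h1, h2, h5]
  ring

private theorem Frm.nu5 {m : V6} {g d e : ℝ} (h : Frm m g d e) :
    nu m 5 = 4 * (m 3 ^ 2 * m 4 ^ 2 - e ^ 2
      + m 0 * (e * d - g * m 4 ^ 2 - m 3 ^ 2 * d + g * e)) := by
  obtain ⟨h1, h2, h5⟩ := h
  show Nu (m 5) (m 1) (m 3) (m 2) (m 4) (m 0) = _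
  unfold Nu
  rw [h1, h2, h5]
  ring

theorem gam_lt {l : V6} (hl : l ∈ T) : |gam l| < l 3 := by
  obtain ⟨⟨-, -, a2⟩, ⟨-, b1, -⟩, ⟨c0, -, -⟩, -⟩ := T_ineq hl
  have h0 := T_pos hl 0
  have h1 := T_pos hl 1
  have h3 := T_pos hl 3
  unfold gam
  rw [abs_div, abs_of_pos (by positivity : (0 : ℝ) < 2 * l 0), div_lt_iff₀ (by positivity), abs_lt]
  constructor
  · have : 0 < (l 0 + l 3 - l 1) * (l 0 + l 3 + l 1) := by
      apply mul_pos <;> linarith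
    linarith
  · have : 0 < (l 0 + l 1 - l 3) * (l 1 + l 3 - l 0) := by
      apply mul_pos <;> linarith
    linarith

theorem del_lt {l : V6} (hl : l ∈ T) : |del l| < l 4 := by
  obtain ⟨⟨-, a1, -⟩, ⟨-, -, b2⟩, -, d0, -, -⟩ := T_ineq hl
  have h0 := T_pos hl 0
  have h2 := T_pos hl 2
  have h4 := T_pos hl 4
  unfold del
  rw [abs_div, abs_of_pos (by positivity : (0 : ℝ) < 2 * l 0), div_lt_iff₀ (by positivity), abs_lt]
  constructor
  · have : 0 < (l 0 + l 4 - l 2) * (l 0 + l 4 + l 2) := by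
      apply mul_pos <;> linarith
    linarith
  · have : 0 < (l 0 + l 2 - l 4) * (l 2 + l 4 - l 0) := by
      apply mul_pos <;> linarith
    linarith

theorem kap_pos {l : V6} (hl : l ∈ T) : 0 < kap l := by
  have h0 := T_pos hl 0
  have h1 := Real.sqrt_pos.2 hl.2
  unfold kap
  positivity

theorem r1_sq {l : V6} (hl : l ∈ T) (x : ℝ) :
    r1 l x ^ 2 = x ^ 2 - 2 * gam l * x + l 3 ^ 2 ∧ 0 < r1 l x := by
  have h := abs_lt.1 (gam_lt hl)
  have h1 : 0 < x ^ 2 - 2 * gam l * x + l 3 ^ 2 := by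
    have h2 : 0 < (l 3 - gam l) * (l 3 + gam l) := by
      apply mul_pos <;> linarith
    have h3 := sq_nonneg (x - gam l)
    linarith
  exact ⟨Real.sq_sqrt h1.le, Real.sqrt_pos.2 h1⟩

theorem r2_sq {l : V6} (hl : l ∈ T) (x : ℝ) :
    r2 l x ^ 2 = x ^ 2 - 2 * del l * x + l 4 ^ 2 ∧ 0 < r2 l x := by
  have h := abs_lt.1 (del_lt hl)
  have h1 : 0 < x ^ 2 - 2 * del l * x + l 4 ^ 2 := by
    have h2 : 0 < (l 4 - del l) * (l 4 + del l) := by
      apply mul_pos <;> linarith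
    have h3 := sq_nonneg (x - del l)
    linarith
  exact ⟨Real.sq_sqrt h1.le, Real.sqrt_pos.2 h1⟩

theorem mv_self {l : V6} (hl : l ∈ T) : mv l (l 0) = l := by
  have h0 := T_pos hl 0
  have e1 : r1 l (l 0) = l 1 := by
    unfold r1 gam
    have : l 0 ^ 2 - 2 * ((l 0 ^ 2 + l 3 ^ 2 - l 1 ^ 2) / (2 * l 0)) * l 0 + l 3 ^ 2
        = l 1 ^ 2 := by
      field_simp
      ring
    rw [this]
    exact Real.sqrt_sq (T_pos hl 1).le
  have e2 : r2 l (l 0) = l 2 := by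
    unfold r2 del
    have : l 0 ^ 2 - 2 * ((l 0 ^ 2 + l 4 ^ 2 - l 2 ^ 2) / (2 * l 0)) * l 0 + l 4 ^ 2
        = l 2 ^ 2 := by
      field_simp
      ring
    rw [this]
    exact Real.sqrt_sq (T_pos hl 2).le
  funext e
  fin_cases e
  · rfl
  · exact e1
  · exact e2
  · rfl
  · rfl
  · rfl

private theorem frm_mv {l : V6} (hl : l ∈ T) (x : ℝ) :
    Frm (mv l x) (gam l) (del l) (eps l) := by
  refine ⟨(r1_sq hl x).1, (r2_sq hl x).1, ?_⟩
  show l 5 ^ 2 = l 3 ^ 2 + l 4 ^ 2 - 2 * eps l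
  unfold eps
  ring

private theorem W_mv {l : V6} (hl : l ∈ T) (x : ℝ) : W (mv l x) = W l * (x / l 0) ^ 2 := by
  have h0 := (T_pos hl 0).ne'
  have h1 := (frm_mv hl x).W
  have h2 := (frm_mv hl (l 0)).W
  rw [mv_self hl] at h2
  rw [h1, h2]
  show 4 * x ^ 2 * (l 3 ^ 2 * l 4 ^ 2 - eps l ^ 2 - gam l ^ 2 * l 4 ^ 2 - del l ^ 2 * l 3 ^ 2
      + 2 * gam l * del l * eps l) = _
  field_simp

private theorem sqrt_W_mv {l : V6} (hl : l ∈ T) {x : ℝ} (hx : 0 < x) :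
    Real.sqrt (W (mv l x)) = 2 * kap l * x := by
  have h0 := T_pos hl 0
  rw [W_mv hl, Real.sqrt_mul hl.2.le, Real.sqrt_sq (by positivity)]
  unfold kap
  field_simp

theorem mv_mem {l : V6} (hl : l ∈ T) {x : ℝ} (hx : 0 < x) : mv l x ∈ T := by
  have h0 := T_pos hl 0
  have hW : 0 < W (mv l x) := by
    rw [W_mv hl]
    have := hl.2
    positivity
  obtain ⟨e1, p1⟩ := r1_sq hl x
  obtain ⟨e2, p2⟩ := r2_sq hl x
  have p3 := T_pos hl 3
  have p4 := T_pos hl 4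
  have p5 := T_pos hl 5
  have hg := abs_lt.1 (gam_lt hl)
  have hd := abs_lt.1 (del_lt hl)
  have f1 : 0 < He (r1 l x) x (l 3) := by
    have h1 : He (r1 l x) x (l 3) = 4 * x ^ 2 * ((l 3 - gam l) * (l 3 + gam l)) := by
      have h2 : He (r1 l x) x (l 3)
          = 4 * x ^ 2 * l 3 ^ 2 - (x ^ 2 + l 3 ^ 2 - r1 l x ^ 2) ^ 2 := by
        unfold He
        ring
      rw [h2, e1]
      ring
    rw [h1]
    have h3 : 0 < (l 3 - gam l) * (l 3 + gam l) := by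
      apply mul_pos <;> linarith
    positivity
  have f2 : 0 < He (r2 l x) x (l 4) := by
    have h1 : He (r2 l x) x (l 4) = 4 * x ^ 2 * ((l 4 - del l) * (l 4 + del l)) := by
      have h2 : He (r2 l x) x (l 4)
          = 4 * x ^ 2 * l 4 ^ 2 - (x ^ 2 + l 4 ^ 2 - r2 l x ^ 2) ^ 2 := by
        unfold He
        ring
      rw [h2, e2]
      ring
    rw [h1]
    have h3 : 0 < (l 4 - del l) * (l 4 + del l) := by
      apply mul_pos <;> linarith
    positivity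
  have f3 : 0 < He (r1 l x) (r2 l x) (l 5) := by
    have h1 := nu_sq (mv l x) 1
    have h2 : nu (mv l x) 1 ^ 2 + 4 * r1 l x ^ 2 * W (mv l x)
        = He (r1 l x) x (l 3) * He (r1 l x) (r2 l x) (l 5) := h1
    have h3 : 0 < He (r1 l x) x (l 3) * He (r1 l x) (r2 l x) (l 5) := by
      rw [← h2]
      positivity
    exact (mul_pos_iff_of_pos_left f1).1 h3
  obtain ⟨a1, a2, a3⟩ := tri_of_He p1 hx p3 f1
  obtain ⟨b1, b2, b3⟩ := tri_of_He p2 hx p4 f2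
  obtain ⟨c1, c2, c3⟩ := tri_of_He p1 p2 p5 f3
  obtain ⟨-, ⟨d1, -, -⟩, ⟨-, d2, -⟩, -, -, d3⟩ := T_ineq hl
  refine T_of_ineq ⟨⟨?_, ?_, ?_⟩, ⟨?_, ?_, ?_⟩, ⟨?_, ?_, ?_⟩, ?_, ?_, ?_⟩ hW
  · exact c1
  · show l 4 < x + r2 l x
    linarith
  · show l 3 < x + r1 l x
    linarith
  · exact d1
  · show r1 l x < x + l 3
    linarith
  · show r2 l x < x + l 4
    linarith
  · show x < r1 l x + l 3
    linarith
  · exact d2
  · show r2 l x < r1 l x + l 5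
    linarith
  · show x < r2 l x + l 4
    linarith
  · show r1 l x < r2 l x + l 5
    linarith
  · exact d3

private theorem mv_ang0 {l : V6} (hl : l ∈ T) {x : ℝ} (hx : 0 < x) :
    ang (mv l x) 0 = π / 2 - arctan ((eps l - gam l * del l) / kap l) := by
  have hk := (kap_pos hl).ne'
  rw [ang_arctan (mv_mem hl hx) 0, sqrt_W_mv hl hx, (frm_mv hl x).nu0]
  congr 2
  show 4 * x ^ 2 * (eps l - gam l * del l) / (2 * x * (2 * kap l * x)) = _
  field_simp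
  ring

private theorem mv_ang3 {l : V6} (hl : l ∈ T) {x : ℝ} (hx : 0 < x) :
    ang (mv l x) 3 = π / 2 - arctan ((l 3 ^ 2 * del l - gam l * eps l) / (kap l * l 3)) := by
  have hk := (kap_pos hl).ne'
  have h3 := (T_pos hl 3).ne'
  rw [ang_arctan (mv_mem hl hx) 3, sqrt_W_mv hl hx, (frm_mv hl x).nu3]
  congr 2
  show 4 * x * (l 3 ^ 2 * del l - gam l * eps l) / (2 * l 3 * (2 * kap l * x)) = _
  field_simp
  ring

private theorem mv_ang4 {l : V6} (hl : l ∈ T) {x : ℝ} (hx : 0 < x) :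
    ang (mv l x) 4 = π / 2 - arctan ((l 4 ^ 2 * gam l - del l * eps l) / (kap l * l 4)) := by
  have hk := (kap_pos hl).ne'
  have h4 := (T_pos hl 4).ne'
  rw [ang_arctan (mv_mem hl hx) 4, sqrt_W_mv hl hx, (frm_mv hl x).nu4]
  congr 2
  show 4 * x * (l 4 ^ 2 * gam l - del l * eps l) / (2 * l 4 * (2 * kap l * x)) = _
  field_simp
  ring

theorem mv_ang_const {l : V6} (hl : l ∈ T) {x : ℝ} (hx : 0 < x) :
    ang (mv l x) 0 = ang l 0 ∧ ang (mv l x) 3 = ang l 3 ∧ ang (mv l x) 4 = ang l 4 := by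
  have h0 := T_pos hl 0
  have e0 := mv_ang0 hl h0
  have e3 := mv_ang3 hl h0
  have e4 := mv_ang4 hl h0
  rw [mv_self hl] at e0 e3 e4
  exact ⟨(mv_ang0 hl hx).trans e0.symm, (mv_ang3 hl hx).trans e3.symm,
    (mv_ang4 hl hx).trans e4.symm⟩

theorem mv_ang1 {l : V6} (hl : l ∈ T) {x : ℝ} (hx : 0 < x) :
    ang (mv l x) 1 = π / 2 - arctan ((gam l * eps l - del l * l 3 ^ 2
      + x * (l 3 ^ 2 - eps l - gam l ^ 2 + gam l * del l)) / (kap l * r1 l x)) := by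
  have hk := (kap_pos hl).ne'
  have h1 := (r1_sq hl x).2.ne'
  rw [ang_arctan (mv_mem hl hx) 1, sqrt_W_mv hl hx, (frm_mv hl x).nu1]
  congr 2
  show 4 * x * (gam l * eps l - del l * l 3 ^ 2
      + x * (l 3 ^ 2 - eps l - gam l ^ 2 + gam l * del l)) / (2 * r1 l x * (2 * kap l * x)) = _
  field_simp
  ring

theorem mv_ang2 {l : V6} (hl : l ∈ T) {x : ℝ} (hx : 0 < x) :
    ang (mv l x) 2 = π / 2 - arctan ((del l * eps l - gam l * l 4 ^ 2
      + x * (l 4 ^ 2 - eps l - del l ^ 2 + gam l * del l)) / (kap l * r2 l x)) := by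
  have hk := (kap_pos hl).ne'
  have h1 := (r2_sq hl x).2.ne'
  rw [ang_arctan (mv_mem hl hx) 2, sqrt_W_mv hl hx, (frm_mv hl x).nu2]
  congr 2
  show 4 * x * (del l * eps l - gam l * l 4 ^ 2
      + x * (l 4 ^ 2 - eps l - del l ^ 2 + gam l * del l)) / (2 * r2 l x * (2 * kap l * x)) = _
  field_simp
  ring

theorem mv_ang5 {l : V6} (hl : l ∈ T) {x : ℝ} (hx : 0 < x) :
    ang (mv l x) 5 = π / 2 - arctan ((l 3 ^ 2 * l 4 ^ 2 - eps l ^ 2
      + x * (eps l * del l - gam l * l 4 ^ 2 - l 3 ^ 2 * del l + gam l * eps l))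
        / (kap l * x * l 5)) := by
  have hk := (kap_pos hl).ne'
  have h5 := (T_pos hl 5).ne'
  rw [ang_arctan (mv_mem hl hx) 5, sqrt_W_mv hl hx, (frm_mv hl x).nu5]
  congr 2
  show 4 * (l 3 ^ 2 * l 4 ^ 2 - eps l ^ 2
      + x * (eps l * del l - gam l * l 4 ^ 2 - l 3 ^ 2 * del l + gam l * eps l))
        / (2 * l 5 * (2 * kap l * x)) = _
  field_simp
  ring

end Pool.Agent.helper37.NP
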