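import Pool.Agent.helper37.NP.Mv

/-!
NP-11 (MvD).  Derivative and limit of `F x = ∑ l θ` along the path `mv l x`.

PROOF.  Setting of `NP-10`; `Z x = (4 r1² r2² - (r1² + r2² - s²)²)/4 > 0` (it is
`He (r1, r2, s) / 4`, positive by `mv_mem`).  Identities (`ring` after inserting
`r1² = x² - 2γx + p²`, `r2² = ...`, `κ² = W l / (4 l0²)`; checked):
`κ² r1² + (p1 + x q1)² = (p² - γ²) Z`,   `q1 r1² - (p1 + x q1)(x - γ) = ((p² - ε) - x(γ - δ)) (p² - γ²)`,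
`κ² r2² + (p2 + x q2)² = (q² - δ²) Z`,   `q2 r2² - (p2 + x q2)(x - δ) = ((q² - ε) - x(δ - γ)) (q² - δ²)`,
`κ² x² s² + (b0 + b1 x)² = b0 Z`, `b0 = p²q² - ε² > 0`.
With `r1' = (x - γ)/r1`, `r2' = (x - δ)/r2` the formulas `mv_ang1/2/5` give
`r1 θ1' = - κ ((p² - ε) - x (γ - δ)) / Z`, `r2 θ2' = - κ ((q² - ε) - x (δ - γ)) / Z`,
`s θ5' = κ s² / Z`, and `p² + q² - 2ε = s²`, so `r1 θ1' + r2 θ2' + s θ5' = 0` (Schläfli).
Since `θ0, θ3, θ4` are constant, `F' = θ0 + θ1 r1' + θ2 r2'` with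
`F x = x θ0 + r1 θ1 + r2 θ2 + p θ3 + q θ4 + s θ5`.
Limit `x → 0+`: `r1 → p`, `r2 → q`, `θ5 → 0` (argument of arctan tends to `+∞` as `b0 > 0`),
`θ1 → π/2 - arctan (p1/(κ p))`, and `θ3 = π/2 + arctan (p1/(κ p))`, because
`nu l 3 = - 4 l0 p1` (`ring`), so `θ1 + θ3 → π`; similarly `θ2 + θ4 → π`, `nu l 4 = - 4 l0 p2`.
So `F → π (p + q)`.
-/

namespace Pool.Agent.helper37.NP

open Real

/-! ### abbreviations and identities -/

private theorem md_kap_sq {l : V6} (hl : l ∈ T) :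
    kap l ^ 2 = l 3 ^ 2 * l 4 ^ 2 - eps l ^ 2 - gam l ^ 2 * l 4 ^ 2 - del l ^ 2 * l 3 ^ 2
      + 2 * gam l * del l * eps l := by
  have h0 : l 0 ≠ 0 := (T_pos hl 0).ne'
  have h1 : kap l ^ 2 = W l / (4 * l 0 ^ 2) := by
    unfold kap
    rw [div_pow, Real.sq_sqrt hl.2.le]
    ring
  rw [h1]
  unfold W Wsq eps gam del
  field_simp
  ring

private theorem md_s_sq (l : V6) : l 5 ^ 2 = l 3 ^ 2 + l 4 ^ 2 - 2 * eps l := by
  unfold eps
  ring

/-- the Gram determinant of the face `acd` -/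
private noncomputable def md_Z (l : V6) (x : ℝ) : ℝ :=
  (x ^ 2 - 2 * gam l * x + l 3 ^ 2) * (x ^ 2 - 2 * del l * x + l 4 ^ 2)
    - (x ^ 2 - (gam l + del l) * x + eps l) ^ 2

private theorem md_Z_pos {l : V6} (hl : l ∈ T) {x : ℝ} (hx : 0 < x) : 0 < md_Z l x := by
  have h1 := hb_pos (mv_mem hl hx) 1
  have h2 : hb (mv l x) 1 = He (r1 l x) (r2 l x) (l 5) := rfl
  have h3 : He (r1 l x) (r2 l x) (l 5)
      = 4 * (r1 l x ^ 2 * r2 l x ^ 2) - (r1 l x ^ 2 + r2 l x ^ 2 - l 5 ^ 2) ^ 2 := by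
    unfold He
    ring
  have h4 : He (r1 l x) (r2 l x) (l 5) = 4 * md_Z l x := by
    rw [h3, (r1_sq hl x).1, (r2_sq hl x).1, md_s_sq]
    unfold md_Z
    ring
  rw [h2, h4] at h1
  linarith

private theorem md_b0_pos {l : V6} (hl : l ∈ T) : 0 < l 3 ^ 2 * l 4 ^ 2 - eps l ^ 2 := by
  have h1 := hb_pos hl 5
  have h2 : hb l 5 = 4 * (l 3 ^ 2 * l 4 ^ 2 - eps l ^ 2) := by
    show He (l 5) (l 3) (l 4) = _
    unfold He eps
    ring
  rw [h2] at h1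
  linarith

private theorem md_r1_deriv {l : V6} (hl : l ∈ T) (x : ℝ) :
    HasDerivAt (fun y => r1 l y) ((x - gam l) / r1 l x) x := by
  have h0 := r1_sq hl x
  have h1 : HasDerivAt (fun y : ℝ => y ^ 2 - 2 * gam l * y + l 3 ^ 2) (2 * x - 2 * gam l) x := by
    refine HasDerivAt.congr_deriv ((((hasDerivAt_id' x).pow 2).sub
      ((hasDerivAt_id' x).const_mul (2 * gam l))).add_const (l 3 ^ 2)) ?_
    simp
  have h3 : x ^ 2 - 2 * gam l * x + l 3 ^ 2 ≠ 0 := by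
    rw [← h0.1]
    exact pow_ne_zero 2 h0.2.ne'
  have h4 := h1.sqrt h3
  have h5 : (2 * x - 2 * gam l) / (2 * Real.sqrt (x ^ 2 - 2 * gam l * x + l 3 ^ 2))
      = (x - gam l) / r1 l x := by
    show _ = (x - gam l) / Real.sqrt (x ^ 2 - 2 * gam l * x + l 3 ^ 2)
    rw [← mul_sub, mul_div_mul_left _ _ (two_ne_zero)]
  rw [h5] at h4
  exact h4

private theorem md_r2_deriv {l : V6} (hl : l ∈ T) (x : ℝ) :
    HasDerivAt (fun y => r2 l y) ((x - del l) / r2 l x) x := by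
  have h0 := r2_sq hl x
  have h1 : HasDerivAt (fun y : ℝ => y ^ 2 - 2 * del l * y + l 4 ^ 2) (2 * x - 2 * del l) x := by
    refine HasDerivAt.congr_deriv ((((hasDerivAt_id' x).pow 2).sub
      ((hasDerivAt_id' x).const_mul (2 * del l))).add_const (l 4 ^ 2)) ?_
    simp
  have h3 : x ^ 2 - 2 * del l * x + l 4 ^ 2 ≠ 0 := by
    rw [← h0.1]
    exact pow_ne_zero 2 h0.2.ne'
  have h4 := h1.sqrt h3
  have h5 : (2 * x - 2 * del l) / (2 * Real.sqrt (x ^ 2 - 2 * del l * x + l 4 ^ 2))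
      = (x - del l) / r2 l x := by
    show _ = (x - del l) / Real.sqrt (x ^ 2 - 2 * del l * x + l 4 ^ 2)
    rw [← mul_sub, mul_div_mul_left _ _ (two_ne_zero)]
  rw [h5] at h4
  exact h4

/-- derivative of an angle -/
private theorem md_arc {N r : ℝ → ℝ} {N' r' κ x : ℝ} (hN : HasDerivAt N N' x)
    (hr : HasDerivAt r r' x) (hκ : 0 < κ) (hr0 : 0 < r x) :
    HasDerivAt (fun y => π / 2 - arctan (N y / (κ * r y)))
      (-(κ * (N' * r x - N x * r')) / (κ ^ 2 * r x ^ 2 + N x ^ 2)) x := by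
  have hk : κ * r x ≠ 0 := (mul_pos hκ hr0).ne'
  refine HasDerivAt.congr_deriv (((hN.div (hr.const_mul κ) hk).arctan).const_sub (π / 2)) ?_
  have hpos : 0 < κ ^ 2 * r x ^ 2 + N x ^ 2 := by positivity
  have h2 : (1 : ℝ) + (N x / (κ * r x)) ^ 2 = (κ ^ 2 * r x ^ 2 + N x ^ 2) / (κ * r x) ^ 2 := by
    field_simp
  show -(1 / (1 + (N x / (κ * r x)) ^ 2) * ((N' * (κ * r x) - N x * (κ * r')) / (κ * r x) ^ 2)) = _
  rw [h2]
  field_simp

/-- one term of the Schlaefli identity -/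
private theorem md_f1 {κ γ δ ε p q r x Z : ℝ}
    (hk : κ ^ 2 = p ^ 2 * q ^ 2 - ε ^ 2 - γ ^ 2 * q ^ 2 - δ ^ 2 * p ^ 2 + 2 * γ * δ * ε)
    (hr : r ^ 2 = x ^ 2 - 2 * γ * x + p ^ 2) (hr0 : r ≠ 0) (hg : p ^ 2 - γ ^ 2 ≠ 0)
    (hZ2 : Z = (x ^ 2 - 2 * γ * x + p ^ 2) * (x ^ 2 - 2 * δ * x + q ^ 2)
      - (x ^ 2 - (γ + δ) * x + ε) ^ 2) :
    r * (-(κ * ((p ^ 2 - ε - γ ^ 2 + γ * δ) * r - (γ * ε - δ * p ^ 2
      + x * (p ^ 2 - ε - γ ^ 2 + γ * δ)) * ((x - γ) / r))) / (κ ^ 2 * r ^ 2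
        + (γ * ε - δ * p ^ 2 + x * (p ^ 2 - ε - γ ^ 2 + γ * δ)) ^ 2))
      = -(κ * ((p ^ 2 - ε) - x * (γ - δ))) / Z := by
  have e1 : κ ^ 2 * r ^ 2 + (γ * ε - δ * p ^ 2 + x * (p ^ 2 - ε - γ ^ 2 + γ * δ)) ^ 2
      = (p ^ 2 - γ ^ 2) * Z := by
    rw [hk, hr, hZ2]
    ring
  have h3 : r * ((x - γ) / r) = x - γ := by field_simp
  have h4 : r * (-(κ * ((p ^ 2 - ε - γ ^ 2 + γ * δ) * r - (γ * ε - δ * p ^ 2
      + x * (p ^ 2 - ε - γ ^ 2 + γ * δ)) * ((x - γ) / r))))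
      = -(κ * ((p ^ 2 - ε) - x * (γ - δ))) * (p ^ 2 - γ ^ 2) := by
    linear_combination (-(κ * (p ^ 2 - ε - γ ^ 2 + γ * δ))) * hr
      + κ * (γ * ε - δ * p ^ 2 + x * (p ^ 2 - ε - γ ^ 2 + γ * δ)) * h3
  rw [e1, ← mul_div_assoc, h4, mul_comm (p ^ 2 - γ ^ 2) Z, mul_div_mul_right _ _ hg]

/-- the last term of the Schlaefli identity -/
private theorem md_f5 {κ γ δ ε p q s x Z : ℝ}
    (hk : κ ^ 2 = p ^ 2 * q ^ 2 - ε ^ 2 - γ ^ 2 * q ^ 2 - δ ^ 2 * p ^ 2 + 2 * γ * δ * ε)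
    (hs : s ^ 2 = p ^ 2 + q ^ 2 - 2 * ε) (hb : p ^ 2 * q ^ 2 - ε ^ 2 ≠ 0)
    (hZ2 : Z = (x ^ 2 - 2 * γ * x + p ^ 2) * (x ^ 2 - 2 * δ * x + q ^ 2)
      - (x ^ 2 - (γ + δ) * x + ε) ^ 2) :
    s * (-(κ * ((ε * δ - γ * q ^ 2 - p ^ 2 * δ + γ * ε) * (x * s) - (p ^ 2 * q ^ 2 - ε ^ 2
      + x * (ε * δ - γ * q ^ 2 - p ^ 2 * δ + γ * ε)) * s)) / (κ ^ 2 * (x * s) ^ 2
        + (p ^ 2 * q ^ 2 - ε ^ 2 + x * (ε * δ - γ * q ^ 2 - p ^ 2 * δ + γ * ε)) ^ 2))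
      = κ * s ^ 2 / Z := by
  have e1 : κ ^ 2 * (x * s) ^ 2 + (p ^ 2 * q ^ 2 - ε ^ 2
      + x * (ε * δ - γ * q ^ 2 - p ^ 2 * δ + γ * ε)) ^ 2 = (p ^ 2 * q ^ 2 - ε ^ 2) * Z := by
    rw [hk, mul_pow, hs, hZ2]
    ring
  have h4 : s * (-(κ * ((ε * δ - γ * q ^ 2 - p ^ 2 * δ + γ * ε) * (x * s)
      - (p ^ 2 * q ^ 2 - ε ^ 2 + x * (ε * δ - γ * q ^ 2 - p ^ 2 * δ + γ * ε)) * s)))
      = κ * s ^ 2 * (p ^ 2 * q ^ 2 - ε ^ 2) := by
    ring
  rw [e1, ← mul_div_assoc, h4, mul_comm (p ^ 2 * q ^ 2 - ε ^ 2) Z, mul_div_mul_right _ _ hb]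

private theorem md_dotp {l : V6} (hl : l ∈ T) {x : ℝ} (hx : 0 < x) :
    dotp (mv l x) (ang (mv l x)) = x * ang l 0
      + r1 l x * (π / 2 - arctan ((gam l * eps l - del l * l 3 ^ 2
        + x * (l 3 ^ 2 - eps l - gam l ^ 2 + gam l * del l)) / (kap l * r1 l x)))
      + r2 l x * (π / 2 - arctan ((del l * eps l - gam l * l 4 ^ 2
        + x * (l 4 ^ 2 - eps l - del l ^ 2 + gam l * del l)) / (kap l * r2 l x)))
      + l 3 * ang l 3 + l 4 * ang l 4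
      + l 5 * (π / 2 - arctan ((l 3 ^ 2 * l 4 ^ 2 - eps l ^ 2
        + x * (eps l * del l - gam l * l 4 ^ 2 - l 3 ^ 2 * del l + gam l * eps l))
        / (kap l * (x * l 5)))) := by
  have hc := mv_ang_const hl hx
  unfold dotp
  rw [hc.1, hc.2.1, hc.2.2, mv_ang1 hl hx, mv_ang2 hl hx, mv_ang5 hl hx, mul_assoc (kap l) x (l 5)]
  rfl

theorem mv_deriv {l : V6} (hl : l ∈ T) {x : ℝ} (hx : 0 < x) :
    HasDerivAt (fun y => dotp (mv l y) (ang (mv l y)))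
      (ang (mv l x) 0 + ang (mv l x) 1 * ((x - gam l) / r1 l x)
        + ang (mv l x) 2 * ((x - del l) / r2 l x)) x := by
  have hs : 0 < l 5 := T_pos hl 5
  have hp : 0 < l 3 := T_pos hl 3
  have hq : 0 < l 4 := T_pos hl 4
  have hκ := kap_pos hl
  have h1 := r1_sq hl x
  have h2 := r2_sq hl x
  have hZ := md_Z_pos hl hx
  have hb0 := md_b0_pos hl
  have hk2 := md_kap_sq hl
  have hs2 := md_s_sq l
  -- derivatives of the three numerators
  have hlin : ∀ a b : ℝ, HasDerivAt (fun y : ℝ => a + y * b) b x := fun a b => by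
    simpa using ((hasDerivAt_id' x).mul_const b).const_add a
  have hx5 : HasDerivAt (fun y : ℝ => y * l 5) (l 5) x := by
    simpa using (hasDerivAt_id' x).mul_const (l 5)
  have hA1 := md_arc (hlin (gam l * eps l - del l * l 3 ^ 2)
    (l 3 ^ 2 - eps l - gam l ^ 2 + gam l * del l)) (md_r1_deriv hl x) hκ h1.2
  have hA2 := md_arc (hlin (del l * eps l - gam l * l 4 ^ 2)
    (l 4 ^ 2 - eps l - del l ^ 2 + gam l * del l)) (md_r2_deriv hl x) hκ h2.2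
  have hA5 := md_arc (hlin (l 3 ^ 2 * l 4 ^ 2 - eps l ^ 2)
    (eps l * del l - gam l * l 4 ^ 2 - l 3 ^ 2 * del l + gam l * eps l)) hx5 hκ
    (mul_pos hx hs)
  have hD := ((((((hasDerivAt_id' x).mul_const (ang l 0)).add
    ((md_r1_deriv hl x).mul hA1)).add ((md_r2_deriv hl x).mul hA2)).add_const
      (l 3 * ang l 3)).add_const (l 4 * ang l 4)).add (hA5.const_mul (l 5))
  have hev : (fun y => dotp (mv l y) (ang (mv l y))) =ᶠ[nhds x] _ :=
    Filter.eventuallyEq_of_mem (Ioi_mem_nhds hx) (fun y hy => md_dotp hl hy)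
  refine HasDerivAt.congr_of_eventuallyEq (HasDerivAt.congr_deriv hD ?_) hev
  have hc := mv_ang_const hl hx
  rw [hc.1, mv_ang1 hl hx, mv_ang2 hl hx]
  have hg := abs_lt.1 (gam_lt hl)
  have hd := abs_lt.1 (del_lt hl)
  have hg2 : 0 < l 3 ^ 2 - gam l ^ 2 := by nlinarith
  have hd2 : 0 < l 4 ^ 2 - del l ^ 2 := by nlinarith
  have hk2' : kap l ^ 2 = l 4 ^ 2 * l 3 ^ 2 - eps l ^ 2 - del l ^ 2 * l 3 ^ 2
      - gam l ^ 2 * l 4 ^ 2 + 2 * del l * gam l * eps l := by rw [hk2]; ring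
  have hZ2 : md_Z l x = (x ^ 2 - 2 * del l * x + l 4 ^ 2) * (x ^ 2 - 2 * gam l * x + l 3 ^ 2)
      - (x ^ 2 - (del l + gam l) * x + eps l) ^ 2 := by unfold md_Z; ring
  have f1 := md_f1 (Z := md_Z l x) hk2 h1.1 h1.2.ne' hg2.ne' rfl
  have f2 := md_f1 hk2' h2.1 h2.2.ne' hd2.ne' hZ2
  have f5 := md_f5 (x := x) (Z := md_Z l x) hk2 hs2 hb0.ne' rfl
  rw [mul_comm (del l) (gam l)] at f2
  rw [f1, f2, f5, hs2]
  ring

theorem mv_lim {l : V6} (hl : l ∈ T) :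
    Filter.Tendsto (fun y => dotp (mv l y) (ang (mv l y))) (nhdsWithin 0 (Set.Ioi 0))
      (nhds (π * (l 3 + l 4))) := by
  have h0 : 0 < l 0 := T_pos hl 0
  have hs : 0 < l 5 := T_pos hl 5
  have hp : 0 < l 3 := T_pos hl 3
  have hq : 0 < l 4 := T_pos hl 4
  have hκ := kap_pos hl
  have hb0 := md_b0_pos hl
  have hW : Real.sqrt (W l) = 2 * l 0 * kap l := by
    unfold kap
    field_simp
  -- the angles at the edges `bc`, `bd`
  have h3 : ang l 3 = π / 2 + arctan ((gam l * eps l - del l * l 3 ^ 2) / (kap l * l 3)) := by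
    have h := ang_arctan hl 3
    have hn : nu l 3 = -(4 * l 0 * (gam l * eps l - del l * l 3 ^ 2)) := by
      show Nu (l 3) (l 0) (l 4) (l 1) (l 5) (l 2) = _
      unfold Nu gam eps del
      field_simp
      ring
    have he : nu l 3 / (2 * l 3 * Real.sqrt (W l))
        = -((gam l * eps l - del l * l 3 ^ 2) / (kap l * l 3)) := by
      rw [hn, hW]
      field_simp
      ring
    rw [h, he, arctan_neg]
    ring
  have h4 : ang l 4 = π / 2 + arctan ((del l * eps l - gam l * l 4 ^ 2) / (kap l * l 4)) := by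
    have h := ang_arctan hl 4
    have hn : nu l 4 = -(4 * l 0 * (del l * eps l - gam l * l 4 ^ 2)) := by
      show Nu (l 4) (l 0) (l 3) (l 2) (l 5) (l 1) = _
      unfold Nu gam eps del
      field_simp
      ring
    have he : nu l 4 / (2 * l 4 * Real.sqrt (W l))
        = -((del l * eps l - gam l * l 4 ^ 2) / (kap l * l 4)) := by
      rw [hn, hW]
      field_simp
      ring
    rw [h, he, arctan_neg]
    ring
  -- the limits
  have hr1 : r1 l 0 = l 3 := by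
    unfold r1
    rw [show (0 : ℝ) ^ 2 - 2 * gam l * 0 + l 3 ^ 2 = l 3 ^ 2 by ring, Real.sqrt_sq hp.le]
  have hr2 : r2 l 0 = l 4 := by
    unfold r2
    rw [show (0 : ℝ) ^ 2 - 2 * del l * 0 + l 4 ^ 2 = l 4 ^ 2 by ring, Real.sqrt_sq hq.le]
  have c1 : ContinuousAt (fun y => r1 l y) 0 := (md_r1_deriv hl 0).continuousAt
  have c2 : ContinuousAt (fun y => r2 l y) 0 := (md_r2_deriv hl 0).continuousAt
  have hlin : ∀ a b : ℝ, ContinuousAt (fun y : ℝ => a + y * b) 0 := fun a b => by fun_prop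
  have g1 : ContinuousAt (fun y => r1 l y * (π / 2 - arctan ((gam l * eps l - del l * l 3 ^ 2
        + y * (l 3 ^ 2 - eps l - gam l ^ 2 + gam l * del l)) / (kap l * r1 l y)))) 0 := by
    refine c1.mul (continuousAt_const.sub (Real.continuous_arctan.continuousAt.comp
      ((hlin _ _).div (continuousAt_const.mul c1) ?_)))
    show kap l * r1 l 0 ≠ 0
    rw [hr1]
    exact (mul_pos hκ hp).ne'
  have g2 : ContinuousAt (fun y => r2 l y * (π / 2 - arctan ((del l * eps l - gam l * l 4 ^ 2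
        + y * (l 4 ^ 2 - eps l - del l ^ 2 + gam l * del l)) / (kap l * r2 l y)))) 0 := by
    refine c2.mul (continuousAt_const.sub (Real.continuous_arctan.continuousAt.comp
      ((hlin _ _).div (continuousAt_const.mul c2) ?_)))
    show kap l * r2 l 0 ≠ 0
    rw [hr2]
    exact (mul_pos hκ hq).ne'
  have t1 := g1.tendsto.mono_left (nhdsWithin_le_nhds (s := Set.Ioi (0 : ℝ)))
  have t2 := g2.tendsto.mono_left (nhdsWithin_le_nhds (s := Set.Ioi (0 : ℝ)))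
  have t0 : Filter.Tendsto (fun y : ℝ => y * ang l 0) (nhdsWithin 0 (Set.Ioi 0)) (nhds 0) := by
    have : ContinuousAt (fun y : ℝ => y * ang l 0) 0 := by fun_prop
    have h := this.tendsto.mono_left (nhdsWithin_le_nhds (s := Set.Ioi (0 : ℝ)))
    simpa using h
  have t5 : Filter.Tendsto (fun y => l 5 * (π / 2 - arctan ((l 3 ^ 2 * l 4 ^ 2 - eps l ^ 2
        + y * (eps l * del l - gam l * l 4 ^ 2 - l 3 ^ 2 * del l + gam l * eps l))
        / (kap l * (y * l 5))))) (nhdsWithin 0 (Set.Ioi 0)) (nhds 0) := by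
    have a1 : Filter.Tendsto (fun y : ℝ => l 3 ^ 2 * l 4 ^ 2 - eps l ^ 2
        + y * (eps l * del l - gam l * l 4 ^ 2 - l 3 ^ 2 * del l + gam l * eps l))
        (nhdsWithin 0 (Set.Ioi 0)) (nhds (l 3 ^ 2 * l 4 ^ 2 - eps l ^ 2)) := by
      have h := (hlin (l 3 ^ 2 * l 4 ^ 2 - eps l ^ 2) (eps l * del l - gam l * l 4 ^ 2
        - l 3 ^ 2 * del l + gam l * eps l)).tendsto.mono_left
          (nhdsWithin_le_nhds (s := Set.Ioi (0 : ℝ)))
      simpa using h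
    have a2 : Filter.Tendsto (fun y : ℝ => (kap l * (y * l 5))⁻¹) (nhdsWithin 0 (Set.Ioi 0))
        Filter.atTop := by
      have h := tendsto_inv_nhdsGT_zero (𝕜 := ℝ)
      have h' := h.const_mul_atTop (inv_pos.2 (mul_pos hκ hs))
      refine h'.congr fun y => ?_
      rw [mul_inv, mul_inv, mul_inv, mul_comm y⁻¹, mul_assoc]
    have a3 := a1.pos_mul_atTop hb0 a2
    have a4 := (Real.tendsto_arctan_atTop.mono_right nhdsWithin_le_nhds).comp a3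
    have a5 := (a4.const_sub (π / 2)).const_mul (l 5)
    rw [sub_self, mul_zero] at a5
    exact a5
  have hall := ((((t0.add t1).add t2).add_const (l 3 * ang l 3)).add_const (l 4 * ang l 4)).add t5
  have hev : (fun y => dotp (mv l y) (ang (mv l y))) =ᶠ[nhdsWithin 0 (Set.Ioi 0)] _ :=
    Filter.eventuallyEq_of_mem self_mem_nhdsWithin (fun y hy => (md_dotp hl hy))
  have hval : π * (l 3 + l 4) = 0 + r1 l 0 * (π / 2 - arctan ((gam l * eps l - del l * l 3 ^ 2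
        + 0 * (l 3 ^ 2 - eps l - gam l ^ 2 + gam l * del l)) / (kap l * r1 l 0)))
      + r2 l 0 * (π / 2 - arctan ((del l * eps l - gam l * l 4 ^ 2
        + 0 * (l 4 ^ 2 - eps l - del l ^ 2 + gam l * del l)) / (kap l * r2 l 0)))
      + l 3 * ang l 3 + l 4 * ang l 4 + 0 := by
    rw [h3, h4, hr1, hr2]
    simp only [zero_mul, add_zero, zero_add]
    ring
  rw [hval]
  exact hall.congr' hev.symm

end Pool.Agent.helper37.NP
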