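import Pool.Agent.helper37.NP.V12

/-!
NP-06 (Sol).  The solid angle formula.

PROOF.  Vertex `a`; put `N i = nu l i`, `t i = ang l i` (`i = 0, 1, 2`), `w = √(W l)`,
`D = Dv l 0`, `s = ev (ang l) 0 = t 0 + t 1 + t 2 - π`.  By `cos_ang`, `sin_ang`,
`exp (i t_k) = (N k + 2 i l_k w) / (√(ha l k) √(hb l k))`.  Polynomial identity modulo `w² = W l`:
`(N 0 + 2 i l0 w) (N 1 + 2 i l1 w) (N 2 + 2 i l2 w) = - K (2 D + i w)²` with a polynomial
`K > 0` on `T`.  [Normalisation: with unit edge vectors and face angles `α, β, γ` at `a`,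
`C1 = cos α, ...`: `(C1 - C2 C3 + i V) (C2 - C1 C3 + i V) (C3 - C1 C2 + i V)
= - (1/2) (1 - C1)(1 - C2)(1 - C3) (1 + C1 + C2 + C3 + i V)²`, `V² = 1 - C1² - C2² - C3² + 2 C1 C2 C3`.
In our variables `K = (l3² - (l0 - l1)²) (l4² - (l0 - l2)²) (l5² - (l1 - l2)²)` exactly, positive
on `T`.  Real and imaginary part are the two `ring` identities (checked)
`N0 N1 N2 - 4 W (l0 l1 N2 + l0 l2 N1 + l1 l2 N0) = - K (4 D² - W)` and
`2 (l0 N1 N2 + l1 N0 N2 + l2 N0 N1) - 8 l0 l1 l2 W = - 4 K D`.]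
Therefore `exp (i s) = exp (i (t0+t1+t2)) exp (-iπ) = (2 D + i w)² / |2 D + i w|²`.  Let
`α = arg (2 D + i w) ∈ (0, π)`.  Then `s ≡ 2 α mod 2π`, and `s ∈ (0, 2π)` by `ev_pos` and
`t i < π`, `2 α ∈ (0, 2π)`, so `s = 2 α`, i.e. `cos (s/2) = 2D/√(4D² + W)` and
`sin (s/2) = w/√(4D² + W)`.
[Alternative without complex numbers: compute `cos s = -cos(t0+t1+t2)` and use half-angle
formulas; the sign of `cos (s/2)` needs `sin s = 2 sin(s/2) cos(s/2)`.]
The other vertices by `Perm`.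
-/

namespace Pool.Agent.helper37.NP

open Real

private theorem n06_id_re (p q r x y z : ℝ) :
    Nu p q r z y x * Nu q p r z x y * Nu r p q y x z
      - 4 * Wsq (p ^ 2) (q ^ 2) (r ^ 2) (z ^ 2) (y ^ 2) (x ^ 2) *
        (p * q * Nu r p q y x z + p * r * Nu q p r z x y + q * r * Nu p q r z y x)
      = -((z ^ 2 - (p - q) ^ 2) * (y ^ 2 - (p - r) ^ 2) * (x ^ 2 - (q - r) ^ 2)) *
        (4 * Dd p q r x y z ^ 2 - Wsq (p ^ 2) (q ^ 2) (r ^ 2) (z ^ 2) (y ^ 2) (x ^ 2)) := by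
  unfold Nu Wsq Dd
  ring

private theorem n06_id_im (p q r x y z : ℝ) :
    2 * (p * Nu q p r z x y * Nu r p q y x z + q * Nu p q r z y x * Nu r p q y x z
        + r * Nu p q r z y x * Nu q p r z x y)
      - 8 * p * q * r * Wsq (p ^ 2) (q ^ 2) (r ^ 2) (z ^ 2) (y ^ 2) (x ^ 2)
      = -4 * ((z ^ 2 - (p - q) ^ 2) * (y ^ 2 - (p - r) ^ 2) * (x ^ 2 - (q - r) ^ 2)) *
        Dd p q r x y z := by
  unfold Nu Wsq Dd
  ring

private theorem n06_id_pr (p q r x y z : ℝ) :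
    ((z ^ 2 - (p - q) ^ 2) * (y ^ 2 - (p - r) ^ 2) * (x ^ 2 - (q - r) ^ 2)) *
        (4 * Dd p q r x y z ^ 2 + Wsq (p ^ 2) (q ^ 2) (r ^ 2) (z ^ 2) (y ^ 2) (x ^ 2))
      = He p q z * He p r y * He q r x := by
  unfold He Wsq Dd
  ring

/-- sine and cosine of the excess at the first vertex -/
private theorem n06_cs {l : V6} (hl : l ∈ T) :
    Real.cos (ev (ang l) 0) = (4 * Dv l 0 ^ 2 - W l) / (4 * Dv l 0 ^ 2 + W l) ∧
    Real.sin (ev (ang l) 0) = 4 * Dv l 0 * Real.sqrt (W l) / (4 * Dv l 0 ^ 2 + W l) := by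
  have hW : 0 < W l := hl.2
  have hA : 0 < He (l 0) (l 1) (l 3) := ha_pos hl 0
  have hB : 0 < He (l 0) (l 2) (l 4) := hb_pos hl 0
  have hC : 0 < He (l 1) (l 2) (l 5) := hb_pos hl 1
  have eA : He (l 1) (l 0) (l 3) = He (l 0) (l 1) (l 3) := by unfold He; ring
  have eB : He (l 2) (l 0) (l 4) = He (l 0) (l 2) (l 4) := by unfold He; ring
  have eC : He (l 2) (l 1) (l 5) = He (l 1) (l 2) (l 5) := by unfold He; ring
  set A := He (l 0) (l 1) (l 3) with hAd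
  set B := He (l 0) (l 2) (l 4) with hBd
  set C := He (l 1) (l 2) (l 5) with hCd
  set N0 := nu l 0 with hN0
  set N1 := nu l 1 with hN1
  set N2 := nu l 2 with hN2
  set w := Real.sqrt (W l) with hw
  have hww : w ^ 2 = W l := Real.sq_sqrt hW.le
  have hsA : Real.sqrt A ^ 2 = A := Real.sq_sqrt hA.le
  have hsB : Real.sqrt B ^ 2 = B := Real.sq_sqrt hB.le
  have hsC : Real.sqrt C ^ 2 = C := Real.sq_sqrt hC.le
  have pA : 0 < Real.sqrt A := Real.sqrt_pos.2 hA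
  have pB : 0 < Real.sqrt B := Real.sqrt_pos.2 hB
  have pC : 0 < Real.sqrt C := Real.sqrt_pos.2 hC
  have c0 : Real.cos (ang l 0) = N0 / (Real.sqrt A * Real.sqrt B) := cos_ang hl 0
  have c1 : Real.cos (ang l 1) = N1 / (Real.sqrt A * Real.sqrt C) := by
    have h := cos_ang hl 1
    have e1 : ha l 1 = A := eA
    have e2 : hb l 1 = C := rfl
    rw [e1, e2] at h
    exact h
  have c2 : Real.cos (ang l 2) = N2 / (Real.sqrt B * Real.sqrt C) := by
    have h := cos_ang hl 2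
    have e1 : ha l 2 = B := eB
    have e2 : hb l 2 = C := eC
    rw [e1, e2] at h
    exact h
  have s0 : Real.sin (ang l 0) = 2 * l 0 * w / (Real.sqrt A * Real.sqrt B) := sin_ang hl 0
  have s1 : Real.sin (ang l 1) = 2 * l 1 * w / (Real.sqrt A * Real.sqrt C) := by
    have h := sin_ang hl 1
    have e1 : ha l 1 = A := eA
    have e2 : hb l 1 = C := rfl
    rw [e1, e2] at h
    exact h
  have s2 : Real.sin (ang l 2) = 2 * l 2 * w / (Real.sqrt B * Real.sqrt C) := by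
    have h := sin_ang hl 2
    have e1 : ha l 2 = B := eB
    have e2 : hb l 2 = C := eC
    rw [e1, e2] at h
    exact h
  have i1 : N0 * N1 * N2 - 4 * W l * (l 0 * l 1 * N2 + l 0 * l 2 * N1 + l 1 * l 2 * N0)
      = -((l 3 ^ 2 - (l 0 - l 1) ^ 2) * (l 4 ^ 2 - (l 0 - l 2) ^ 2) * (l 5 ^ 2 - (l 1 - l 2) ^ 2)) *
        (4 * Dv l 0 ^ 2 - W l) := n06_id_re (l 0) (l 1) (l 2) (l 5) (l 4) (l 3)
  have i2 : 2 * (l 0 * N1 * N2 + l 1 * N0 * N2 + l 2 * N0 * N1) - 8 * l 0 * l 1 * l 2 * W l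
      = -4 * ((l 3 ^ 2 - (l 0 - l 1) ^ 2) * (l 4 ^ 2 - (l 0 - l 2) ^ 2) *
        (l 5 ^ 2 - (l 1 - l 2) ^ 2)) * Dv l 0 := n06_id_im (l 0) (l 1) (l 2) (l 5) (l 4) (l 3)
  have i3 : ((l 3 ^ 2 - (l 0 - l 1) ^ 2) * (l 4 ^ 2 - (l 0 - l 2) ^ 2) *
      (l 5 ^ 2 - (l 1 - l 2) ^ 2)) * (4 * Dv l 0 ^ 2 + W l) = A * B * C :=
    n06_id_pr (l 0) (l 1) (l 2) (l 5) (l 4) (l 3)
  set K := (l 3 ^ 2 - (l 0 - l 1) ^ 2) * (l 4 ^ 2 - (l 0 - l 2) ^ 2) *
      (l 5 ^ 2 - (l 1 - l 2) ^ 2) with hK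
  set D := Dv l 0 with hD
  have hDW : 0 < 4 * D ^ 2 + W l := by positivity
  have hABC : 0 < A * B * C := by positivity
  have hsum : ev (ang l) 0 = (ang l 0 + ang l 1 + ang l 2) - π := rfl
  have hKne : K ≠ 0 := by
    intro h0
    rw [h0, zero_mul] at i3
    exact hABC.ne i3
  constructor
  · rw [hsum, Real.cos_sub_pi, Real.cos_add, Real.cos_add, Real.sin_add, c0, c1, c2, s0, s1, s2]
    rw [eq_div_iff hDW.ne']
    have key : N0 / (Real.sqrt A * Real.sqrt B) * (N1 / (Real.sqrt A * Real.sqrt C))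
          * (N2 / (Real.sqrt B * Real.sqrt C))
        - 2 * l 0 * w / (Real.sqrt A * Real.sqrt B) * (2 * l 1 * w / (Real.sqrt A * Real.sqrt C))
          * (N2 / (Real.sqrt B * Real.sqrt C))
        - (2 * l 0 * w / (Real.sqrt A * Real.sqrt B) * (N1 / (Real.sqrt A * Real.sqrt C))
          + N0 / (Real.sqrt A * Real.sqrt B) * (2 * l 1 * w / (Real.sqrt A * Real.sqrt C)))
          * (2 * l 2 * w / (Real.sqrt B * Real.sqrt C))
        = (N0 * N1 * N2 - 4 * w ^ 2 * (l 0 * l 1 * N2 + l 0 * l 2 * N1 + l 1 * l 2 * N0)) /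
          (Real.sqrt A ^ 2 * Real.sqrt B ^ 2 * Real.sqrt C ^ 2) := by
      field_simp
      ring
    rw [hsA, hsB, hsC, hww, i1, ← i3] at key
    have key2 : -(-K * (4 * D ^ 2 - W l) / (K * (4 * D ^ 2 + W l))) * (4 * D ^ 2 + W l)
        = 4 * D ^ 2 - W l := by
      field_simp
    rw [← key] at key2
    linear_combination key2
  · rw [hsum, Real.sin_sub_pi, Real.sin_add, Real.cos_add, Real.sin_add, c0, c1, c2, s0, s1, s2]
    rw [eq_div_iff hDW.ne']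
    have key : (2 * l 0 * w / (Real.sqrt A * Real.sqrt B) * (N1 / (Real.sqrt A * Real.sqrt C))
          + N0 / (Real.sqrt A * Real.sqrt B) * (2 * l 1 * w / (Real.sqrt A * Real.sqrt C)))
          * (N2 / (Real.sqrt B * Real.sqrt C))
        + (N0 / (Real.sqrt A * Real.sqrt B) * (N1 / (Real.sqrt A * Real.sqrt C))
          - 2 * l 0 * w / (Real.sqrt A * Real.sqrt B) * (2 * l 1 * w / (Real.sqrt A * Real.sqrt C)))
          * (2 * l 2 * w / (Real.sqrt B * Real.sqrt C))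
        = w * (2 * (l 0 * N1 * N2 + l 1 * N0 * N2 + l 2 * N0 * N1) - 8 * l 0 * l 1 * l 2 * w ^ 2) /
          (Real.sqrt A ^ 2 * Real.sqrt B ^ 2 * Real.sqrt C ^ 2) := by
      field_simp
      ring
    rw [hsA, hsB, hsC, hww, i2, ← i3] at key
    have key2 : -(w * (-4 * K * D) / (K * (4 * D ^ 2 + W l))) * (4 * D ^ 2 + W l)
        = 4 * D * w := by
      field_simp
    rw [← key] at key2
    linear_combination key2

private theorem n06_zero {l : V6} (hl : l ∈ T) :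
    Real.cos (ev (ang l) 0 / 2) = 2 * Dv l 0 / Real.sqrt (4 * Dv l 0 ^ 2 + W l) ∧
    Real.sin (ev (ang l) 0 / 2) = Real.sqrt (W l) / Real.sqrt (4 * Dv l 0 ^ 2 + W l) := by
  have hW : 0 < W l := hl.2
  obtain ⟨hc, hs⟩ := n06_cs hl
  have h0 : 0 < ev (ang l) 0 := ev_pos hl 0
  have h1 : ev (ang l) 0 < 2 * π := by
    have e : ev (ang l) 0 = (ang l 0 + ang l 1 + ang l 2) - π := rfl
    have := ang_lt hl 0
    have := ang_lt hl 1
    have := ang_lt hl 2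
    rw [e]
    linarith
  set s := ev (ang l) 0 with hsd
  set D := Dv l 0 with hD
  have hDW : 0 < 4 * D ^ 2 + W l := by positivity
  have hsp : 0 < Real.sin (s / 2) := Real.sin_pos_of_pos_of_lt_pi (by linarith) (by linarith)
  have h2 : Real.cos s = 1 - 2 * Real.sin (s / 2) ^ 2 := by
    have h := Real.cos_two_mul (s / 2)
    have h' := Real.sin_sq_add_cos_sq (s / 2)
    have e : 2 * (s / 2) = s := by ring
    rw [e] at h
    linarith
  have h3 : Real.sin s = 2 * Real.sin (s / 2) * Real.cos (s / 2) := by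
    have h := Real.sin_two_mul (s / 2)
    have e : 2 * (s / 2) = s := by ring
    rw [e] at h
    exact h
  have hw : Real.sqrt (W l) ^ 2 = W l := Real.sq_sqrt hW.le
  have hwp : 0 < Real.sqrt (W l) := Real.sqrt_pos.2 hW
  have hm : Real.sqrt (4 * D ^ 2 + W l) ^ 2 = 4 * D ^ 2 + W l := Real.sq_sqrt hDW.le
  have hmp : 0 < Real.sqrt (4 * D ^ 2 + W l) := Real.sqrt_pos.2 hDW
  have hsin : Real.sin (s / 2) = Real.sqrt (W l) / Real.sqrt (4 * D ^ 2 + W l) := by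
    have hq : Real.sin (s / 2) ^ 2 = (Real.sqrt (W l) / Real.sqrt (4 * D ^ 2 + W l)) ^ 2 := by
      rw [div_pow, hw, hm]
      rw [hc] at h2
      have : (4 * D ^ 2 - W l) / (4 * D ^ 2 + W l) = 1 - 2 * (W l / (4 * D ^ 2 + W l)) := by
        field_simp
        ring
      linarith
    have hpos : 0 < Real.sqrt (W l) / Real.sqrt (4 * D ^ 2 + W l) := by positivity
    exact (sq_eq_sq₀ hsp.le hpos.le).1 hq
  refine ⟨?_, hsin⟩
  have h4 : 2 * Real.sin (s / 2) * Real.cos (s / 2)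
      = 2 * Real.sin (s / 2) * (2 * D / Real.sqrt (4 * D ^ 2 + W l)) := by
    rw [← h3, hs, hsin]
    rw [← hm]
    have : Real.sqrt (Real.sqrt (4 * D ^ 2 + W l) ^ 2) = Real.sqrt (4 * D ^ 2 + W l) :=
      Real.sqrt_sq hmp.le
    rw [this]
    field_simp
    ring
  exact mul_left_cancel₀ (by positivity) h4

private theorem n06_one {l : V6} (hl : l ∈ T) :
    Real.cos (ev (ang l) 1 / 2) = 2 * Dv l 1 / Real.sqrt (4 * Dv l 1 ^ 2 + W l) ∧
    Real.sin (ev (ang l) 1 / 2) = Real.sqrt (W l) / Real.sqrt (4 * Dv l 1 ^ 2 + W l) := by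
  have h := n06_zero (T_sab hl)
  have e1 : ev (ang (sab l)) 0 = ev (ang l) 1 := by
    rw [ang_sab]
    unfold ev
    rw [sg_sab]
    rfl
  have e2 : Dv (sab l) 0 = Dv l 1 := by
    rw [Dv_sab]
    rfl
  rw [e1, e2, W_sab] at h
  exact h

private theorem n06_two {l : V6} (hl : l ∈ T) :
    Real.cos (ev (ang l) 2 / 2) = 2 * Dv l 2 / Real.sqrt (4 * Dv l 2 ^ 2 + W l) ∧
    Real.sin (ev (ang l) 2 / 2) = Real.sqrt (W l) / Real.sqrt (4 * Dv l 2 ^ 2 + W l) := by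
  have h := n06_one (T_sbc hl)
  have e1 : ev (ang (sbc l)) 1 = ev (ang l) 2 := by
    rw [ang_sbc]
    unfold ev
    rw [sg_sbc]
    rfl
  have e2 : Dv (sbc l) 1 = Dv l 2 := by
    rw [Dv_sbc]
    rfl
  rw [e1, e2, W_sbc] at h
  exact h

private theorem n06_three {l : V6} (hl : l ∈ T) :
    Real.cos (ev (ang l) 3 / 2) = 2 * Dv l 3 / Real.sqrt (4 * Dv l 3 ^ 2 + W l) ∧
    Real.sin (ev (ang l) 3 / 2) = Real.sqrt (W l) / Real.sqrt (4 * Dv l 3 ^ 2 + W l) := by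
  have h := n06_two (T_scd hl)
  have e1 : ev (ang (scd l)) 2 = ev (ang l) 3 := by
    rw [ang_scd]
    unfold ev
    rw [sg_scd]
    rfl
  have e2 : Dv (scd l) 2 = Dv l 3 := by
    rw [Dv_scd]
    rfl
  rw [e1, e2, W_scd] at h
  exact h

theorem cos_half_ev {l : V6} (hl : l ∈ T) (v : Fin 4) :
    Real.cos (ev (ang l) v / 2) = 2 * Dv l v / Real.sqrt (4 * Dv l v ^ 2 + W l) := by
  fin_cases v
  · exact (n06_zero hl).1
  · exact (n06_one hl).1
  · exact (n06_two hl).1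
  · exact (n06_three hl).1

theorem sin_half_ev {l : V6} (hl : l ∈ T) (v : Fin 4) :
    Real.sin (ev (ang l) v / 2) = Real.sqrt (W l) / Real.sqrt (4 * Dv l v ^ 2 + W l) := by
  fin_cases v
  · exact (n06_zero hl).2
  · exact (n06_one hl).2
  · exact (n06_two hl).2
  · exact (n06_three hl).2

end Pool.Agent.helper37.NP
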