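import Pool.Agent.helper37.NP.CaseA
import Pool.Agent.helper37.NP.Ana

/-!
NP-33 (Z3).  A two-parameter family in a 3-dimensional space of edge vectors.

PROOF.  Fix `u ∈ U`.  The map `Φ : ℝ × (ℝ × ℝ) → S`, `(τ, x) ↦ τ • l x` (for `x ∈ U`; `l x ∈ S`) has at
`(1, u)` the strict derivative `(τ, x) ↦ τ • l u + l' x`, `l' = fderiv ℝ l u`, which takes values in
`S` (a closed subspace) and is injective: `τ • l u + l' x = 0` gives `l' x = (-τ) • l u`, so `x = 0`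
by `himm`, and then `τ = 0` as `l u ≠ 0`.  Both sides have dimension 3, so the derivative is
surjective onto `S`, and by `HasStrictFDerivAt.map_nhds_eq_of_surj` the image of every
neighbourhood of `(1, u)` is a neighbourhood of `l u` in `S`.  Take the neighbourhood
`{(τ, x) | τ > 0, x ∈ U}`; let `B` be a ball of `S` around `l u` inside its image.  Every point
of `B` is `τ • l x` with `τ > 0`, so it is in `T` (`smul_mem_T`) and has the angles of `l x`
(`ang_smul`), so `dotp s (ang ·) = c s` for `s ∈ S`.  Apply `caseA` to `B`.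
(`l` is `C¹` near `u`, so it has a strict derivative: `ContDiffAt.hasStrictFDerivAt`.)
-/

namespace Pool.Agent.helper37.NP

open Real

theorem no_family3 (S : Submodule ℝ V6) (hS : Module.finrank ℝ S = 3) (c : V6 →ₗ[ℝ] ℝ)
    (U : Set (ℝ × ℝ)) (hU : IsOpen U) (hne : U.Nonempty) (l : ℝ × ℝ → V6) (hl : ContDiffOn ℝ 1 l U)
    (hT : ∀ u ∈ U, l u ∈ T) (hlS : ∀ u ∈ U, l u ∈ S)
    (hc : ∀ u ∈ U, ∀ s ∈ S, dotp s (ang (l u)) = c s)
    (himm : ∀ u ∈ U, ∀ (x : ℝ × ℝ) (k : ℝ), fderiv ℝ l u x = k • l u → x = 0) : False := by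
  obtain ⟨u, hu⟩ := hne
  -- a continuous projection onto `S`
  obtain ⟨P0, hP0⟩ := S.subtype.exists_leftInverse_of_injective
    (LinearMap.ker_eq_bot.2 S.injective_subtype)
  have hPS : ∀ s : V6, ∀ hs : s ∈ S, P0 s = ⟨s, hs⟩ := by
    intro s hs
    exact LinearMap.congr_fun hP0 ⟨s, hs⟩
  let P : V6 →L[ℝ] S := LinearMap.toContinuousLinearMap P0
  have hPS' : ∀ s : V6, ∀ hs : s ∈ S, P s = ⟨s, hs⟩ := hPS
  have hUn : U ∈ nhds u := hU.mem_nhds hu
  have hst : HasStrictFDerivAt l (fderiv ℝ l u) u :=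
    (hl.contDiffAt hUn).hasStrictFDerivAt one_ne_zero
  set l' := fderiv ℝ l u with hl'
  -- the derivative takes values in `S`
  have hlS' : ∀ x, l' x ∈ S := by
    intro x
    have h1 : HasFDerivAt (fun y => l y - S.subtypeL (P (l y)))
        (l' - S.subtypeL.comp (P.comp l')) u :=
      hst.hasFDerivAt.sub ((S.subtypeL.comp P).hasFDerivAt.comp u hst.hasFDerivAt)
    have h2 : (fun y => l y - S.subtypeL (P (l y))) =ᶠ[nhds u] fun _ => (0 : V6) := by
      filter_upwards [hUn] with y hy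
      rw [hPS' (l y) (hlS y hy)]
      simp
    have h3 : HasFDerivAt (fun y => l y - S.subtypeL (P (l y))) (0 : ℝ × ℝ →L[ℝ] V6) u :=
      (hasFDerivAt_const (0 : V6) u).congr_of_eventuallyEq h2
    have h4 := h1.unique h3
    have h5 := DFunLike.congr_fun h4 x
    simp only [sub_apply, ContinuousLinearMap.comp_apply,
      zero_apply] at h5
    rw [sub_eq_zero.1 h5]
    exact (P (l' x)).2
  -- the map `Ψ`
  let Ψ : ℝ × (ℝ × ℝ) → S := fun p => P (p.1 • l p.2)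
  let D : ℝ × (ℝ × ℝ) →L[ℝ] V6 :=
    (1 : ℝ) • (l'.comp (ContinuousLinearMap.snd ℝ ℝ (ℝ × ℝ))) +
      (ContinuousLinearMap.fst ℝ ℝ (ℝ × ℝ)).smulRight (l u)
  have hD : ∀ p : ℝ × (ℝ × ℝ), D p = l' p.2 + p.1 • l u := by
    intro p
    simp [D]
  have hΨ : HasStrictFDerivAt Ψ (P.comp D) (1, u) := by
    have h1 : HasStrictFDerivAt (fun p : ℝ × (ℝ × ℝ) => p.1)
        (ContinuousLinearMap.fst ℝ ℝ (ℝ × ℝ)) (1, u) := hasStrictFDerivAt_fst
    have h2 : HasStrictFDerivAt (fun p : ℝ × (ℝ × ℝ) => l p.2)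
        (l'.comp (ContinuousLinearMap.snd ℝ ℝ (ℝ × ℝ))) (1, u) :=
      HasStrictFDerivAt.comp (g := l) (f := Prod.snd) (1, u) hst hasStrictFDerivAt_snd
    exact P.hasStrictFDerivAt.comp (1, u) (h1.smul h2)
  have hlu : l u ≠ 0 := by
    intro h
    have h1 := T_pos (hT u hu) 0
    rw [h] at h1
    simp at h1
  have hinj : Function.Injective (P.comp D : ℝ × (ℝ × ℝ) →ₗ[ℝ] S) := by
    rw [← LinearMap.ker_eq_bot, LinearMap.ker_eq_bot']
    intro p hp
    have h1 : P (D p) = 0 := hp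
    have h2 : D p ∈ S := by
      rw [hD]
      exact S.add_mem (hlS' _) (S.smul_mem _ (hlS u hu))
    rw [hPS' _ h2] at h1
    have h3 : D p = 0 := congrArg Subtype.val h1
    rw [hD] at h3
    have h4 : p.2 = 0 := by
      apply himm u hu p.2 (-p.1)
      rw [neg_smul]
      exact eq_neg_of_add_eq_zero_left h3
    rw [h4, map_zero, zero_add] at h3
    have h5 : p.1 = 0 := (smul_eq_zero.1 h3).resolve_right hlu
    exact Prod.ext h5 h4
  have hfr : Module.finrank ℝ (ℝ × (ℝ × ℝ)) = Module.finrank ℝ S := by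
    rw [hS]
    simp
  have hsurj : Function.Surjective (P.comp D : ℝ × (ℝ × ℝ) →ₗ[ℝ] S) :=
    (LinearMap.injective_iff_surjective_of_finrank_eq_finrank hfr).1 hinj
  have hrange : (P.comp D).range = ⊤ := LinearMap.range_eq_top.2 hsurj
  have hmap := hΨ.map_nhds_eq_of_surj hrange
  have hnb : {p : ℝ × (ℝ × ℝ) | 0 < p.1 ∧ p.2 ∈ U} ∈ nhds ((1 : ℝ), u) := by
    have h1 : IsOpen {p : ℝ × (ℝ × ℝ) | 0 < p.1 ∧ p.2 ∈ U} :=
      (isOpen_lt continuous_const continuous_fst).inter (hU.preimage continuous_snd)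
    exact h1.mem_nhds ⟨one_pos, hu⟩
  have himg : Ψ '' {p : ℝ × (ℝ × ℝ) | 0 < p.1 ∧ p.2 ∈ U} ∈ nhds (Ψ (1, u)) := by
    rw [← hmap]
    exact Filter.image_mem_map hnb
  have hΨu : Ψ (1, u) = ⟨l u, hlS u hu⟩ := by
    show P ((1 : ℝ) • l u) = _
    rw [one_smul]
    exact hPS' _ _
  rw [hΨu] at himg
  obtain ⟨ε, hε, hball⟩ := Metric.mem_nhds_iff.1 himg
  have hB : ∀ y ∈ S, dist y (l u) < ε → ∃ (τ : ℝ) (x : ℝ × ℝ), 0 < τ ∧ x ∈ U ∧ y = τ • l x := by
    intro y hy hd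
    have h1 : (⟨y, hy⟩ : S) ∈ Metric.ball (⟨l u, hlS u hu⟩ : S) ε := by
      rw [Metric.mem_ball, Subtype.dist_eq]
      exact hd
    obtain ⟨p, ⟨hp1, hp2⟩, hp3⟩ := hball h1
    refine ⟨p.1, p.2, hp1, hp2, ?_⟩
    have h2 : Ψ p = ⟨p.1 • l p.2, S.smul_mem _ (hlS _ hp2)⟩ := hPS' _ _
    rw [h2] at hp3
    exact (congrArg Subtype.val hp3).symm
  refine caseA S hS c {y | y ∈ S ∧ dist y (l u) < ε} ?_ (fun y hy => hy.1)
    ⟨l u, hlS u hu, by rwa [dist_self]⟩ ?_ ?_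
  · rintro y ⟨hy, hd⟩
    obtain ⟨τ, x, hτ, hx, rfl⟩ := hB y hy hd
    exact smul_mem_T (hT x hx) hτ
  · rintro y ⟨hy, hd⟩
    refine ⟨ε - dist y (l u), sub_pos.2 hd, fun z hz hzy => ⟨hz, ?_⟩⟩
    have := dist_triangle z y (l u)
    linarith
  · rintro y ⟨hy, hd⟩ s hs
    obtain ⟨τ, x, hτ, hx, rfl⟩ := hB y hy hd
    rw [ang_smul hτ]
    exact hc x hx s hs

end Pool.Agent.helper37.NP
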