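import Pool.Agent.helper37.NP.ZDa
import Pool.Agent.helper37.NP.ZLe
import Pool.Agent.helper37.NP.Ana

/-!
NP-31 (ZBa).  Baire: the rational data are constant on an open set.

PROOF.  For `k : ℕ`, `s : Fin k → Fin 6 → ℤ` with `LinearIndependent ℝ (iv ∘ s)` and `r : Fin k → ℚ` let
`Z = {u ∈ U | l u ∈ span (iv ∘ s), ∀ i, dotp (iv (s i)) (ang (l u)) = π r i}`.  The span is closed
(finite dimension), `l` and `ang ∘ l` are continuous on `U` (`ang_continuousOn`), so `Z` is closed in
`U`.  By `hD` these sets cover `U`; the index set is countable (a countable union of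
countable types).  `U` is a nonempty open subset of `ℝ × ℝ`, so a Baire space
(e.g. `IsOpen.baireSpace`, `nonempty_interior_of_iUnion_of_closed` in the subtype `U`), and one `Z` has
nonempty interior.
-/

namespace Pool.Agent.helper37.NP

open Real

theorem baire_data (U : Set (ℝ × ℝ)) (hU : IsOpen U) (hne : U.Nonempty) (l : ℝ × ℝ → V6)
    (hc : ContinuousOn l U) (hT : ∀ u ∈ U, l u ∈ T)
    (hD : ∀ u ∈ U, ∃ (k : ℕ) (s : Fin k → Fin 6 → ℤ) (r : Fin k → ℚ),
      LinearIndependent ℝ (fun i => iv (s i)) ∧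
      l u ∈ Submodule.span ℝ (Set.range fun i => iv (s i)) ∧
      ∀ i, dotp (iv (s i)) (ang (l u)) = π * (r i : ℝ)) :
    ∃ (k : ℕ) (s : Fin k → V6) (c : Fin k → ℝ) (U' : Set (ℝ × ℝ)), IsOpen U' ∧ U'.Nonempty ∧
      U' ⊆ U ∧ LinearIndependent ℝ s ∧
      ∀ u ∈ U', l u ∈ Submodule.span ℝ (Set.range s) ∧ ∀ i, dotp (s i) (ang (l u)) = c i := by
  classical
  have : BaireSpace U := hU.baireSpace
  have : Nonempty U := hne.to_subtype
  have hlc : Continuous fun u : U => l u.1 := continuousOn_iff_continuous_domRestrict.1 hc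
  have hang : ∀ e : Fin 6, Continuous fun u : U => ang (l u.1) e := fun e =>
    (ang_continuousOn e).comp_continuous hlc fun u => hT u.1 u.2
  have hdot : ∀ v : V6, Continuous fun u : U => dotp v (ang (l u.1)) := by
    intro v
    unfold dotp
    have h0 := hang 0
    have h1 := hang 1
    have h2 := hang 2
    have h3 := hang 3
    have h4 := hang 4
    have h5 := hang 5
    fun_prop
  let ι : Type := Σ k : ℕ, (Fin k → Fin 6 → ℤ) × (Fin k → ℚ)
  have : Countable ι := inferInstanceAs (Countable (Σ k : ℕ, (Fin k → Fin 6 → ℤ) × (Fin k → ℚ)))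
  let Z : ι → Set U := fun x => {u | LinearIndependent ℝ (fun i => iv (x.2.1 i)) ∧
    l u.1 ∈ Submodule.span ℝ (Set.range fun i => iv (x.2.1 i)) ∧
    ∀ i, dotp (iv (x.2.1 i)) (ang (l u.1)) = π * (x.2.2 i : ℝ)}
  have hZ : ∀ x, IsClosed (Z x) := by
    intro x
    have h1 : IsClosed {_u : U | LinearIndependent ℝ (fun i => iv (x.2.1 i))} := isClosed_const
    have h2 : IsClosed {u : U | l u.1 ∈ Submodule.span ℝ (Set.range fun i => iv (x.2.1 i))} :=
      (Submodule.closed_of_finiteDimensional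
        (Submodule.span ℝ (Set.range fun i => iv (x.2.1 i)))).preimage hlc
    have h3 : IsClosed {u : U | ∀ i, dotp (iv (x.2.1 i)) (ang (l u.1)) = π * (x.2.2 i : ℝ)} := by
      have e : {u : U | ∀ i, dotp (iv (x.2.1 i)) (ang (l u.1)) = π * (x.2.2 i : ℝ)} =
          ⋂ i, {u : U | dotp (iv (x.2.1 i)) (ang (l u.1)) = π * (x.2.2 i : ℝ)} := by
        ext u
        simp only [Set.mem_ofPred_eq, Set.mem_iInter]
      rw [e]
      exact isClosed_iInter fun i => isClosed_eq (hdot _) continuous_const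
    exact h1.inter (h2.inter h3)
  have hcov : ⋃ x, Z x = Set.univ := by
    refine Set.eq_univ_of_forall fun u => ?_
    obtain ⟨k, s, r, h1, h2, h3⟩ := hD u.1 u.2
    exact Set.mem_iUnion.2 ⟨⟨k, s, r⟩, h1, h2, h3⟩
  obtain ⟨⟨k, s, r⟩, ⟨u0, hu0⟩⟩ := nonempty_interior_of_iUnion_of_closed hZ hcov
  refine ⟨k, fun i => iv (s i), fun i => π * (r i : ℝ), Subtype.val '' interior (Z ⟨k, s, r⟩),
    hU.isOpenMap_subtype_val _ isOpen_interior, ⟨_, u0, hu0, rfl⟩, ?_, ?_, ?_⟩
  · rintro _ ⟨u, -, rfl⟩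
    exact u.2
  · exact (interior_subset hu0).1
  · rintro _ ⟨u, hu, rfl⟩
    exact (interior_subset hu).2

end Pool.Agent.helper37.NP
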