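import Pool.Agent.helper37.NP.ZNs
import Pool.Agent.helper37.NP.ZBa

/-!
NP-35 (ZFi).  Assembly: no two-parameter family has Dehn invariant zero.

PROOF.  Suppose `dehn = 0` on `U`.  `l u = lenv (a u) (b u) (c u) (d u) ∈ T` (`lenv_mem`), `C¹` on `U`
(distances of different points), `ang (l u) = angv ..` (`ang_lenv`).  `dehn_data`, `baire_data` give
`k, s, c, U'`; apply `no_data`.
-/

namespace Pool.Agent.helper37.NP

open Real Pool.Agent.Helper93.Tet

theorem main (U : Set (ℝ × ℝ)) (hU : IsOpen U) (hne : U.Nonempty) (a b c d : ℝ × ℝ → E)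
    (ha : ContDiffOn ℝ 1 a U) (hb : ContDiffOn ℝ 1 b U) (hc : ContDiffOn ℝ 1 c U)
    (hd : ContDiffOn ℝ 1 d U)
    (hind : ∀ u ∈ U, AffineIndependent ℝ ![a u, b u, c u, d u])
    (himm : ∀ u ∈ U, ∀ (x : ℝ × ℝ) (k : ℝ),
      fderiv ℝ (fun y => lenv (a y) (b y) (c y) (d y)) u x = k • lenv (a u) (b u) (c u) (d u) →
        x = 0) :
    ∃ u ∈ U, dehn (a u) (b u) (c u) (d u) ≠ 0 := by
  by_contra hcon
  push Not at hcon
  let l : ℝ × ℝ → V6 := fun y => lenv (a y) (b y) (c y) (d y)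
  have hlT : ∀ u ∈ U, l u ∈ T := fun u hu => lenv_mem (hind u hu)
  have hdis : ∀ (i j : Fin 4), i ≠ j → ∀ u ∈ U,
      ![a u, b u, c u, d u] i ≠ ![a u, b u, c u, d u] j :=
    fun i j hij u hu h => hij ((hind u hu).injective h)
  have hlC : ContDiffOn ℝ 1 l U := by
    rw [contDiffOn_pi]
    intro e
    fin_cases e
    · exact ha.dist ℝ hb (hdis 0 1 (by decide))
    · exact ha.dist ℝ hc (hdis 0 2 (by decide))
    · exact ha.dist ℝ hd (hdis 0 3 (by decide))
    · exact hb.dist ℝ hc (hdis 1 2 (by decide))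
    · exact hb.dist ℝ hd (hdis 1 3 (by decide))
    · exact hc.dist ℝ hd (hdis 2 3 (by decide))
  obtain ⟨k, s, cc, U', hU', hne', hU'U, hs, hdat⟩ := baire_data U hU hne l hlC.continuousOn hlT
    (fun u hu => by
      obtain ⟨k, s, r, h1, h2, h3⟩ := dehn_data (hcon u hu)
      refine ⟨k, s, r, h1, h2, fun i => ?_⟩
      have h4 : ang (l u) = angv (a u) (b u) (c u) (d u) := ang_lenv (hind u hu)
      rw [h4]
      exact h3 i)
  exact no_data s hs cc U' hU' hne' l (hlC.mono hU'U) (fun u hu => hlT u (hU'U hu)) hdat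
    (fun u hu => himm u (hU'U hu))

end Pool.Agent.helper37.NP
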